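import Pool.Agent.Helper37.Prim.AffineMain

/-!
# Three generalisations of primitivity (MP_13dc8a_al): alternating and symmetric groups
-/

namespace Pool.Agent.Helper37.Prim

open MulAction
open scoped Pointwise

/-- Overgroups of primitive groups are primitive (on `t`-subsets). -/
theorem tsetprimitive_mono {X : Type*} [DecidableEq X] {H G : Subgroup (Equiv.Perm X)}
    (hHG : H ≤ G) {t : ℕ} (h : IsPreprimitive H (Set.powersetCard X t)) :
    IsPreprimitive G (Set.powersetCard X t) := by
  let f : Set.powersetCard X t →ₑ[Subgroup.inclusion hHG] Set.powersetCard X t :=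
    { toFun := id
      map_smul' := fun _ _ => rfl }
  have hf : Function.Surjective f := Function.surjective_id
  exact IsPreprimitive.of_surjective hf

theorem pretransitive_mono {X : Type*} {H G : Subgroup (Equiv.Perm X)}
    (hHG : H ≤ G) {t : ℕ} (h : IsMultiplyPretransitive H X t) : IsMultiplyPretransitive G X t := by
  rw [isMultiplyPretransitive_iff] at h ⊢
  intro x y
  obtain ⟨g, hg⟩ := h x y
  exact ⟨⟨g, hHG g.2⟩, hg⟩

section

variable {X : Type*} [Finite X] [DecidableEq X]

/-- If `n = 2 t` then the complementation is an invariant relation. -/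
theorem not_tsetprimitive_half {G : Subgroup (Equiv.Perm X)} {t : ℕ} (ht : 2 ≤ t)
    (hn : Nat.card X = 2 * t) : ¬ IsPreprimitive G (Set.powersetCard X t) := by
  classical
  have := Fintype.ofFinite X
  intro h
  have hcard : (Finset.univ : Finset X).card = 2 * t := by
    rw [Finset.card_univ, ← Nat.card_eq_fintype_card, hn]
  obtain ⟨s, -, hs⟩ := Finset.exists_subset_card_eq (s := (Finset.univ : Finset X)) (n := t)
    (by omega)
  have hsc : sᶜ.card = t := by
    rw [Finset.card_compl, ← Finset.card_univ]; omega
  rcases rel_of_tsetprimitive h (fun u v => u = v ∨ u = vᶜ)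
    ⟨fun _ => Or.inl rfl, by
      rintro u v (rfl | rfl)
      · exact Or.inl rfl
      · exact Or.inr (compl_compl v).symm, by
      rintro u v w (rfl | rfl) (rfl | rfl)
      · exact Or.inl rfl
      · exact Or.inr rfl
      · exact Or.inr rfl
      · exact Or.inl (compl_compl w)⟩ (by
      rintro g u v _ _ (rfl | rfl)
      · exact Or.inl rfl
      · right
        ext x
        rw [Finset.mem_compl, ← Finset.inv_smul_mem_iff, ← Finset.inv_smul_mem_iff,
          Finset.mem_compl]) with h1 | h1
  · have h2 := h1 s sᶜ hs hsc (Or.inr (compl_compl s).symm)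
    obtain ⟨x, hx⟩ : s.Nonempty := by rw [← Finset.card_pos]; omega
    have h3 := hx
    rw [h2, Finset.mem_compl] at h3
    exact h3 hx
  · obtain ⟨x, hx⟩ : s.Nonempty := by rw [← Finset.card_pos]; omega
    obtain ⟨y, hy⟩ : sᶜ.Nonempty := by rw [← Finset.card_pos]; omega
    rw [Finset.mem_compl] at hy
    have hc : (insert y (s.erase x)).card = t := by
      rw [Finset.card_insert_of_notMem (fun h2 => hy (Finset.mem_of_mem_erase h2)),
        Finset.card_erase_of_mem hx]
      omega
    rcases h1 s (insert y (s.erase x)) hs hc with h2 | h2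
    · apply hy
      rw [h2]
      exact Finset.mem_insert_self _ _
    · -- `s` has a second point `z`, which lies in both sets
      obtain ⟨z, hz⟩ : (s.erase x).Nonempty := by
        rw [← Finset.card_pos, Finset.card_erase_of_mem hx]; omega
      have h3 : z ∈ s := Finset.mem_of_mem_erase hz
      rw [h2, Finset.mem_compl] at h3
      exact h3 (Finset.mem_insert_of_mem hz)

/-- The answer for groups containing the alternating group, `t ≥ 3`. -/
theorem altAnswer [Fintype X] {t : ℕ} (ht : 3 ≤ t) (htn : t ≤ Nat.card X)
    (G : Subgroup (Equiv.Perm X)) (hA : alternatingGroup X ≤ G)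
    (hG : IsMultiplyPretransitive G X t) :
    (ExcA G X t ↔ Nat.card X = 2 * t) ∧ ¬ ExcB G X t ∧ ¬ ExcC G X t ∧
      (ExcD G X t ↔ Nat.card X = 2 * t) := by
  have hpr : IsMultiplyPreprimitive G X t := by
    by_cases h1 : Nat.card X ≤ t + 1
    · exact tprimitive_of_card_le (by omega) h1 hG
    · by_cases h2 : Nat.card X = t + 2
      · refine tprimitive_of_prime (by omega) htn ?_ hG
        have : Nat.card X - (t - 1) = 3 := by omega
        rw [this]
        norm_num
      · have h3 : IsMultiplyPretransitive (alternatingGroup X) X (Nat.card X - 2) :=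
          alternatingGroup.isMultiplyPretransitive X
        have h4 : IsMultiplyPretransitive (alternatingGroup X) X (t + 1) :=
          isMultiplyPretransitive_of_le (n := Nat.card X - 2) (by omega) (by omega)
        have h5 : IsMultiplyPretransitive G X t.succ := pretransitive_mono hA h4
        apply isMultiplyPreprimitive_of_isMultiplyPretransitive_succ
        rw [ENat.card_eq_coe_natCard]
        exact_mod_cast (by omega : t.succ ≤ Nat.card X)
  have hset : IsPreprimitive G (Set.powersetCard X t) ↔ Nat.card X ≠ 2 * t := by
    constructor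
    · intro h h1
      exact not_tsetprimitive_half (by omega) h1 h
    · intro h
      by_cases h1 : Nat.card X = t
      · exact tsetprimitive_of_card_le (by omega) htn (by omega) hG
      · exact tsetprimitive_mono hA
          (Set.powersetCard.isPreprimitive_alternatingGroup ht (by omega) h)
  have hst := SteinerPrimitive.of_tprimitive (by omega) htn hpr
  refine ⟨⟨fun h => ?_, fun h => ⟨hpr, fun h' => hset.1 h' h⟩⟩, fun h => h.2 hpr,
    fun h => h.2 hpr, ⟨fun h => ?_, fun h => ⟨hst, fun h' => hset.1 h' h⟩⟩⟩
  · by_contra hne
    exact h.2 (hset.2 hne)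
  · by_contra hne
    exact h.2 (hset.2 hne)

end

end Pool.Agent.Helper37.Prim
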