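import Mathlib

/-!
# The Mathieu group of degree 11 acting on 12 points (MP_13dc8a_al)
-/

namespace Pool.Agent.Helper37.Prim

open Equiv

/-- The permutation `(0 5)(1 8)(4 6)(7 9)` of `{0, ..., 11}`. -/
def m11a : Perm (Fin 12) := swap 0 5 * swap 1 8 * swap 4 6 * swap 7 9

/-- The permutation `(0 5 6 3)(1 7)(2 8)(4 10 11 9)` of `{0, ..., 11}`; a cycle `(a b c d)` is
`swap a b * swap b c * swap c d`. -/
def m11b : Perm (Fin 12) :=
  (swap 0 5 * swap 5 6 * swap 6 3) * swap 1 7 * swap 2 8 * (swap 4 10 * swap 10 11 * swap 11 9)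

/-- The group generated by `(0 5)(1 8)(4 6)(7 9)` and `(0 5 6 3)(1 7)(2 8)(4 10 11 9)`: the
Mathieu group `M₁₁` in its `3`-transitive action on `12` points. -/
def M11 : Subgroup (Perm (Fin 12)) := Subgroup.closure {m11a, m11b}

end Pool.Agent.Helper37.Prim
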