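import Pool.Agent.Helper37.Prim.AffineMain
import Pool.Agent.Helper37.Prim.M11Defs

/-!
# Three generalisations of primitivity (MP_13dc8a_al): the Mathieu group of degree 11 acting on
12 points
-/

namespace Pool.Agent.Helper37.Prim

open MulAction
open scoped Pointwise

/-- table version -/
def pa : Equiv.Perm (Fin 12) where
  toFun := ![5, 8, 2, 3, 6, 0, 4, 9, 1, 7, 10, 11]
  invFun := ![5, 8, 2, 3, 6, 0, 4, 9, 1, 7, 10, 11]
  left_inv := by decide
  right_inv := by decide

/-- table version -/
def pb : Equiv.Perm (Fin 12) where
  toFun := ![5, 7, 8, 0, 10, 6, 3, 1, 2, 4, 11, 9]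
  invFun := ![3, 7, 8, 6, 9, 0, 5, 1, 2, 11, 4, 10]
  left_inv := by decide
  right_inv := by decide

theorem m11a_eq : m11a = pa := by
  have h : ∀ x : Fin 12, m11a x = pa x := by decide
  exact Equiv.ext h

theorem m11b_eq : m11b = pb := by
  have h : ∀ x : Fin 12, m11b x = pb x := by decide
  exact Equiv.ext h

/-- words in the generators -/
def wd : List Bool → Equiv.Perm (Fin 12)
  | [] => 1
  | true :: l => pa * wd l
  | false :: l => pb * wd l

theorem wd_mem (l : List Bool) : wd l ∈ M11 := by
  induction l with
  | nil => exact M11.one_mem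
  | cons c l ih =>
    cases c with
    | true => exact M11.mul_mem (Subgroup.subset_closure (Or.inl m11a_eq.symm)) ih
    | false => exact M11.mul_mem (Subgroup.subset_closure (Or.inr m11b_eq.symm)) ih

/-- words moving `0` to `x` -/
def wU : Fin 12 → List Bool :=
  ![[],
    [false, true, false, false, false, true, false, true],
    [false, true, false, true, false, false, false, true, false, true],
    [false, false, true],
    [true, false, true],
    [true],
    [false, true],
    [true, false, false, false, true, false, true],
    [true, false, true, false, false, false, true, false, true],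
    [false, false, false, true, false, true],
    [false, true, false, true],
    [false, false, true, false, true]]

/-- words fixing `0` and moving `1` to `x` -/
def wV : Fin 12 → List Bool :=
  ![[],
    [],
    [false, false, false, true],
    [true, false, true, false, true, false],
    [false, true, false, false, false],
    [true, false, true, false, true, false, true, false],
    [true, false, true, false],
    [false, true, false, false, true],
    [true, false, false, true, false, false, true],
    [true, false],
    [true, false, false, true, false, false, false],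
    [true, false, true, false, false, true, false, false, false]]

/-- words fixing `0`, `1` and moving `2` to `x` -/
def wW : Fin 12 → List Bool :=
  ![[],
    [],
    [],
    [true, false, true, false, false, false, true, false, false, true, false, true, false, true, false, false],
    [false, false, false, true, false, true, false, true, false, false, true, false, true, false, true, false, true],
    [false, false, false, true, false, true, false, false, false, true, false],
    [false, true, false, false, false, true, false, true, false, true, false, true, false, true, false],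
    [false, false, true, false, false, true, false, false, true, false, true, false, false, false, true],
    [false, true, false, false, false, true, false, true, false, true, false, true, false, false, true, false, false, false, true, false],
    [true, false, true, false, true, false, false, true, false, false, true],
    [false, false, true, false, false, false, true, false, true, false, false],
    [false, true, false, true, false, true, false, false, true, false, true, false, true, false, true, false, false]]

theorem wU_spec : ∀ x : Fin 12, wd (wU x) 0 = x := by decide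

theorem wV_spec : ∀ x : Fin 12, x ≠ 0 → wd (wV x) 0 = 0 ∧ wd (wV x) 1 = x := by decide

theorem wW_spec : ∀ x : Fin 12, x ≠ 0 → x ≠ 1 →
    wd (wW x) 0 = 0 ∧ wd (wW x) 1 = 1 ∧ wd (wW x) 2 = x := by decide

/-- an element of order `3` with three fixed points -/
def wT : List Bool := [true, false, true, false, false, true, false, false, false, true, false, false, true, false, false, true]

theorem wT_spec : ∀ x : Fin 12, wd wT x = (![0, 1, 2, 6, 7, 8, 10, 9, 11, 4, 3, 5] : Fin 12 → Fin 12) x := by decide

/-- The table of the parallelism. -/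
def parTable : ℕ := 119948561544088325502261727997632955571171313413375624583789413428014713187214590435908144930531494812173439053676343971241907287030112954616486327034986918267140939266340227520819729403652930738035586022480052409301863254807427566069784219500186082561124087556901512535553722183595625325376844450426966868817006729078579352717825203722035964494310814845996237180432993829653578811862439184240372635465346257696966509805917755079550865856127507327343973678831691571901206753066725533936362265025044397178290438283772766129206510000922416664443253190817822872469061436278290145229220204084747373937774739739505976187198457139607487333548623441085411540819440353154284557358309792515675286522158530921773402650661498911184069698696747592144232520071241458903831184730645125644513954779853635098973850115595977044077712369629499606109800494454841219163192210808738946819023991533916001752851406797825908602890791017839800845713164780073307942810652607720132733344541894026983956935488529623125832135465598584616050881767796491779505889920650804907380381166656999190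722967764161136422648088155988777934114022813616190836277478995570345837707667249909024787180331652698910710859420646265386888386715924148511711559568676526669764647559871828954759612018666245486510810106695203757931755981323569096648611811467487022158325925152130737239268240845326074925453273299604989694261348966715179270741459090295470613984718517401452130163850739710445407781053193139465008183950516046890400925689686043294454320322480893838800273674374366271218234927487092126270930367085511740680338656768163343517437423901514592020427792448903632623387625764376416178513289001355039536073124670890577012073504776085869518239966991619257424268271952574837779406912508899176919478303047828310979369025297422129070929030452592211302476982190786435887752527241024288801353874097194353568505857906687531458197377940644341207146986065968701183052773184191583224177956327504601081667195476457882497604000580041811911666556358991083728742383374325017495989453602366286684224257969466987665855497191411225132114728294574848610594975250990113792885691741145310202384829819195337406105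13093348867079671122043449660724799587279226427355016749104814787055025738231701180361042409982083882036563498527049843063997806468760867939845562669147124280841078733750029117129657552551697156106750916434724561590629544708908334515933463314658836802339363979367743187115819626187971881047326983823063589989197139708676134551912186281248891847180221011440020645854206186901265177161143310467689150011863364645803723011830285529307336775516395891957188895928965529445788850703445082269191977012605703261982669500172344105998719485998197966262960177583882717183286992922638267316711767385261537827358699658219220477872378576495438069039373182098704459143122654093270081205135544718131758063377352264814712489825300570929748338897940629644575346991892730948864006421500136243545043947416779389588180666438987066665822637288555967097257202893164089499573275028426862375594847395657941345079514190431021628307046890669068926352750763817857489368115935075385957894193649455460253695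

/-- The parallel class of the triple `{x, y, z}`. -/
def pcl (x y z : Fin 12) : ℕ := (parTable >>> (6 * (144 * x.1 + 12 * y.1 + z.1))) % 64

def gaTable : ℕ := 1874227032507729808018405841522785242585214240333673872394567952044394395587474224254451768121376769
def gaInvTable : ℕ := 1874227032507729808018405841522785242585214240333673872394567952044394395587474224254451768121376769
def gbTable : ℕ := 1738066340709546498591284722554182209062020036357489938397776305982612333015560731768718372019916994
def gbInvTable : ℕ := 1838991343538999745715934238970712427391699229498086623456030488137172944118262135547217061983028042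

def look (T : ℕ) (i : ℕ) : ℕ := (T >>> (6 * i)) % 64

theorem pcl_symm : ∀ x y z : Fin 12, pcl x y z = pcl y x z ∧ pcl x y z = pcl x z y := by decide +kernel

theorem pcl_a : ∀ x y z : Fin 12, x ≠ y → x ≠ z → y ≠ z →
    pcl (pa x) (pa y) (pa z) = look gaTable (pcl x y z) ∧
    pcl x y z = look gaInvTable (pcl (pa x) (pa y) (pa z)) := by decide +kernel

theorem pcl_b : ∀ x y z : Fin 12, x ≠ y → x ≠ z → y ≠ z →
    pcl (pb x) (pb y) (pb z) = look gbTable (pcl x y z) ∧
    pcl x y z = look gbInvTable (pcl (pb x) (pb y) (pb z)) := by decide +kernel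


theorem perm_inv_apply {α : Type*} (π : Equiv.Perm α) (x : α) : π⁻¹ (π x) = x :=
  π.symm_apply_apply x

/-- `M₁₁` is `3`-transitive on `12` points. -/
theorem m11_base {x y z : Fin 12} (hxy : x ≠ y) (hxz : x ≠ z) (hyz : y ≠ z) :
    ∃ g ∈ M11, g 0 = x ∧ g 1 = y ∧ g 2 = z := by
  set g₁ := wd (wU x) with hg₁
  have h1 : g₁ 0 = x := wU_spec x
  obtain ⟨y', hy'⟩ := g₁.surjective y
  have hy0 : y' ≠ 0 := by
    rintro rfl
    exact hxy (h1.symm.trans hy')
  set g₂ := wd (wV y') with hg₂
  obtain ⟨h2, h3⟩ := wV_spec y' hy0
  obtain ⟨z', hz'⟩ := (g₁ * g₂).surjective z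
  have hz0 : z' ≠ 0 := by
    rintro rfl
    rw [Equiv.Perm.mul_apply, h2, h1] at hz'
    exact hxz hz'
  have hz1 : z' ≠ 1 := by
    rintro rfl
    rw [Equiv.Perm.mul_apply, h3, hy'] at hz'
    exact hyz hz'
  obtain ⟨h4, h5, h6⟩ := wW_spec z' hz0 hz1
  refine ⟨g₁ * g₂ * wd (wW z'), M11.mul_mem (M11.mul_mem (wd_mem _) (wd_mem _)) (wd_mem _),
    ?_, ?_, ?_⟩
  · rw [Equiv.Perm.mul_apply, Equiv.Perm.mul_apply, h4, h2, h1]
  · rw [Equiv.Perm.mul_apply, Equiv.Perm.mul_apply, h5, h3, hy']
  · rw [Equiv.Perm.mul_apply, h6, hz']

theorem m11_three_trans : IsMultiplyPretransitive M11 (Fin 12) 3 := by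
  rw [isMultiplyPretransitive_iff]
  have key : ∀ x : Fin 3 ↪ Fin 12, ∃ g : M11, (g : Equiv.Perm (Fin 12)) 0 = x 0 ∧
      (g : Equiv.Perm (Fin 12)) 1 = x 1 ∧ (g : Equiv.Perm (Fin 12)) 2 = x 2 := by
    intro x
    obtain ⟨g, hg, h⟩ := m11_base (x := x 0) (y := x 1) (z := x 2)
      (fun h => absurd (x.injective h) (by decide)) (fun h => absurd (x.injective h) (by decide))
      (fun h => absurd (x.injective h) (by decide))
    exact ⟨⟨g, hg⟩, h⟩
  intro x y
  obtain ⟨g, hg0, hg1, hg2⟩ := key x
  obtain ⟨h, hh0, hh1, hh2⟩ := key y
  refine ⟨h * g⁻¹, ?_⟩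
  ext i
  congr 1
  change (h : Equiv.Perm (Fin 12)) ((g : Equiv.Perm (Fin 12))⁻¹ (x i)) = y i
  fin_cases i
  · change (h : Equiv.Perm (Fin 12)) ((g : Equiv.Perm (Fin 12))⁻¹ (x 0)) = y 0
    rw [← hg0, perm_inv_apply, hh0]
  · change (h : Equiv.Perm (Fin 12)) ((g : Equiv.Perm (Fin 12))⁻¹ (x 1)) = y 1
    rw [← hg1, perm_inv_apply, hh1]
  · change (h : Equiv.Perm (Fin 12)) ((g : Equiv.Perm (Fin 12))⁻¹ (x 2)) = y 2
    rw [← hg2, perm_inv_apply, hh2]

/-- The maps on the parallel classes. -/
theorem pcl_map {g : Equiv.Perm (Fin 12)} (hg : g ∈ M11) : ∃ γ γ' : ℕ → ℕ,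
    ∀ x y z : Fin 12, x ≠ y → x ≠ z → y ≠ z →
      pcl (g x) (g y) (g z) = γ (pcl x y z) ∧ pcl x y z = γ' (pcl (g x) (g y) (g z)) := by
  induction hg using Subgroup.closure_induction with
  | mem g hg =>
    rcases hg with rfl | rfl
    · rw [m11a_eq]; exact ⟨_, _, pcl_a⟩
    · rw [m11b_eq]; exact ⟨_, _, pcl_b⟩
  | one => exact ⟨id, id, fun x y z _ _ _ => ⟨rfl, rfl⟩⟩
  | mul g h _ _ ihg ihh =>
    obtain ⟨γ, γ', h1⟩ := ihg
    obtain ⟨δ, δ', h2⟩ := ihh
    refine ⟨γ ∘ δ, δ' ∘ γ', fun x y z hxy hxz hyz => ?_⟩
    have e1 := h2 x y z hxy hxz hyz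
    have e2 := h1 (h x) (h y) (h z) (fun e => hxy (h.injective e)) (fun e => hxz (h.injective e))
      (fun e => hyz (h.injective e))
    simp only [Equiv.Perm.mul_apply, Function.comp_apply]
    exact ⟨by rw [e2.1, e1.1], by rw [← e2.2, ← e1.2]⟩
  | inv g _ ih =>
    obtain ⟨γ, γ', h1⟩ := ih
    refine ⟨γ', γ, fun x y z hxy hxz hyz => ?_⟩
    have e2 := h1 (g⁻¹ x) (g⁻¹ y) (g⁻¹ z) (fun e => hxy (g⁻¹.injective e))
      (fun e => hxz (g⁻¹.injective e)) (fun e => hyz (g⁻¹.injective e))
    have e3 : ∀ w, g (g⁻¹ w) = w := fun w => g.apply_symm_apply w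
    rw [e3, e3, e3] at e2
    exact ⟨e2.2, e2.1⟩

theorem pcl_congr {x y z x' y' z' : Fin 12} (hxy : x' ≠ y') (hxz : x' ≠ z') (hyz : y' ≠ z')
    (h : ({x, y, z} : Finset (Fin 12)) = {x', y', z'}) : pcl x y z = pcl x' y' z' := by
  have s1 : ∀ a b c, pcl a b c = pcl b a c := fun a b c => (pcl_symm a b c).1
  have s2 : ∀ a b c, pcl a b c = pcl a c b := fun a b c => (pcl_symm a b c).2
  have m1 : x' ∈ ({x, y, z} : Finset (Fin 12)) := by rw [h]; simp
  have m2 : y' ∈ ({x, y, z} : Finset (Fin 12)) := by rw [h]; simp
  have m3 : z' ∈ ({x, y, z} : Finset (Fin 12)) := by rw [h]; simp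
  simp only [Finset.mem_insert, Finset.mem_singleton] at m1 m2 m3
  rcases m1 with rfl | rfl | rfl <;> rcases m2 with rfl | rfl | rfl <;>
    rcases m3 with rfl | rfl | rfl
  all_goals first
    | exact absurd rfl hxy
    | exact absurd rfl hxz
    | exact absurd rfl hyz
    | rfl
    | exact s1 _ _ _
    | exact s2 _ _ _
    | exact (s1 _ _ _).trans (s2 _ _ _)
    | exact (s2 _ _ _).trans (s1 _ _ _)
    | exact (s1 _ _ _).trans ((s2 _ _ _).trans (s1 _ _ _))

theorem m11_not_tsetprimitive : ¬ IsPreprimitive M11 (Set.powersetCard (Fin 12) 3) := by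
  intro h
  let PC : Finset (Fin 12) → ℕ → Prop := fun T v =>
    ∃ x y z : Fin 12, x ≠ y ∧ x ≠ z ∧ y ≠ z ∧ T = {x, y, z} ∧ v = pcl x y z
  have hPC : ∀ x y z : Fin 12, x ≠ y → x ≠ z → y ≠ z → ∀ v, PC {x, y, z} v ↔ v = pcl x y z := by
    intro x y z hxy hxz hyz v
    constructor
    · rintro ⟨x', y', z', h1, h2, h3, h4, rfl⟩
      exact (pcl_congr h1 h2 h3 h4).symm
    · rintro rfl
      exact ⟨x, y, z, hxy, hxz, hyz, rfl, rfl⟩
  rcases rel_of_tsetprimitive h (fun T T' => ∀ v, PC T v ↔ PC T' v)
    ⟨fun _ _ => Iff.rfl, fun h v => (h v).symm, fun h1 h2 v => (h1 v).trans (h2 v)⟩ (by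
      intro g T T' hT hT' hTT v
      obtain ⟨x, y, z, hxy, hxz, hyz, rfl⟩ := Finset.card_eq_three.1 hT
      obtain ⟨x', y', z', hxy', hxz', hyz', rfl⟩ := Finset.card_eq_three.1 hT'
      obtain ⟨γ, γ', hγ⟩ := pcl_map g.2
      have e1 : pcl x y z = pcl x' y' z' := by
        have := (hTT (pcl x y z)).1 ((hPC x y z hxy hxz hyz _).2 rfl)
        rwa [hPC x' y' z' hxy' hxz' hyz'] at this
      have e2 : g • ({x, y, z} : Finset (Fin 12)) = {(g : Equiv.Perm (Fin 12)) x,
          (g : Equiv.Perm (Fin 12)) y, (g : Equiv.Perm (Fin 12)) z} := by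
        rw [Finset.smul_finset_insert, Finset.smul_finset_insert, Finset.smul_finset_singleton]
        rfl
      have e3 : g • ({x', y', z'} : Finset (Fin 12)) = {(g : Equiv.Perm (Fin 12)) x',
          (g : Equiv.Perm (Fin 12)) y', (g : Equiv.Perm (Fin 12)) z'} := by
        rw [Finset.smul_finset_insert, Finset.smul_finset_insert, Finset.smul_finset_singleton]
        rfl
      have inj : ∀ u v : Fin 12, u ≠ v →
          (g : Equiv.Perm (Fin 12)) u ≠ (g : Equiv.Perm (Fin 12)) v :=
        fun u v h h' => h ((g : Equiv.Perm (Fin 12)).injective h')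
      rw [e2, e3, hPC _ _ _ (inj _ _ hxy) (inj _ _ hxz) (inj _ _ hyz),
        hPC _ _ _ (inj _ _ hxy') (inj _ _ hxz') (inj _ _ hyz'), (hγ x y z hxy hxz hyz).1,
        (hγ x' y' z' hxy' hxz' hyz').1, e1]) with h1 | h1
  · have h2 := h1 {0, 1, 2} {3, 6, 10} (by decide) (by decide) (by
      intro v
      rw [hPC 0 1 2 (by decide) (by decide) (by decide),
        hPC 3 6 10 (by decide) (by decide) (by decide)]
      have : pcl 0 1 2 = pcl 3 6 10 := by decide +kernel
      rw [this])
    exact absurd h2 (by decide)
  · have h2 := h1 {0, 1, 2} {0, 1, 3} (by decide) (by decide) (pcl 0 1 2)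
    rw [hPC 0 1 2 (by decide) (by decide) (by decide),
      hPC 0 1 3 (by decide) (by decide) (by decide)] at h2
    exact absurd (h2.1 rfl) (by decide +kernel)

theorem m11_base_primitive :
    IsPreprimitive (fixingSubgroup M11 ({0, 1} : Set (Fin 12)))
      (SubMulAction.ofFixingSubgroup M11 ({0, 1} : Set (Fin 12))) := by
  classical
  have hnc : ({0, 1} : Set (Fin 12)).ncard + 1 = 3 := by
    rw [Set.ncard_pair (by decide)]
  have h1 : IsMultiplyPretransitive (fixingSubgroup M11 ({0, 1} : Set (Fin 12)))
      (SubMulAction.ofFixingSubgroup M11 ({0, 1} : Set (Fin 12))) 1 := by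
    have := m11_three_trans
    exact SubMulAction.ofFixingSubgroup.isMultiplyPretransitive (G := M11) _ hnc
  rw [is_one_pretransitive_iff] at h1
  have hmem : ∀ x : Fin 12, x ∈ SubMulAction.ofFixingSubgroup M11 ({0, 1} : Set (Fin 12)) ↔
      x ≠ 0 ∧ x ≠ 1 := by
    intro x
    rw [SubMulAction.mem_ofFixingSubgroup_iff]
    simp
  have hcard : Nat.card (SubMulAction.ofFixingSubgroup M11 ({0, 1} : Set (Fin 12))) = 10 := by
    have h3 : Nat.card (SubMulAction.ofFixingSubgroup M11 ({0, 1} : Set (Fin 12))) =
        (({0, 1} : Set (Fin 12))ᶜ).ncard := by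
      rw [← Nat.card_coe_set_eq]
      rfl
    have h4 := Set.ncard_add_ncard_compl ({0, 1} : Set (Fin 12))
    rw [Nat.card_eq_fintype_card, Fintype.card_fin, Set.ncard_pair (by decide)] at h4
    omega
  apply IsPreprimitive.of_isTrivialBlock_base
    (⟨2, (hmem 2).2 (by decide)⟩ : SubMulAction.ofFixingSubgroup M11 ({0, 1} : Set (Fin 12)))
  intro B h2B hB
  let τ : fixingSubgroup M11 ({0, 1} : Set (Fin 12)) := ⟨⟨wd wT, wd_mem _⟩, by
    rw [mem_fixingSubgroup_iff]
    intro y hy
    rcases hy with rfl | rfl
    · exact wT_spec 0
    · exact wT_spec 1⟩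
  have hτ : τ • B = B := by
    rw [isBlock_iff_smul_eq_of_mem] at hB
    apply hB h2B
    convert h2B using 1
    exact Subtype.ext (wT_spec 2)
  have hτ' : ∀ x, x ∈ B ↔ τ • x ∈ B := by
    intro x
    constructor
    · intro hx
      rw [← hτ]
      exact Set.smul_mem_smul_set hx
    · intro hx
      rw [← hτ] at hx
      exact Set.smul_mem_smul_set_iff.1 hx
  let P : Fin 12 → Prop := fun x => ∃ h : x ∈ SubMulAction.ofFixingSubgroup M11
    ({0, 1} : Set (Fin 12)), (⟨x, h⟩ : SubMulAction.ofFixingSubgroup M11
      ({0, 1} : Set (Fin 12))) ∈ B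
  have hP : ∀ x y : Fin 12, x ≠ 0 ∧ x ≠ 1 → y ≠ 0 ∧ y ≠ 1 → wd wT x = y → (P x ↔ P y) := by
    intro x y hx hy hxy
    have e1 := hτ' ⟨x, (hmem x).2 hx⟩
    have e2 : τ • (⟨x, (hmem x).2 hx⟩ : SubMulAction.ofFixingSubgroup M11
      ({0, 1} : Set (Fin 12))) = ⟨y, (hmem y).2 hy⟩ := Subtype.ext hxy
    rw [e2] at e1
    exact ⟨fun ⟨h, h'⟩ => ⟨(hmem y).2 hy, e1.1 h'⟩, fun ⟨h, h'⟩ => ⟨(hmem x).2 hx, e1.2 h'⟩⟩
  have hnP0 : ¬ P 0 := fun ⟨h, _⟩ => ((hmem 0).1 h).1 rfl
  have hnP1 : ¬ P 1 := fun ⟨h, _⟩ => ((hmem 1).1 h).2 rfl
  have hP2 : P 2 := ⟨_, h2B⟩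
  have hP3 : P 3 ↔ P 6 := hP 3 6 (by decide) (by decide) (wT_spec 3)
  have hP6 : P 6 ↔ P 10 := hP 6 10 (by decide) (by decide) (wT_spec 6)
  have hP4 : P 4 ↔ P 7 := hP 4 7 (by decide) (by decide) (wT_spec 4)
  have hP7 : P 7 ↔ P 9 := hP 7 9 (by decide) (by decide) (wT_spec 7)
  have hP5 : P 5 ↔ P 8 := hP 5 8 (by decide) (by decide) (wT_spec 5)
  have hP8 : P 8 ↔ P 11 := hP 8 11 (by decide) (by decide) (wT_spec 8)
  have hBcard : B.ncard = (Finset.univ.filter P).card := by
    rw [← Set.ncard_coe_finset, ← Set.ncard_image_of_injective B Subtype.val_injective]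
    congr 1
    ext x
    simp only [Set.mem_image, Subtype.exists, exists_and_right, exists_eq_right,
      Finset.coe_filter, Finset.mem_univ, true_and]
    rfl
  have hdvd : B.ncard ∣ 10 := by
    rw [← hcard]
    exact hB.ncard_dvd_card ⟨_, h2B⟩
  have hF : (Finset.univ.filter P).card = 1 + (if P 3 then 3 else 0) + (if P 4 then 3 else 0) +
      (if P 5 then 3 else 0) := by
    rw [Finset.card_filter]
    simp only [Fin.sum_univ_succ, Fin.succ_zero_eq_one, Finset.univ_eq_empty, Finset.sum_empty]
    have e2 : (if P 2 then 1 else 0) = 1 := if_pos hP2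
    have e0 : (if P 0 then 1 else 0) = 0 := if_neg hnP0
    have e1 : (if P 1 then 1 else 0) = 0 := if_neg hnP1
    have g6 : P 6 ↔ P 3 := hP3.symm
    have g10 : P 10 ↔ P 3 := hP6.symm.trans hP3.symm
    have g7 : P 7 ↔ P 4 := hP4.symm
    have g9 : P 9 ↔ P 4 := hP7.symm.trans hP4.symm
    have g8 : P 8 ↔ P 5 := hP5.symm
    have g11 : P 11 ↔ P 5 := hP8.symm.trans hP5.symm
    change (if P 0 then 1 else 0) + ((if P 1 then 1 else 0) + ((if P 2 then 1 else 0) +
      ((if P 3 then 1 else 0) + ((if P 4 then 1 else 0) + ((if P 5 then 1 else 0) +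
      ((if P 6 then 1 else 0) + ((if P 7 then 1 else 0) + ((if P 8 then 1 else 0) +
      ((if P 9 then 1 else 0) + ((if P 10 then 1 else 0) + ((if P 11 then 1 else 0) + 0)))))))))))
      = _
    simp only [e0, e1, e2, g6, g10, g7, g9, g8, g11]
    split_ifs <;> rfl
  rw [hBcard, hF] at hdvd
  by_cases h3 : P 3 <;> by_cases h4 : P 4 <;> by_cases h5 : P 5 <;>
    simp only [h3, h4, h5, if_true, if_false] at hdvd hF
  all_goals first
    | exact absurd hdvd (by decide)
    | (right; rw [Set.eq_univ_iff_ncard, hBcard, hF, hcard]; done)
    | (left; rw [← Set.ncard_le_one_iff_subsingleton, hBcard, hF]; done)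

/-- `M₁₁` is `3`-primitive on `12` points. -/
theorem m11_tprimitive : IsMultiplyPreprimitive M11 (Fin 12) 3 := by
  rw [isMultiplyPreprimitive_iff]
  refine ⟨m11_three_trans, fun {s} hs => ?_⟩
  have hs2 : s.encard = 2 := by
    have h1 : s.encard + 1 = (2 : ℕ∞) + 1 := by rw [hs]; rfl
    exact ENat.add_left_injective_of_ne_top ENat.one_ne_top h1
  obtain ⟨u, v, huv, rfl⟩ := Set.encard_eq_two.1 hs2
  have hthird : ∀ u v : Fin 12, ∃ w : Fin 12, u ≠ w ∧ v ≠ w := by decide
  obtain ⟨w, hwu, hwv⟩ := hthird u v
  obtain ⟨g, hg, hg0, hg1, -⟩ := m11_base huv hwu hwv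
  have h1 : ({u, v} : Set (Fin 12)) = (⟨g, hg⟩ : M11) • ({0, 1} : Set (Fin 12)) := by
    rw [Set.smul_set_insert, Set.smul_set_singleton]
    change _ = ({g 0, g 1} : Set (Fin 12))
    rw [hg0, hg1]
  rw [h1, ← isPreprimitive_ofFixingSubgroup_conj_iff]
  exact m11_base_primitive

end Pool.Agent.Helper37.Prim
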