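import Pool.Agent.Helper37.Prim.Proj2Set

/-!
# Three generalisations of primitivity (MP_13dc8a_al): the second case and counting
-/

namespace Pool.Agent.Helper37.Prim

open Matrix OnePoint MulAction
open scoped Pointwise

section Field

variable {K : Type*} [Field K] [DecidableEq K] [DecidableEq (OnePoint K)]
  {G : Subgroup (Equiv.Perm (OnePoint K))} {r : Finset (OnePoint K) → Finset (OnePoint K) → Prop}

/-- Related pairs are disjoint. -/
theorem PairRel.share' {X : Type*} {G : Type*} [Group G] [MulAction G X] [DecidableEq X]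
    {r : Finset X → Finset X → Prop} (h : PairRel G X r) {a b x y : X} (hab : a ≠ b) (hxy : x ≠ y)
    (hr : r {a, b} {x, y}) (hx : x = a ∨ x = b) : ({a, b} : Finset X) = {x, y} := by
  rcases hx with rfl | rfl
  · rw [h.share _ _ _ hab hxy hr]
  · rw [Finset.pair_comm a x] at hr ⊢
    rw [h.share _ _ _ (Ne.symm hab) hxy hr]

/-- The partner of a point in case 2. -/
theorem PairRel.partner (hG : PSL K ≤ G) (h : PairRel G (OnePoint K) r)
    (hsqr : ∀ x y : K, ¬ IsSquare x → ¬ IsSquare y → IsSquare (x * y)) {u c p p' : K}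
    (hu : u ≠ 0) (hc : ¬ IsSquare c) (huc : PP r u (c * u)) (hp : p ≠ 0) (hp' : p ≠ p')
    (hpp : PP r p p') : p' = c * p ∨ p' = p / c := by
  have hc0 : c ≠ 0 := by rintro rfl; exact hc ⟨0, by ring⟩
  have hc1 : c ≠ 1 := by rintro rfl; exact hc ⟨1, by ring⟩
  by_cases h1 : IsSquare (p / u)
  · left
    obtain ⟨a, ha⟩ := h1
    have ha0 : a ≠ 0 := by
      rintro rfl
      rw [mul_zero, div_eq_zero_iff] at ha
      tauto
    have h2 := h.M1 hG huc ha0
    have h3 : a ^ 2 * u = p := by
      rw [pow_two, ← ha, div_mul_cancel₀ _ hu]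
    have h4 : a ^ 2 * (c * u) = c * p := by rw [← h3]; ring
    rw [h3, h4] at h2
    refine (h.uniq ?_ hp' h2 hpp).symm
    intro h5
    apply hc1
    have : (c - 1) * p = 0 := by linear_combination -h5
    rcases mul_eq_zero.1 this with h6 | h6
    · exact sub_eq_zero.1 h6
    · exact absurd h6 hp
  · right
    obtain ⟨a, ha⟩ := hsqr _ _ h1 (fun h2 : IsSquare (c⁻¹) => hc (by
      rw [← inv_inv c]; exact h2.inv))
    have ha0 : a ≠ 0 := by
      rintro rfl
      rw [mul_zero] at ha
      rcases mul_eq_zero.1 ha with h2 | h2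
      · rw [div_eq_zero_iff] at h2
        tauto
      · exact hc0 (inv_eq_zero.1 h2)
    have h2 := (h.M1 hG huc ha0).symm
    have h3 : a ^ 2 * (c * u) = p := by
      rw [pow_two, ← ha]
      field_simp
    have h4 : a ^ 2 * u = p / c := by rw [← h3]; field_simp
    rw [h3, h4] at h2
    refine (h.uniq ?_ hp' h2 hpp).symm
    intro h5
    apply hc1
    rw [eq_div_iff hc0] at h5
    have : (c - 1) * p = 0 := by linear_combination h5
    rcases mul_eq_zero.1 this with h6 | h6
    · exact sub_eq_zero.1 h6
    · exact absurd h6 hp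

/-- Case 2: `{∞, 0}` is related to `{u, c u}` with `c` not a square. -/
theorem PairRel.case2 (hG : PSL K ≤ G) (h : PairRel G (OnePoint K) r)
    (hsqr : ∀ x y : K, ¬ IsSquare x → ¬ IsSquare y → IsSquare (x * y)) {u c s e : K}
    (hu : u ≠ 0) (hc : ¬ IsSquare c) (hs : s ≠ 0) (huc : PP r u (c * u))
    (he : s * (c * u - u) = e ^ 2) :
    (s * u = -1 ∧ c = -1) ∨ c * (s * u) + 1 = 0 ∨ c ^ 2 * (s * u) ^ 2 + (1 + c) * (s * u) + 1 = 0 ∨
      c ^ 2 * (s * u) ^ 2 + c * (c + 1) * (s * u) + 1 = 0 := by
  have hc0 : c ≠ 0 := by rintro rfl; exact hc ⟨0, by ring⟩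
  have hc1 : c ≠ 1 := by rintro rfl; exact hc ⟨1, by ring⟩
  have hne : u ≠ c * u := by
    intro h5
    apply hc1
    have : (c - 1) * u = 0 := by linear_combination -h5
    rcases mul_eq_zero.1 this with h6 | h6
    · exact sub_eq_zero.1 h6
    · exact absurd h6 hu
  have h3 := h.M3 hG huc hs hne he huc
  set g := mk2 (c * u * s) u s 1 (by
        have := mul_ne_zero hs (sub_ne_zero.2 (Ne.symm hne))
        intro h0; apply this; linear_combination h0) with hg
  have hne' : g • (u : OnePoint K) ≠ g • ((c * u : K) : OnePoint K) := by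
    intro h5
    exact hne (OnePoint.coe_eq_coe.1 (MulAction.injective g h5))
  have hinf0 : (∞ : OnePoint K) ≠ ((0 : K) : OnePoint K) := (OnePoint.coe_ne_infty 0).symm
  have e1 : g • (u : OnePoint K) = if s * u + 1 = 0 then ∞ else
      ((u * (c * (s * u) + 1) / (s * u + 1) : K) : OnePoint K) := by
    rw [hg, mk2_coe]
    have : c * u * s * u + u = u * (c * (s * u) + 1) := by ring
    rw [this]
  have e2 : g • ((c * u : K) : OnePoint K) = if c * (s * u) + 1 = 0 then ∞ else
      ((u * (c ^ 2 * (s * u) + 1) / (c * (s * u) + 1) : K) : OnePoint K) := by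
    rw [hg, mk2_coe]
    have h6 : c * u * s * (c * u) + u = u * (c ^ 2 * (s * u) + 1) := by ring
    have h7 : s * (c * u) + 1 = c * (s * u) + 1 := by ring
    rw [h6, h7]
  by_cases hA : c * (s * u) + 1 = 0
  · exact Or.inr (Or.inl hA)
  rw [if_neg hA] at e2
  by_cases hB : s * u + 1 = 0
  · left
    rw [if_pos hB] at e1
    have h4 := h.share' hinf0 hne' h3 (Or.inl e1)
    rw [e1, e2] at h4
    have h5 : ((u * (c ^ 2 * (s * u) + 1) / (c * (s * u) + 1) : K) : OnePoint K) ∈
        ({∞, ((0 : K) : OnePoint K)} : Finset (OnePoint K)) := by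
      rw [h4]
      exact Finset.mem_insert_of_mem (Finset.mem_singleton_self _)
    rw [Finset.mem_insert, Finset.mem_singleton] at h5
    rcases h5 with h5 | h5
    · exact absurd h5 (OnePoint.coe_ne_infty _)
    · rw [OnePoint.coe_eq_coe, div_eq_zero_iff] at h5
      have hy : s * u = -1 := by linear_combination hB
      refine ⟨hy, ?_⟩
      rcases h5 with h5 | h5
      · rcases mul_eq_zero.1 h5 with h6 | h6
        · exact absurd h6 hu
        · rw [hy] at h6
          have h7 : (c - 1) * (c + 1) = 0 := by linear_combination -h6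
          rcases mul_eq_zero.1 h7 with h8 | h8
          · exact absurd (sub_eq_zero.1 h8) hc1
          · linear_combination h8
      · exact absurd h5 hA
  rw [if_neg hB] at e1
  by_cases hC : c ^ 2 * (s * u) + 1 = 0
  · exfalso
    have e2' : g • ((c * u : K) : OnePoint K) = ((0 : K) : OnePoint K) := by
      rw [e2, hC, mul_zero, zero_div]
    rw [Finset.pair_comm (g • (u : OnePoint K))] at h3
    have h4 := h.share' hinf0 (Ne.symm hne') h3 (Or.inr e2')
    rw [e1, e2'] at h4
    have h5 : (∞ : OnePoint K) ∈ ({((0 : K) : OnePoint K),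
        ((u * (c * (s * u) + 1) / (s * u + 1) : K) : OnePoint K)} : Finset (OnePoint K)) := by
      rw [← h4]
      exact Finset.mem_insert_self _ _
    rw [Finset.mem_insert, Finset.mem_singleton] at h5
    rcases h5 with h5 | h5
    · exact absurd h5.symm (OnePoint.coe_ne_infty _)
    · exact absurd h5.symm (OnePoint.coe_ne_infty _)
  · right; right
    rw [e1, e2] at h3 hne'
    have hne2 : u * (c * (s * u) + 1) / (s * u + 1) ≠
        u * (c ^ 2 * (s * u) + 1) / (c * (s * u) + 1) := fun h5 => hne' (by rw [h5])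
    have hp : u * (c * (s * u) + 1) / (s * u + 1) ≠ 0 := div_ne_zero (mul_ne_zero hu hA) hB
    rcases h.partner hG hsqr hu hc huc hp hne2 h3 with h5 | h5
    · left
      rw [div_eq_iff hA] at h5
      have h6 : u * (c ^ 2 * (s * u) + 1) * (s * u + 1) =
          c * (u * (c * (s * u) + 1)) * (c * (s * u) + 1) := by
        rw [h5]
        linear_combination (c * (c * (s * u) + 1)) *
          div_mul_cancel₀ (u * (c * (s * u) + 1)) hB
      have h7 : u * (1 - c) * (c ^ 2 * (s * u) ^ 2 + (1 + c) * (s * u) + 1) = 0 := by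
        linear_combination h6
      rcases mul_eq_zero.1 h7 with h8 | h8
      · exact absurd h8 (mul_ne_zero hu (sub_ne_zero.2 (Ne.symm hc1)))
      · exact h8
    · right
      rw [div_eq_iff hA] at h5
      have h6 : u * (c ^ 2 * (s * u) + 1) * (s * u + 1) * c =
          u * (c * (s * u) + 1) * (c * (s * u) + 1) := by
        rw [h5]
        linear_combination ((c * (s * u) + 1) * (s * u + 1)) *
          div_mul_cancel₀ (u * (c * (s * u) + 1) / (s * u + 1)) hc0 +
          (c * (s * u) + 1) * div_mul_cancel₀ (u * (c * (s * u) + 1)) hB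
      have h7 : u * (c - 1) * (c ^ 2 * (s * u) ^ 2 + c * (c + 1) * (s * u) + 1) = 0 := by
        linear_combination h6
      rcases mul_eq_zero.1 h7 with h8 | h8
      · exact absurd h8 (mul_ne_zero hu (sub_ne_zero.2 hc1))
      · exact h8

end Field

section Count

variable {K : Type*} [Field K] [Fintype K] [DecidableEq K]

/-- The elements `y ≠ 0` such that `y k` is a square. -/
noncomputable def Yset (K : Type*) [Field K] [Fintype K] [DecidableEq K] (k : K) : Finset K := by
  classical
  exact Finset.univ.filter (fun y => y ≠ 0 ∧ IsSquare (y * k))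

theorem mem_Yset {k y : K} : y ∈ Yset K k ↔ y ≠ 0 ∧ IsSquare (y * k) := by
  simp [Yset]

theorem card_Yset {k : K} (hk : k ≠ 0) : Fintype.card K ≤ 2 * (Yset K k).card + 1 := by
  have h1 : ((Finset.univ : Finset K).erase 0).card ≤ 2 * (Yset K k).card := by
    apply Finset.card_le_mul_card_image_of_maps_to (f := fun z : K => z ^ 2 * k⁻¹)
    · intro z hz
      rw [Finset.mem_erase] at hz
      rw [mem_Yset]
      refine ⟨mul_ne_zero (pow_ne_zero _ hz.1) (inv_ne_zero hk), z, ?_⟩
      field_simp
    · intro b _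
      by_cases hne : ∃ z : K, z ^ 2 * k⁻¹ = b
      · obtain ⟨z, hz⟩ := hne
        refine (Finset.card_le_card (t := {z, -z}) ?_).trans Finset.card_le_two
        intro w hw
        rw [Finset.mem_filter] at hw
        have h2 : w ^ 2 = z ^ 2 := by
          have := hw.2.trans hz.symm
          exact mul_right_cancel₀ (inv_ne_zero hk) this
        rw [Finset.mem_insert, Finset.mem_singleton]
        exact sq_eq_sq_iff_eq_or_eq_neg.1 h2
      · rw [Finset.card_eq_zero.2]
        · omega
        · rw [Finset.filter_eq_empty_iff]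
          intro z _ hz
          exact hne ⟨z, hz⟩
  rw [Finset.card_erase_of_mem (Finset.mem_univ _), Finset.card_univ] at h1
  omega

omit [Fintype K] in
/-- A quadratic polynomial has at most two roots. -/
theorem card_quadratic_le (a b c : K) (ha : a ≠ 0) (s : Finset K)
    (hs : ∀ y ∈ s, a * y ^ 2 + b * y + c = 0) : s.card ≤ 2 := by
  by_cases hne : s.Nonempty
  · obtain ⟨y, hy⟩ := hne
    refine (Finset.card_le_card (t := {y, -b / a - y}) ?_).trans Finset.card_le_two
    intro z hz
    rw [Finset.mem_insert, Finset.mem_singleton]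
    by_cases hzy : z = y
    · exact Or.inl hzy
    · right
      have h1 := hs y hy
      have h2 := hs z hz
      have h3 : (z - y) * (a * (z + y) + b) = 0 := by linear_combination h2 - h1
      rcases mul_eq_zero.1 h3 with h4 | h4
      · exact absurd (sub_eq_zero.1 h4) hzy
      · rw [eq_sub_iff_add_eq, eq_div_iff ha]
        linear_combination h4
  · rw [Finset.not_nonempty_iff_eq_empty] at hne
    rw [hne]
    simp

end Count

end Pool.Agent.Helper37.Prim
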