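import Pool.Agent.Helper37.Prim.Cert
import Pool.Agent.Helper37.Prim.Proj2Case

/-!
# Three generalisations of primitivity (MP_13dc8a_al): certificates for finite groups
-/

namespace Pool.Agent.Helper37.Prim

open MulAction
open scoped Pointwise

section

variable {n : ℕ} {G : Subgroup (Equiv.Perm (Fin n))}

theorem cert_trans {Ts : List ℕ} (hT : ∀ T ∈ Ts, InG G T) {o : Fin n} {P I R : ℕ}
    (h : checkR n Ts [(o : ℕ)] [] P I R = true) (x : Fin n) : ∃ g ∈ G, g o = x := by
  refine reach_ind h (fun x => ∃ g ∈ G, g o = x) ?_ ?_ x (by simp)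
  · intro x hx
    rw [List.mem_singleton] at hx
    exact ⟨1, G.one_mem, Fin.ext hx.symm⟩
  · rintro T hTm x y - ⟨g, hg, hgx⟩ hy
    obtain ⟨k, hk, hkT⟩ := hT T hTm
    exact ⟨k * g, G.mul_mem hk hg, Fin.ext (by rw [Equiv.Perm.mul_apply, hgx, hkT, hy])⟩

theorem cert_trans1 {S : List ℕ} {o p : Fin n} (hS : ∀ T ∈ S, InG G T ∧ tab T o = o)
    {P I R : ℕ} (h : checkR n S [(p : ℕ)] [(o : ℕ)] P I R = true) (x : Fin n) (hx : x ≠ o) :
    ∃ g ∈ G, g o = o ∧ g p = x := by
  refine reach_ind h (fun x => ∃ g ∈ G, g o = o ∧ g p = x) ?_ ?_ x (by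
    rw [List.mem_singleton]; exact fun h0 => hx (Fin.ext h0))
  · intro x hx
    rw [List.mem_singleton] at hx
    exact ⟨1, G.one_mem, rfl, Fin.ext hx.symm⟩
  · rintro T hTm x y - ⟨g, hg, hgo, hgx⟩ hy
    obtain ⟨⟨k, hk, hkT⟩, hTo⟩ := hS T hTm
    exact ⟨k * g, G.mul_mem hk hg, Fin.ext (by rw [Equiv.Perm.mul_apply, hgo, hkT, hTo]),
      Fin.ext (by rw [Equiv.Perm.mul_apply, hgx, hkT, hy])⟩

theorem cert_two_trans {Ts S : List ℕ} {o p : Fin n} (hT : ∀ T ∈ Ts, InG G T)
    (hS : ∀ T ∈ S, InG G T ∧ tab T o = o) {P I R P' I' R' : ℕ}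
    (h : checkR n Ts [(o : ℕ)] [] P I R = true)
    (h' : checkR n S [(p : ℕ)] [(o : ℕ)] P' I' R' = true) : IsMultiplyPretransitive G (Fin n) 2 := by
  have key : ∀ a b : Fin n, a ≠ b → ∃ g ∈ G, g o = a ∧ g p = b := by
    intro a b hab
    obtain ⟨g, hg, hga⟩ := cert_trans hT h a
    have h1 : g⁻¹ b ≠ o := by
      intro h0
      apply hab
      rw [← hga, ← h0]
      exact g.apply_symm_apply b
    obtain ⟨k, hk, hko, hkp⟩ := cert_trans1 hS h' (g⁻¹ b) h1
    refine ⟨g * k, G.mul_mem hg hk, ?_, ?_⟩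
    · rw [Equiv.Perm.mul_apply, hko, hga]
    · rw [Equiv.Perm.mul_apply, hkp]
      exact g.apply_symm_apply b
  rw [is_two_pretransitive_iff]
  intro a b c d hab hcd
  obtain ⟨g, hg, h1, h2⟩ := key a b hab
  obtain ⟨k, hk, h3, h4⟩ := key c d hcd
  refine ⟨⟨k * g⁻¹, G.mul_mem hk (G.inv_mem hg)⟩, ?_, ?_⟩
  · change k (g⁻¹ a) = c
    rw [← h1, show g⁻¹ (g o) = o from g.symm_apply_apply o, h3]
  · change k (g⁻¹ b) = d
    rw [← h2, show g⁻¹ (g p) = p from g.symm_apply_apply p, h4]

/-- Certificate for `2`-primitivity. -/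
theorem cert_tprimitive {S U reps : List ℕ} {o p : Fin n} (hop : o ≠ p)
    (h2 : IsMultiplyPretransitive G (Fin n) 2)
    (hS : ∀ T ∈ S, InG G T ∧ tab T o = o) {P' I' R' : ℕ}
    (h' : checkR n S [(p : ℕ)] [(o : ℕ)] P' I' R' = true)
    (hU : ∀ T ∈ U, InG G T ∧ tab T o = o ∧ tab T p = p) {P I R : ℕ}
    (h : checkR n U reps [(o : ℕ), (p : ℕ)] P I R = true)
    (hrep : ∀ w ∈ reps, ∃ T, InG G T ∧ tab T o = o ∧ tab T p = w ∧
      ∃ P I R, checkR n (T :: U) [(p : ℕ)] [(o : ℕ)] P I R = true) :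
    IsMultiplyPreprimitive G (Fin n) 2 := by
  apply tprimitive_two_of_rel h2 o
  intro r hrefl hsymm htrans hinv hne
  have hinv' : ∀ g ∈ G, g o = o → ∀ x y, x ≠ o → y ≠ o → r x y → r (g x) (g y) :=
    fun g hg hgo x y hx hy hxy => hinv ⟨g, hg⟩ hgo x y hx hy hxy
  have hfix : ∀ g : Equiv.Perm (Fin n), g o = o → ∀ x, x ≠ o → g x ≠ o := by
    intro g hg x hx h0
    exact hx (g.injective (by rw [h0, hg]))
  suffices hall : ∀ y, y ≠ o → r p y by
    intro x y hx hy
    exact htrans x p y hx hop.symm hy (hsymm p x hop.symm hx (hall x hx)) (hall y hy)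
  -- a related pair containing `p`
  obtain ⟨w, hwo, hwp, hpw⟩ : ∃ w, w ≠ o ∧ w ≠ p ∧ r p w := by
    obtain ⟨x, y, hx, hy, hxy, hr⟩ := hne
    obtain ⟨g, hg, hgo, hgp⟩ := cert_trans1 hS h' x hx
    have hgo' : g⁻¹ o = o := by rw [Equiv.Perm.inv_eq_iff_eq, hgo]
    have h1 := hinv' g⁻¹ (G.inv_mem hg) hgo' x y hx hy hr
    have h3 : g⁻¹ x = p := by rw [Equiv.Perm.inv_eq_iff_eq, hgp]
    rw [h3] at h1
    refine ⟨g⁻¹ y, hfix _ hgo' y hy, ?_, h1⟩
    intro h0
    apply hxy
    rw [← hgp, ← h0]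
    exact g.apply_symm_apply y
  have hmain := reach_ind h (fun x => x ≠ o → x ≠ p → r p x → ∀ y, y ≠ o → r p y) (by
    intro x hx hxo hxp hrx
    obtain ⟨T, ⟨k, hk, hkT⟩, hTo, hTp, P₁, I₁, R₁, h1⟩ := hrep x hx
    have hko : k o = o := Fin.ext (by rw [hkT, hTo])
    have hkp : k p = x := Fin.ext (by rw [hkT, hTp])
    intro y hy
    refine reach_ind h1 (fun y => y ≠ o → r p y) ?_ ?_ y (by
      rw [List.mem_singleton]; exact fun h0 => hy (Fin.ext h0)) hy
    · intro z hz hzo
      rw [List.mem_singleton] at hz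
      rw [Fin.ext hz]
      exact hrefl p hop.symm
    · intro T' hT' z w hz hrz hw hwo
      rw [List.mem_singleton] at hz
      have hzo : z ≠ o := fun h0 => hz (by rw [h0])
      rcases List.mem_cons.1 hT' with rfl | hT'
      · have hkz : k z = w := Fin.ext (by rw [hkT, hw])
        have h3 := hinv' k hk hko p z hop.symm hzo (hrz hzo)
        rw [hkp, hkz] at h3
        exact htrans p x w hop.symm hxo hwo hrx h3
      · obtain ⟨⟨l, hl, hlT⟩, hlo, hlp⟩ := hU T' hT'
        have hlo' : l o = o := Fin.ext (by rw [hlT, hlo])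
        have hlp' : l p = p := Fin.ext (by rw [hlT, hlp])
        have hlz : l z = w := Fin.ext (by rw [hlT, hw])
        have h3 := hinv' l hl hlo' p z hop.symm hzo (hrz hzo)
        rwa [hlp', hlz] at h3) (by
    intro T hT x y hx hQ hy hyo hyp hry
    obtain ⟨⟨l, hl, hlT⟩, hlo, hlp⟩ := hU T hT
    have hlo' : l o = o := Fin.ext (by rw [hlT, hlo])
    have hlp' : l p = p := Fin.ext (by rw [hlT, hlp])
    have hlx : l x = y := Fin.ext (by rw [hlT, hy])
    have hlo2 : l⁻¹ o = o := by rw [Equiv.Perm.inv_eq_iff_eq, hlo']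
    have hlp2 : l⁻¹ p = p := by rw [Equiv.Perm.inv_eq_iff_eq, hlp']
    have hlx2 : l⁻¹ y = x := by rw [Equiv.Perm.inv_eq_iff_eq, hlx]
    have h3 := hinv' l⁻¹ (G.inv_mem hl) hlo2 p y hop.symm hyo hry
    rw [hlp2, hlx2] at h3
    have hxo : x ≠ o := by
      rintro rfl
      exact hyo (by rw [← hlx, hlo'])
    have hxp : x ≠ p := by
      rintro rfl
      exact hyp (by rw [← hlx, hlp'])
    exact hQ hxo hxp h3)
  refine hmain w ?_ hwo hwp hpw
  simp only [List.mem_cons, List.not_mem_nil, or_false, not_or]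
  exact ⟨fun h0 => hwo (Fin.ext h0), fun h0 => hwp (Fin.ext h0)⟩

/-- Check that every point outside `excl` is moved by one of the tables. -/
def checkMoved (n : ℕ) (W excl : List ℕ) : Bool :=
  (List.range n).all fun d => excl.contains d || W.any fun T => !(tab T d == d)

/-- The table `T` preserves the pair `{o, p}`. -/
def PresT (T o p : ℕ) : Prop := (tab T o = o ∧ tab T p = p) ∨ (tab T o = p ∧ tab T p = o)

instance (T o p : ℕ) : Decidable (PresT T o p) := by unfold PresT; infer_instance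

/-- Certificate for `2`-set primitivity. -/
theorem cert_tset {Ts S H roots : List ℕ} {o p : Fin n} (hop : o ≠ p)
    (hpr : IsMultiplyPreprimitive G (Fin n) 2)
    (hT : ∀ T ∈ Ts, InG G T) (hS : ∀ T ∈ S, InG G T ∧ tab T o = o) {P₀ I₀ R₀ P' I' R' : ℕ}
    (h0 : checkR n Ts [(o : ℕ)] [] P₀ I₀ R₀ = true)
    (h' : checkR n S [(p : ℕ)] [(o : ℕ)] P' I' R' = true)
    (hH : ∀ T ∈ H, InG G T ∧ PresT T o p) {P I R : ℕ}
    (h : checkR n H roots [(o : ℕ), (p : ℕ)] P I R = true)
    (hroot : ∀ c ∈ roots, ∃ W D : List ℕ, (∀ T ∈ W, InG G T ∧ PresT T o p ∧ tab T c = c) ∧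
      checkMoved n W ((o : ℕ) :: (p : ℕ) :: c :: D) = true ∧
      ∀ d ∈ D, ∃ (K : ℕ) (m : List ℕ), InG G K ∧ tab K o = c ∧ tab K p = d ∧
        (∀ i ∈ m, i < (K :: H).length) ∧
        ((evalW (K :: H) m o = o ∨ evalW (K :: H) m o = p) ↔
          ¬ (evalW (K :: H) m p = o ∨ evalW (K :: H) m p = p))) :
    IsPreprimitive G (Set.powersetCard (Fin n) 2) := by
  apply tsetprimitive_of_pairRel hpr
  intro r hr a b c d hab hcd hrel
  by_contra hne
  have hsm : ∀ g ∈ G, ∀ {a b c d : Fin n}, r {a, b} {c, d} → r {g a, g b} {g c, g d} := by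
    intro g hg a b c d h1
    have := hr.inv ⟨g, hg⟩ _ _ h1
    rwa [Finset.smul_finset_insert, Finset.smul_finset_singleton, Finset.smul_finset_insert,
      Finset.smul_finset_singleton] at this
  -- reduce to the pair `{o, p}`
  obtain ⟨g, hg, hgo, hgp⟩ : ∃ g ∈ G, g o = a ∧ g p = b := by
    obtain ⟨g, hg, hga⟩ := cert_trans hT h0 a
    have h1 : g⁻¹ b ≠ o := by
      intro h0
      apply hab
      rw [← hga, ← h0]
      exact g.apply_symm_apply b
    obtain ⟨k, hk, hko, hkp⟩ := cert_trans1 hS h' (g⁻¹ b) h1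
    refine ⟨g * k, G.mul_mem hg hk, ?_, ?_⟩
    · rw [Equiv.Perm.mul_apply, hko, hga]
    · rw [Equiv.Perm.mul_apply, hkp]
      exact g.apply_symm_apply b
  have hrel' := hsm g⁻¹ (G.inv_mem hg) hrel
  have ea : g⁻¹ a = o := by rw [Equiv.Perm.inv_eq_iff_eq, hgo]
  have eb : g⁻¹ b = p := by rw [Equiv.Perm.inv_eq_iff_eq, hgp]
  rw [ea, eb] at hrel'
  set c' := g⁻¹ c with hc'
  set d' := g⁻¹ d with hd'
  have hcd' : c' ≠ d' := fun h1 => hcd (g⁻¹.injective h1)
  have hne' : ({o, p} : Finset (Fin n)) ≠ {c', d'} := by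
    intro h1
    apply hne
    have h3 := congrArg (fun s : Finset (Fin n) => s.image g) h1
    simp only [Finset.image_insert, Finset.image_singleton] at h3
    rwa [hgo, hgp, hc', hd', show g (g⁻¹ c) = c from g.apply_symm_apply _,
      show g (g⁻¹ d) = d from g.apply_symm_apply _] at h3
  have hcop : ¬ (c' = o ∨ c' = p) := fun h1 => hne' (hr.share' hop hcd' hrel' h1)
  have hdop : ¬ (d' = o ∨ d' = p) := by
    intro h1
    rw [Finset.pair_comm c' d'] at hrel' hne'
    exact hne' (hr.share' hop (Ne.symm hcd') hrel' h1)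
  push Not at hcop hdop
  have hpres : ∀ T : ℕ, PresT T o p → ∀ k : Equiv.Perm (Fin n), IsT k T →
      ({k o, k p} : Finset (Fin n)) = {o, p} := by
    rintro T (⟨h1, h3⟩ | ⟨h1, h3⟩) k hk
    · rw [show k o = o from Fin.ext (by rw [hk, h1]), show k p = p from Fin.ext (by rw [hk, h3])]
    · rw [show k o = p from Fin.ext (by rw [hk, h1]), show k p = o from Fin.ext (by rw [hk, h3]),
        Finset.pair_comm]
  have hmain := reach_ind h (fun x => x ≠ o → x ≠ p → ∀ y, y ≠ o → y ≠ p → y ≠ x →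
      ¬ r {o, p} {x, y}) (by
    intro x hx hxo hxp y hyo hyp hyx hxy
    obtain ⟨W, D, hW, hmoved, hD⟩ := hroot x hx
    have h1 := (List.all_eq_true.1 hmoved) y (List.mem_range.2 y.2)
    simp only [Bool.or_eq_true, List.contains_iff_mem, List.any_eq_true, Bool.not_eq_true',
      beq_eq_false_iff_ne, List.mem_cons] at h1
    rcases h1 with (h1 | h1 | h1 | h1) | ⟨T, hTW, hTy⟩
    · exact hyo (Fin.ext h1)
    · exact hyp (Fin.ext h1)
    · exact hyx (Fin.ext h1)
    · obtain ⟨K, m, ⟨k, hk, hkK⟩, hKo, hKp, hm, hiff⟩ := hD y h1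
      have hko : k o = x := Fin.ext (by rw [hkK, hKo])
      have hkp : k p = y := Fin.ext (by rw [hkK, hKp])
      have hgood : ∀ m : List ℕ, (∀ i ∈ m, i < (K :: H).length) →
          ∃ g ∈ G, (∀ z : Fin n, (g z : ℕ) = evalW (K :: H) m z) ∧ r {o, p} {g o, g p} := by
        intro m
        induction m with
        | nil => exact fun _ => ⟨1, G.one_mem, fun z => rfl, hr.equiv.refl _⟩
        | cons i m ih =>
          intro hm
          obtain ⟨g, hg, h3, h4⟩ := ih fun j hj => hm j (List.mem_cons_of_mem _ hj)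
          have hi : i < (K :: H).length := hm i List.mem_cons_self
          obtain ⟨l, hl, hlT, hlr⟩ : ∃ l ∈ G, IsT l ((K :: H).getD i 0) ∧
              r {o, p} {l o, l p} := by
            rw [List.getD_eq_getElem _ _ hi]
            have hmem := List.getElem_mem hi
            rcases List.mem_cons.1 hmem with h5 | h5
            · rw [h5]
              exact ⟨k, hk, hkK, by rw [hko, hkp]; exact hxy⟩
            · obtain ⟨⟨l, hl, hlT⟩, hpresT⟩ := hH _ h5
              exact ⟨l, hl, hlT, by rw [hpres _ hpresT l hlT]; exact hr.equiv.refl _⟩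
          refine ⟨l * g, G.mul_mem hl hg, fun z => ?_, ?_⟩
          · rw [Equiv.Perm.mul_apply, hlT, h3]
            rfl
          · exact hr.equiv.trans hlr (hsm l hl h4)
      obtain ⟨g, hg, h3, h4⟩ := hgood m hm
      have hgne : g o ≠ g p := fun h5 => hop (g.injective h5)
      have hfo : ∀ z w : Fin n, g z = w ↔ evalW (K :: H) m z = w := by
        intro z w
        rw [← h3]
        exact ⟨fun h5 => by rw [h5], fun h5 => Fin.ext h5⟩
      rw [← hfo, ← hfo, ← hfo, ← hfo] at hiff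
      by_cases h5 : g o = o ∨ g o = p
      · have h6 := hiff.1 h5
        have h7 := hr.share' hop hgne h4 h5
        apply h6
        have h8 : g p ∈ ({o, p} : Finset (Fin n)) := by
          rw [h7]; exact Finset.mem_insert_of_mem (Finset.mem_singleton_self _)
        simpa using h8
      · have h6 : g p = o ∨ g p = p := by
          by_contra h7
          exact h5 (hiff.2 h7)
        rw [Finset.pair_comm (g o)] at h4
        have h7 := hr.share' hop (Ne.symm hgne) h4 h6
        apply h5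
        have h8 : g o ∈ ({o, p} : Finset (Fin n)) := by
          rw [h7]; exact Finset.mem_insert_of_mem (Finset.mem_singleton_self _)
        simpa using h8
    · obtain ⟨⟨k, hk, hkT⟩, hkpres, hkx⟩ := hW T hTW
      have hkx' : k x = x := Fin.ext (by rw [hkT, hkx])
      have hky : k y ≠ y := by
        intro h3
        apply hTy
        rw [← hkT, h3]
      have h3 := hsm k hk hxy
      rw [hpres T hkpres k hkT, hkx'] at h3
      have h4 := hr.equiv.trans (hr.equiv.symm hxy) h3
      have h5 := hr.share x y (k y) (Ne.symm hyx) (fun h6 => hyx (k.injective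
        (by rw [← h6, hkx']))) h4
      exact hky h5.symm) (by
    intro T hTH x y hx hQ hy hyo hyp z hzo hzp hzy hyz
    obtain ⟨⟨k, hk, hkT⟩, hkpres⟩ := hH T hTH
    have hkx : k x = y := Fin.ext (by rw [hkT, hy])
    have hkx' : k⁻¹ y = x := by rw [Equiv.Perm.inv_eq_iff_eq, hkx]
    simp only [List.mem_cons, List.not_mem_nil, or_false, not_or] at hx
    have hxo : x ≠ o := fun h0 => hx.1 (by rw [h0])
    have hxp : x ≠ p := fun h0 => hx.2 (by rw [h0])
    have h3 := hsm k⁻¹ (G.inv_mem hk) hyz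
    have h4 := hpres T hkpres k hkT
    have h5 : ({k⁻¹ o, k⁻¹ p} : Finset (Fin n)) = {o, p} := by
      have h6 := congrArg (fun s : Finset (Fin n) => s.image (k⁻¹ : Equiv.Perm (Fin n))) h4
      simp only [Finset.image_insert, Finset.image_singleton] at h6
      rw [show k⁻¹ (k o) = o from k.symm_apply_apply _,
        show k⁻¹ (k p) = p from k.symm_apply_apply _] at h6
      exact h6.symm
    rw [h5, hkx'] at h3
    have hz : k⁻¹ z ≠ o ∧ k⁻¹ z ≠ p := by
      have h6 : ∀ q : Fin n, q ∈ ({o, p} : Finset (Fin n)) → k q ∈ ({o, p} : Finset (Fin n)) := by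
        intro q hq
        rw [← h4]
        rw [Finset.mem_insert, Finset.mem_singleton] at hq ⊢
        rcases hq with rfl | rfl
        · exact Or.inl rfl
        · exact Or.inr rfl
      constructor
      · intro h7
        have h8 := h6 (k⁻¹ z) (by rw [h7]; exact Finset.mem_insert_self _ _)
        rw [show k (k⁻¹ z) = z from k.apply_symm_apply _, Finset.mem_insert,
          Finset.mem_singleton] at h8
        rcases h8 with h8 | h8
        · exact hzo h8
        · exact hzp h8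
      · intro h7
        have h8 := h6 (k⁻¹ z) (by
          rw [h7]; exact Finset.mem_insert_of_mem (Finset.mem_singleton_self _))
        rw [show k (k⁻¹ z) = z from k.apply_symm_apply _, Finset.mem_insert,
          Finset.mem_singleton] at h8
        rcases h8 with h8 | h8
        · exact hzo h8
        · exact hzp h8
    refine hQ hxo hxp (k⁻¹ z) hz.1 hz.2 ?_ h3
    intro h6
    apply hzy
    rw [← hkx, ← h6]
    exact (k.apply_symm_apply z).symm)
  refine hmain c' ?_ hcop.1 hcop.2 d' hdop.1 hdop.2 (Ne.symm hcd') hrel'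
  simp only [List.mem_cons, List.not_mem_nil, or_false, not_or]
  exact ⟨fun h0 => hcop.1 (Fin.ext h0), fun h0 => hcop.2 (Fin.ext h0)⟩

end

end Pool.Agent.Helper37.Prim
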