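import Mathlib

/-!
# Three generalisations of primitivity (MP_13dc8a_al): the group `G₂(2)'` acting on `𝔽₂⁶`
-/

namespace Pool.Agent.Helper37.Prim

/-- The first generator of `G₂(2)'`, of order `12`. -/
def g2A : Matrix (Fin 6) (Fin 6) (ZMod 2) :=
  !![0, 1, 0, 1, 0, 1; 1, 0, 0, 0, 1, 1; 0, 1, 1, 1, 1, 1; 0, 0, 1, 1, 1, 0; 1, 0, 0, 0, 1, 0; 0, 0, 1, 1, 0, 0]

/-- The second generator of `G₂(2)'`, of order `8`. -/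
def g2B : Matrix (Fin 6) (Fin 6) (ZMod 2) :=
  !![1, 0, 0, 1, 1, 1; 1, 0, 0, 0, 1, 1; 0, 0, 0, 0, 1, 0; 1, 1, 0, 0, 0, 0; 1, 0, 1, 1, 0, 0; 1, 0, 1, 0, 1, 1]

end Pool.Agent.Helper37.Prim
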