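import Pool.Agent.Helper37.Prim.PermL

/-!
# Three generalisations of primitivity (MP_13dc8a_al): the Higman-Sims group acting on 176 points
-/

namespace Pool.Agent.Helper37.Prim

/-- The images of the first generator, of order `2`. -/
def hsA : List ℕ :=
  [81, 45, 2, 71, 112, 27, 52, 76, 31, 133, 47, 130, 116, 119, 143, 148, 89, 158, 18, 166, 69,
  21, 35, 58, 94, 50, 26, 5, 135, 156, 84, 8, 162, 138, 56, 22, 103, 79, 96, 108, 40, 149, 53,
  146, 173, 1, 46, 10, 95, 70, 25, 120, 6, 42, 82, 64, 34, 139, 23, 128, 163, 61, 132, 110, 55,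
  74, 114, 91, 117, 20, 49, 3, 141, 92, 65, 75, 7, 168, 154, 37, 164, 0, 54, 123, 30, 109, 90,
  137, 124, 16, 86, 67, 73, 175, 24, 48, 38, 102, 134, 121, 100, 111, 97, 36, 151, 105, 174,
  160, 39, 85, 63, 101, 4, 122, 66, 115, 12, 68, 172, 13, 51, 99, 113, 83, 88, 169, 152, 127,
  59, 140, 11, 131, 62, 9, 98, 28, 159, 87, 33, 57, 129, 72, 153, 14, 144, 167, 43, 157, 15,
  41, 150, 104, 126, 142, 78, 161, 29, 147, 17, 136, 107, 155, 32, 60, 80, 171, 19, 145, 77,
  125, 170, 165, 118, 44, 106, 93]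

/-- The images of the second generator, of order `5`. -/
def hsB : List ℕ :=
  [132, 89, 91, 99, 93, 56, 126, 23, 35, 78, 85, 36, 77, 41, 22, 110, 105, 167, 63, 135, 19,
  121, 92, 106, 143, 112, 175, 102, 156, 58, 170, 161, 137, 109, 26, 69, 127, 165, 34, 27, 94,
  73, 166, 62, 158, 140, 128, 133, 153, 90, 148, 139, 0, 70, 3, 2, 54, 38, 172, 18, 118, 104,
  169, 142, 10, 59, 123, 30, 173, 114, 129, 12, 83, 81, 82, 101, 45, 68, 157, 61, 1, 120, 43,
  9, 116, 40, 113, 8, 88, 149, 95, 154, 131, 144, 64, 28, 46, 14, 55, 5, 50, 174, 159, 29, 162,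
  164, 155, 103, 80, 138, 168, 20, 171, 33, 87, 119, 4, 6, 25, 67, 13, 150, 24, 16, 52, 145,
  48, 152, 32, 136, 124, 97, 130, 100, 11, 151, 147, 96, 86, 75, 125, 17, 65, 37, 84, 76, 79,
  53, 47, 108, 31, 111, 134, 117, 98, 160, 49, 72, 141, 163, 7, 21, 146, 39, 66, 122, 15, 44,
  42, 74, 115, 60, 107, 71, 51, 57]

/-- The images of the inverse of the second generator. -/
def hsB' : List ℕ :=
  [52, 80, 55, 54, 116, 99, 117, 160, 87, 83, 64, 134, 71, 120, 97, 166, 123, 141, 59, 20, 111,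
  161, 14, 7, 122, 118, 34, 39, 95, 103, 67, 150, 128, 113, 38, 8, 11, 143, 57, 163, 85, 13,
  168, 82, 167, 76, 96, 148, 126, 156, 100, 174, 124, 147, 56, 98, 5, 175, 29, 65, 171, 79, 43,
  18, 94, 142, 164, 119, 77, 35, 53, 173, 157, 41, 169, 139, 145, 12, 9, 146, 108, 73, 74, 72,
  144, 10, 138, 114, 88, 1, 49, 2, 22, 4, 40, 90, 137, 131, 154, 3, 133, 75, 27, 107, 61, 16,
  23, 172, 149, 33, 15, 151, 25, 86, 69, 170, 84, 153, 60, 115, 81, 21, 165, 66, 130, 140, 6,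
  36, 46, 70, 132, 92, 0, 47, 152, 19, 129, 32, 109, 51, 45, 158, 63, 24, 93, 125, 162, 136,
  50, 89, 121, 135, 127, 48, 91, 106, 28, 78, 44, 102, 155, 31, 104, 159, 105, 37, 42, 17, 110,
  62, 30, 112, 58, 68, 101, 26]

/-- The group generated by the two permutations. -/
def HS : Subgroup (Equiv.Perm (Fin 176)) :=
  Subgroup.closure {permL 176 hsA hsA (by decide +kernel) (by decide +kernel),
    permL 176 hsB hsB' (by decide +kernel) (by decide +kernel)}

end Pool.Agent.Helper37.Prim
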