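import Pool.Agent.Helper37.Prim.Proj2Case

/-!
# Three generalisations of primitivity (MP_13dc8a_al): `2`-set primitive groups containing
`PSL(2, K)`
-/

namespace Pool.Agent.Helper37.Prim

open Matrix OnePoint MulAction
open scoped Pointwise

section PSigma

variable (K : Type*) [Field K] [DecidableEq K]

/-- The group `PΣL(2, K)` acting on the projective line: all permutations `x ↦ g • σ(x)`, with
`g ∈ SL(2, K)` and `σ` an automorphism of the field `K`. -/
def PSigmaL : Subgroup (Equiv.Perm (OnePoint K)) where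
  carrier := {π | ∃ (g : GL (Fin 2) K) (σ : K ≃+* K),
    (g : Matrix (Fin 2) (Fin 2) K).det = 1 ∧ ∀ x, π x = g • OnePoint.map σ x}
  mul_mem' := by
    rintro π ρ ⟨g, σ, hg, h⟩ ⟨g', σ', hg', h'⟩
    refine ⟨g * g'.map (σ : K →+* K), σ'.trans σ, ?_, fun x => ?_⟩
    · rw [Matrix.GeneralLinearGroup.coe_mul, Matrix.det_mul, hg, one_mul]
      have h1 : ((g'.map (σ : K →+* K) : GL (Fin 2) K) : Matrix (Fin 2) (Fin 2) K) =
          (σ : K →+* K).mapMatrix (g' : Matrix (Fin 2) (Fin 2) K) := rfl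
      rw [h1, ← RingHom.map_det, hg', map_one]
    · have h1 := OnePoint.map_smul (σ : K →+* K) g' (OnePoint.map σ' x)
      rw [Equiv.Perm.mul_apply, h, h', mul_smul]
      congr 1
      refine Eq.trans h1 ?_
      congr 1
      cases x <;> rfl
  one_mem' := ⟨1, RingEquiv.refl K, by simp, fun x => by
    rw [one_smul]
    cases x <;> rfl⟩
  inv_mem' := by
    rintro π ⟨g, σ, hg, h⟩
    refine ⟨(g⁻¹).map (σ.symm : K →+* K), σ.symm, ?_, fun x => ?_⟩
    · have h1 : (((g⁻¹).map (σ.symm : K →+* K) : GL (Fin 2) K) : Matrix (Fin 2) (Fin 2) K) =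
          (σ.symm : K →+* K).mapMatrix ((g⁻¹ : GL (Fin 2) K) : Matrix (Fin 2) (Fin 2) K) := rfl
      rw [h1, ← RingHom.map_det, Matrix.coe_units_inv, Matrix.det_nonsing_inv, hg,
        Ring.inverse_one, map_one]
    rw [Equiv.Perm.inv_eq_iff_eq, h]
    have h1 := OnePoint.map_smul (σ : K →+* K) ((g⁻¹).map (σ.symm : K →+* K))
      (OnePoint.map σ.symm x)
    have h2 : OnePoint.map σ (OnePoint.map σ.symm x) = x := by
      cases x with
      | infty => rfl
      | coe c => exact congrArg OnePoint.some (σ.apply_symm_apply c)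
    have h3 : ((g⁻¹).map (σ.symm : K →+* K)).map (σ : K →+* K) = g⁻¹ := by
      ext i j
      exact σ.apply_symm_apply _
    have h4 : OnePoint.map (σ : K →+* K) (((g⁻¹).map (σ.symm : K →+* K)) •
      (OnePoint.map σ.symm x)) = g⁻¹ • x := by
      rw [h1, h3]
      congr 1
    have h5 : OnePoint.map σ (((g⁻¹).map (σ.symm : K →+* K)) •
      (OnePoint.map σ.symm x)) = g⁻¹ • x := h4
    rw [h5, smul_inv_smul]

end PSigma

section Square

variable {K : Type*} [Field K] [Fintype K] [DecidableEq K]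

omit [DecidableEq K] in
theorem isSquare_mul_of_not (x y : K) (hx : ¬ IsSquare x) (hy : ¬ IsSquare y) :
    IsSquare (x * y) := by
  classical
  have hx0 : x ≠ 0 := by rintro rfl; exact hx ⟨0, by ring⟩
  have hy0 : y ≠ 0 := by rintro rfl; exact hy ⟨0, by ring⟩
  rw [← quadraticChar_one_iff_isSquare (mul_ne_zero hx0 hy0), map_mul,
    quadraticChar_neg_one_iff_not_isSquare.2 hx, quadraticChar_neg_one_iff_not_isSquare.2 hy]
  norm_num

omit [DecidableEq K] in
theorem isSquare_ringEquiv_div (σ : K ≃+* K) {u : K} (hu : u ≠ 0) : IsSquare (σ u / u) := by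
  by_cases h : IsSquare u
  · obtain ⟨b, hb⟩ := h
    refine ⟨σ b / b, ?_⟩
    rw [hb, map_mul]
    have : b ≠ 0 := by rintro rfl; exact hu (by rw [hb, mul_zero])
    field_simp
  · rw [div_eq_mul_inv]
    apply isSquare_mul_of_not
    · rintro ⟨b, hb⟩
      apply h
      refine ⟨σ.symm b, ?_⟩
      rw [← map_mul, ← hb, σ.symm_apply_apply]
    · intro h2
      apply h
      rw [← inv_inv u]
      exact h2.inv

end Square

section Tau

variable {K : Type*} [Field K] [Finite K] [DecidableEq K]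
  {G : Subgroup (Equiv.Perm (OnePoint K))}

omit [Finite K] in
/-- The elements of `PSL(2, K)` and field automorphisms. -/
theorem mem_PSigmaL_of {π : Equiv.Perm (OnePoint K)} {ρ : Equiv.Perm (OnePoint K)}
    (hρ : ρ ∈ PSL K) (σ : K ≃+* K) (h : ∀ x, π x = ρ (OnePoint.map σ x)) : π ∈ PSigmaL K := by
  obtain ⟨g, hg, h'⟩ := hρ
  exact ⟨g, σ, hg, fun x => by rw [h, h']⟩

omit [Finite K] in
theorem PSL_le_PSigmaL : PSL K ≤ PSigmaL K := by
  intro π hπ
  exact mem_PSigmaL_of hπ (RingEquiv.refl K) (fun x => by congr 1; cases x <;> rfl)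

omit [Finite K] in
theorem PSigmaL_le_PGammaL : PSigmaL K ≤ PGammaL K := by
  rintro π ⟨g, σ, -, h⟩
  exact ⟨g, σ, h⟩

omit [Finite K] in
/-- A subgroup of `PΓL(2, K)` which contains `PSL(2, K)` and is not contained in `PΣL(2, K)`
contains some `x ↦ a σ(x)`, `a` not a square. -/
theorem exists_nonsquare (hG : PSL K ≤ G) (hG' : G ≤ PGammaL K) (hn : ¬ G ≤ PSigmaL K) :
    ∃ τ ∈ G, ∃ (a : K) (σ : K ≃+* K), ¬ IsSquare a ∧ τ ∞ = ∞ ∧
      ∀ x : K, τ (x : OnePoint K) = ((a * σ x : K) : OnePoint K) := by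
  obtain ⟨π, hπ, hπn⟩ : ∃ π ∈ G, π ∉ PSigmaL K := by
    by_contra hne
    push Not at hne
    exact hn hne
  obtain ⟨g, σ, h⟩ := hG' hπ
  have hne : π ∞ ≠ π ((0 : K) : OnePoint K) := by
    intro h0
    exact OnePoint.coe_ne_infty (0 : K) (π.injective h0).symm
  obtain ⟨ρ, hρ, h1, h2⟩ := PSL_two_trans hne
  obtain ⟨g', hg', h'⟩ := id hρ
  have e0 : OnePoint.map σ (∞ : OnePoint K) = ∞ := rfl
  have e1 : ∀ x : K, OnePoint.map σ (x : OnePoint K) = ((σ x : K) : OnePoint K) := fun _ => rfl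
  set m : GL (Fin 2) K := g'⁻¹ * g with hm
  have hm1 : m • (∞ : OnePoint K) = ∞ := by
    rw [hm, mul_smul, inv_smul_eq_iff, ← h', h1, h, e0]
  have hm2 : m • ((0 : K) : OnePoint K) = ((0 : K) : OnePoint K) := by
    rw [hm, mul_smul, inv_smul_eq_iff, ← h', h2, h, e1, map_zero]
  have hc : m 1 0 = 0 := by
    rw [smul_infty_eq_ite] at hm1
    by_contra h0
    rw [if_neg h0] at hm1
    exact OnePoint.coe_ne_infty _ hm1
  have hdet : (m : Matrix (Fin 2) (Fin 2) K).det = m 0 0 * m 1 1 := by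
    rw [Matrix.det_fin_two, hc, mul_zero, sub_zero]
  have hne0 : m 0 0 * m 1 1 ≠ 0 := by
    rw [← hdet]
    exact m.det_ne_zero
  have hd : m 1 1 ≠ 0 := right_ne_zero_of_mul hne0
  have hb : m 0 1 = 0 := by
    rw [smul_some_eq_ite, hc, zero_mul, zero_add, if_neg hd, mul_zero, zero_add,
      OnePoint.coe_eq_coe, div_eq_zero_iff] at hm2
    tauto
  have hmx : ∀ x : K, m • (x : OnePoint K) = ((m 0 0 / m 1 1 * x : K) : OnePoint K) := by
    intro x
    rw [smul_some_eq_ite, hc, zero_mul, zero_add, if_neg hd, hb, add_zero, div_mul_eq_mul_div]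
  have hinv : ∀ y, ρ⁻¹ y = g'⁻¹ • y := by
    intro y
    rw [Equiv.Perm.inv_eq_iff_eq, h', smul_inv_smul]
  refine ⟨ρ⁻¹ * π, G.mul_mem (G.inv_mem (hG hρ)) hπ, m 0 0 / m 1 1, σ, ?_, ?_, ?_⟩
  · rintro ⟨e, he⟩
    apply hπn
    have hmdet : (m : Matrix (Fin 2) (Fin 2) K).det = (e * m 1 1) ^ 2 := by
      rw [hdet]
      rw [div_eq_iff hd] at he
      rw [he]; ring
    have h3 := toPerm_mem_PSL hmdet
    have h4 := (PSL K).mul_mem hρ h3
    refine mem_PSigmaL_of h4 σ (fun x => ?_)
    rw [Equiv.Perm.mul_apply, MulAction.toPerm_apply, h', h, hm, mul_smul, smul_inv_smul]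
  · rw [Equiv.Perm.mul_apply, h, e0, hinv, ← mul_smul, ← hm, hm1]
  · intro x
    rw [Equiv.Perm.mul_apply, h, e1, hinv, ← mul_smul, ← hm, hmx]

omit [DecidableEq K] in
/-- Automorphisms of a field of prime order are trivial. -/
theorem ringEquiv_eq_of_prime (hp : (Nat.card K).Prime) (σ : K ≃+* K) (x : K) : σ x = x := by
  have := Fintype.ofFinite K
  rw [Nat.card_eq_fintype_card] at hp
  have : Fact (Fintype.card K).Prime := ⟨hp⟩
  let e := ZMod.ringEquivOfPrime K hp rfl
  obtain ⟨n, rfl⟩ := e.surjective x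
  have h : ((σ : K →+* K).comp (e : ZMod (Fintype.card K) →+* K)) = (e : _ →+* K) :=
    Subsingleton.elim _ _
  exact DFunLike.congr_fun h n

end Tau

section Count

variable {K : Type*} [Field K] [Fintype K] [DecidableEq K] [DecidableEq (OnePoint K)]
  {G : Subgroup (Equiv.Perm (OnePoint K))} {r : Finset (OnePoint K) → Finset (OnePoint K) → Prop}

omit [Fintype K] [DecidableEq K] in
theorem PairRel.exists_PP (h : PairRel G (OnePoint K) r) {x y : OnePoint K} (hxy : x ≠ y)
    (hr : r {∞, ((0 : K) : OnePoint K)} {x, y})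
    (hne : ({∞, ((0 : K) : OnePoint K)} : Finset (OnePoint K)) ≠ {x, y}) :
    ∃ u v : K, u ≠ 0 ∧ v ≠ 0 ∧ u ≠ v ∧ PP r u v := by
  have hinf0 : (∞ : OnePoint K) ≠ ((0 : K) : OnePoint K) := (OnePoint.coe_ne_infty 0).symm
  have hx : ¬ (x = ∞ ∨ x = ((0 : K) : OnePoint K)) := fun h1 => hne (h.share' hinf0 hxy hr h1)
  have hy : ¬ (y = ∞ ∨ y = ((0 : K) : OnePoint K)) := by
    intro h1
    rw [Finset.pair_comm x y] at hr hne
    exact hne (h.share' hinf0 (Ne.symm hxy) hr h1)
  push Not at hx hy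
  obtain ⟨u, rfl⟩ := OnePoint.ne_infty_iff_exists.1 hx.1
  obtain ⟨v, rfl⟩ := OnePoint.ne_infty_iff_exists.1 hy.1
  exact ⟨u, v, fun h0 => hx.2 (by rw [h0]), fun h0 => hy.2 (by rw [h0]),
    fun h0 => hxy (by rw [h0]), hr⟩

/-- Case 1 gives `q ≤ 9`. -/
theorem PairRel.card_le_of_neg (hG : PSL K ≤ G) (h : PairRel G (OnePoint K) r)
    (h2 : (2 : K) ≠ 0) {u : K} (hu : u ≠ 0) (huu : PP r u (-u)) : Fintype.card K ≤ 9 := by
  have h1 := card_Yset (K := K) (k := -2) (neg_ne_zero.2 h2)
  have h3 : Yset K (-2) ⊆ insert 1 (insert (-1)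
      ((Yset K (-2)).filter (fun y => 1 * y ^ 2 + 0 * y + 1 = 0))) := by
    intro y hy
    obtain ⟨hy0, e, he⟩ := mem_Yset.1 hy
    rw [Finset.mem_insert, Finset.mem_insert, Finset.mem_filter]
    by_cases hy1 : y = 1
    · exact Or.inl hy1
    by_cases hy2 : y = -1
    · exact Or.inr (Or.inl hy2)
    refine Or.inr (Or.inr ⟨hy, ?_⟩)
    have hs : y / u ≠ 0 := div_ne_zero hy0 hu
    have hsu : y / u * u = y := div_mul_cancel₀ _ hu
    have h4 := h.case1 hG h2 hu hu hs huu huu (e := e)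
      (by linear_combination he - 2 * hsu) (by rw [hsu]; exact hy1) (by rw [hsu]; exact hy2)
    rw [hsu] at h4
    linear_combination h4
  have h4 := Finset.card_le_card h3
  have h5 := card_quadratic_le 1 0 1 one_ne_zero
    ((Yset K (-2)).filter (fun y => 1 * y ^ 2 + 0 * y + 1 = 0))
    (fun y hy => (Finset.mem_filter.1 hy).2)
  have h6 := Finset.card_insert_le (1 : K) (insert (-1)
      ((Yset K (-2)).filter (fun y => 1 * y ^ 2 + 0 * y + 1 = 0)))
  have h7 := Finset.card_insert_le (-1 : K)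
      ((Yset K (-2)).filter (fun y => 1 * y ^ 2 + 0 * y + 1 = 0))
  omega

/-- If `{∞, 0}` is related to all `{w, -w}` then `q ≤ 5`. -/
theorem PairRel.card_le_of_neg_all (hG : PSL K ≤ G) (h : PairRel G (OnePoint K) r)
    (h2 : (2 : K) ≠ 0) (hall : ∀ w : K, w ≠ 0 → PP r w (-w)) : Fintype.card K ≤ 5 := by
  have h3 : (Finset.univ : Finset K).erase 0 ⊆ insert 1 (insert (-1)
      (Finset.univ.filter (fun y : K => 1 * y ^ 2 + 0 * y + 1 = 0))) := by
    intro y hy
    have hy0 := (Finset.mem_erase.1 hy).1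
    rw [Finset.mem_insert, Finset.mem_insert, Finset.mem_filter]
    by_cases hy1 : y = 1
    · exact Or.inl hy1
    by_cases hy2 : y = -1
    · exact Or.inr (Or.inl hy2)
    refine Or.inr (Or.inr ⟨Finset.mem_univ _, ?_⟩)
    have hw : y / -2 ≠ 0 := div_ne_zero hy0 (neg_ne_zero.2 h2)
    have hsw : -2 * (y / -2) = y := mul_div_cancel₀ _ (neg_ne_zero.2 h2)
    have h4 := h.case1 hG h2 one_ne_zero hw (neg_ne_zero.2 h2) (hall 1 one_ne_zero)
      (hall _ hw) (e := 2) (by ring) (by rw [hsw]; exact hy1) (by rw [hsw]; exact hy2)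
    rw [hsw] at h4
    linear_combination h4
  have h4 := Finset.card_le_card h3
  rw [Finset.card_erase_of_mem (Finset.mem_univ _), Finset.card_univ] at h4
  have h5 := card_quadratic_le 1 0 1 one_ne_zero
    (Finset.univ.filter (fun y : K => 1 * y ^ 2 + 0 * y + 1 = 0))
    (fun y hy => (Finset.mem_filter.1 hy).2)
  have h6 := Finset.card_insert_le (1 : K) (insert (-1)
      (Finset.univ.filter (fun y : K => 1 * y ^ 2 + 0 * y + 1 = 0)))
  have h7 := Finset.card_insert_le (-1 : K)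
      (Finset.univ.filter (fun y : K => 1 * y ^ 2 + 0 * y + 1 = 0))
  omega

/-- In case 2 the set `Yset K (c - 1)` is small. -/
theorem PairRel.case2_subset (hG : PSL K ≤ G) (h : PairRel G (OnePoint K) r) {u c : K}
    (hu : u ≠ 0) (hc : ¬ IsSquare c) (huc : PP r u (c * u)) {y : K} (hy : y ∈ Yset K (c - 1)) :
    (y = -1 ∧ c = -1) ∨ y = -c⁻¹ ∨ c ^ 2 * y ^ 2 + (1 + c) * y + 1 = 0 ∨
      c ^ 2 * y ^ 2 + c * (c + 1) * y + 1 = 0 := by
  have hc0 : c ≠ 0 := by rintro rfl; exact hc ⟨0, by ring⟩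
  obtain ⟨hy0, e, he⟩ := mem_Yset.1 hy
  have hs : y / u ≠ 0 := div_ne_zero hy0 hu
  have hsu : y / u * u = y := div_mul_cancel₀ _ hu
  have h4 := h.case2 hG isSquare_mul_of_not hu hc hs huc (e := e)
    (by linear_combination he + (c - 1) * hsu)
  rw [hsu] at h4
  rcases h4 with h4 | h4 | h4 | h4
  · exact Or.inl h4
  · right; left
    rw [← mul_right_inj' hc0, mul_neg, mul_inv_cancel₀ hc0]
    linear_combination h4
  · exact Or.inr (Or.inr (Or.inl h4))
  · exact Or.inr (Or.inr (Or.inr h4))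

/-- Case 2 gives `q ≤ 11`. -/
theorem PairRel.card_le_of_nonsquare (hG : PSL K ≤ G) (h : PairRel G (OnePoint K) r) {u c : K}
    (hu : u ≠ 0) (hc : ¬ IsSquare c) (huc : PP r u (c * u)) : Fintype.card K ≤ 11 := by
  have hc0 : c ≠ 0 := by rintro rfl; exact hc ⟨0, by ring⟩
  have hc1 : c - 1 ≠ 0 := by
    intro h0
    exact hc ⟨1, by linear_combination h0⟩
  have h1 := card_Yset (K := K) hc1
  set Y := Yset K (c - 1) with hY
  have hc2 : c ^ 2 ≠ 0 := pow_ne_zero _ hc0
  set A := Y.filter (fun y => c ^ 2 * y ^ 2 + (1 + c) * y + 1 = 0) with hA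
  set B := Y.filter (fun y => c ^ 2 * y ^ 2 + c * (c + 1) * y + 1 = 0) with hB
  have h5 := card_quadratic_le (c ^ 2) (1 + c) 1 hc2 A (fun y hy => (Finset.mem_filter.1 hy).2)
  have h6 := card_quadratic_le (c ^ 2) (c * (c + 1)) 1 hc2 B
    (fun y hy => (Finset.mem_filter.1 hy).2)
  by_cases hcm : c = -1
  · have h3 : Y ⊆ insert (-1) (insert (-c⁻¹) A) := by
      intro y hy
      rw [Finset.mem_insert, Finset.mem_insert, Finset.mem_filter]
      rcases h.case2_subset hG hu hc huc hy with h4 | h4 | h4 | h4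
      · exact Or.inl h4.1
      · exact Or.inr (Or.inl h4)
      · exact Or.inr (Or.inr ⟨hy, h4⟩)
      · refine Or.inr (Or.inr ⟨hy, ?_⟩)
        rw [hcm] at h4 ⊢
        linear_combination h4
    have h4 := Finset.card_le_card h3
    have h7 := Finset.card_insert_le (-1 : K) (insert (-c⁻¹) A)
    have h8 := Finset.card_insert_le (-c⁻¹) A
    omega
  · have h3 : Y ⊆ insert (-c⁻¹) (A ∪ B) := by
      intro y hy
      rw [Finset.mem_insert, Finset.mem_union, Finset.mem_filter, Finset.mem_filter]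
      rcases h.case2_subset hG hu hc huc hy with h4 | h4 | h4 | h4
      · exact absurd h4.2 hcm
      · exact Or.inl h4
      · exact Or.inr (Or.inl ⟨hy, h4⟩)
      · exact Or.inr (Or.inr ⟨hy, h4⟩)
    have h4 := Finset.card_le_card h3
    have h7 := Finset.card_insert_le (-c⁻¹) (A ∪ B)
    have h8 := Finset.card_union_le A B
    omega

/-- In characteristic `3`, case 2 gives `q ≤ 7` if `-1` is a square. -/
theorem PairRel.card_le_of_nonsquare_three (hG : PSL K ≤ G) (h : PairRel G (OnePoint K) r)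
    (h3 : (3 : K) = 0) (hm : IsSquare (-1 : K)) {u c : K}
    (hu : u ≠ 0) (hc : ¬ IsSquare c) (huc : PP r u (c * u)) : Fintype.card K ≤ 7 := by
  have hc0 : c ≠ 0 := by rintro rfl; exact hc ⟨0, by ring⟩
  have hc1 : c - 1 ≠ 0 := by
    intro h0
    exact hc ⟨1, by linear_combination h0⟩
  have h1 := card_Yset (K := K) hc1
  set Y := Yset K (c - 1) with hY
  have hc2 : c ^ 2 ≠ 0 := pow_ne_zero _ hc0
  set A := Y.filter (fun y => c ^ 2 * y ^ 2 + (1 + c) * y + 1 = 0) with hA
  set B := Y.filter (fun y => c ^ 2 * y ^ 2 + c * (c + 1) * y + 1 = 0) with hB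
  have h5 := card_quadratic_le (c ^ 2) (1 + c) 1 hc2 A (fun y hy => (Finset.mem_filter.1 hy).2)
  have h6 := card_quadratic_le (c ^ 2) (c * (c + 1)) 1 hc2 B
    (fun y hy => (Finset.mem_filter.1 hy).2)
  have hcm : c ≠ -1 := by rintro rfl; exact hc hm
  have hAB : (A ∪ B).card ≤ 2 := by
    by_cases hAe : A = ∅
    · rw [hAe, Finset.empty_union]; exact h6
    by_cases hBe : B = ∅
    · rw [hBe, Finset.union_empty]; exact h5
    exfalso
    obtain ⟨y, hy⟩ := Finset.nonempty_iff_ne_empty.2 hAe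
    obtain ⟨z, hz⟩ := Finset.nonempty_iff_ne_empty.2 hBe
    have hy' := (Finset.mem_filter.1 hy).2
    have hz' := (Finset.mem_filter.1 hz).2
    have e1 : (2 * c ^ 2 * y + (1 + c)) ^ 2 = 1 - c := by
      linear_combination (4 * c ^ 2) * hy' + (c - c ^ 2) * h3
    have e2 : (2 * c ^ 2 * z + c * (c + 1)) ^ 2 = c ^ 3 * (c - 1) := by
      linear_combination (4 * c ^ 2) * hz' + (c ^ 3 - c ^ 2) * h3
    obtain ⟨i, hi⟩ := hm
    have hne : 2 * c ^ 2 * y + (1 + c) ≠ 0 := by
      intro h0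
      rw [h0] at e1
      apply hc1
      linear_combination e1
    apply hc
    refine ⟨i * (2 * c ^ 2 * z + c * (c + 1)) / (c * (2 * c ^ 2 * y + (1 + c))), ?_⟩
    rw [← pow_two, div_pow, mul_pow, mul_pow, e2, e1, pow_two i, ← hi]
    have hne' : (1 - c) ≠ 0 := by
      intro h0
      apply hc1
      linear_combination -h0
    field_simp
    ring
  have h3' : Y ⊆ insert (-c⁻¹) (A ∪ B) := by
    intro y hy
    rw [Finset.mem_insert, Finset.mem_union, Finset.mem_filter, Finset.mem_filter]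
    rcases h.case2_subset hG hu hc huc hy with h4 | h4 | h4 | h4
    · exact absurd h4.2 hcm
    · exact Or.inl h4
    · exact Or.inr (Or.inl ⟨hy, h4⟩)
    · exact Or.inr (Or.inr ⟨hy, h4⟩)
  have h4 := Finset.card_le_card h3'
  have h7 := Finset.card_insert_le (-c⁻¹) (A ∪ B)
  omega

omit [Fintype K] in
/-- The move given by `x ↦ a σ(x)`. -/
theorem PairRel.M1' (h : PairRel G (OnePoint K) r) {τ : Equiv.Perm (OnePoint K)} (hτ : τ ∈ G)
    {a : K} {σ : K ≃+* K} (hinf : τ ∞ = ∞)
    (hτx : ∀ x : K, τ (x : OnePoint K) = ((a * σ x : K) : OnePoint K)) {u v : K}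
    (huv : PP r u v) : PP r (a * σ u) (a * σ v) := by
  have h1 := h.smul hτ huv
  rw [hinf, hτx, hτx, hτx, map_zero, mul_zero] at h1
  exact h1

theorem PairRel.all_neg (hG : PSL K ≤ G) (h : PairRel G (OnePoint K) r)
    {τ : Equiv.Perm (OnePoint K)} (hτ : τ ∈ G)
    {a : K} {σ : K ≃+* K} (ha : ¬ IsSquare a) (hinf : τ ∞ = ∞)
    (hτx : ∀ x : K, τ (x : OnePoint K) = ((a * σ x : K) : OnePoint K)) {u : K} (hu : u ≠ 0)
    (huu : PP r u (-u)) {w : K} (hw : w ≠ 0) : PP r w (-w) := by
  have key : ∀ z : K, z ≠ 0 → PP r z (-z) → IsSquare (w / z) → PP r w (-w) := by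
    rintro z hz hzz ⟨b, hb⟩
    have hb0 : b ≠ 0 := by
      rintro rfl
      rw [mul_zero, div_eq_zero_iff] at hb
      tauto
    have h1 := h.M1 hG hzz hb0
    have h2 : b ^ 2 * z = w := by rw [pow_two, ← hb, div_mul_cancel₀ _ hz]
    rwa [mul_neg, h2] at h1
  by_cases h1 : IsSquare (w / u)
  · exact key u hu huu h1
  · have ha0 : a ≠ 0 := by rintro rfl; exact ha ⟨0, by ring⟩
    have hσu : σ u ≠ 0 := (map_ne_zero σ).2 hu
    apply key (a * σ u) (mul_ne_zero ha0 hσu)
    · have := h.M1' hτ hinf hτx huu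
      rwa [map_neg, mul_neg] at this
    · have h2 : w / (a * σ u) = (w / u * a⁻¹) * (σ u / u)⁻¹ := by
        field_simp
      rw [h2]
      refine IsSquare.mul (isSquare_mul_of_not _ _ h1 fun h3 => ha ?_)
        (isSquare_ringEquiv_div σ hu).inv
      rw [← inv_inv a]
      exact h3.inv

end Count

section Final

variable {K : Type*} [Field K] [Finite K] [DecidableEq K] [DecidableEq (OnePoint K)]
  {G : Subgroup (Equiv.Perm (OnePoint K))}

/-- The exceptional cases for `t = 2`. -/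
def ExcList (K : Type*) [Field K] [DecidableEq K] (G : Subgroup (Equiv.Perm (OnePoint K))) :
    Prop :=
  Nat.card K = 3 ∨ Nat.card K = 5 ∨ (Nat.card K = 7 ∧ G ≤ PSL K) ∨
    (Nat.card K = 9 ∧ G ≤ PSigmaL K) ∨ (Nat.card K = 11 ∧ G ≤ PSL K)

omit [DecidableEq (OnePoint K)] in
theorem PSigmaL_eq_PSL_of_prime (hp : (Nat.card K).Prime) : PSigmaL K = PSL K := by
  apply le_antisymm
  · rintro π ⟨g, σ, hg, h⟩
    refine ⟨g, hg, fun x => ?_⟩
    rw [h]
    congr 1
    cases x with
    | infty => rfl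
    | coe x => exact congrArg OnePoint.some (ringEquiv_eq_of_prime hp σ x)
  · exact PSL_le_PSigmaL

theorem tsetprimitive_of_not_excList (hG : PSL K ≤ G) (hG' : G ≤ PGammaL K)
    (hL : ¬ ExcList K G) : IsPreprimitive G (Set.powersetCard (OnePoint K) 2) := by
  have := Fintype.ofFinite K
  have hfinite : Finite (OnePoint K) := inferInstanceAs (Finite (Option K))
  have hinf0 : (∞ : OnePoint K) ≠ ((0 : K) : OnePoint K) := (OnePoint.coe_ne_infty 0).symm
  apply tsetprimitive_of_pairRel (tprimitive_of_PSL_le hG)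
  intro r h a b c d hab hcd hr
  by_contra hne
  obtain ⟨π, hπ, h1, h2⟩ := PSL_two_trans hab
  have hr' := h.smul (G.inv_mem (hG hπ)) hr
  rw [← h1, ← h2, show π⁻¹ (π ∞) = ∞ from π.symm_apply_apply _,
    show π⁻¹ (π ((0 : K) : OnePoint K)) = ((0 : K) : OnePoint K) from
      π.symm_apply_apply _] at hr'
  have hcd' : π⁻¹ c ≠ π⁻¹ d := fun h0 => hcd (π⁻¹.injective h0)
  obtain ⟨u, v, hu, hv, huv, hPP⟩ := h.exists_PP hcd' hr' (by
    intro h0
    apply hne
    have h3 := congrArg (fun s : Finset (OnePoint K) => s.image π) h0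
    simp only [Finset.image_insert, Finset.image_singleton] at h3
    rwa [h1, h2, show π (π⁻¹ c) = c from π.apply_symm_apply _,
      show π (π⁻¹ d) = d from π.apply_symm_apply _] at h3)
  by_cases hchar : (2 : K) = 0
  · have : CharP K 2 := CharTwo.of_one_ne_zero_of_two_eq_zero one_ne_zero hchar
    have h3 : v = -u := h.M2 hG hPP hu hv huv
      (FiniteField.isSquare_of_char_two (ringChar.eq_iff.2 this) _)
    apply huv
    rw [h3]
    linear_combination u * hchar
  have hodd : Fintype.card K % 2 = 1 := by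
    apply FiniteField.odd_card_of_char_ne_two
    intro h0
    have : CharP K 2 := ringChar.eq_iff.1 h0
    exact hchar CharTwo.two_eq_zero
  have hcard1 : 1 < Fintype.card K := Fintype.one_lt_card
  unfold ExcList at hL
  rw [Nat.card_eq_fintype_card] at hL
  have h13 : Fintype.card K ≤ 11 := by
    by_cases hsq : IsSquare (v / u)
    · have h3 : v = -u := h.M2 hG hPP hu hv huv hsq
      rw [h3] at hPP
      exact (h.card_le_of_neg hG hchar hu hPP).trans (by norm_num)
    · have h3 : v = (v / u) * u := (div_mul_cancel₀ _ hu).symm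
      rw [h3] at hPP
      exact h.card_le_of_nonsquare hG hu hsq hPP
  have e3 : Fintype.card K ≠ 3 := fun h7 => hL (Or.inl h7)
  have e5 : Fintype.card K ≠ 5 := fun h7 => hL (Or.inr (Or.inl h7))
  have hn : ¬ G ≤ PSigmaL K := by
    intro h0
    have e7 : Fintype.card K ≠ 7 := by
      intro h7
      rw [PSigmaL_eq_PSL_of_prime (by rw [Nat.card_eq_fintype_card, h7]; norm_num)] at h0
      exact hL (Or.inr (Or.inr (Or.inl ⟨h7, h0⟩)))
    have e11 : Fintype.card K ≠ 11 := by
      intro h11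
      rw [PSigmaL_eq_PSL_of_prime (by rw [Nat.card_eq_fintype_card, h11]; norm_num)] at h0
      exact hL (Or.inr (Or.inr (Or.inr (Or.inr ⟨h11, h0⟩))))
    have e9 : Fintype.card K ≠ 9 := fun h9 => hL (Or.inr (Or.inr (Or.inr (Or.inl ⟨h9, h0⟩))))
    omega
  obtain ⟨τ, hτ, a, σ, ha, hinf, hτx⟩ := exists_nonsquare hG hG' hn
  have key : ∀ z : K, z ≠ 0 → PP r z (-z) → False := by
    intro z hz hzz
    have h5 := h.card_le_of_neg_all hG hchar (fun w hw => h.all_neg hG hτ ha hinf hτx hz hzz hw)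
    omega
  by_cases hsq : IsSquare (v / u)
  · have h3 : v = -u := h.M2 hG hPP hu hv huv hsq
    rw [h3] at hPP
    exact key u hu hPP
  · have h3 : v = (v / u) * u := (div_mul_cancel₀ _ hu).symm
    set c := v / u with hc
    rw [h3] at hPP
    have hc0 : c ≠ 0 := by rintro h0; exact hsq ⟨0, by rw [h0]; ring⟩
    by_cases h9 : Fintype.card K = 9
    · have e3' : (3 : K) = 0 := by
        have h4 := FiniteField.cast_card_eq_zero K
        rw [h9] at h4
        have h5 : (3 : K) * 3 = 0 := by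
          push_cast at h4
          linear_combination h4
        exact mul_self_eq_zero.1 h5
      have em : IsSquare (-1 : K) := by
        rw [FiniteField.isSquare_neg_one_iff, h9]
        norm_num
      have := h.card_le_of_nonsquare_three hG e3' em hu hsq hPP
      omega
    · have hp : (Nat.card K).Prime := by
        rw [Nat.card_eq_fintype_card]
        have : Fintype.card K = 7 ∨ Fintype.card K = 11 := by omega
        rcases this with h7 | h7 <;> rw [h7] <;> norm_num
      have h4 := h.M1' hτ hinf hτx hPP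
      rw [ringEquiv_eq_of_prime hp, ringEquiv_eq_of_prime hp] at h4
      obtain ⟨b, hb⟩ := isSquare_mul_of_not _ _ hsq ha
      have ha0 : a ≠ 0 := by rintro rfl; exact ha ⟨0, by ring⟩
      have hb0 : b ≠ 0 := by
        rintro rfl
        rw [mul_zero] at hb
        exact (mul_ne_zero hc0 ha0) hb
      have h5 := h.M1 hG hPP hb0
      have e1 : b ^ 2 * u = a * (c * u) := by rw [pow_two, ← hb]; ring
      rw [e1] at h5
      have hcu : c * u ≠ u := fun h0 => huv (by rw [← h0]; exact h3.symm)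
      have hne1 : a * (c * u) ≠ a * u := fun h0 => hcu (mul_left_cancel₀ ha0 h0)
      have hne2 : a * (c * u) ≠ b ^ 2 * (c * u) := by
        rw [← e1]
        intro h0
        exact hcu (mul_left_cancel₀ (pow_ne_zero 2 hb0) h0).symm
      have h6 := h.uniq hne1 hne2 h4.symm h5
      have h7 : (c - 1) * (c + 1) = 0 := by
        have h8 : a * u * ((c - 1) * (c + 1)) = 0 := by
          linear_combination -h6 - c * e1
        rcases mul_eq_zero.1 h8 with h9 | h9
        · exact absurd h9 (mul_ne_zero ha0 hu)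
        · exact h9
      have h8 : c = -1 := by
        rcases mul_eq_zero.1 h7 with h9 | h9
        · exfalso
          apply hcu
          linear_combination u * h9
        · linear_combination h9
      rw [h8] at hPP
      apply key u hu
      rwa [neg_one_mul] at hPP

end Final

end Pool.Agent.Helper37.Prim
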