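import Pool.Agent.Helper37.Prim.Defs

/-!
# Three generalisations of primitivity (MP_13dc8a_al): groups acting on the projective line

The projective line over the field `K` is `OnePoint K = K ∪ {∞}`, with Mathlib's action of
`GL (Fin 2) K` by Möbius transformations `x ↦ (a x + b) / (c x + d)`.
-/

namespace Pool.Agent.Helper37.Prim

open Matrix OnePoint

variable (K : Type*) [Field K] [DecidableEq K]

/-- The group `PΓL(2, K)` acting on the projective line: all permutations `x ↦ g • σ(x)`, with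
`g ∈ GL(2, K)` and `σ` an automorphism of the field `K`. -/
def PGammaL : Subgroup (Equiv.Perm (OnePoint K)) where
  carrier := {π | ∃ (g : GL (Fin 2) K) (σ : K ≃+* K), ∀ x, π x = g • OnePoint.map σ x}
  mul_mem' := by
    rintro π ρ ⟨g, σ, h⟩ ⟨g', σ', h'⟩
    refine ⟨g * g'.map (σ : K →+* K), σ'.trans σ, fun x => ?_⟩
    have h1 := OnePoint.map_smul (σ : K →+* K) g' (OnePoint.map σ' x)
    rw [Equiv.Perm.mul_apply, h, h', mul_smul]
    congr 1
    refine Eq.trans h1 ?_
    congr 1
    cases x <;> rfl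
  one_mem' := ⟨1, RingEquiv.refl K, fun x => by
    rw [one_smul]
    cases x <;> rfl⟩
  inv_mem' := by
    rintro π ⟨g, σ, h⟩
    refine ⟨(g⁻¹).map (σ.symm : K →+* K), σ.symm, fun x => ?_⟩
    rw [Equiv.Perm.inv_eq_iff_eq, h]
    have h1 := OnePoint.map_smul (σ : K →+* K) ((g⁻¹).map (σ.symm : K →+* K))
      (OnePoint.map σ.symm x)
    have h2 : OnePoint.map σ (OnePoint.map σ.symm x) = x := by
      cases x with
      | infty => rfl
      | coe c => exact congrArg OnePoint.some (σ.apply_symm_apply c)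
    have h3 : ((g⁻¹).map (σ.symm : K →+* K)).map (σ : K →+* K) = g⁻¹ := by
      ext i j
      exact σ.apply_symm_apply _
    have h4 : OnePoint.map (σ : K →+* K) (((g⁻¹).map (σ.symm : K →+* K)) •
      (OnePoint.map σ.symm x)) = g⁻¹ • x := by
      rw [h1, h3]
      congr 1
    have h5 : OnePoint.map σ (((g⁻¹).map (σ.symm : K →+* K)) •
      (OnePoint.map σ.symm x)) = g⁻¹ • x := h4
    rw [h5, smul_inv_smul]

/-- The group `PSL(2, K)` acting on the projective line: all permutations `x ↦ g • x` with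
`g ∈ SL(2, K)`. -/
def PSL : Subgroup (Equiv.Perm (OnePoint K)) where
  carrier := {π | ∃ g : GL (Fin 2) K, (g : Matrix (Fin 2) (Fin 2) K).det = 1 ∧ ∀ x, π x = g • x}
  mul_mem' := by
    rintro π ρ ⟨g, hg, h⟩ ⟨g', hg', h'⟩
    refine ⟨g * g', ?_, fun x => ?_⟩
    · rw [Matrix.GeneralLinearGroup.coe_mul, Matrix.det_mul, hg, hg', one_mul]
    · rw [Equiv.Perm.mul_apply, h, h', mul_smul]
  one_mem' := ⟨1, by simp, fun x => by rw [one_smul]; rfl⟩
  inv_mem' := by
    rintro π ⟨g, hg, h⟩
    refine ⟨g⁻¹, ?_, fun x => ?_⟩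
    · rw [Matrix.coe_units_inv, Matrix.det_nonsing_inv, hg, Ring.inverse_one]
    · rw [Equiv.Perm.inv_eq_iff_eq, h, smul_inv_smul]

end Pool.Agent.Helper37.Prim
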