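import Pool.Agent.Helper37.Prim.Rel2

/-!
# Three generalisations of primitivity (MP_13dc8a_al): groups which preserve lines
-/

namespace Pool.Agent.Helper37.Prim

open MulAction
open scoped Pointwise LinearAlgebra.Projectivization

section General

variable {G X : Type*} [Group G] [MulAction G X] [DecidableEq X] [Finite X]

/-- A `2`-transitive group which preserves the lines `L x y` is not `2`-Steiner primitive. -/
theorem not_steiner_of_lines (h2 : IsMultiplyPretransitive G X 2) (L : X → X → Finset X)
    (hl : ∀ x y, x ≠ y → x ∈ L x y) (hr : ∀ x y, x ≠ y → y ∈ L x y)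
    (hL : ∀ x y z w, x ≠ y → z ≠ w → z ∈ L x y → w ∈ L x y → L z w = L x y)
    (hG : ∀ (g : G) x y, x ≠ y → g • L x y = L (g • x) (g • y))
    {x y z w : X} (hxy : x ≠ y) (hz : z ∈ L x y) (hzx : z ≠ x) (hzy : z ≠ y)
    (hw : w ∉ L x y) : ¬ SteinerPrimitive G X 2 := by
  have := Fintype.ofFinite X
  rw [is_two_pretransitive_iff] at h2
  intro hS
  apply hS
  refine ⟨(L x y).card, {b | ∃ u v, u ≠ v ∧ b = L u v}, ?_, ?_, ⟨?_, ?_⟩, ?_⟩
  · have h1 : ({x, y, z} : Finset X) ⊆ L x y := by
      intro a ha
      rw [Finset.mem_insert, Finset.mem_insert, Finset.mem_singleton] at ha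
      rcases ha with rfl | rfl | rfl
      · exact hl _ _ hxy
      · exact hr _ _ hxy
      · exact hz
    have h3 := Finset.card_le_card h1
    rw [Finset.card_eq_three.2 ⟨x, y, z, hxy, hzx.symm, hzy.symm, rfl⟩] at h3
    exact h3
  · rw [Nat.card_eq_fintype_card, ← Finset.card_univ]
    apply Finset.card_lt_card
    rw [Finset.ssubset_univ_iff]
    rintro h1
    apply hw
    rw [h1]
    exact Finset.mem_univ _
  · rintro b ⟨u, v, huv, rfl⟩
    obtain ⟨g, h3, h4⟩ := h2 hxy huv
    have h5 := hG g x y hxy
    rw [h3, h4] at h5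
    rw [← h5, Finset.card_smul_finset]
  · intro s hs
    obtain ⟨u, v, huv, rfl⟩ := Finset.card_eq_two.1 hs
    refine ⟨L u v, ⟨⟨u, v, huv, rfl⟩, ?_⟩, ?_⟩
    · intro a ha
      rw [Finset.mem_insert, Finset.mem_singleton] at ha
      rcases ha with rfl | rfl
      · exact hl _ _ huv
      · exact hr _ _ huv
    · rintro b ⟨⟨u', v', huv', rfl⟩, hsub⟩
      exact (hL _ _ _ _ huv' huv (hsub (Finset.mem_insert_self _ _))
        (hsub (Finset.mem_insert_of_mem (Finset.mem_singleton_self _)))).symm
  · rintro g b ⟨u, v, huv, rfl⟩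
    exact ⟨g • u, g • v, fun h => huv (MulAction.injective g h), hG g u v huv⟩

/-- A group which is not Steiner primitive is not an exception. -/
theorem no_exception {t : ℕ} (ht : 1 ≤ t) (htn : t ≤ Nat.card X) (h : ¬ SteinerPrimitive G X t) :
    ¬ ExcA G X t ∧ ¬ ExcB G X t ∧ ¬ ExcC G X t ∧ ¬ ExcD G X t :=
  ⟨fun h1 => h (SteinerPrimitive.of_tprimitive ht htn h1.1),
    fun h1 => h (SteinerPrimitive.of_tsetprimitive ht htn h1.1), fun h1 => h h1.1, fun h1 => h h1.1⟩

/-- Groups whose two point stabilisers have a unique involution. -/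
theorem not_steiner_of_involution (h2 : IsMultiplyPretransitive G X 2)
    (hinv : ∀ x y : X, x ≠ y → ∃! t : G, t ≠ 1 ∧ t * t = 1 ∧ t • x = x ∧ t • y = y)
    [FaithfulSMul G X] {x y z : X} {t : G} (hxy : x ≠ y) (ht : t ≠ 1) (htt : t * t = 1)
    (htx : t • x = x) (hty : t • y = y) (htz : t • z = z) (hzx : z ≠ x) (hzy : z ≠ y) :
    ¬ SteinerPrimitive G X 2 := by
  classical
  have := Fintype.ofFinite X
  choose! τ hτ hτu using hinv
  have hτxy : τ x y = t := (hτu x y hxy t ⟨ht, htt, htx, hty⟩).symm
  obtain ⟨w, hw⟩ : ∃ w : X, t • w ≠ w := by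
    by_contra hne
    push Not at hne
    exact ht (FaithfulSMul.eq_of_smul_eq_smul (α := X) fun w => by rw [hne, one_smul])
  have hmem : ∀ u v a : X, a ∈ (Finset.univ.filter (fun z => τ u v • z = z)) ↔ τ u v • a = a := by
    intro u v a
    simp
  apply not_steiner_of_lines h2 (fun x y => Finset.univ.filter (fun z => τ x y • z = z))
    (x := x) (y := y) (z := z) (w := w) ?_ ?_ ?_ ?_ hxy ?_ hzx hzy ?_
  · intro x y hxy
    rw [hmem]
    exact (hτ x y hxy).2.2.1
  · intro x y hxy
    rw [hmem]
    exact (hτ x y hxy).2.2.2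
  · intro x y z w hxy hzw hz hw
    rw [hmem] at hz hw
    have h1 : τ x y = τ z w := hτu z w hzw _ ⟨(hτ x y hxy).1, (hτ x y hxy).2.1, hz, hw⟩
    simp only [h1]
  · intro g x y hxy
    have hg : g • x ≠ g • y := fun h => hxy (MulAction.injective g h)
    obtain ⟨h1, h3, h4, h5⟩ := hτ x y hxy
    have h6 : g * τ x y * g⁻¹ = τ (g • x) (g • y) := by
      apply hτu _ _ hg
      refine ⟨?_, ?_, ?_, ?_⟩
      · intro h7
        apply h1
        have h8 : τ x y = g⁻¹ * (g * τ x y * g⁻¹) * g := by group
        rw [h8, h7]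
        group
      · have h8 : g * τ x y * g⁻¹ * (g * τ x y * g⁻¹) = g * (τ x y * τ x y) * g⁻¹ := by group
        rw [h8, h3]
        group
      · rw [mul_smul, mul_smul, inv_smul_smul, h4]
      · rw [mul_smul, mul_smul, inv_smul_smul, h5]
    ext a
    rw [hmem, ← h6, ← Finset.inv_smul_mem_iff, hmem, mul_smul, mul_smul]
    constructor
    · intro h7
      rw [h7, smul_inv_smul]
    · intro h7
      rw [eq_inv_smul_iff]
      exact h7
  · rw [hmem, hτxy, htz]
  · rw [hmem, hτxy]
    exact hw

end General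

section Affine

variable {K V : Type*} [Field K] [Finite K] [AddCommGroup V] [Module K V] [Finite V]
  [DecidableEq V]

/-- Groups of affine semilinear maps over a field with more than two elements, in dimension at
least two. -/
theorem not_steiner_affine {G : Subgroup (Equiv.Perm V)} (hK : 2 < Nat.card K)
    (hKV : Nat.card K < Nat.card V)
    (hG : ∀ g ∈ G, ∃ (σ : K ≃+* K) (f : V → V) (v : V), (∀ x y, f (x + y) = f x + f y) ∧
      (∀ (c : K) x, f (c • x) = σ c • f x) ∧ ∀ x, g x = f x + v)
    (h2 : IsMultiplyPretransitive G V 2) : ¬ SteinerPrimitive G V 2 := by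
  classical
  have := Fintype.ofFinite K
  have := Fintype.ofFinite V
  have hKnt : Nontrivial V := by
    rw [← Finite.one_lt_card_iff_nontrivial]
    omega
  obtain ⟨y, hy⟩ := exists_ne (0 : V)
  set L : V → V → Finset V := fun x y => Finset.univ.image (fun c : K => x + c • (y - x)) with hLdef
  have hmem : ∀ x y z, z ∈ L x y ↔ ∃ c : K, x + c • (y - x) = z := by
    intro x y z
    simp [hLdef]
  obtain ⟨c, hc0, hc1⟩ : ∃ c : K, c ≠ 0 ∧ c ≠ 1 := by
    by_contra hne
    push Not at hne
    have h1 : (Finset.univ : Finset K) ⊆ {0, 1} := by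
      intro c _
      rw [Finset.mem_insert, Finset.mem_singleton]
      by_cases h3 : c = 0
      · exact Or.inl h3
      · exact Or.inr (hne c h3)
    have h3 := (Finset.card_le_card h1).trans Finset.card_le_two
    rw [Finset.card_univ, ← Nat.card_eq_fintype_card] at h3
    omega
  obtain ⟨w, hw⟩ : ∃ w, w ∉ L 0 y := by
    by_contra hne
    push Not at hne
    have h1 : (Finset.univ : Finset V) ⊆ L 0 y := fun w _ => hne w
    have h3 := (Finset.card_le_card h1).trans Finset.card_image_le
    rw [Finset.card_univ, Finset.card_univ, ← Nat.card_eq_fintype_card,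
      ← Nat.card_eq_fintype_card] at h3
    omega
  apply not_steiner_of_lines h2 L (x := 0) (y := y) (z := c • y) (w := w) ?_ ?_ ?_ ?_ hy.symm ?_
    ?_ ?_ hw
  · intro x y _
    rw [hmem]
    exact ⟨0, by simp⟩
  · intro x y _
    rw [hmem]
    exact ⟨1, by simp⟩
  · intro x y z w hxy hzw hz hw
    rw [hmem] at hz hw
    obtain ⟨c, rfl⟩ := hz
    obtain ⟨d, rfl⟩ := hw
    have hcd : d - c ≠ 0 := by
      intro h
      apply hzw
      rw [sub_eq_zero.1 h]
    ext a
    rw [hmem, hmem]
    constructor
    · rintro ⟨e, rfl⟩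
      exact ⟨c + e * (d - c), by module⟩
    · rintro ⟨e, rfl⟩
      refine ⟨(e - c) / (d - c), ?_⟩
      have h1 : (e - c) / (d - c) * (d - c) = e - c := div_mul_cancel₀ _ hcd
      have h3 : x + d • (y - x) - (x + c • (y - x)) = (d - c) • (y - x) := by module
      rw [h3, smul_smul, h1]
      module
  · intro g x y _
    obtain ⟨σ, f, v, hadd, hsmul, hg⟩ := hG g g.2
    have hgx : ∀ x, g • x = f x + v := hg
    have hf0 : f 0 = 0 := by
      have := hadd 0 0
      rw [add_zero] at this
      exact left_eq_add.1 this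
    have hneg : ∀ x, f (-x) = -f x := by
      intro x
      rw [eq_neg_iff_add_eq_zero, ← hadd, neg_add_cancel, hf0]
    have hsub : ∀ x y, f (x - y) = f x - f y := by
      intro x y
      rw [sub_eq_add_neg, hadd, hneg, sub_eq_add_neg]
    ext a
    rw [← Finset.inv_smul_mem_iff, hmem, hmem]
    constructor
    · rintro ⟨c, hc⟩
      refine ⟨σ c, ?_⟩
      have h1 : a = g • (x + c • (y - x)) := by rw [hc, smul_inv_smul]
      rw [h1, hgx, hgx, hgx, hadd, hsmul, hsub]
      module
    · rintro ⟨c, rfl⟩
      refine ⟨σ.symm c, ?_⟩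
      rw [eq_inv_smul_iff, hgx, hgx, hgx, hadd, hsmul, hsub, σ.apply_symm_apply]
      module
  · rw [hmem]
    exact ⟨c, by simp⟩
  · exact smul_ne_zero hc0 hy
  · intro h
    apply hc1
    have : (c - 1) • y = 0 := by rw [sub_smul, one_smul, h, sub_self]
    rcases smul_eq_zero.1 this with h3 | h3
    · exact sub_eq_zero.1 h3
    · exact absurd h3 hy

end Affine

section Projective

variable {K V : Type*} [Field K] [AddCommGroup V] [Module K V]

/-- The points of `X` on the line through `p` and `q`. -/
def OnLine (X : Set (ℙ K V)) (p q r : X) : Prop :=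
  (r : ℙ K V).submodule ≤ (p : ℙ K V).submodule ⊔ (q : ℙ K V).submodule

variable {X : Set (ℙ K V)} [Finite X] [DecidableEq X]

theorem submodule_inj {p q : ℙ K V} (h : p.submodule ≤ q.submodule) : p = q := by
  induction p with | h v hv => ?_
  induction q with | h w hw => ?_
  rw [Projectivization.submodule_mk, Projectivization.submodule_mk,
    Submodule.span_singleton_le_iff_mem, Submodule.mem_span_singleton] at h
  obtain ⟨c, hc⟩ := h
  rw [Projectivization.mk_eq_mk_iff']
  exact ⟨c, hc⟩

/-- A `2`-transitive group of collineations on a set `X` of points which contains three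
collinear points and is not contained in a line. -/
theorem not_steiner_projective {G : Subgroup (Equiv.Perm X)}
    (hG : ∀ g ∈ G, ∀ p q r : X, OnLine X p q r → OnLine X (g p) (g q) (g r))
    (h2 : IsMultiplyPretransitive G X 2) {p q r s : X} (hpq : p ≠ q) (hrp : r ≠ p) (hrq : r ≠ q)
    (hr : OnLine X p q r) (hs : ¬ OnLine X p q s) : ¬ SteinerPrimitive G X 2 := by
  classical
  have := Fintype.ofFinite X
  have hmem : ∀ p q a : X, a ∈ (Finset.univ.filter (fun r => OnLine X p q r)) ↔
      OnLine X p q a := by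
    intro p q a
    simp
  have key : ∀ p q z w : X, p ≠ q → z ≠ w → OnLine X p q z → OnLine X p q w →
      (p : ℙ K V).submodule ⊔ (q : ℙ K V).submodule =
        (z : ℙ K V).submodule ⊔ (w : ℙ K V).submodule := by
    intro p q z w hpq hzw hz hw
    unfold OnLine at hz hw
    have hle : (z : ℙ K V).submodule ⊔ (w : ℙ K V).submodule ≤
        (p : ℙ K V).submodule ⊔ (q : ℙ K V).submodule := sup_le hz hw
    have hfin : ∀ p q : X, p ≠ q →
        Module.finrank K ((p : ℙ K V).submodule ⊔ (q : ℙ K V).submodule : Submodule K V) = 2 := by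
      intro p q hpq
      have h1 := Submodule.finrank_sup_add_finrank_inf_eq (p : ℙ K V).submodule
        (q : ℙ K V).submodule
      have h3 : (p : ℙ K V).submodule ⊓ (q : ℙ K V).submodule = ⊥ := by
        by_contra hne
        obtain ⟨v, hv, hv0⟩ := Submodule.exists_mem_ne_zero_of_ne_bot hne
        apply hpq
        apply Subtype.ext
        have h4 : ∀ p : ℙ K V, v ∈ p.submodule → Projectivization.mk K v hv0 = p := by
          intro p hp
          apply submodule_inj
          rwa [Projectivization.submodule_mk, Submodule.span_singleton_le_iff_mem]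
        rw [← h4 _ hv.1, ← h4 _ hv.2]
      rw [h3, finrank_bot, Projectivization.finrank_submodule,
        Projectivization.finrank_submodule] at h1
      omega
    have hfd : Module.Finite K ((p : ℙ K V).submodule ⊔ (q : ℙ K V).submodule : Submodule K V) :=
      Module.finite_of_finrank_pos (by rw [hfin p q hpq]; norm_num)
    exact (Submodule.eq_of_le_of_finrank_eq hle (by rw [hfin z w hzw, hfin p q hpq])).symm
  apply not_steiner_of_lines h2 (fun p q => Finset.univ.filter (fun r => OnLine X p q r))
    (x := p) (y := q) (z := r) (w := s) ?_ ?_ ?_ ?_ hpq ?_ hrp hrq ?_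
  · intro x y _
    rw [hmem]
    exact le_sup_left
  · intro x y _
    rw [hmem]
    exact le_sup_right
  · intro x y z w hxy hzw hz hw
    rw [hmem] at hz hw
    ext a
    rw [hmem, hmem]
    unfold OnLine
    rw [key x y z w hxy hzw hz hw]
  · intro g x y _
    ext a
    rw [← Finset.inv_smul_mem_iff, hmem, hmem]
    constructor
    · intro h
      have := hG g g.2 _ _ _ h
      change OnLine X (g • x) (g • y) (g • (g⁻¹ • a)) at this
      rwa [smul_inv_smul] at this
    · intro h
      have := hG g⁻¹ (G.inv_mem g.2) _ _ _ h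
      change OnLine X (g⁻¹ • (g • x)) (g⁻¹ • (g • y)) (g⁻¹ • a) at this
      rwa [inv_smul_smul, inv_smul_smul] at this
  · rw [hmem]
    exact hr
  · rw [hmem]
    exact hs

end Projective

end Pool.Agent.Helper37.Prim
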