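import Pool.Agent.Helper37.Prim.Rel2

/-!
# Three generalisations of primitivity (MP_13dc8a_al): affine groups containing
`2 ^ (2m) : Sp(2m, 2)'`
-/

namespace Pool.Agent.Helper37.Prim

open MulAction
open scoped Pointwise

section

variable {V : Type*} [AddCommGroup V] [Module (ZMod 2) V]

/-- The symplectic transvection `x ↦ x + ω(x, v) v`. -/
def tv (ω : V →ₗ[ZMod 2] V →ₗ[ZMod 2] ZMod 2) (v x : V) : V := x + ω x v • v

variable {ω : V →ₗ[ZMod 2] V →ₗ[ZMod 2] ZMod 2}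

theorem zmod2_cases (a : ZMod 2) : a = 0 ∨ a = 1 := by
  revert a; decide

theorem zmod2_ne_zero {a : ZMod 2} (h : a ≠ 0) : a = 1 := (zmod2_cases a).resolve_left h

theorem add_self_V (x : V) : x + x = 0 := by
  have : (2 : ZMod 2) • x = 0 := by
    rw [show (2 : ZMod 2) = 0 from rfl, zero_smul]
  rwa [two_smul] at this

theorem neg_V (x : V) : -x = x := neg_eq_of_add_eq_zero_left (add_self_V x)

theorem tv_zero (v : V) : tv ω v 0 = 0 := by simp [tv]

theorem tv_of_zero {v x : V} (h : ω x v = 0) : tv ω v x = x := by simp [tv, h]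

theorem tv_of_one {v x : V} (h : ω x v = 1) : tv ω v x = x + v := by simp [tv, h]

theorem omega_symm (halt : ∀ x, ω x x = 0) (x y : V) : ω x y = ω y x := by
  have h := halt (x + y)
  rw [map_add, map_add ω, LinearMap.add_apply, LinearMap.add_apply, halt, halt, zero_add,
    add_zero] at h
  have h2 : ω x y = -ω y x := eq_neg_of_add_eq_zero_right h
  rw [h2]
  rcases zmod2_cases (ω y x) with h3 | h3 <;> rw [h3] <;> decide

/-- Vectors with prescribed products. -/
theorem exists_zero_one (hnd : ∀ x, (∀ y, ω x y = 0) → x = 0)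
    {x y : V} (hy : y ≠ 0) (hxy : x ≠ y) : ∃ z, ω x z = 0 ∧ ω y z = 1 := by
  by_contra hne
  push Not at hne
  have h0 : ∀ z, ω x z = 0 → ω y z = 0 := fun z hz =>
    (zmod2_cases _).resolve_right (hne z hz)
  obtain ⟨z1, hz1⟩ : ∃ z1, ω y z1 = 1 := by
    by_contra h1
    push Not at h1
    exact hy (hnd y fun z => (zmod2_cases _).resolve_right (h1 z))
  have hx1 : ω x z1 = 1 := by
    apply zmod2_ne_zero
    intro h1
    rw [h0 z1 h1] at hz1
    exact zero_ne_one hz1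
  apply hxy
  have h2 : ∀ z, ω x z = ω y z := by
    intro z
    rcases zmod2_cases (ω x z) with h3 | h3
    · rw [h3, h0 z h3]
    · have h4 : ω x (z + z1) = 0 := by rw [map_add, h3, hx1]; decide
      have h5 := h0 _ h4
      rw [map_add, hz1] at h5
      rw [h3]
      rcases zmod2_cases (ω y z) with h6 | h6
      · rw [h6, zero_add] at h5
        exact absurd h5 one_ne_zero
      · exact h6.symm
  have h3 := hnd (x - y) (fun z => by rw [map_sub, LinearMap.sub_apply, h2, sub_self])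
  exact sub_eq_zero.1 h3

theorem exists_one_one (hnd : ∀ x, (∀ y, ω x y = 0) → x = 0)
    {x y : V} (hx : x ≠ 0) (hy : y ≠ 0) (hxy : x ≠ y) : ∃ z, ω x z = 1 ∧ ω y z = 1 := by
  obtain ⟨z1, h1, h2⟩ := exists_zero_one hnd hy hxy
  obtain ⟨z2, h3, h4⟩ := exists_zero_one hnd hx hxy.symm
  exact ⟨z1 + z2, by rw [map_add, h1, h4, zero_add], by rw [map_add, h2, h3, add_zero]⟩

/-- Two vectors have a nonzero common orthogonal vector if `|V| > 4`. -/
theorem exists_orth [Finite V] (hn : 4 < Nat.card V) (x y : V) :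
    ∃ v, v ≠ 0 ∧ ω x v = 0 ∧ ω y v = 0 := by
  have := Fintype.ofFinite V
  by_contra hne
  push Not at hne
  have hinj : Function.Injective (fun v : V => (ω x v, ω y v)) := by
    intro v w hvw
    by_contra h1
    simp only [Prod.mk.injEq] at hvw
    have h2 : v - w ≠ 0 := sub_ne_zero.2 h1
    exact hne (v - w) h2 (by rw [map_sub, hvw.1, sub_self]) (by rw [map_sub, hvw.2, sub_self])
  have h1 := Fintype.card_le_of_injective _ hinj
  rw [Nat.card_eq_fintype_card] at hn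
  rw [Fintype.card_prod, ZMod.card] at h1
  omega

variable [Finite V] {G : Subgroup (Equiv.Perm V)}

/-- Moves: a transvection can be imitated on two given vectors. -/
theorem exists_move (hn : 4 < Nat.card V)
    (hS : ∀ v w : V, v ≠ 0 → w ≠ 0 → ∃ g ∈ G, ∀ x, g x = tv ω w (tv ω v x)) (v x y : V) :
    ∃ g ∈ G, g 0 = 0 ∧ g x = tv ω v x ∧ g y = tv ω v y := by
  by_cases hv : v = 0
  · subst hv
    exact ⟨1, G.one_mem, rfl, by simp [tv], by simp [tv]⟩
  obtain ⟨w, hw, h1, h2⟩ := exists_orth (ω := ω) hn (tv ω v x) (tv ω v y)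
  obtain ⟨g, hg, h3⟩ := hS v w hv hw
  refine ⟨g, hg, ?_, ?_, ?_⟩
  · rw [h3, tv_zero, tv_zero]
  · rw [h3, tv_of_zero h1]
  · rw [h3, tv_of_zero h2]

theorem symp_trans_zero (halt : ∀ x, ω x x = 0) (hnd : ∀ x, (∀ y, ω x y = 0) → x = 0)
    (hn : 4 < Nat.card V)
    (hS : ∀ v w : V, v ≠ 0 → w ≠ 0 → ∃ g ∈ G, ∀ x, g x = tv ω w (tv ω v x)) {x y : V} (hx : x ≠ 0)
    (hy : y ≠ 0) : ∃ g ∈ G, g 0 = 0 ∧ g x = y := by
  have key : ∀ x y : V, ω x y = 1 → ∃ g ∈ G, g 0 = 0 ∧ g x = y := by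
    intro x y hxy
    obtain ⟨g, hg, h0, h1, -⟩ := exists_move hn hS (x + y) x 0
    refine ⟨g, hg, h0, ?_⟩
    rw [h1, tv_of_one (by rw [map_add, halt, zero_add, hxy]), ← add_assoc, add_self_V, zero_add]
  by_cases hxy : x = y
  · exact ⟨1, G.one_mem, rfl, hxy⟩
  obtain ⟨z, h1, h2⟩ := exists_one_one hnd hx hy hxy
  obtain ⟨g, hg, hg0, hgx⟩ := key x z h1
  obtain ⟨g', hg', hg0', hgx'⟩ := key z y (by rw [omega_symm halt, h2])
  exact ⟨g' * g, G.mul_mem hg' hg, by rw [Equiv.Perm.mul_apply, hg0, hg0'],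
    by rw [Equiv.Perm.mul_apply, hgx, hgx']⟩

theorem symp_two_trans (halt : ∀ x, ω x x = 0) (hnd : ∀ x, (∀ y, ω x y = 0) → x = 0)
    (hn : 4 < Nat.card V) (hT : ∀ v : V, ∃ g ∈ G, ∀ x, g x = x + v)
    (hS : ∀ v w : V, v ≠ 0 → w ≠ 0 → ∃ g ∈ G, ∀ x, g x = tv ω w (tv ω v x)) :
    IsMultiplyPretransitive G V 2 := by
  rw [is_two_pretransitive_iff]
  intro a b c d hab hcd
  obtain ⟨s, hs, hs'⟩ := hT (-a)
  obtain ⟨g, hg, hg0, hg'⟩ := symp_trans_zero halt hnd hn hS (x := b - a) (y := d - c)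
    (sub_ne_zero.2 (Ne.symm hab)) (sub_ne_zero.2 (Ne.symm hcd))
  obtain ⟨t, ht, ht'⟩ := hT c
  refine ⟨⟨t * (g * s), G.mul_mem ht (G.mul_mem hg hs)⟩, ?_, ?_⟩
  · change t (g (s a)) = c
    rw [hs', add_neg_cancel, hg0, ht', zero_add]
  · change t (g (s b)) = d
    rw [hs', ← sub_eq_add_neg, hg', ht', sub_add_cancel]

theorem symp_tprimitive (halt : ∀ x, ω x x = 0) (hnd : ∀ x, (∀ y, ω x y = 0) → x = 0)
    (hn : 4 < Nat.card V) (hT : ∀ v : V, ∃ g ∈ G, ∀ x, g x = x + v)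
    (hS : ∀ v w : V, v ≠ 0 → w ≠ 0 → ∃ g ∈ G, ∀ x, g x = tv ω w (tv ω v x)) :
    IsMultiplyPreprimitive G V 2 := by
  apply tprimitive_two_of_rel (symp_two_trans halt hnd hn hT hS) (0 : V)
  intro r hrefl hsymm htrans hinv hne
  have hmove : ∀ v x y, x ≠ 0 → y ≠ 0 → r x y → r (tv ω v x) (tv ω v y) := by
    intro v x y hx hy hxy
    obtain ⟨g, hg, h0, h1, h2⟩ := exists_move hn hS v x y
    have := hinv ⟨g, hg⟩ h0 x y hx hy hxy
    rw [← h1, ← h2]
    exact this
  have hne0 : ∀ x y : V, ω x y = 1 → x ≠ 0 ∧ y ≠ 0 := by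
    intro x y h
    constructor
    · rintro rfl
      rw [map_zero, LinearMap.zero_apply] at h
      exact zero_ne_one h
    · rintro rfl
      rw [map_zero] at h
      exact zero_ne_one h
  -- a related pair with product `1`
  obtain ⟨u, w, hu, hw, huw, hr⟩ : ∃ u w : V, u ≠ 0 ∧ w ≠ 0 ∧ ω u w = 1 ∧ r u w := by
    obtain ⟨x, y, hx, hy, hxy, hr⟩ := hne
    by_cases h1 : ω x y = 1
    · exact ⟨x, y, hx, hy, h1, hr⟩
    · obtain ⟨v, h2, h3⟩ := exists_zero_one hnd hy hxy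
      have h4 := hmove v x y hx hy hr
      rw [tv_of_zero h2, tv_of_one h3] at h4
      have h5 : ω y (y + v) = 1 := by rw [map_add, halt, zero_add, h3]
      have h6 := (hne0 _ _ h5).2
      exact ⟨y, y + v, hy, h6, h5, htrans _ _ _ hy hx h6 (hsymm _ _ hx hy hr) h4⟩
  -- one point
  have hP1 : ∀ u w : V, ω u w = 1 → r u w → ∀ y, ω u y = 1 → r u y := by
    intro u w huw hr
    obtain ⟨hu, hw⟩ := hne0 _ _ huw
    have step : ∀ a b : V, ω u a = 1 → ω u b = 1 → ω a b = 1 → r u a → r u b := by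
      intro a b ha hb hab hra
      obtain ⟨-, ha0⟩ := hne0 _ _ ha
      have h1 := hmove (a + b) u a hu ha0 hra
      rw [tv_of_zero (by rw [map_add, ha, hb]; decide),
        tv_of_one (by rw [map_add, halt, zero_add, hab]), ← add_assoc, add_self_V, zero_add] at h1
      exact h1
    intro y hy
    rcases zmod2_cases (ω w y) with h1 | h1
    · have h2 : r u (u + w) := step w (u + w) huw (by rw [map_add, halt, zero_add, huw])
        (by rw [map_add, halt, add_zero, omega_symm halt, huw]) hr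
      exact step (u + w) y (by rw [map_add, halt, zero_add, huw]) hy
        (by rw [map_add, LinearMap.add_apply, hy, h1, add_zero]) h2
    · exact step w y huw hy h1 hr
  -- all points
  have hP2 : ∀ x : V, x ≠ 0 → ∀ y, ω x y = 1 → r x y := by
    have h1 : ∀ a b : V, ω a b = 1 → (∀ y, ω a y = 1 → r a y) → ∀ y, ω b y = 1 → r b y := by
      intro a b hab h y hy
      obtain ⟨ha, hb⟩ := hne0 _ _ hab
      exact hP1 b a (by rw [omega_symm halt, hab]) (hsymm _ _ ha hb (h b hab)) y hy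
    intro x hx
    by_cases hxu : x = u
    · rw [hxu]
      exact hP1 u w huw hr
    · obtain ⟨z, h2, h3⟩ := exists_one_one hnd hu hx (Ne.symm hxu)
      exact h1 z x (by rw [omega_symm halt, h3]) (h1 u z h2 (hP1 u w huw hr))
  intro x y hx hy
  by_cases hxy : x = y
  · rw [hxy]
    exact hrefl y hy
  · obtain ⟨z, h1, h2⟩ := exists_one_one hnd hx hy hxy
    have hz := (hne0 _ _ h1).2
    exact htrans _ _ _ hx hz hy (hP2 x hx z h1) (hsymm _ _ hy hz (hP2 y hy z h2))

end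

end Pool.Agent.Helper37.Prim
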