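import Pool.Agent.Helper37.Prim.Defs

/-!
# Three generalisations of primitivity (MP_13dc8a_al): general facts
-/

namespace Pool.Agent.Helper37.Prim

open MulAction
open scoped Pointwise

section Rel

variable {G Y : Type*} [Group G] [MulAction G Y]

/-- An invariant equivalence relation of a primitive action is trivial. -/
theorem rel_of_isPreprimitive (h : IsPreprimitive G Y) (r : Y → Y → Prop) (hr : Equivalence r)
    (hG : ∀ (g : G) x y, r x y → r (g • x) (g • y)) :
    (∀ x y, r x y → x = y) ∨ (∀ x y, r x y) := by
  by_cases hne : ∃ x y, r x y ∧ x ≠ y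
  · right
    obtain ⟨x, y, hxy, hne⟩ := hne
    have hb : IsBlock G {z | r x z} := by
      rw [isBlock_iff_smul_eq_or_disjoint]
      intro g
      by_cases h1 : r x (g • x)
      · left
        ext z
        rw [Set.mem_smul_set_iff_inv_smul_mem]
        simp only [Set.mem_ofPred_eq]
        constructor
        · intro h2
          have := hG g _ _ h2
          rw [smul_inv_smul] at this
          exact hr.trans h1 this
        · intro h2
          have := hG g⁻¹ _ _ (hr.trans (hr.symm h1) h2)
          rwa [inv_smul_smul] at this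
      · right
        rw [Set.disjoint_left]
        intro z hz hz'
        rw [Set.mem_smul_set_iff_inv_smul_mem] at hz
        simp only [Set.mem_ofPred_eq] at hz hz'
        have := hG g _ _ hz
        rw [smul_inv_smul] at this
        exact h1 (hr.trans hz' (hr.symm this))
    rcases hb.subsingleton_or_eq_univ with h1 | h1
    · exact absurd (h1 (hr.refl x) hxy) hne
    · intro u v
      have hu : r x u := by
        have : u ∈ {z | r x z} := h1 ▸ Set.mem_univ u
        exact this
      have hv : r x v := by
        have : v ∈ {z | r x z} := h1 ▸ Set.mem_univ v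
        exact this
      exact hr.trans (hr.symm hu) hv
  · left
    intro x y hxy
    by_contra h1
    exact hne ⟨x, y, hxy, h1⟩

/-- Criterion for primitivity. -/
theorem isPreprimitive_of_rel [IsPretransitive G Y]
    (h : ∀ r : Y → Y → Prop, Equivalence r → (∀ (g : G) x y, r x y → r (g • x) (g • y)) →
      (∀ x y, r x y → x = y) ∨ (∀ x y, r x y)) : IsPreprimitive G Y := by
  constructor
  intro B hB
  by_cases hne : B.Nonempty
  · obtain ⟨x, hx⟩ := hne
    rcases h (fun y z => ∀ g : G, y ∈ g • B ↔ z ∈ g • B) ⟨fun _ _ => Iff.rfl,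
      fun h1 g => (h1 g).symm, fun h1 h2 g => (h1 g).trans (h2 g)⟩ (by
        intro g y z h1 g'
        have := h1 (g⁻¹ * g')
        simp only [Set.mem_smul_set_iff_inv_smul_mem, mul_inv_rev, inv_inv, mul_smul] at this ⊢
        exact this) with h1 | h1
    · left
      intro y hy z hz
      apply h1
      intro g
      rw [isBlock_iff_smul_eq_of_mem] at hB
      constructor
      · intro h2
        have : g • B = B := by
          have h3 : g⁻¹ • y ∈ B := Set.mem_smul_set_iff_inv_smul_mem.1 h2
          exact hB h3 (by rwa [smul_inv_smul])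
        rw [this]; exact hz
      · intro h2
        have : g • B = B := by
          have h3 : g⁻¹ • z ∈ B := Set.mem_smul_set_iff_inv_smul_mem.1 h2
          exact hB h3 (by rwa [smul_inv_smul])
        rw [this]; exact hy
    · right
      ext y
      simp only [Set.mem_univ, iff_true]
      have := (h1 x y 1).1 (by rwa [one_smul])
      rwa [one_smul] at this
  · left
    rw [Set.not_nonempty_iff_eq_empty] at hne
    rw [hne]
    exact Set.subsingleton_empty

end Rel

section Tprim

variable {G X : Type*} [Group G] [MulAction G X] [DecidableEq X]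

/-- Invariant relations outside a set of `t - 1` points, for a `t`-primitive action. -/
theorem rel_of_tprimitive {t : ℕ} (h : IsMultiplyPreprimitive G X t) (s : Finset X)
    (hs : s.card + 1 = t) (r : X → X → Prop) (hrefl : ∀ x, x ∉ s → r x x)
    (hsymm : ∀ x y, x ∉ s → y ∉ s → r x y → r y x)
    (htrans : ∀ x y z, x ∉ s → y ∉ s → z ∉ s → r x y → r y z → r x z)
    (hG : ∀ g : G, (∀ x ∈ s, g • x = x) → ∀ x y, x ∉ s → y ∉ s → r x y → r (g • x) (g • y)) :
    (∀ x y, x ∉ s → y ∉ s → r x y → x = y) ∨ (∀ x y, x ∉ s → y ∉ s → r x y) := by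
  have hs' : (s : Set X).encard + 1 = t := by
    rw [Set.encard_coe_eq_coe_finsetCard]
    exact_mod_cast hs
  have h1 := h.isPreprimitive_ofFixingSubgroup (M := G) (n := t) hs'
  have hm : ∀ x : SubMulAction.ofFixingSubgroup G (s : Set X), (x : X) ∉ s := by
    intro x hx
    exact x.2 (by exact_mod_cast hx)
  rcases rel_of_isPreprimitive h1 (fun x y => r (x : X) (y : X))
    ⟨fun x => hrefl _ (hm x), fun {x y} h2 => hsymm _ _ (hm x) (hm y) h2,
      fun {x y z} h2 h3 => htrans _ _ _ (hm x) (hm y) (hm z) h2 h3⟩ (by
        intro g x y hxy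
        have hg : ∀ z ∈ s, (g : G) • z = z := by
          intro z hz
          exact (mem_fixingSubgroup_iff G).1 g.2 z (by exact_mod_cast hz)
        exact hG (g : G) hg _ _ (hm x) (hm y) hxy) with h2 | h2
  · left
    intro x y hx hy hxy
    have := h2 ⟨x, by
      rw [SubMulAction.mem_ofFixingSubgroup_iff]; exact_mod_cast hx⟩ ⟨y, by
      rw [SubMulAction.mem_ofFixingSubgroup_iff]; exact_mod_cast hy⟩ hxy
    exact congrArg Subtype.val this
  · right
    intro x y hx hy
    exact h2 ⟨x, by
      rw [SubMulAction.mem_ofFixingSubgroup_iff]; exact_mod_cast hx⟩ ⟨y, by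
      rw [SubMulAction.mem_ofFixingSubgroup_iff]; exact_mod_cast hy⟩

/-- Invariant relations on the `t`-subsets, for a `t`-set primitive action. -/
theorem rel_of_tsetprimitive {t : ℕ} (h : IsPreprimitive G (Set.powersetCard X t))
    (r : Finset X → Finset X → Prop) (hr : Equivalence r)
    (hG : ∀ (g : G) x y, x.card = t → y.card = t → r x y → r (g • x) (g • y)) :
    (∀ x y, x.card = t → y.card = t → r x y → x = y) ∨
      (∀ x y, x.card = t → y.card = t → r x y) := by
  rcases rel_of_isPreprimitive h (fun x y => r x.1 y.1) ⟨fun x => hr.refl _,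
    fun h2 => hr.symm h2, fun h2 h3 => hr.trans h2 h3⟩ (by
      intro g x y hxy
      exact hG g _ _ x.2 y.2 hxy) with h2 | h2
  · left
    intro x y hx hy hxy
    exact congrArg Subtype.val (h2 ⟨x, hx⟩ ⟨y, hy⟩ hxy)
  · right
    intro x y hx hy
    exact h2 ⟨x, hx⟩ ⟨y, hy⟩

/-- Every `t`-primitive group is `t`-Steiner primitive. -/
theorem SteinerPrimitive.of_tprimitive {t : ℕ} (ht : 1 ≤ t) (htn : t ≤ Nat.card X)
    [Finite X] (h : IsMultiplyPreprimitive G X t) : SteinerPrimitive G X t := by
  rintro ⟨k, B, htk, hkn, hB, hGB⟩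
  have := Fintype.ofFinite X
  rw [Nat.card_eq_fintype_card] at htn hkn
  obtain ⟨s, -, hs⟩ := Finset.exists_subset_card_eq (s := (Finset.univ : Finset X)) (n := t - 1)
    (by rw [Finset.card_univ]; omega)
  obtain ⟨x, hx⟩ : ∃ x, x ∉ s := by
    by_contra hne
    push Not at hne
    have := Finset.card_le_card (fun x _ => hne x : (Finset.univ : Finset X) ⊆ s)
    rw [Finset.card_univ] at this
    omega
  have hxs : (insert x s).card = t := by rw [Finset.card_insert_of_notMem hx]; omega
  obtain ⟨b, ⟨hb, hxb⟩, hbu⟩ := hB.existsUnique _ hxs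
  have hbk := hB.card_eq b hb
  obtain ⟨y, hyb, hy⟩ : ∃ y ∈ b, y ∉ insert x s := by
    by_contra hne
    push Not at hne
    have := Finset.card_le_card (fun x hx => hne x hx : b ⊆ insert x s)
    omega
  obtain ⟨z, hz⟩ : ∃ z, z ∉ b := by
    by_contra hne
    push Not at hne
    have := Finset.card_le_card (fun x _ => hne x : (Finset.univ : Finset X) ⊆ b)
    rw [Finset.card_univ] at this
    omega
  have hys : y ∉ s := fun h1 => hy (Finset.mem_insert_of_mem h1)
  have hyx : x ≠ y := by rintro rfl; exact hy (Finset.mem_insert_self _ _)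
  have hzs : z ∉ s := fun h1 => hz (hxb (Finset.mem_insert_of_mem h1))
  have hxb' : x ∈ b := hxb (Finset.mem_insert_self _ _)
  have hsb : s ⊆ b := fun w hw => hxb (Finset.mem_insert_of_mem hw)
  rcases rel_of_tprimitive h s (by omega) (fun x y => ∀ b ∈ B, s ⊆ b → (x ∈ b ↔ y ∈ b))
    (fun _ _ _ _ _ => Iff.rfl) (fun _ _ _ _ h1 b hb hs => (h1 b hb hs).symm)
    (fun _ _ _ _ _ _ h1 h2 b hb hs => (h1 b hb hs).trans (h2 b hb hs)) (by
      intro g hg u v _ _ huv b' hb' hsb'
      have h1 := huv (g⁻¹ • b') (hGB _ _ hb') (by
        intro w hw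
        rw [← Finset.smul_mem_smul_finset_iff g, smul_inv_smul, hg w hw]
        exact hsb' hw)
      rw [Finset.mem_inv_smul_finset_iff, Finset.mem_inv_smul_finset_iff] at h1
      exact h1) with h1 | h1
  · apply hyx
    apply h1 x y hx hys
    intro b' hb' hsb'
    constructor
    · intro h2
      rw [hbu b' ⟨hb', by
        intro w hw
        rcases Finset.mem_insert.1 hw with rfl | hw
        · exact h2
        · exact hsb' hw⟩]
      exact hyb
    · intro h2
      obtain ⟨b'', -, hbu'⟩ := hB.existsUnique (insert y s) (by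
        rw [Finset.card_insert_of_notMem hys]; omega)
      have e1 := hbu' b' ⟨hb', by
        intro w hw
        rcases Finset.mem_insert.1 hw with rfl | hw
        · exact h2
        · exact hsb' hw⟩
      have e2 := hbu' b ⟨hb, by
        intro w hw
        rcases Finset.mem_insert.1 hw with rfl | hw
        · exact hyb
        · exact hsb hw⟩
      rw [e1, ← e2]
      exact hxb'
  · exact hz ((h1 x z hx hzs b hb hsb).1 hxb')

/-- Every `t`-set primitive group is `t`-Steiner primitive. -/
theorem SteinerPrimitive.of_tsetprimitive {t : ℕ} (ht : 1 ≤ t) (htn : t ≤ Nat.card X)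
    [Finite X] (h : IsPreprimitive G (Set.powersetCard X t)) : SteinerPrimitive G X t := by
  rintro ⟨k, B, htk, hkn, hB, hGB⟩
  have := Fintype.ofFinite X
  rw [Nat.card_eq_fintype_card] at htn hkn
  obtain ⟨s, -, hs⟩ := Finset.exists_subset_card_eq (s := (Finset.univ : Finset X)) (n := t)
    (by rw [Finset.card_univ]; omega)
  obtain ⟨b, ⟨hb, hxb⟩, hbu⟩ := hB.existsUnique _ hs
  have hbk := hB.card_eq b hb
  obtain ⟨z, hz⟩ : ∃ z, z ∉ b := by
    by_contra hne
    push Not at hne
    have := Finset.card_le_card (fun x _ => hne x : (Finset.univ : Finset X) ⊆ b)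
    rw [Finset.card_univ] at this
    omega
  obtain ⟨y, hyb, hy⟩ : ∃ y ∈ b, y ∉ s := by
    by_contra hne
    push Not at hne
    have := Finset.card_le_card (fun x hx => hne x hx : b ⊆ s)
    omega
  obtain ⟨x, hx⟩ : s.Nonempty := by rw [← Finset.card_pos]; omega
  rcases rel_of_tsetprimitive h (fun u v => ∀ b ∈ B, (u ⊆ b ↔ v ⊆ b))
    ⟨fun _ _ _ => Iff.rfl, fun h1 b hb => (h1 b hb).symm,
      fun h1 h2 b hb => (h1 b hb).trans (h2 b hb)⟩ (by
      intro g u v _ _ huv b' hb'
      have h1 := huv (g⁻¹ • b') (hGB _ _ hb')
      rw [Finset.subset_smul_finset_iff, Finset.subset_smul_finset_iff, inv_inv] at h1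
      exact h1) with h1 | h1
  · have hyx : x ≠ y := by rintro rfl; exact hy hx
    have hc : (insert y (s.erase x)).card = t := by
      rw [Finset.card_insert_of_notMem (fun h2 => hy (Finset.mem_of_mem_erase h2)),
        Finset.card_erase_of_mem hx]
      omega
    have hsub : insert y (s.erase x) ⊆ b := by
      intro w hw
      rcases Finset.mem_insert.1 hw with rfl | hw
      · exact hyb
      · exact hxb (Finset.mem_of_mem_erase hw)
    have := h1 s (insert y (s.erase x)) hs hc (by
      intro b' hb'
      constructor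
      · intro h2
        rw [hbu b' ⟨hb', h2⟩]
        exact hsub
      · intro h2
        obtain ⟨b'', -, hbu'⟩ := hB.existsUnique _ hc
        rw [hbu' b' ⟨hb', h2⟩, ← hbu' b ⟨hb, hsub⟩]
        exact hxb)
    rw [this] at hx
    rcases Finset.mem_insert.1 hx with h2 | h2
    · exact hyx h2
    · exact absurd rfl (Finset.ne_of_mem_erase h2)
  · have hzs : z ∉ s := fun h2 => hz (hxb h2)
    have hc : (insert z (s.erase x)).card = t := by
      rw [Finset.card_insert_of_notMem (fun h2 => hzs (Finset.mem_of_mem_erase h2)),
        Finset.card_erase_of_mem hx]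
      omega
    have := (h1 s (insert z (s.erase x)) hs hc b hb).1 hxb
    exact hz (this (Finset.mem_insert_self _ _))

/-- If `t ≥ n - 1` then a `t`-transitive group is `t`-primitive. -/
theorem tprimitive_of_card_le [Finite X] {t : ℕ} (ht : 1 ≤ t) (hn : Nat.card X ≤ t + 1)
    (h : IsMultiplyPretransitive G X t) : IsMultiplyPreprimitive G X t := by
  rw [isMultiplyPreprimitive_iff]
  refine ⟨h, fun {s} hs => ?_⟩
  have hfin : Finite s := Set.toFinite s
  have hs' : s.ncard + 1 = t := by
    rw [← Set.Finite.cast_ncard_eq (Set.toFinite s)] at hs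
    exact_mod_cast hs
  have h1 : IsMultiplyPretransitive (fixingSubgroup G s) (SubMulAction.ofFixingSubgroup G s) 1 :=
    SubMulAction.ofFixingSubgroup.isMultiplyPretransitive (G := G) s hs'
  rw [is_one_pretransitive_iff] at h1
  constructor
  intro B _
  apply isTrivialBlock_of_card_le_two
  have h2 : Nat.card (SubMulAction.ofFixingSubgroup G s) + s.ncard = Nat.card X := by
    have h3 : Nat.card (SubMulAction.ofFixingSubgroup G s) = (sᶜ : Set X).ncard := by
      rw [← Nat.card_coe_set_eq]
      rfl
    rw [h3, add_comm]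
    exact Set.ncard_add_ncard_compl s
  omega

/-- If `t ≥ n - 1` then a `t`-transitive group is `t`-set primitive, `t ≥ 2`. -/
theorem tsetprimitive_of_card_le [Finite X] {t : ℕ} (ht : 2 ≤ t) (htn : t ≤ Nat.card X)
    (hn : Nat.card X ≤ t + 1) (h : IsMultiplyPretransitive G X t) :
    IsPreprimitive G (Set.powersetCard X t) := by
  have := Fintype.ofFinite X
  rw [Nat.card_eq_fintype_card] at htn hn
  rcases Nat.lt_or_ge t (Fintype.card X) with h1 | h1
  · have h2 : IsMultiplyPretransitive G X 2 := by
      apply isMultiplyPretransitive_of_le (n := t) ht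
      rw [Nat.card_eq_fintype_card]
      omega
    have h3 : IsPreprimitive G X := isPreprimitive_of_is_two_pretransitive h2
    have h4 : IsPreprimitive G (Set.powersetCard X 1) :=
      IsPreprimitive.of_surjective (Set.powersetCard.mulActionHom_singleton_bijective G X).2
    have h5 : t + 1 = Fintype.card X := by omega
    exact IsPreprimitive.of_surjective (Set.powersetCard.mulActionHom_compl_bijective G X h5).2
  · have : Subsingleton (Set.powersetCard X t) := by
      constructor
      intro a b
      apply Subtype.ext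
      have ha : (a : Finset X) = Finset.univ := by
        apply Finset.eq_univ_of_card
        rw [Set.powersetCard.card_eq]
        omega
      have hb : (b : Finset X) = Finset.univ := by
        apply Finset.eq_univ_of_card
        rw [Set.powersetCard.card_eq]
        omega
      rw [ha, hb]
    exact IsPreprimitive.of_subsingleton

end Tprim

end Pool.Agent.Helper37.Prim
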