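import Pool.Agent.Helper37.Prim.SolubleMain
import Pool.Agent.Helper37.Prim.Symp
import Pool.Agent.Helper37.Prim.Lines
import Pool.Agent.Helper37.Prim.G2

/-!
# Three generalisations of primitivity (MP_13dc8a_al): affine groups of even degree
-/

namespace Pool.Agent.Helper37.Prim

open MulAction

section

variable {V : Type*} [AddCommGroup V] [Finite V] [DecidableEq V] {G : Subgroup (Equiv.Perm V)}

/-- A `2`-primitive group of affine maps of a vector space with at least four elements over the
field with two elements is of type (a) and (d). -/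
theorem affine_exc [Module (ZMod 2) V] (hn : 4 ≤ Nat.card V)
    (hA : ∀ g ∈ G, ∃ (f : V →ₗ[ZMod 2] V) (v : V), ∀ x, g x = f x + v)
    (h : IsMultiplyPreprimitive G V 2) :
    ExcA G V 2 ∧ ¬ ExcB G V 2 ∧ ¬ ExcC G V 2 ∧ ExcD G V 2 := by
  have hset : ¬ IsPreprimitive G (Set.powersetCard V 2) := by
    apply not_tsetprimitive_two (G := G) Nat.prime_two
      (fun x => by rw [two_nsmul]; exact add_self_V x) ?_ hn
    intro g x v
    obtain ⟨f, w, hf⟩ := hA g g.2
    have hf' : ∀ x, g • x = f x + w := hf
    rw [hf', hf', hf', hf', map_add, map_zero]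
    abel
  have hst : SteinerPrimitive G V 2 :=
    SteinerPrimitive.of_tprimitive (by norm_num) (by omega) h
  exact ⟨⟨h, hset⟩, fun h1 => h1.2 h, fun h1 => h1.2 h, ⟨hst, hset⟩⟩

end

end Pool.Agent.Helper37.Prim
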