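import Pool.Agent.Helper37.Prim.Proj3Steiner

/-!
# Three generalisations of primitivity (MP_13dc8a_al): `t`-transitive groups of Möbius
transformations, `t ≥ 3`
-/

namespace Pool.Agent.Helper37.Prim

open Matrix OnePoint MulAction
open scoped Pointwise

section Solv

theorem perm_apply_inv {α : Type*} (π : Equiv.Perm α) (x : α) : π (π⁻¹ x) = x :=
  π.apply_symm_apply x

theorem isSolvable_of_commutator_le {G : Type*} [Group G] (S₀ S₁ : Subgroup G)
    (h : ∀ x ∈ S₀, ∀ y ∈ S₀, x * y * x⁻¹ * y⁻¹ ∈ S₁) (h1 : Group.IsSolvable S₁) : Group.IsSolvable S₀ := by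
  have hle : commutator S₀ ≤ S₁.comap S₀.subtype := by
    rw [commutator_def, Subgroup.commutator_le]
    intro x _ y _
    exact h x x.2 y y.2
  have h2 : Group.IsSolvable (commutator S₀) := by
    let f : commutator S₀ →* S₁ :=
      (S₀.subtype.comp (commutator S₀).subtype).codRestrict S₁ (fun x => hle x.2)
    apply Group.isSolvable_of_isSolvable_injective (f := f)
    intro x y hxy
    have h3 := congrArg Subtype.val hxy
    exact Subtype.ext (Subtype.ext h3)
  exact Group.isSolvable_of_ker_le_range (commutator S₀).subtype (Abelianization.of (G := S₀)) (by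
    rw [Abelianization.ker_of, Subgroup.range_subtype])

variable {K : Type*} [Field K] [Finite K] [DecidableEq K]

omit [DecidableEq K] in
theorem aut_comm (σ τ : K ≃+* K) (x : K) : σ (τ x) = τ (σ x) := by
  by_cases hx : x = 0
  · rw [hx]; simp
  · obtain ⟨m, hm⟩ := MonoidHom.map_cyclic (Units.map (σ : K →* K))
    obtain ⟨n, hn⟩ := MonoidHom.map_cyclic (Units.map (τ : K →* K))
    have h1 : Units.map (σ : K →* K) (Units.map (τ : K →* K) (Units.mk0 x hx)) =
        Units.map (τ : K →* K) (Units.map (σ : K →* K) (Units.mk0 x hx)) := by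
      rw [hm, hn, hn, hm, ← _root_.zpow_mul, ← _root_.zpow_mul, mul_comm]
    exact congrArg Units.val h1

/-- the affine maps -/
def S1 (K : Type*) [Field K] : Subgroup (Equiv.Perm (OnePoint K)) where
  carrier := {π | π ∞ = ∞ ∧ ∃ a b : K, a ≠ 0 ∧ ∀ x : K, π x = ((a * x + b : K) : OnePoint K)}
  mul_mem' := by
    rintro π ρ ⟨h1, a, b, ha, h2⟩ ⟨h3, c, d, hc, h4⟩
    refine ⟨by rw [Equiv.Perm.mul_apply, h3, h1], a * c, a * d + b, mul_ne_zero ha hc,
      fun x => ?_⟩
    rw [Equiv.Perm.mul_apply, h4, h2, OnePoint.coe_eq_coe]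
    ring
  one_mem' := ⟨rfl, 1, 0, one_ne_zero, fun x => by simp⟩
  inv_mem' := by
    rintro π ⟨h1, a, b, ha, h2⟩
    refine ⟨by rw [Equiv.Perm.inv_eq_iff_eq, h1], a⁻¹, -(a⁻¹ * b), inv_ne_zero ha, fun x => ?_⟩
    rw [Equiv.Perm.inv_eq_iff_eq, h2, OnePoint.coe_eq_coe]
    field_simp
    ring

/-- the translations -/
def S2 (K : Type*) [Field K] : Subgroup (Equiv.Perm (OnePoint K)) where
  carrier := {π | π ∞ = ∞ ∧ ∃ b : K, ∀ x : K, π x = ((x + b : K) : OnePoint K)}
  mul_mem' := by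
    rintro π ρ ⟨h1, b, h2⟩ ⟨h3, d, h4⟩
    refine ⟨by rw [Equiv.Perm.mul_apply, h3, h1], d + b, fun x => ?_⟩
    rw [Equiv.Perm.mul_apply, h4, h2, OnePoint.coe_eq_coe]
    ring
  one_mem' := ⟨rfl, 0, fun x => by simp⟩
  inv_mem' := by
    rintro π ⟨h1, b, h2⟩
    refine ⟨by rw [Equiv.Perm.inv_eq_iff_eq, h1], -b, fun x => ?_⟩
    rw [Equiv.Perm.inv_eq_iff_eq, h2, OnePoint.coe_eq_coe]
    ring

/-- the semiaffine maps -/
def S0 (K : Type*) [Field K] [DecidableEq K] : Subgroup (Equiv.Perm (OnePoint K)) :=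
  PGammaL K ⊓ stabilizer (Equiv.Perm (OnePoint K)) (∞ : OnePoint K)

theorem isSolvable_S0 : Group.IsSolvable (S0 K) := by
  have h2 : Group.IsSolvable (S2 K) := by
    apply Group.isSolvable_of_comm
    rintro ⟨π, h1, b, h2⟩ ⟨ρ, h3, d, h4⟩
    apply Subtype.ext
    ext x
    change π (ρ x) = ρ (π x)
    cases x with
    | infty => rw [h3, h1, h3]
    | coe x =>
      rw [h4, h2, h2, h4, OnePoint.coe_eq_coe]
      ring
  have h1 : Group.IsSolvable (S1 K) := by
    apply isSolvable_of_commutator_le (S1 K) (S2 K) _ h2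
    rintro π ⟨h1, a, b, ha, h2⟩ ρ ⟨h3, c, d, hc, h4⟩
    have e1 : π⁻¹ ∞ = ∞ := by rw [Equiv.Perm.inv_eq_iff_eq, h1]
    have e2 : ρ⁻¹ ∞ = ∞ := by rw [Equiv.Perm.inv_eq_iff_eq, h3]
    refine ⟨?_, a * d + b - (c * b + d), fun y => ?_⟩
    · rw [Equiv.Perm.mul_apply, Equiv.Perm.mul_apply,
        Equiv.Perm.mul_apply, e2, e1, h3, h1]
    · have hne : π⁻¹ (ρ⁻¹ (y : OnePoint K)) ≠ ∞ := by
        intro h
        rw [Equiv.Perm.inv_eq_iff_eq, Equiv.Perm.inv_eq_iff_eq, h1, h3] at h
        exact OnePoint.coe_ne_infty _ h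
      obtain ⟨x, hx⟩ := OnePoint.ne_infty_iff_exists.1 hne
      have hy : (y : OnePoint K) = ρ (π (x : OnePoint K)) := by
        rw [hx, perm_apply_inv, perm_apply_inv]
      rw [h2, h4, OnePoint.coe_eq_coe] at hy
      rw [Equiv.Perm.mul_apply, Equiv.Perm.mul_apply,
        Equiv.Perm.mul_apply, ← hx, h4, h2, OnePoint.coe_eq_coe, hy]
      ring
  apply isSolvable_of_commutator_le (S0 K) (S1 K) _ h1
  rintro π ⟨hπ, h1⟩ ρ ⟨hρ, h3⟩
  have h1 : π ∞ = ∞ := h1
  have h3 : ρ ∞ = ∞ := h3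
  obtain ⟨a, b, σ, ha, h2⟩ := PGammaL_infty hπ h1
  obtain ⟨c, d, τ, hc, h4⟩ := PGammaL_infty hρ h3
  have e1 : π⁻¹ ∞ = ∞ := by rw [Equiv.Perm.inv_eq_iff_eq, h1]
  have e2 : ρ⁻¹ ∞ = ∞ := by rw [Equiv.Perm.inv_eq_iff_eq, h3]
  have hτa : τ a ≠ 0 := by
    rw [Ne, EmbeddingLike.map_eq_zero_iff]; exact ha
  have hσc : σ c ≠ 0 := by
    rw [Ne, EmbeddingLike.map_eq_zero_iff]; exact hc
  refine ⟨?_, a * σ c / (c * τ a), a * σ d + b - a * σ c / (c * τ a) * (c * τ b + d),
    div_ne_zero (mul_ne_zero ha hσc) (mul_ne_zero hc hτa), fun y => ?_⟩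
  · rw [Equiv.Perm.mul_apply, Equiv.Perm.mul_apply,
      Equiv.Perm.mul_apply, e2, e1, h3, h1]
  · have hne : π⁻¹ (ρ⁻¹ (y : OnePoint K)) ≠ ∞ := by
      intro h
      rw [Equiv.Perm.inv_eq_iff_eq, Equiv.Perm.inv_eq_iff_eq, h1, h3] at h
      exact OnePoint.coe_ne_infty _ h
    obtain ⟨x, hx⟩ := OnePoint.ne_infty_iff_exists.1 hne
    have hy : (y : OnePoint K) = ρ (π (x : OnePoint K)) := by
      rw [hx, perm_apply_inv, perm_apply_inv]
    rw [h2, h4, OnePoint.coe_eq_coe] at hy
    rw [Equiv.Perm.mul_apply, Equiv.Perm.mul_apply,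
      Equiv.Perm.mul_apply, ← hx, h4, h2, OnePoint.coe_eq_coe, hy, map_add, map_mul, map_add,
      map_mul, aut_comm τ σ x]
    field_simp
    ring

theorem isSolvable_stab (G : Subgroup (Equiv.Perm (OnePoint K))) (hG : G ≤ PGammaL K) :
    Group.IsSolvable (stabilizer G (∞ : OnePoint K)) := by
  have := isSolvable_S0 (K := K)
  let f : stabilizer G (∞ : OnePoint K) →* S0 K :=
    (G.subtype.comp (stabilizer G (∞ : OnePoint K)).subtype).codRestrict (S0 K)
      (fun x => ⟨hG (x : G).2, x.2⟩)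
  apply Group.isSolvable_of_isSolvable_injective (f := f)
  intro x y hxy
  have h3 := congrArg Subtype.val hxy
  exact Subtype.ext (Subtype.ext h3)

end Solv

section Five

variable {G X : Type*} [Group G] [MulAction G X] [Finite X] [DecidableEq X]

theorem tsetprimitive_two_of_card_five (hn : Nat.card X = 5)
    (h3 : IsMultiplyPretransitive G X 3) : IsPreprimitive G (Set.powersetCard X 2) := by
  have := Fintype.ofFinite X
  have h2 : IsMultiplyPretransitive G X 2 :=
    isMultiplyPretransitive_of_le (n := 3) (by norm_num) (by omega)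
  have htr : IsPretransitive G (Set.powersetCard X 2) :=
    Set.powersetCard.isPretransitive_of_isMultiplyPretransitive G h2
  apply isPreprimitive_of_rel
  intro r hr hG
  by_cases hne : ∃ s s', r s s' ∧ s ≠ s'
  swap
  · left
    intro s s' hs
    by_contra h
    exact hne ⟨s, s', hs, h⟩
  right
  let R : X → X → X → X → Prop := fun a b c d =>
    ∃ (h : a ≠ b) (h' : c ≠ d), r ⟨{a, b}, Finset.card_pair h⟩ ⟨{c, d}, Finset.card_pair h'⟩
  have hR : ∀ a b c d (g : G), R a b c d → R (g • a) (g • b) (g • c) (g • d) := by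
    rintro a b c d g ⟨h, h', hr'⟩
    refine ⟨fun e => h (smul_left_cancel g e), fun e => h' (smul_left_cancel g e), ?_⟩
    have := hG g _ _ hr'
    convert this using 1
    · apply Subtype.ext
      rw [Set.powersetCard.coe_smul]
      change _ = g • ({a, b} : Finset X)
      rw [Finset.smul_finset_insert, Finset.smul_finset_singleton]
    · apply Subtype.ext
      rw [Set.powersetCard.coe_smul]
      change _ = g • ({c, d} : Finset X)
      rw [Finset.smul_finset_insert, Finset.smul_finset_singleton]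
  have hswap : ∀ a b c d, R a b c d → R b a c d := by
    rintro a b c d ⟨h, h', hr'⟩
    refine ⟨h.symm, h', ?_⟩
    convert hr' using 1
    exact Subtype.ext (Finset.pair_comm b a)
  have hsymm : ∀ a b c d, R a b c d → R c d a b := by
    rintro a b c d ⟨h, h', hr'⟩
    exact ⟨h', h, hr.symm hr'⟩
  have htrans : ∀ a b c d e f, R a b c d → R c d e f → R a b e f := by
    rintro a b c d e f ⟨h, h', hr'⟩ ⟨_, h'', hr''⟩
    exact ⟨h, h'', hr.trans hr' hr''⟩
  -- it is enough to relate two pairs with a common point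
  have step : (∃ a b c, a ≠ b ∧ a ≠ c ∧ b ≠ c ∧ R a b a c) → ∀ s s', r s s' := by
    rintro ⟨a, b, c, hab, hac, hbc, h⟩
    have h1 : ∀ x y z, x ≠ y → x ≠ z → y ≠ z → R x y x z := by
      intro x y z hxy hxz hyz
      obtain ⟨g, rfl, rfl, rfl⟩ := exists_smul_three h3 hab hac hbc hxy hxz hyz
      exact hR _ _ _ _ g h
    have h2 : ∀ x y z, x ≠ y → x ≠ z → R x y x z := by
      intro x y z hxy hxz
      by_cases hyz : y = z
      · subst hyz
        exact ⟨hxy, hxy, hr.refl _⟩
      · exact h1 x y z hxy hxz hyz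
    have h4 : ∀ x y z w, x ≠ y → z ≠ w → R x y z w := by
      intro x y z w hxy hzw
      by_cases hxz : x = z
      · subst hxz
        exact h2 x y w hxy hzw
      · have e1 : R x y x z := h2 x y z hxy hxz
        have e2 : R z x z w := h2 z x w (Ne.symm hxz) hzw
        exact htrans _ _ _ _ _ _ e1 (hswap _ _ _ _ e2)
    rintro ⟨s, hs⟩ ⟨s', hs'⟩
    obtain ⟨x, y, hxy, rfl⟩ := Finset.card_eq_two.1 hs
    obtain ⟨z, w, hzw, rfl⟩ := Finset.card_eq_two.1 hs'
    obtain ⟨_, _, h5⟩ := h4 x y z w hxy hzw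
    exact h5
  apply step
  obtain ⟨⟨s, hs⟩, ⟨s', hs'⟩, hss, hne⟩ := hne
  obtain ⟨a, b, hab, rfl⟩ := Finset.card_eq_two.1 hs
  obtain ⟨c, d, hcd, rfl⟩ := Finset.card_eq_two.1 hs'
  have h0 : R a b c d := ⟨hab, hcd, hss⟩
  have hne' : ¬ ({a, b} : Finset X) = {c, d} := fun h => hne (Subtype.ext h)
  by_cases hac : a = c
  · subst hac
    exact ⟨a, b, d, hab, hcd, fun h => hne' (by rw [h]), h0⟩
  by_cases had : a = d
  · subst had
    refine ⟨a, b, c, hab, hac, fun h => hne' (by rw [h, Finset.pair_comm]), ?_⟩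
    exact hsymm _ _ _ _ (hswap _ _ _ _ (hsymm _ _ _ _ h0))
  by_cases hbc : b = c
  · subst hbc
    exact ⟨b, a, d, hab.symm, hcd, fun h => had h, hswap _ _ _ _ h0⟩
  by_cases hbd : b = d
  · subst hbd
    exact ⟨b, a, c, hab.symm, hbc, hac,
      hswap _ _ _ _ (hsymm _ _ _ _ (hswap _ _ _ _ (hsymm _ _ _ _ h0)))⟩
  -- the disjoint case
  have h4 : ({a, b, c, d} : Finset X).card = 4 := by
    rw [Finset.card_insert_of_notMem, Finset.card_insert_of_notMem, Finset.card_pair hcd]
    · simp only [Finset.mem_insert, Finset.mem_singleton, not_or]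
      exact ⟨hbc, hbd⟩
    · simp only [Finset.mem_insert, Finset.mem_singleton, not_or]
      exact ⟨hab, hac, had⟩
  obtain ⟨e, he⟩ : ∃ e, e ∉ ({a, b, c, d} : Finset X) := by
    by_contra hall
    push Not at hall
    have h5 := Finset.card_le_card (fun x _ => hall x : (Finset.univ : Finset X) ⊆ {a, b, c, d})
    rw [Finset.card_univ, ← Nat.card_eq_fintype_card, hn, h4] at h5
    omega
  have hall : ∀ x : X, x = a ∨ x = b ∨ x = c ∨ x = d ∨ x = e := by
    intro x
    by_contra hx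
    have h5 : ({x, e, a, b, c, d} : Finset X).card = 6 := by
      rw [Finset.card_insert_of_notMem, Finset.card_insert_of_notMem he, h4]
      simp only [Finset.mem_insert, Finset.mem_singleton]
      intro h
      apply hx
      rcases h with h | h | h | h | h <;> simp [h]
    have h6 := Finset.card_le_univ ({x, e, a, b, c, d} : Finset X)
    rw [← Nat.card_eq_fintype_card, hn, h5] at h6
    omega
  simp only [Finset.mem_insert, Finset.mem_singleton, not_or] at he
  obtain ⟨hea, heb, hec, hed⟩ := he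
  obtain ⟨g, hga, hgb, hgc⟩ := exists_smul_three h3 hab hac hbc hab (Ne.symm hea) (Ne.symm heb)
  have h5 := hR _ _ _ _ g h0
  rw [hga, hgb, hgc] at h5
  have h6 : R c d e (g • d) := htrans _ _ _ _ _ _ (hsymm _ _ _ _ h0) h5
  have hgd : g • d = c ∨ g • d = d := by
    rcases hall (g • d) with h | h | h | h | h
    · exact absurd (smul_left_cancel g (h.trans hga.symm)) (Ne.symm had)
    · exact absurd (smul_left_cancel g (h.trans hgb.symm)) (Ne.symm hbd)
    · exact Or.inl h
    · exact Or.inr h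
    · exact absurd (smul_left_cancel g (h.trans hgc.symm)) (Ne.symm hcd)
  rcases hgd with h | h
  · rw [h] at h6
    exact ⟨c, d, e, hcd, Ne.symm hec, Ne.symm hed, hsymm _ _ _ _ (hswap _ _ _ _ (hsymm _ _ _ _ h6))⟩
  · rw [h] at h6
    exact ⟨d, c, e, hcd.symm, Ne.symm hed, Ne.symm hec,
      hswap _ _ _ _ (hsymm _ _ _ _ (hswap _ _ _ _ (hsymm _ _ _ _ h6)))⟩

end Five

section Final

variable {K : Type*} [Field K] [Finite K] [DecidableEq K] [DecidableEq (OnePoint K)]

omit [DecidableEq (OnePoint K)] in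
/-- No group of (semilinear) Möbius transformations is `4`-transitive if `q ≥ 5`. -/
theorem not_four_trans_proj (hq : 5 ≤ Nat.card K) (G : Subgroup (Equiv.Perm (OnePoint K)))
    (hG : G ≤ PGammaL K) : ¬ IsMultiplyPretransitive G (OnePoint K) 4 := by
  classical
  have hfinite : Finite (OnePoint K) := inferInstanceAs (Finite (Option K))
  have := Fintype.ofFinite K
  intro h4
  have hex : ∀ s : Finset K, s.card ≤ 4 → ∃ x, x ∉ s := by
    intro s hs
    by_contra hne
    push Not at hne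
    have := Finset.card_le_card (fun x _ => hne x : (Finset.univ : Finset K) ⊆ s)
    rw [Finset.card_univ, ← Nat.card_eq_fintype_card] at this
    omega
  have hi : ∀ x : K, (∞ : OnePoint K) ≠ (x : OnePoint K) := fun x => OnePoint.infty_ne_coe _
  have hc : ∀ x y : K, x ≠ y → (x : OnePoint K) ≠ (y : OnePoint K) := by
    intro x y h
    rwa [Ne, OnePoint.coe_eq_coe]
  have haut : ∀ x y : K, x ≠ 0 → x ≠ 1 → y ≠ 0 → y ≠ 1 → ∃ σ : K ≃+* K, σ x = y := by
    intro x y hx0 hx1 hy0 hy1
    obtain ⟨g, h1, h2, h3, h5⟩ := exists_smul_four h4 (hi 0) (hi 1) (hi x) (hc 0 1 zero_ne_one)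
      (hc 0 x hx0.symm) (hc 1 x hx1.symm) (hi 0) (hi 1) (hi y) (hc 0 1 zero_ne_one)
      (hc 0 y hy0.symm) (hc 1 y hy1.symm)
    obtain ⟨a, σ, ha, h6⟩ := PGammaL_infty_zero (hG g.2) h1 h2
    have e1 : (g : Equiv.Perm (OnePoint K)) ((1 : K) : OnePoint K) = (1 : K) := h3
    have e2 : (g : Equiv.Perm (OnePoint K)) (x : OnePoint K) = (y : K) := h5
    rw [h6, map_one, mul_one, OnePoint.coe_eq_coe] at e1
    rw [h6, e1, one_mul, OnePoint.coe_eq_coe] at e2
    exact ⟨σ, e2⟩
  obtain ⟨y₀, hy₀⟩ := hex {0, 1, -1} (le_trans Finset.card_le_three (by norm_num))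
  simp only [Finset.mem_insert, Finset.mem_singleton, not_or] at hy₀
  obtain ⟨hy0, hy1, hy2⟩ := hy₀
  obtain ⟨σ, hσ⟩ := haut y₀ (y₀ + 1) hy0 hy1 (fun h => hy2 (eq_neg_of_add_eq_zero_left h))
    (fun h => hy0 (add_eq_right.1 h))
  have hσ' : ∀ x : K, x ≠ 0 → x ≠ 1 → σ x = x + 1 := by
    intro x hx0 hx1
    obtain ⟨τ, rfl⟩ := haut y₀ x hy0 hy1 hx0 hx1
    rw [aut_comm, hσ, map_add, map_one]
  obtain ⟨x, hx⟩ := hex {0, 1} (le_trans Finset.card_le_two (by norm_num))
  simp only [Finset.mem_insert, Finset.mem_singleton, not_or] at hx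
  obtain ⟨y, hy⟩ := hex {0, 1, -x, 1 - x} Finset.card_le_four
  simp only [Finset.mem_insert, Finset.mem_singleton, not_or] at hy
  have e1 := hσ' (x + y) (fun h => hy.2.2.1 (by rw [eq_neg_iff_add_eq_zero, add_comm]; exact h))
    (fun h => hy.2.2.2 (by rw [← h]; ring))
  rw [map_add, hσ' x hx.1 hx.2, hσ' y hy.1 hy.2.1] at e1
  have e2 : (1 : K) = 0 := by
    have : x + 1 + (y + 1) - (x + y + 1) = 0 := by rw [e1, sub_self]
    rw [← this]; ring
  exact one_ne_zero e2

/-- `3`-Steiner primitivity of `3`-transitive groups of (semilinear) Möbius transformations. -/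
theorem steinerPrimitive_three_iff (hq : 5 ≤ Nat.card K)
    (G : Subgroup (Equiv.Perm (OnePoint K))) (hG : G ≤ PGammaL K)
    (h3 : IsMultiplyPretransitive G (OnePoint K) 3) :
    SteinerPrimitive G (OnePoint K) 3 ↔
      ((Nat.card K).Prime ∨ ∃ d : ℕ, d.Prime ∧ Nat.card K = 2 ^ d) := by
  classical
  have hfinite : Finite (OnePoint K) := inferInstanceAs (Finite (Option K))
  have := Fintype.ofFinite K
  constructor
  · intro hS
    by_contra hne
    push Not at hne
    obtain ⟨hnp, hnd⟩ := hne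
    obtain ⟨p, -, m, hp, hm⟩ := FiniteField.card' K
    rw [← Nat.card_eq_fintype_card] at hm
    have hm1 : (m : ℕ) ≠ 1 := by
      intro h
      rw [h, pow_one] at hm
      rw [hm] at hnp
      exact hnp hp
    have hm2 : 2 ≤ (m : ℕ) := by
      have := m.pos
      omega
    rcases eq_or_ne p 2 with rfl | hp2
    · have hmp : ¬ (m : ℕ).Prime := fun h => hnd m h hm
      obtain ⟨e, hed, he2, hem⟩ := Nat.exists_dvd_of_not_prime2 hm2 hmp
      have h5 : 2 ^ 2 ≤ 2 ^ e := Nat.pow_le_pow_right (by norm_num) he2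
      obtain ⟨L, hL1, hL2, hL3⟩ := exists_subfield hp hm (by omega) hed hem (by omega)
      exact not_steinerPrimitive_of_subfield L hL1 hL2 hL3 G hG hS
    · obtain ⟨L, hL1, hL2, hL3⟩ := exists_subfield (e := 1) hp hm le_rfl (one_dvd _) (by omega)
        (by rw [pow_one]; exact lt_of_le_of_ne hp.two_le hp2.symm)
      exact not_steinerPrimitive_of_subfield L hL1 hL2 hL3 G hG hS
  · intro h
    apply steinerPrimitive_succ (∞ : OnePoint K) 2
    have hcard := SubMulAction.nat_card_ofStabilizer_eq G (∞ : OnePoint K)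
    rw [card_onePoint, Nat.add_sub_cancel] at hcard
    have h2 : IsMultiplyPretransitive G (OnePoint K) 2 :=
      isMultiplyPretransitive_of_le (n := 3) (by norm_num) (by rw [card_onePoint]; omega)
    have htr : IsPretransitive G (OnePoint K) := isPretransitive_of_is_two_pretransitive
    have h2' : IsMultiplyPretransitive (stabilizer G (∞ : OnePoint K))
        (SubMulAction.ofStabilizer G (∞ : OnePoint K)) 2 :=
      SubMulAction.ofStabilizer.isMultiplyPretransitive.1 h3
    have hf : FaithfulSMul (stabilizer G (∞ : OnePoint K))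
        (SubMulAction.ofStabilizer G (∞ : OnePoint K)) := by
      constructor
      intro g g' hgg
      apply Subtype.ext
      apply FaithfulSMul.eq_of_smul_eq_smul (α := OnePoint K)
      intro x
      by_cases hx : x = ∞
      · rw [hx]
        exact g.2.trans g'.2.symm
      · exact congrArg Subtype.val (hgg ⟨x, hx⟩)
    have hsol := isSolvable_stab G hG
    have h5 := affineAnswer_of_solvable (G := stabilizer G (∞ : OnePoint K))
      (X := SubMulAction.ofStabilizer G (∞ : OnePoint K)) (t := 2) le_rfl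
      (by rw [hcard]; omega) h2' hsol
    have h6 : ExcD (stabilizer G (∞ : OnePoint K))
        (SubMulAction.ofStabilizer G (∞ : OnePoint K)) 2 := by
      apply h5.2.2.2.2
      rw [hcard]
      refine ⟨rfl, ?_⟩
      rcases h with h | h
      · exact Or.inl ⟨h, hq⟩
      · exact Or.inr h
    exact h6.1

/-- The answer for groups of (semilinear) Möbius transformations, `t ≥ 3`. -/
theorem projAnswer {t : ℕ} (ht : 3 ≤ t) (htn : t ≤ Nat.card K + 1)
    (G : Subgroup (Equiv.Perm (OnePoint K))) (hG : G ≤ PGammaL K)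
    (hGt : IsMultiplyPretransitive G (OnePoint K) t) :
    (ExcA G (OnePoint K) t ↔ t = 3 ∧ 5 ≤ Nat.card K ∧ (Nat.card K - 1).Prime) ∧
    ¬ ExcB G (OnePoint K) t ∧
    (ExcC G (OnePoint K) t ↔ t = 3 ∧ 5 ≤ Nat.card K ∧ ¬ (Nat.card K - 1).Prime ∧
      ((Nat.card K).Prime ∨ ∃ d : ℕ, d.Prime ∧ Nat.card K = 2 ^ d)) ∧
    (ExcD G (OnePoint K) t ↔ t = 3 ∧ 5 ≤ Nat.card K ∧
      ((Nat.card K).Prime ∨ ∃ d : ℕ, d.Prime ∧ Nat.card K = 2 ^ d)) := by
  have hfinite : Finite (OnePoint K) := inferInstanceAs (Finite (Option K))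
  have hn := card_onePoint (K := K)
  -- both primitivity conditions hold
  have hall : IsMultiplyPreprimitive G (OnePoint K) t →
      IsPreprimitive G (Set.powersetCard (OnePoint K) t) → (t = 3 → Nat.card K < 5) →
      (ExcA G (OnePoint K) t ↔ t = 3 ∧ 5 ≤ Nat.card K ∧ (Nat.card K - 1).Prime) ∧
      ¬ ExcB G (OnePoint K) t ∧
      (ExcC G (OnePoint K) t ↔ t = 3 ∧ 5 ≤ Nat.card K ∧ ¬ (Nat.card K - 1).Prime ∧
        ((Nat.card K).Prime ∨ ∃ d : ℕ, d.Prime ∧ Nat.card K = 2 ^ d)) ∧
      (ExcD G (OnePoint K) t ↔ t = 3 ∧ 5 ≤ Nat.card K ∧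
        ((Nat.card K).Prime ∨ ∃ d : ℕ, d.Prime ∧ Nat.card K = 2 ^ d)) := by
    intro h1 h2 h3
    refine ⟨⟨fun h => absurd h2 h.2, fun h => absurd h.2.1 (by have := h3 h.1; omega)⟩,
      fun h => h.2 h1, ⟨fun h => absurd h1 h.2, fun h => absurd h.2.1 (by have := h3 h.1; omega)⟩,
      ⟨fun h => absurd h2 h.2, fun h => absurd h.2.1 (by have := h3 h.1; omega)⟩⟩
  by_cases hsmall : Nat.card K + 1 ≤ t + 1
  · exact hall (tprimitive_of_card_le (by omega) (by omega) hGt)
      (tsetprimitive_of_card_le (by omega) (by omega) (by omega) hGt) (by omega)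
  push Not at hsmall
  have h3 : IsMultiplyPretransitive G (OnePoint K) 3 :=
    isMultiplyPretransitive_of_le (n := t) ht (by omega)
  by_cases hq : 5 ≤ Nat.card K
  · have ht3 : t = 3 := by
      by_contra hne
      exact not_four_trans_proj hq G hG
        (isMultiplyPretransitive_of_le (n := t) (by omega) (by omega))
    subst ht3
    have hset := not_tsetprimitive_three hq G hG
    have hpr : IsMultiplyPreprimitive G (OnePoint K) 3 ↔ (Nat.card K - 1).Prime := by
      constructor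
      · intro h
        by_contra hne
        exact not_tprimitive_three (by omega) hne G hG h
      · intro h
        refine tprimitive_of_prime (by norm_num) (by omega) ?_ h3
        rw [hn]
        exact h
    have hst := steinerPrimitive_three_iff hq G hG h3
    refine ⟨?_, fun h => hset h.1, ?_, ?_⟩
    · exact ⟨fun h => ⟨rfl, hq, hpr.1 h.1⟩, fun h => ⟨hpr.2 h.2.2, hset⟩⟩
    · exact ⟨fun h => ⟨rfl, hq, fun h' => h.2 (hpr.2 h'), hst.1 h.1⟩,
        fun h => ⟨hst.2 h.2.2.2, fun h' => h.2.2.1 (hpr.1 h')⟩⟩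
    · exact ⟨fun h => ⟨rfl, hq, hst.1 h.1⟩, fun h => ⟨hst.2 h.2.2, hset⟩⟩
  · have hq4 : Nat.card K = 4 ∧ t = 3 := by omega
    obtain ⟨hq4, rfl⟩ := hq4
    have hfive : Nat.card (OnePoint K) = 5 := by rw [hn, hq4]
    have h1 : IsMultiplyPreprimitive G (OnePoint K) 3 := by
      refine tprimitive_of_prime (by norm_num) (by omega) ?_ h3
      rw [hfive]
      norm_num
    have h2 : IsPreprimitive G (Set.powersetCard (OnePoint K) 3) := by
      have h5 : IsPreprimitive G (Set.powersetCard (OnePoint K) 2) :=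
        tsetprimitive_two_of_card_five hfive h3
      have hft := Fintype.ofFinite (OnePoint K)
      have h6 : 3 + 2 = Fintype.card (OnePoint K) := by rw [← Nat.card_eq_fintype_card, hfive]
      have h7 := (Set.powersetCard.mulActionHom_compl_bijective G (OnePoint K) h6).2
      exact @IsPreprimitive.of_surjective _ _ _ _ _ _ _ _ _ _ h5 h7
    exact hall h1 h2 (by omega)

end Final

end Pool.Agent.Helper37.Prim
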