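import Pool.Agent.Helper37.Prim.Basic

/-!
# Three generalisations of primitivity (MP_13dc8a_al): the affine structure of a primitive group
with a nontrivial soluble normal subgroup
-/

namespace Pool.Agent.Helper37.Prim

open MulAction
open scoped Pointwise

/-- A nontrivial soluble normal subgroup of a finite group contains a nontrivial abelian subgroup
normal in the whole group. -/
theorem exists_abelian_normal {G : Type*} [Group G] [Finite G] (N : Subgroup G) (hNn : N.Normal)
    (hN : N ≠ ⊥) (hs : Group.IsSolvable N) :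
    ∃ A : Subgroup G, A.Normal ∧ A ≠ ⊥ ∧ ∀ a ∈ A, ∀ b ∈ A, a * b = b * a := by
  induction hc : Nat.card N using Nat.strong_induction_on generalizing N with
  | _ n ih =>
    by_cases hcomm : ∀ a ∈ N, ∀ b ∈ N, a * b = b * a
    · exact ⟨N, hNn, hN, hcomm⟩
    · have h1 : ⁅N, N⁆ ≠ ⊥ := by
        intro h1
        rw [Subgroup.commutator_eq_bot_iff_le_centralizer] at h1
        apply hcomm
        intro a ha b hb
        exact ((Subgroup.mem_centralizer_iff.1 (h1 ha)) b hb).symm
      have h2 : ⁅N, N⁆ < N := by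
        have hnt : Nontrivial N := (Subgroup.nontrivial_iff_ne_bot N).2 hN
        have h3 := Group.IsSolvable.commutator_lt_top_of_nontrivial N
        rw [← Subgroup.map_subtype_lt_map_subtype, ← MonoidHom.range_eq_map,
          Subgroup.range_subtype, commutator_def, Subgroup.map_commutator,
          ← MonoidHom.range_eq_map, Subgroup.range_subtype] at h3
        exact h3
      have h4 : Nat.card (⁅N, N⁆ : Subgroup G) < n := by
        rw [← hc]
        have : (((⁅N, N⁆ : Subgroup G) : Set G)).ncard < ((N : Subgroup G) : Set G).ncard :=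
          Set.ncard_lt_ncard h2 (Set.toFinite _)
        rwa [← Nat.card_coe_set_eq, ← Nat.card_coe_set_eq] at this
      have h5 : Group.IsSolvable (⁅N, N⁆ : Subgroup G) :=
        Group.isSolvable_of_isSolvable_injective (Subgroup.inclusion_injective h2.le)
      exact ih _ h4 ⁅N, N⁆ (Subgroup.commutator_normal N N) h1 h5 rfl

/-- The elementary abelian version. -/
theorem exists_elementary_normal {G : Type*} [Group G] [Finite G] (N : Subgroup G)
    (hNn : N.Normal) (hN : N ≠ ⊥) (hs : Group.IsSolvable N) :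
    ∃ (p : ℕ) (A : Subgroup G), p.Prime ∧ A.Normal ∧ A ≠ ⊥ ∧ (∀ a ∈ A, ∀ b ∈ A, a * b = b * a) ∧
      ∀ a ∈ A, a ^ p = 1 := by
  obtain ⟨A, hAn, hA, hc⟩ := exists_abelian_normal N hNn hN hs
  have h1 : Nat.card A ≠ 1 := by
    intro h
    exact hA (Subgroup.eq_bot_of_card_eq A h)
  obtain ⟨p, hp, hpA⟩ := Nat.exists_prime_and_dvd h1
  have := Fact.mk hp
  obtain ⟨a, ha⟩ := exists_prime_orderOf_dvd_card' (G := A) p hpA
  refine ⟨p, { carrier := {g | g ∈ A ∧ g ^ p = 1}
               mul_mem' := ?_
               one_mem' := ⟨A.one_mem, one_pow _⟩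
               inv_mem' := ?_ }, hp, ⟨?_⟩, ?_, ?_, ?_⟩
  · rintro a b ⟨ha, ha'⟩ ⟨hb, hb'⟩
    refine ⟨A.mul_mem ha hb, ?_⟩
    have : Commute a b := hc a ha b hb
    rw [this.mul_pow, ha', hb', one_mul]
  · rintro a ⟨ha, ha'⟩
    exact ⟨A.inv_mem ha, by rw [inv_pow, ha', inv_one]⟩
  · rintro a ⟨ha, ha'⟩ g
    refine ⟨hAn.conj_mem a ha g, ?_⟩
    rw [conj_pow, ha', mul_one, mul_inv_cancel]
  · intro h
    have h2 : (a : G) ∈ (⊥ : Subgroup G) := by
      rw [← h]
      refine ⟨a.2, ?_⟩
      rw [← ha, ← Subgroup.coe_pow, pow_orderOf_eq_one, Subgroup.coe_one]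
    rw [Subgroup.mem_bot] at h2
    have h3 : a = 1 := Subtype.ext h2
    rw [h3, orderOf_one] at ha
    exact hp.one_lt.ne ha
  · rintro a ⟨ha, -⟩ b ⟨hb, -⟩
    exact hc a ha b hb
  · rintro a ⟨-, ha⟩
    exact ha

/-- A primitive group with a nontrivial soluble normal subgroup is affine. -/
theorem exists_affine {G X : Type*} [Group G] [MulAction G X] [FaithfulSMul G X] [Finite G]
    (h : IsPreprimitive G X) (N : Subgroup G) (hNn : N.Normal) (hN : N ≠ ⊥)
    (hs : Group.IsSolvable N) (o : X) :
    ∃ (p : ℕ) (inst : AddCommGroup X), p.Prime ∧ (0 : X) = o ∧ (∀ x : X, p • x = 0) ∧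
      (∀ v : X, ∃ g : G, ∀ x, g • x = x + v) ∧
      (∀ (g : G) (x v : X), g • (x + v) = g • x + (g • v - g • (0 : X))) := by
  obtain ⟨p, E, hp, hEn, hE, hc, hEp⟩ := exists_elementary_normal N hNn hN hs
  have htrans : IsPretransitive E X := by
    apply IsQuasiPreprimitive.isPretransitive_of_normal
    intro hfix
    apply hE
    rw [Subgroup.eq_bot_iff_forall]
    intro e he
    apply FaithfulSMul.eq_of_smul_eq_smul (α := X)
    intro x
    have : x ∈ fixedPoints E X := hfix ▸ Set.mem_univ x
    rw [one_smul]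
    exact this ⟨e, he⟩
  have hreg : ∀ e f : E, ∀ x : X, e • x = f • x → e = f := by
    intro e f x hx
    apply Subtype.ext
    apply FaithfulSMul.eq_of_smul_eq_smul (α := X)
    intro y
    obtain ⟨k, rfl⟩ := exists_smul_eq E x y
    have h1 : (e : G) * k = k * e := hc _ e.2 _ k.2
    have h2 : (f : G) * k = k * f := hc _ f.2 _ k.2
    change (e : G) • (k : G) • x = (f : G) • (k : G) • x
    rw [← mul_smul, ← mul_smul, h1, h2, mul_smul, mul_smul]
    congr 1
  letI instE : CommGroup E := { (inferInstance : Group E) with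
    mul_comm := fun a b => Subtype.ext (hc _ a.2 _ b.2) }
  let φ : E ≃ X := Equiv.ofBijective (fun e => e • o) ⟨fun e f hef => hreg e f o hef,
    fun x => exists_smul_eq E o x⟩
  let ψ : X ≃ Additive E := φ.symm.trans Additive.ofMul
  letI instX : AddCommGroup X := ψ.addCommGroup
  have hψ : ∀ x : X, (Additive.toMul (ψ x) : E) • o = x := fun x => φ.apply_symm_apply x
  have hψ' : ∀ e : E, ψ (e • o) = Additive.ofMul e := by
    intro e
    change Additive.ofMul (φ.symm (φ e)) = _
    rw [φ.symm_apply_apply]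
  have hadd : ∀ x v : X, x + v = (Additive.toMul (ψ v) : E) • x := by
    intro x v
    have h1 : x + v = ψ.symm (ψ x + ψ v) := rfl
    have h2 : ψ ((Additive.toMul (ψ v) : E) • x) = ψ x + ψ v := by
      conv_lhs => rw [← hψ x]
      rw [← mul_smul, hψ', add_comm (ψ x)]
      rfl
    rw [h1, ← h2, ψ.symm_apply_apply]
  have h0 : (0 : X) = o := by
    have h1 : (0 : X) = ψ.symm 0 := rfl
    rw [h1, Equiv.symm_apply_eq]
    have := hψ' 1
    rw [one_smul] at this
    rw [this]
    rfl
  refine ⟨p, instX, hp, h0, ?_, ?_, ?_⟩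
  · intro x
    have h1 : ψ (p • x) = p • ψ x := by
      have : p • x = ψ.symm (p • ψ x) := rfl
      rw [this, ψ.apply_symm_apply]
    have h2 : p • ψ x = 0 := by
      change Additive.ofMul ((Additive.toMul (ψ x) : E) ^ p) = 0
      have : (Additive.toMul (ψ x) : E) ^ p = 1 :=
        Subtype.ext (hEp _ (Additive.toMul (ψ x) : E).2)
      rw [this]
      rfl
    have h3 : (0 : X) = ψ.symm 0 := rfl
    rw [h3, ← ψ.symm_apply_apply (p • x), h1, h2]
  · intro v
    exact ⟨((Additive.toMul (ψ v) : E) : G), fun x => (hadd x v).symm⟩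
  · intro g x v
    set e : E := Additive.toMul (ψ v) with he
    let e' : E := ⟨g * e * g⁻¹, hEn.conj_mem _ e.2 g⟩
    have h1 : ∀ y, e' • y = y + e' • (0 : X) := by
      intro y
      rw [hadd y, h0, hψ']
      rfl
    have h2 : ∀ y, g • (y + v) = e' • (g • y) := by
      intro y
      rw [hadd y v, ← he]
      change g • (e : G) • y = (g * e * g⁻¹) • g • y
      rw [mul_smul, mul_smul, inv_smul_smul]
    rw [h2, h1 (g • x)]
    congr 1
    have h3 := h2 0
    rw [zero_add, h1 (g • (0 : X))] at h3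
    rw [h3, add_sub_cancel_left]

end Pool.Agent.Helper37.Prim
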