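import Pool.Agent.Helper37.Prim.AffineMain

/-!
# Three generalisations of primitivity (MP_13dc8a_al): affine groups, final steps
-/

namespace Pool.Agent.Helper37.Prim

open MulAction
open scoped Pointwise

/-- A Mersenne number which is a prime power is prime. -/
theorem prime_of_pow_eq {d r m : ℕ} (hd : 2 ≤ d) (hr : r.Prime) (h : r ^ m = 2 ^ d - 1) :
    m = 1 := by
  have h4 : 2 ^ 2 ≤ 2 ^ d := Nat.pow_le_pow_right (by norm_num) hd
  have h1 : r ^ m + 1 = 2 ^ d := by omega
  have hdvd4 : 4 ∣ 2 ^ d := by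
    have := pow_dvd_pow 2 hd
    norm_num at this
    exact this
  have hm0 : m ≠ 0 := by
    rintro rfl
    rw [pow_zero] at h
    omega
  have hrodd : Odd r := by
    rcases hr.eq_two_or_odd' with rfl | h2
    · exfalso
      have h2 : 2 ∣ 2 ^ m := dvd_pow_self 2 hm0
      have h3 : 2 ∣ 2 ^ d := dvd_pow_self 2 (by omega)
      omega
    · exact h2
  rcases Nat.even_or_odd m with he | ho
  · exfalso
    obtain ⟨l, rfl⟩ := he
    have h2 : Odd (r ^ l) := hrodd.pow
    obtain ⟨c, hc⟩ := h2
    have h3 : r ^ (l + l) = 4 * (c * c + c) + 1 := by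
      rw [pow_add, hc]; ring
    omega
  · obtain ⟨l, rfl⟩ := ho
    by_contra hne
    have hl : l ≠ 0 := by rintro rfl; exact hne rfl
    have h2 : r + 1 ∣ 2 ^ d := by
      rw [← h1]
      have := Odd.nat_add_dvd_pow_add_pow r 1 (n := 2 * l + 1) ⟨l, rfl⟩
      rwa [one_pow] at this
    obtain ⟨e, -, he⟩ := (Nat.dvd_prime_pow Nat.prime_two).1 h2
    obtain ⟨c, hc⟩ := hrodd
    -- `2 ^ (e + 1)` divides `r ^ (2 l) - 1`
    have h3 : ((2 : ℤ) ^ (e + 1)) ∣ (r : ℤ) ^ (2 * l) - 1 := by
      have h5 : ((r : ℤ) ^ 2 - 1) ∣ (r : ℤ) ^ (2 * l) - 1 := by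
        rw [pow_mul]
        exact sub_one_dvd_pow_sub_one _ _
      refine dvd_trans ?_ h5
      have h6 : (r : ℤ) + 1 = 2 ^ e := by exact_mod_cast he
      have h7 : (r : ℤ) = 2 * c + 1 := by exact_mod_cast hc
      refine ⟨c, ?_⟩
      have h8 : (r : ℤ) ^ 2 - 1 = (r + 1) * (r - 1) := by ring
      rw [h8, h6, h7, pow_succ]
      ring
    have h5 : ((2 : ℤ) ^ (e + 1)) ∣ (2 : ℤ) ^ d - 2 ^ e := by
      have h6 : (2 : ℤ) ^ d - 2 ^ e = r * ((r : ℤ) ^ (2 * l) - 1) := by
        have h7 : (r : ℤ) ^ (2 * l + 1) + 1 = 2 ^ d := by exact_mod_cast h1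
        have h8 : (r : ℤ) + 1 = 2 ^ e := by exact_mod_cast he
        rw [← h7, ← h8]
        ring
      rw [h6]
      exact Dvd.dvd.mul_left h3 _
    have hlt : 2 ^ e < 2 ^ d := by
      rw [← h1, ← he]
      have h6 : r ^ 1 < r ^ (2 * l + 1) := Nat.pow_lt_pow_right hr.one_lt (by omega)
      rw [pow_one] at h6
      exact Nat.add_lt_add_right h6 1
    have hed : e < d := (Nat.pow_lt_pow_iff_right (by norm_num)).1 hlt
    have h6 : ((2 : ℤ) ^ (e + 1)) ∣ (2 : ℤ) ^ d := pow_dvd_pow 2 hed
    have h7 : ((2 : ℤ) ^ (e + 1)) ∣ (2 : ℤ) ^ e := by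
      have := dvd_sub h6 h5
      rwa [sub_sub_cancel] at this
    have h8 : 2 ^ (e + 1) ∣ 2 ^ e := by exact_mod_cast h7
    have h9 := Nat.le_of_dvd (by positivity) h8
    have h10 : 2 ^ e < 2 ^ (e + 1) := Nat.pow_lt_pow_right (by norm_num) (by omega)
    omega

section

variable {G X : Type*} [Group G] [MulAction G X] [Finite X] [DecidableEq X]

/-- `2`-primitivity in degree `2 ^ d`. -/
theorem tprimitive_two_iff [FaithfulSMul G X] [Finite G] (h2 : IsMultiplyPretransitive G X 2)
    {d : ℕ} (hn : Nat.card X = 2 ^ d) (hd : 2 ≤ d) (o : X) (A : Subgroup (stabilizer G o))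
    (hAn : A.Normal) (hA : A ≠ ⊥) (hs : Group.IsSolvable A) :
    IsMultiplyPreprimitive G X 2 ↔ (Nat.card X - 1).Prime := by
  have h4 : 2 ^ 2 ≤ 2 ^ d := Nat.pow_le_pow_right (by norm_num) hd
  constructor
  · intro h
    have htr : IsPretransitive G X := isPretransitive_of_is_two_pretransitive
    have h1 : IsMultiplyPreprimitive (stabilizer G o) (SubMulAction.ofStabilizer G o) 1 :=
      isMultiplyPreprimitive_ofStabilizer G X
    rw [is_one_preprimitive_iff] at h1
    have hf : FaithfulSMul (stabilizer G o) (SubMulAction.ofStabilizer G o) := by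
      constructor
      intro g g' hgg
      apply Subtype.ext
      apply FaithfulSMul.eq_of_smul_eq_smul (α := X)
      intro x
      by_cases hx : x = o
      · rw [hx]
        exact g.2.trans g'.2.symm
      · exact congrArg Subtype.val (hgg ⟨x, hx⟩)
    have hcard := SubMulAction.nat_card_ofStabilizer_eq G o
    have hne : Nonempty (SubMulAction.ofStabilizer G o) := by
      rw [← Finite.card_pos_iff]
      omega
    obtain ⟨o'⟩ := hne
    obtain ⟨r, inst, hr, -, hrx, -, -⟩ := exists_affine h1 A hAn hA hs o'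
    obtain ⟨m, hm⟩ := exists_card_eq_pow hr hrx
    have h5 : r ^ m = 2 ^ d - 1 := by rw [← hm, hcard, hn]
    have h6 := prime_of_pow_eq hd hr h5
    rw [h6, pow_one] at h5
    rw [hn, ← h5]
    exact hr
  · intro h
    exact tprimitive_of_prime (by norm_num) (by omega) h h2

end

section

variable {G X : Type*} [Group G] [MulAction G X] [AddCommGroup X] [Finite X] [DecidableEq X]

/-- Planes of an affine space over the field with two elements. -/
theorem not_steinerPrimitive_three (hpx : ∀ x : X, 2 • x = 0)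
    (haff : ∀ (g : G) (x v : X), g • (x + v) = g • x + (g • v - g • (0 : X)))
    (hn : 5 ≤ Nat.card X) : ¬ SteinerPrimitive G X 3 := by
  classical
  intro hS
  apply hS
  have hself : ∀ x : X, x + x = 0 := fun x => by rw [← two_nsmul]; exact hpx x
  have hneg : ∀ x : X, -x = x := fun x => neg_eq_of_add_eq_zero_left (hself x)
  refine ⟨4, {b | b.card = 4 ∧ ∑ x ∈ b, x = 0}, by norm_num, by omega,
    ⟨fun b hb => hb.1, ?_⟩, ?_⟩
  · intro s hs
    have hsum : ∀ b : Finset X, b.card = 4 → ∑ x ∈ b, x = 0 → s ⊆ b →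
        b = insert (∑ x ∈ s, x) s := by
      intro b hb hb0 hsb
      have h1 : (b \ s).card = 1 := by
        rw [Finset.card_sdiff_of_subset hsb]; omega
      obtain ⟨w, hw⟩ := Finset.card_eq_one.1 h1
      have h2 := Finset.sum_sdiff hsb (f := fun x : X => x)
      rw [hw, Finset.sum_singleton, hb0] at h2
      have h3 : w = ∑ x ∈ s, x := by
        rw [← hneg (∑ x ∈ s, x)]
        exact eq_neg_of_add_eq_zero_left h2
      rw [← h3]
      have h4 := Finset.sdiff_union_of_subset hsb
      rw [hw] at h4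
      rw [← h4]
      rfl
    have hnot : (∑ x ∈ s, x) ∉ s := by
      obtain ⟨x, y, z, hxy, hxz, hyz, rfl⟩ := Finset.card_eq_three.1 hs
      rw [Finset.sum_insert (by simp [hxy, hxz]), Finset.sum_pair hyz]
      intro h
      simp only [Finset.mem_insert, Finset.mem_singleton] at h
      rcases h with h | h | h
      · have : y + z = 0 := by rwa [add_eq_left] at h
        exact hyz (by rw [← hneg z]; exact eq_neg_of_add_eq_zero_left this)
      · have h5 : x + z = 0 := by
          have : x + (y + z) = y + (x + z) := by abel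
          rw [this] at h
          rwa [add_eq_left] at h
        exact hxz (by rw [← hneg z]; exact eq_neg_of_add_eq_zero_left h5)
      · have h5 : x + y = 0 := by
          have : x + (y + z) = z + (x + y) := by abel
          rw [this] at h
          rwa [add_eq_left] at h
        exact hxy (by rw [← hneg y]; exact eq_neg_of_add_eq_zero_left h5)
    refine ⟨insert (∑ x ∈ s, x) s, ⟨⟨?_, ?_⟩, Finset.subset_insert _ _⟩, ?_⟩
    · rw [Finset.card_insert_of_notMem hnot, hs]
    · rw [Finset.sum_insert hnot, hself]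
    · rintro b ⟨⟨hb4, hb0⟩, hsb⟩
      exact hsum b hb4 hb0 hsb
  · rintro g b ⟨hb4, hb0⟩
    refine ⟨by rw [Finset.card_smul_finset]; exact hb4, ?_⟩
    obtain ⟨x, b', hx, rfl, hb'⟩ := Finset.card_eq_succ.1 hb4
    obtain ⟨y, z, w, hyz, hyw, hzw, rfl⟩ := Finset.card_eq_three.1 hb'
    rw [Finset.sum_insert hx, Finset.sum_insert (by simp [hyz, hyw]), Finset.sum_pair hzw] at hb0
    simp only [Finset.mem_insert, Finset.mem_singleton, not_or] at hx
    have hinj : ∀ a b : X, a ≠ b → g • a ≠ g • b := fun a b h h' => h (smul_left_cancel g h')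
    rw [Finset.smul_finset_insert, Finset.smul_finset_insert, Finset.smul_finset_insert,
      Finset.smul_finset_singleton, Finset.sum_insert (by
        simp only [Finset.mem_insert, Finset.mem_singleton, not_or]
        exact ⟨hinj _ _ hx.1, hinj _ _ hx.2.1, hinj _ _ hx.2.2⟩), Finset.sum_insert (by
        simp only [Finset.mem_insert, Finset.mem_singleton, not_or]
        exact ⟨hinj _ _ hyz, hinj _ _ hyw⟩), Finset.sum_pair (hinj _ _ hzw)]
    have h1 : w = x + y + z := by
      rw [← hneg w]
      symm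
      apply eq_neg_of_add_eq_zero_left
      rw [← hb0]
      abel
    rw [h1, haff g (x + y) z, haff g x y]
    have h2 := hself (g • x)
    have h3 := hself (g • y)
    have h4 := hself (g • z)
    have h5 := hself (g • (0 : X))
    calc g • x + (g • y + (g • z + (g • x + (g • y - g • (0 : X)) + (g • z - g • (0 : X)))))
        = (g • x + g • x) + (g • y + g • y) + (g • z + g • z) -
          (g • (0 : X) + g • (0 : X)) := by abel
      _ = 0 := by rw [h2, h3, h4, h5]; simp

omit [Finite X] [DecidableEq X] in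
/-- A `3`-transitive affine group of degree at least `5` has even degree. -/
theorem two_of_three_trans [Finite X] {p : ℕ} (hp : p.Prime) (hpx : ∀ x : X, p • x = 0)
    (haff : ∀ (g : G) (x v : X), g • (x + v) = g • x + (g • v - g • (0 : X)))
    (hn : 4 ≤ Nat.card X) (h3 : IsMultiplyPretransitive G X 3) : p = 2 := by
  classical
  by_contra hp2
  have := Fintype.ofFinite X
  have hn' : 4 ≤ (Finset.univ : Finset X).card := by
    rwa [Finset.card_univ, ← Nat.card_eq_fintype_card]
  have hex : ∀ s : Finset X, s.card < 4 → ∃ x, x ∉ s := by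
    intro s hs
    by_contra hne
    push Not at hne
    have := Finset.card_le_card (fun x _ => hne x : (Finset.univ : Finset X) ⊆ s)
    omega
  obtain ⟨a, ha⟩ := hex {0} (by simp)
  rw [Finset.mem_singleton] at ha
  have hneg : a ≠ -a := by
    intro h1
    obtain ⟨m, hm⟩ := hp.odd_of_ne_two hp2
    have h1' : (2 : ℕ) • a = 0 := by
      rw [two_nsmul]
      nth_rewrite 1 [h1]
      exact neg_add_cancel a
    have h2 := hpx a
    rw [hm, add_nsmul, mul_nsmul, h1', nsmul_zero, zero_add, one_nsmul] at h2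
    exact ha h2
  obtain ⟨b, hb⟩ := hex {0, a, -a} (lt_of_le_of_lt Finset.card_le_three (by norm_num))
  simp only [Finset.mem_insert, Finset.mem_singleton, not_or] at hb
  obtain ⟨hb0, hba, hba'⟩ := hb
  obtain ⟨g, hg0, hga, hgb⟩ := exists_smul_three h3 (Ne.symm ha) (Ne.symm (neg_ne_zero.2 ha)) hneg
    (Ne.symm ha) (Ne.symm hb0) (Ne.symm hba)
  have h2 := haff g a (-a)
  rw [add_neg_cancel, hg0, sub_zero, hga, hgb] at h2
  exact hba' (eq_neg_of_add_eq_zero_right h2.symm)

omit [DecidableEq X] in
/-- An affine group of degree at least `5` is not `4`-transitive. -/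
theorem not_four_trans (hpx : ∀ x : X, 2 • x = 0)
    (haff : ∀ (g : G) (x v : X), g • (x + v) = g • x + (g • v - g • (0 : X)))
    (hn : 5 ≤ Nat.card X) : ¬ IsMultiplyPretransitive G X 4 := by
  classical
  intro h4
  have hself : ∀ x : X, x + x = 0 := fun x => by rw [← two_nsmul]; exact hpx x
  have hneg : ∀ x : X, -x = x := fun x => neg_eq_of_add_eq_zero_left (hself x)
  have := Fintype.ofFinite X
  have hn' : 5 ≤ (Finset.univ : Finset X).card := by
    rwa [Finset.card_univ, ← Nat.card_eq_fintype_card]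
  have hex : ∀ s : Finset X, s.card < 5 → ∃ x, x ∉ s := by
    intro s hs
    by_contra hne
    push Not at hne
    have := Finset.card_le_card (fun x _ => hne x : (Finset.univ : Finset X) ⊆ s)
    omega
  obtain ⟨a, ha⟩ := hex {0} (by simp)
  rw [Finset.mem_singleton] at ha
  obtain ⟨b, hb⟩ := hex {0, a} (lt_of_le_of_lt Finset.card_le_two (by norm_num))
  simp only [Finset.mem_insert, Finset.mem_singleton, not_or] at hb
  obtain ⟨hb0, hba⟩ := hb
  obtain ⟨c, hc⟩ := hex {0, a, b, a + b} (lt_of_le_of_lt Finset.card_le_four (by norm_num))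
  simp only [Finset.mem_insert, Finset.mem_singleton, not_or] at hc
  obtain ⟨hc0, hca, hcb, hcab⟩ := hc
  have hab0 : a + b ≠ 0 := by
    intro h
    apply hba
    rw [← hneg b]
    exact (eq_neg_of_add_eq_zero_left h).symm
  have haab : a ≠ a + b := fun h => hb0 (left_eq_add.1 h)
  have hbab : b ≠ a + b := fun h => ha (right_eq_add.1 h)
  obtain ⟨g, hg0, hga, hgb, hgc⟩ := exists_smul_four h4 (Ne.symm ha) (Ne.symm hb0)
    (Ne.symm hab0) (Ne.symm hba) haab hbab (Ne.symm ha) (Ne.symm hb0) (Ne.symm hc0)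
    (Ne.symm hba) (Ne.symm hca) (Ne.symm hcb)
  have h2 := haff g a b
  rw [hg0, sub_zero, hga, hgb, hgc] at h2
  exact hcab h2

end

/-- The final answer for affine groups. -/
def AffineAnswer (G X : Type*) [Group G] [MulAction G X] [DecidableEq X] (t : ℕ) : Prop :=
  (ExcA G X t ↔ t = 2 ∧ Even (Nat.card X) ∧ (Nat.card X - 1).Prime) ∧
  ¬ ExcB G X t ∧
  (ExcC G X t ↔ t = 2 ∧ (((Nat.card X).Prime ∧ 5 ≤ Nat.card X) ∨
    ∃ d : ℕ, d.Prime ∧ Nat.card X = 2 ^ d ∧ ¬ (Nat.card X - 1).Prime)) ∧
  (ExcD G X t ↔ t = 2 ∧ (((Nat.card X).Prime ∧ 5 ≤ Nat.card X) ∨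
    ∃ d : ℕ, d.Prime ∧ Nat.card X = 2 ^ d))

section

variable {G X : Type*} [Group G] [MulAction G X] [Finite X] [DecidableEq X]

omit [Finite X] in
theorem affineAnswer_of_all {t : ℕ} (h1 : IsMultiplyPreprimitive G X t)
    (h2 : IsPreprimitive G (Set.powersetCard X t))
    (h3 : t = 2 → Nat.card X = 2 ∨ Nat.card X = 3) : AffineAnswer G X t := by
  have hno : ∀ d : ℕ, d.Prime → Nat.card X = 2 ^ d → 4 ≤ Nat.card X := by
    intro d hd hn
    have := Nat.pow_le_pow_right (n := 2) (by norm_num) hd.two_le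
    rw [hn]
    omega
  refine ⟨⟨fun h => absurd h2 h.2, ?_⟩, fun h => h.2 h1, ⟨fun h => absurd h1 h.2, ?_⟩,
    ⟨fun h => absurd h2 h.2, ?_⟩⟩
  · rintro ⟨ht, he, hp⟩
    exfalso
    rcases h3 ht with h4 | h4
    · rw [h4] at hp
      exact Nat.not_prime_one hp
    · rw [h4] at he
      exact absurd he (by decide)
  · rintro ⟨ht, ⟨-, h5⟩ | ⟨d, hd, hn, -⟩⟩
    · rcases h3 ht with h4 | h4 <;> omega
    · have := hno d hd hn
      rcases h3 ht with h4 | h4 <;> omega
  · rintro ⟨ht, ⟨-, h5⟩ | ⟨d, hd, hn⟩⟩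
    · rcases h3 ht with h4 | h4 <;> omega
    · have := hno d hd hn
      rcases h3 ht with h4 | h4 <;> omega

/-- No exceptions at all. -/
theorem affineAnswer_of_three_le [FaithfulSMul G X] [Finite G] {t : ℕ} (ht : 3 ≤ t)
    (htn : t ≤ Nat.card X) (hG : IsMultiplyPretransitive G X t)
    (N : Subgroup G) (hNn : N.Normal) (hN : N ≠ ⊥) (hs : Group.IsSolvable N) :
    (¬ ExcA G X t ∧ ¬ ExcB G X t ∧ ¬ ExcC G X t ∧ ¬ ExcD G X t) := by
  by_cases hnt : Nat.card X ≤ t + 1
  · have h1 := tprimitive_of_card_le (by omega) hnt hG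
    have h2 := tsetprimitive_of_card_le (by omega) htn hnt hG
    exact ⟨fun h => h.2 h2, fun h => h.2 h1, fun h => h.2 h1, fun h => h.2 h2⟩
  push Not at hnt
  have h2 : IsMultiplyPretransitive G X 2 := isMultiplyPretransitive_of_le (n := t) (by omega) htn
  have h3 : IsMultiplyPretransitive G X 3 := isMultiplyPretransitive_of_le (n := t) ht htn
  have hprim : IsPreprimitive G X := isPreprimitive_of_is_two_pretransitive h2
  have hne : Nonempty X := by
    rw [← Finite.card_pos_iff]
    omega
  obtain ⟨o⟩ := hne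
  obtain ⟨p, inst, hp, -, hpx, htrans, haff⟩ := exists_affine hprim N hNn hN hs o
  obtain rfl : p = 2 := two_of_three_trans hp hpx haff (by omega) h3
  have hst : ¬ SteinerPrimitive G X 3 := not_steinerPrimitive_three hpx haff (by omega)
  have ht3 : t = 3 := by
    by_contra hne
    exact not_four_trans hpx haff (by omega)
      (isMultiplyPretransitive_of_le (G := G) (α := X) (m := 4) (n := t) (by omega) htn)
  subst ht3
  exact ⟨fun h => hst (SteinerPrimitive.of_tprimitive (by norm_num) htn h.1),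
    fun h => hst (SteinerPrimitive.of_tsetprimitive (by norm_num) htn h.1),
    fun h => hst h.1, fun h => hst h.1⟩

/-- The answer for affine groups. -/
theorem affineAnswer [FaithfulSMul G X] [Finite G] {t : ℕ} (ht : 2 ≤ t)
    (htn : t ≤ Nat.card X) (hG : IsMultiplyPretransitive G X t)
    (N : Subgroup G) (hNn : N.Normal) (hN : N ≠ ⊥) (hs : Group.IsSolvable N)
    (hS : t = 2 → Even (Nat.card X) → 4 ≤ Nat.card X → ∃ (o : X) (A : Subgroup (stabilizer G o)),
      A.Normal ∧ A ≠ ⊥ ∧ Group.IsSolvable A) : AffineAnswer G X t := by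
  rcases Nat.lt_or_ge 2 t with ht3 | ht2
  · obtain ⟨h1, h2, h3, h4⟩ := affineAnswer_of_three_le ht3 htn hG N hNn hN hs
    have ht : t ≠ 2 := by omega
    exact ⟨⟨fun h => absurd h h1, fun h => absurd h.1 ht⟩, h2,
      ⟨fun h => absurd h h3, fun h => absurd h.1 ht⟩, ⟨fun h => absurd h h4,
        fun h => absurd h.1 ht⟩⟩
  obtain rfl : t = 2 := le_antisymm ht2 ht
  by_cases hnt : Nat.card X ≤ 3
  · have h1 := tprimitive_of_card_le (by omega) hnt hG
    have h2 := tsetprimitive_of_card_le (by omega) htn hnt hG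
    exact affineAnswer_of_all h1 h2 (fun _ => by omega)
  push Not at hnt
  have hprim : IsPreprimitive G X := isPreprimitive_of_is_two_pretransitive hG
  by_cases hodd : Even (Nat.card X)
  · obtain ⟨o, A, hAn, hA, hAs⟩ := hS rfl hodd (by omega)
    obtain ⟨p, inst, hp, h0, hpx, htrans, haff⟩ := exists_affine hprim N hNn hN hs o
    subst h0
    obtain ⟨d, hd⟩ := exists_card_eq_pow hp hpx
    have hp2 : p = 2 := by
      by_contra hp2
      have h5 : Odd (Nat.card X) := by
        rw [hd]; exact (hp.odd_of_ne_two hp2).pow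
      exact (Nat.not_even_iff_odd.2 h5) hodd
    subst hp2
    have hd2 : 2 ≤ d := by
      by_contra hne
      have : 2 ^ d ≤ 2 ^ 1 := Nat.pow_le_pow_right (by norm_num) (by omega)
      rw [hd] at hnt
      omega
    have hset := not_tsetprimitive_two (G := G) hp hpx haff (by omega)
    have hpr := tprimitive_two_iff hG hd hd2 (0 : X) A hAn hA hAs
    have hst : SteinerPrimitive G X 2 ↔ d.Prime := by
      constructor
      · intro h
        by_contra hdp
        obtain ⟨A', hAn', hA', hAc'⟩ := exists_abelian_normal A hAn hA hAs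
        have hf : FaithfulSMul (stabilizer G (0 : X)) X := by
          constructor
          intro g g' hgg
          apply Subtype.ext
          exact FaithfulSMul.eq_of_smul_eq_smul (α := X) hgg
        obtain ⟨W, hW⟩ := exists_spread (stab_add haff) hpx (lin_trans hG) A' hAn' hA' hAc' d hd
          hd2 hdp
        exact not_steinerPrimitive_of_spread htrans haff hG (by omega) W hW h
      · intro h
        exact steinerPrimitive_of_two_pow hpx htrans h hd
    have hdd : ∀ d' : ℕ, Nat.card X = 2 ^ d' → d' = d := by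
      intro d' h'
      rw [hd] at h'
      exact (Nat.pow_right_injective (le_refl 2) h').symm
    have hnp : ¬ (Nat.card X).Prime := by
      intro h
      rcases h.eq_two_or_odd' with h5 | h5
      · omega
      · exact (Nat.not_even_iff_odd.2 h5) hodd
    refine ⟨?_, fun h => hset h.1, ?_, ?_⟩
    · constructor
      · rintro ⟨h1, -⟩
        exact ⟨rfl, hodd, hpr.1 h1⟩
      · rintro ⟨-, -, h1⟩
        exact ⟨hpr.2 h1, hset⟩
    · constructor
      · rintro ⟨h1, h2⟩
        exact ⟨rfl, Or.inr ⟨d, hst.1 h1, hd, fun h => h2 (hpr.2 h)⟩⟩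
      · rintro ⟨-, ⟨h1, -⟩ | ⟨d', h1, h2, h3⟩⟩
        · exact absurd h1 hnp
        · obtain rfl := hdd d' h2
          exact ⟨hst.2 h1, fun h => h3 (hpr.1 h)⟩
    · constructor
      · rintro ⟨h1, -⟩
        exact ⟨rfl, Or.inr ⟨d, hst.1 h1, hd⟩⟩
      · rintro ⟨-, ⟨h1, -⟩ | ⟨d', h1, h2⟩⟩
        · exact absurd h1 hnp
        · obtain rfl := hdd d' h2
          exact ⟨hst.2 h1, hset⟩
  · have hne : Nonempty X := by
      rw [← Finite.card_pos_iff]
      omega
    obtain ⟨o⟩ := hne
    obtain ⟨p, inst, hp, h0, hpx, htrans, haff⟩ := exists_affine hprim N hNn hN hs o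
    obtain ⟨d, hd⟩ := exists_card_eq_pow hp hpx
    have hd0 : d ≠ 0 := by
      rintro rfl
      rw [pow_zero] at hd
      omega
    have hp2 : p ≠ 2 := by
      rintro rfl
      apply hodd
      rw [hd]
      exact (even_two).pow_of_ne_zero hd0
    have hset := not_tsetprimitive_two (G := G) hp hpx haff (by omega)
    have hpr := not_tprimitive_two (G := G) hp hp2 hpx haff (by omega)
    have hst : SteinerPrimitive G X 2 ↔ (Nat.card X).Prime := by
      constructor
      · intro h
        by_contra hnp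
        have h5 : p < Nat.card X := by
          rw [hd]
          have : d ≠ 1 := by
            rintro rfl
            rw [pow_one] at hd
            rw [hd] at hnp
            exact hnp hp
          calc p = p ^ 1 := (pow_one p).symm
            _ < p ^ d := Nat.pow_lt_pow_right hp.one_lt (by omega)
        exact not_steinerPrimitive_of_spread htrans haff hG (by omega) _
          (isSpread_lines hp hp2 hpx haff h5) h
      · intro h
        exact steinerPrimitive_of_prime htrans haff hG h
    have hno : ∀ d : ℕ, d.Prime → Nat.card X ≠ 2 ^ d := by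
      intro d' hd' h5
      apply hodd
      rw [h5]
      exact (even_two).pow_of_ne_zero hd'.ne_zero
    have h5 : (Nat.card X).Prime → 5 ≤ Nat.card X := by
      intro h5
      by_contra h6
      have h7 : Nat.card X = 4 := by omega
      exact hodd (h7 ▸ by decide)
    refine ⟨?_, fun h => hset h.1, ?_, ?_⟩
    · constructor
      · rintro ⟨h1, -⟩
        exact absurd h1 hpr
      · rintro ⟨-, h1, -⟩
        exact absurd h1 hodd
    · constructor
      · rintro ⟨h1, h2⟩
        exact ⟨rfl, Or.inl ⟨hst.1 h1, h5 (hst.1 h1)⟩⟩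
      · rintro ⟨-, ⟨h1, -⟩ | ⟨d', h1, h2, h3⟩⟩
        · exact ⟨hst.2 h1, hpr⟩
        · exact absurd h2 (hno d' h1)
    · constructor
      · rintro ⟨h1, -⟩
        exact ⟨rfl, Or.inl ⟨hst.1 h1, h5 (hst.1 h1)⟩⟩
      · rintro ⟨-, ⟨h1, -⟩ | ⟨d', h1, h2⟩⟩
        · exact ⟨hst.2 h1, hset⟩
        · exact absurd h2 (hno d' h1)

/-- Soluble groups. -/
theorem affineAnswer_of_solvable [FaithfulSMul G X] [Finite G] {t : ℕ} (ht : 2 ≤ t)
    (htn : t ≤ Nat.card X) (hG : IsMultiplyPretransitive G X t) (hs : Group.IsSolvable G) :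
    AffineAnswer G X t := by
  have h2 : IsMultiplyPretransitive G X 2 := isMultiplyPretransitive_of_le (n := t) ht htn
  have hnt : Nontrivial X := by
    rw [← Finite.one_lt_card_iff_nontrivial]; omega
  obtain ⟨a, b, hab⟩ := hnt
  refine affineAnswer ht htn hG ⊤ inferInstance ?_ ?_ ?_
  · intro h
    obtain ⟨g, hg, -⟩ := exists_smul_two h2 hab hab.symm
    have h3 : g ∈ (⊥ : Subgroup G) := h ▸ Subgroup.mem_top g
    rw [Subgroup.mem_bot] at h3
    rw [h3, one_smul] at hg
    exact hab hg
  · exact Group.isSolvable_of_isSolvable_injective (Subgroup.subtype_injective _)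
  · intro _ _ h4
    have := Fintype.ofFinite X
    obtain ⟨c, hc⟩ : ∃ c, c ∉ ({a, b} : Finset X) := by
      by_contra hne
      push Not at hne
      have h5 := Finset.card_le_card (fun x _ => hne x : (Finset.univ : Finset X) ⊆ {a, b})
      rw [Finset.card_univ, ← Nat.card_eq_fintype_card, Finset.card_pair hab] at h5
      omega
    simp only [Finset.mem_insert, Finset.mem_singleton, not_or] at hc
    refine ⟨a, ⊤, inferInstance, ?_, Group.isSolvable_of_isSolvable_injective
      (f := (stabilizer G a).subtype.comp (⊤ : Subgroup (stabilizer G a)).subtype)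
      ((Subgroup.subtype_injective _).comp (Subgroup.subtype_injective _))⟩
    intro h
    obtain ⟨g, hg1, hg2⟩ := exists_smul_two h2 hab (Ne.symm hc.1)
    have h3 : (⟨g, hg1⟩ : stabilizer G a) ∈ (⊥ : Subgroup (stabilizer G a)) :=
      h ▸ Subgroup.mem_top _
    rw [Subgroup.mem_bot] at h3
    have h5 : g = 1 := congrArg Subtype.val h3
    rw [h5, one_smul] at hg2
    exact hc.2 hg2.symm

end

end Pool.Agent.Helper37.Prim
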