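import Pool.Agent.Helper37.Prim.Spread

/-!
# Three generalisations of primitivity (MP_13dc8a_al): affine groups
-/

namespace Pool.Agent.Helper37.Prim

open MulAction
open scoped Pointwise

section Trans

variable {G X : Type*} [Group G] [MulAction G X]

theorem exists_smul_two (h : IsMultiplyPretransitive G X 2) {a b c d : X} (h1 : a ≠ b)
    (h2 : c ≠ d) : ∃ g : G, g • a = c ∧ g • b = d :=
  is_two_pretransitive_iff.1 h h1 h2

/-- the embedding of three distinct points -/
def emb3 {a b c : X} (hab : a ≠ b) (hac : a ≠ c) (hbc : b ≠ c) : Fin 3 ↪ X where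
  toFun := ![a, b, c]
  inj' := by
    intro i j hij
    fin_cases i <;> fin_cases j <;> simp_all

/-- the embedding of four distinct points -/
def emb4 {a b c d : X} (hab : a ≠ b) (hac : a ≠ c) (had : a ≠ d) (hbc : b ≠ c) (hbd : b ≠ d)
    (hcd : c ≠ d) : Fin 4 ↪ X where
  toFun := ![a, b, c, d]
  inj' := by
    intro i j hij
    fin_cases i <;> fin_cases j <;> simp_all

theorem exists_smul_three (h : IsMultiplyPretransitive G X 3) {a b c a' b' c' : X}
    (hab : a ≠ b) (hac : a ≠ c) (hbc : b ≠ c) (hab' : a' ≠ b') (hac' : a' ≠ c')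
    (hbc' : b' ≠ c') : ∃ g : G, g • a = a' ∧ g • b = b' ∧ g • c = c' := by
  obtain ⟨g, hg⟩ := isMultiplyPretransitive_iff.1 h (emb3 hab hac hbc) (emb3 hab' hac' hbc')
  refine ⟨g, ?_, ?_, ?_⟩
  · exact DFunLike.congr_fun hg 0
  · exact DFunLike.congr_fun hg 1
  · exact DFunLike.congr_fun hg 2

theorem exists_smul_four (h : IsMultiplyPretransitive G X 4) {a b c d a' b' c' d' : X}
    (hab : a ≠ b) (hac : a ≠ c) (had : a ≠ d) (hbc : b ≠ c) (hbd : b ≠ d) (hcd : c ≠ d)
    (hab' : a' ≠ b') (hac' : a' ≠ c') (had' : a' ≠ d') (hbc' : b' ≠ c') (hbd' : b' ≠ d')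
    (hcd' : c' ≠ d') : ∃ g : G, g • a = a' ∧ g • b = b' ∧ g • c = c' ∧ g • d = d' := by
  obtain ⟨g, hg⟩ := isMultiplyPretransitive_iff.1 h (emb4 hab hac had hbc hbd hcd)
    (emb4 hab' hac' had' hbc' hbd' hcd')
  refine ⟨g, ?_, ?_, ?_, ?_⟩
  · exact DFunLike.congr_fun hg 0
  · exact DFunLike.congr_fun hg 1
  · exact DFunLike.congr_fun hg 2
  · exact DFunLike.congr_fun hg 3

/-- If `n - t + 1` is prime then a `t`-transitive group is `t`-primitive. -/
theorem tprimitive_of_prime [Finite X] {t : ℕ} (ht : 1 ≤ t) (htn : t ≤ Nat.card X)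
    (hn : (Nat.card X - (t - 1)).Prime)
    (h : IsMultiplyPretransitive G X t) : IsMultiplyPreprimitive G X t := by
  rw [isMultiplyPreprimitive_iff]
  refine ⟨h, fun {s} hs => ?_⟩
  have hs' : s.ncard + 1 = t := by
    rw [← Set.Finite.cast_ncard_eq (Set.toFinite s)] at hs
    exact_mod_cast hs
  have h1 : IsMultiplyPretransitive (fixingSubgroup G s) (SubMulAction.ofFixingSubgroup G s) 1 :=
    SubMulAction.ofFixingSubgroup.isMultiplyPretransitive (G := G) s hs'
  rw [is_one_pretransitive_iff] at h1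
  apply IsPreprimitive.of_prime_card
  have h2 : Nat.card (SubMulAction.ofFixingSubgroup G s) + s.ncard = Nat.card X := by
    have h3 : Nat.card (SubMulAction.ofFixingSubgroup G s) = (sᶜ : Set X).ncard := by
      rw [← Nat.card_coe_set_eq]
      rfl
    rw [h3, add_comm]
    exact Set.ncard_add_ncard_compl s
  have h3 : Nat.card (SubMulAction.ofFixingSubgroup G s) = Nat.card X - (t - 1) := by omega
  rw [h3]
  exact hn

end Trans

section Aff

variable {G X : Type*} [Group G] [MulAction G X] [AddCommGroup X]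

theorem stab_add (haff : ∀ (g : G) (x v : X), g • (x + v) = g • x + (g • v - g • (0 : X)))
    (h : stabilizer G (0 : X)) (x y : X) : h • (x + y) = h • x + h • y := by
  have h0 : (h : G) • (0 : X) = 0 := h.2
  change (h : G) • (x + y) = (h : G) • x + (h : G) • y
  rw [haff, h0, sub_zero]

/-- The linear part of `g`, as an element of the stabiliser of `0`. -/
theorem exists_lin (htrans : ∀ v : X, ∃ g : G, ∀ x, g • x = x + v) (g : G) :
    ∃ h : stabilizer G (0 : X), ∀ v, h • v = g • v - g • (0 : X) := by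
  obtain ⟨τ, hτ⟩ := htrans (-(g • (0 : X)))
  refine ⟨⟨τ * g, ?_⟩, ?_⟩
  · rw [mem_stabilizer_iff, mul_smul, hτ, add_neg_cancel]
  · intro v
    change (τ * g) • v = _
    rw [mul_smul, hτ, sub_eq_add_neg]

theorem lin_trans (h2 : IsMultiplyPretransitive G X 2) (x y : X) (hx : x ≠ 0) (hy : y ≠ 0) :
    ∃ h : stabilizer G (0 : X), h • x = y := by
  obtain ⟨g, hg1, hg2⟩ := exists_smul_two h2 hx.symm hy.symm
  exact ⟨⟨g, hg1⟩, hg2⟩

variable [Finite X] [DecidableEq X]

/-- A spread gives a Steiner system. -/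
theorem not_steinerPrimitive_of_spread
    (htrans : ∀ v : X, ∃ g : G, ∀ x, g • x = x + v)
    (haff : ∀ (g : G) (x v : X), g • (x + v) = g • x + (g • v - g • (0 : X)))
    (h2 : IsMultiplyPretransitive G X 2) (hn : 2 ≤ Nat.card X)
    (W : X → AddSubgroup X) (hW : IsSpread (stabilizer G (0 : X)) X W) :
    ¬ SteinerPrimitive G X 2 := by
  classical
  have := Fintype.ofFinite X
  intro hS
  apply hS
  obtain ⟨v₀, hv₀⟩ : ∃ v : X, v ≠ 0 := by
    have : Nontrivial X := by
      rw [← Finite.one_lt_card_iff_nontrivial]; omega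
    exact exists_ne 0
  have hcard : ∀ v, v ≠ 0 → Nat.card (W v) = Nat.card (W v₀) := by
    have hle : ∀ v w, v ≠ 0 → w ≠ 0 → Nat.card (W v) ≤ Nat.card (W w) := by
      intro v w hv hw
      obtain ⟨h, rfl⟩ := lin_trans h2 v w hv hw
      apply Nat.card_le_card_of_injective (fun x : W v =>
        (⟨h • (x : X), hW.smul_mem h v x x.2⟩ : W (h • v)))
      intro x x' hx
      exact Subtype.ext (smul_left_cancel h (congrArg Subtype.val hx))
    intro v hv
    exact le_antisymm (hle v v₀ hv hv₀) (hle v₀ v hv₀ hv)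
  refine ⟨Nat.card (W v₀), {b | ∃ x v, v ≠ 0 ∧ ∀ y, y ∈ b ↔ y - x ∈ W v}, hW.two_lt v₀ hv₀,
    hW.lt_card v₀ hv₀, ⟨?_, ?_⟩, ?_⟩
  · rintro b ⟨x, v, hv, hb⟩
    rw [← hcard v hv]
    have h3 : b = (Finset.univ.filter (fun w => w ∈ W v)).map
        ⟨fun w => w + x, add_left_injective x⟩ := by
      ext y
      simp only [Finset.mem_map, Finset.mem_filter, Finset.mem_univ, true_and,
        Function.Embedding.coeFn_mk]
      rw [hb]
      constructor
      · intro h
        exact ⟨y - x, h, sub_add_cancel _ _⟩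
      · rintro ⟨w, hw, rfl⟩
        rwa [add_sub_cancel_right]
    rw [h3, Finset.card_map, Nat.card_eq_fintype_card, Fintype.card_subtype]
  · intro s hs
    obtain ⟨x, y, hxy, rfl⟩ := Finset.card_eq_two.1 hs
    have hyx : y - x ≠ 0 := sub_ne_zero.2 hxy.symm
    refine ⟨Finset.univ.filter (fun z => z - x ∈ W (y - x)), ⟨⟨x, y - x, hyx, ?_⟩, ?_⟩, ?_⟩
    · intro z
      simp
    · intro z hz
      simp only [Finset.mem_insert, Finset.mem_singleton] at hz
      rcases hz with rfl | rfl
      · simp [(W _).zero_mem]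
      · simp [hW.mem]
    · rintro b ⟨⟨x', v', hv', hb⟩, hsb⟩
      have hx := (hb x).1 (hsb (Finset.mem_insert_self _ _))
      have hy := (hb y).1 (hsb (Finset.mem_insert_of_mem (Finset.mem_singleton_self _)))
      have h3 : y - x ∈ W v' := by
        have := (W v').sub_mem hy hx
        rwa [sub_sub_sub_cancel_right] at this
      have h4 := hW.eq v' (y - x) hv' h3 hyx
      ext z
      rw [hb]
      simp only [Finset.mem_filter, Finset.mem_univ, true_and]
      rw [h4]
      constructor
      · intro h5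
        have := (W v').sub_mem h5 hx
        rwa [sub_sub_sub_cancel_right] at this
      · intro h5
        have := (W v').add_mem h5 hx
        rwa [sub_add_sub_cancel] at this
  · rintro g b ⟨x, v, hv, hb⟩
    obtain ⟨h, hh⟩ := exists_lin (G := G) htrans g
    refine ⟨g • x, h • v, ?_, ?_⟩
    · intro h3
      apply hv
      have h4 : h • (0 : X) = 0 := h.2
      exact smul_left_cancel h (h3.trans h4.symm)
    · intro y
      rw [← Finset.inv_smul_mem_iff, hb]
      have h3 : y - g • x = h • (g⁻¹ • y - x) := by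
        rw [hh, sub_eq_iff_eq_add']
        have h4 := haff g x (g⁻¹ • y - x)
        rwa [add_sub_cancel, smul_inv_smul] at h4
      rw [h3]
      constructor
      · intro h4
        exact hW.smul_mem h v _ h4
      · intro h4
        have := hW.smul_mem h⁻¹ _ _ h4
        rwa [inv_smul_smul, inv_smul_smul] at this

/-- The lines over the prime field, `p` odd. -/
theorem isSpread_lines {p : ℕ} (hp : p.Prime) (hp2 : p ≠ 2) (hpx : ∀ x : X, p • x = 0)
    (haff : ∀ (g : G) (x v : X), g • (x + v) = g • x + (g • v - g • (0 : X)))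
    (hn : p < Nat.card X) :
    IsSpread (stabilizer G (0 : X)) X (fun v => AddSubgroup.zmultiples v) := by
  have hord : ∀ v : X, v ≠ 0 → addOrderOf v = p := by
    intro v hv
    have h1 := addOrderOf_dvd_of_nsmul_eq_zero (hpx v)
    rcases (Nat.dvd_prime hp).1 h1 with h2 | h2
    · exact absurd (AddMonoid.addOrderOf_eq_one_iff.1 h2) hv
    · exact h2
  have hcard : ∀ v : X, v ≠ 0 → Nat.card (AddSubgroup.zmultiples v) = p := by
    intro v hv
    rw [Nat.card_zmultiples, hord v hv]
  have hp3 : 2 < p := lt_of_le_of_ne hp.two_le (Ne.symm hp2)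
  refine ⟨fun v => AddSubgroup.mem_zmultiples v, ?_, ?_, ?_, ?_⟩
  · intro v w hv hw hw0
    apply AddSubgroup.eq_of_le_of_card_ge
    · rwa [AddSubgroup.zmultiples_le]
    · rw [hcard v hv, hcard w hw0]
  · intro h v w hw
    rw [AddSubgroup.mem_zmultiples_iff] at hw ⊢
    obtain ⟨k, rfl⟩ := hw
    refine ⟨k, ?_⟩
    exact (map_zsmul (endo (stab_add haff) h) k v).symm
  · intro v hv
    change 2 < Nat.card (AddSubgroup.zmultiples v)
    rw [hcard v hv]
    exact hp3
  · intro v hv
    change Nat.card (AddSubgroup.zmultiples v) < _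
    rw [hcard v hv]
    exact hn

omit [Finite X] [DecidableEq X] in
theorem smul_add_smul (haff : ∀ (g : G) (x v : X), g • (x + v) = g • x + (g • v - g • (0 : X)))
    (g : G) (x y : X) : g • x + g • y = g • (x + y) + g • (0 : X) := by
  rw [haff g x y]
  abel

/-- An affine group of degree at least `4` is not `2`-set primitive. -/
theorem not_tsetprimitive_two {p : ℕ} (hp : p.Prime) (hpx : ∀ x : X, p • x = 0)
    (haff : ∀ (g : G) (x v : X), g • (x + v) = g • x + (g • v - g • (0 : X)))
    (hn : 4 ≤ Nat.card X) : ¬ IsPreprimitive G (Set.powersetCard X 2) := by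
  classical
  have := Fintype.ofFinite X
  intro h
  have hn' : 4 ≤ (Finset.univ : Finset X).card := by
    rwa [Finset.card_univ, ← Nat.card_eq_fintype_card]
  have hex : ∀ s : Finset X, s.card < 4 → ∃ x, x ∉ s := by
    intro s hs
    by_contra hne
    push Not at hne
    have := Finset.card_le_card (fun x _ => hne x : (Finset.univ : Finset X) ⊆ s)
    omega
  obtain ⟨a, ha⟩ := hex {0} (by simp)
  rw [Finset.mem_singleton] at ha
  -- at most one element is half of `a`
  have hhalf : (Finset.univ.filter (fun b : X => b + b = a)).card ≤ 1 := by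
    rw [Finset.card_le_one]
    intro b hb c hc
    simp only [Finset.mem_filter, Finset.mem_univ, true_and] at hb hc
    rcases hp.eq_two_or_odd' with rfl | hodd
    · exfalso
      apply ha
      rw [← hb, ← two_nsmul]
      exact hpx b
    · obtain ⟨m, hm⟩ := hodd
      have h1 : (2 : ℕ) • (b - c) = 0 := by
        rw [two_nsmul, sub_add_sub_comm, hb, hc, sub_self]
      have h2 := hpx (b - c)
      rw [hm, add_nsmul, mul_nsmul, h1, nsmul_zero, zero_add, one_nsmul] at h2
      exact sub_eq_zero.1 h2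
  obtain ⟨b, hb⟩ := hex ({0, a} ∪ Finset.univ.filter (fun b : X => b + b = a)) (by
    refine lt_of_le_of_lt (Finset.card_union_le _ _) ?_
    have : ({0, a} : Finset X).card ≤ 2 := Finset.card_le_two
    omega)
  simp only [Finset.mem_union, Finset.mem_insert, Finset.mem_singleton, Finset.mem_filter,
    Finset.mem_univ, true_and, not_or] at hb
  obtain ⟨⟨hb0, hba⟩, hbb⟩ := hb
  have hbab : b ≠ a - b := by
    intro h1
    apply hbb
    nth_rewrite 1 [h1]
    exact sub_add_cancel _ _
  rcases rel_of_tsetprimitive h (fun u v => ∑ x ∈ u, x = ∑ x ∈ v, x)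
    ⟨fun _ => rfl, fun h => h.symm, fun h1 h2 => h1.trans h2⟩ (by
      intro g u v hu hv huv
      obtain ⟨x, y, hxy, rfl⟩ := Finset.card_eq_two.1 hu
      obtain ⟨x', y', hxy', rfl⟩ := Finset.card_eq_two.1 hv
      rw [Finset.sum_pair hxy, Finset.sum_pair hxy'] at huv
      have e1 : g • ({x, y} : Finset X) = {g • x, g • y} := by
        rw [Finset.smul_finset_insert, Finset.smul_finset_singleton]
      have e2 : g • ({x', y'} : Finset X) = {g • x', g • y'} := by
        rw [Finset.smul_finset_insert, Finset.smul_finset_singleton]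
      rw [e1, e2, Finset.sum_pair (fun h => hxy (smul_left_cancel g h)),
        Finset.sum_pair (fun h => hxy' (smul_left_cancel g h)), smul_add_smul haff g x y,
        smul_add_smul haff g x' y', huv]) with h1 | h1
  · have h2 := h1 {0, a} {b, a - b} (Finset.card_pair (Ne.symm ha)) (Finset.card_pair hbab) (by
      rw [Finset.sum_pair (Ne.symm ha), Finset.sum_pair hbab, zero_add, add_sub_cancel])
    have h3 : b ∈ ({0, a} : Finset X) := by
      rw [h2]; exact Finset.mem_insert_self _ _
    simp only [Finset.mem_insert, Finset.mem_singleton] at h3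
    rcases h3 with h3 | h3
    · exact hb0 h3
    · exact hba h3
  · have h2 := h1 {0, a} {0, b} (Finset.card_pair (Ne.symm ha)) (Finset.card_pair (Ne.symm hb0))
    rw [Finset.sum_pair (Ne.symm ha), Finset.sum_pair (Ne.symm hb0), zero_add, zero_add] at h2
    exact hba h2.symm

/-- An affine group of odd degree greater than `3` is not `2`-primitive. -/
theorem not_tprimitive_two {p : ℕ} (hp : p.Prime) (hp2 : p ≠ 2) (hpx : ∀ x : X, p • x = 0)
    (haff : ∀ (g : G) (x v : X), g • (x + v) = g • x + (g • v - g • (0 : X)))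
    (hn : 4 ≤ Nat.card X) : ¬ IsMultiplyPreprimitive G X 2 := by
  classical
  have := Fintype.ofFinite X
  intro h
  have hn' : 4 ≤ (Finset.univ : Finset X).card := by
    rwa [Finset.card_univ, ← Nat.card_eq_fintype_card]
  have hex : ∀ s : Finset X, s.card < 4 → ∃ x, x ∉ s := by
    intro s hs
    by_contra hne
    push Not at hne
    have := Finset.card_le_card (fun x _ => hne x : (Finset.univ : Finset X) ⊆ s)
    omega
  obtain ⟨a, ha⟩ := hex {0} (by simp)
  rw [Finset.mem_singleton] at ha
  have hneg : a ≠ -a := by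
    intro h1
    obtain ⟨m, hm⟩ := hp.odd_of_ne_two hp2
    have h1' : (2 : ℕ) • a = 0 := by
      rw [two_nsmul]
      nth_rewrite 1 [h1]
      exact neg_add_cancel a
    have h2 := hpx a
    rw [hm, add_nsmul, mul_nsmul, h1', nsmul_zero, zero_add, one_nsmul] at h2
    exact ha h2
  obtain ⟨b, hb⟩ := hex {0, a, -a} (lt_of_le_of_lt Finset.card_le_three (by norm_num))
  simp only [Finset.mem_insert, Finset.mem_singleton, not_or] at hb
  obtain ⟨hb0, hba, hba'⟩ := hb
  rcases rel_of_tprimitive h {0} (by simp) (fun x y => x = y ∨ x = -y)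
    (fun _ _ => Or.inl rfl) (by
      rintro x y _ _ (rfl | rfl)
      · exact Or.inl rfl
      · right; rw [neg_neg]) (by
      rintro x y z _ _ _ (rfl | rfl) (rfl | rfl)
      · exact Or.inl rfl
      · exact Or.inr rfl
      · exact Or.inr rfl
      · left; rw [neg_neg]) (by
      intro g hg x y _ _ hxy
      have hg0 : g • (0 : X) = 0 := hg 0 (Finset.mem_singleton_self _)
      rcases hxy with rfl | rfl
      · exact Or.inl rfl
      · right
        have h2 := haff g y (-y)
        rw [add_neg_cancel, hg0, sub_zero] at h2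
        exact eq_neg_of_add_eq_zero_right h2.symm) with h1 | h1
  · have h2 := h1 a (-a) (by simpa using ha) (by simpa using ha) (Or.inr (neg_neg a).symm)
    exact hneg h2
  · rcases h1 b a (by simpa using hb0) (by simpa using ha) with h2 | h2
    · exact hba h2
    · exact hba' h2

omit [DecidableEq X] in
/-- The order of an elementary abelian group. -/
theorem exists_card_eq_pow {p : ℕ} (hp : p.Prime) (hpx : ∀ x : X, p • x = 0) :
    ∃ d, Nat.card X = p ^ d := by
  have hf := Fact.mk hp
  let inst : Module (ZMod p) X := AddCommGroup.zmodModule hpx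
  have hfin : Module.Finite (ZMod p) X := Module.Finite.of_finite
  have := Fintype.ofFinite X
  refine ⟨Module.finrank (ZMod p) X, ?_⟩
  rw [Nat.card_eq_fintype_card, Module.card_eq_pow_finrank (K := ZMod p), ZMod.card]

/-- An affine `2`-transitive group of odd prime degree is `2`-Steiner primitive. -/
theorem steinerPrimitive_of_prime
    (htrans : ∀ v : X, ∃ g : G, ∀ x, g • x = x + v)
    (haff : ∀ (g : G) (x v : X), g • (x + v) = g • x + (g • v - g • (0 : X)))
    (h2 : IsMultiplyPretransitive G X 2) (hn : (Nat.card X).Prime) :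
    SteinerPrimitive G X 2 := by
  classical
  have := Fintype.ofFinite X
  have hfact := Fact.mk hn
  rintro ⟨k, B, hk2, hkn, hB, hGB⟩
  obtain ⟨v, hv⟩ : ∃ v : X, v ≠ 0 := by
    have : Nontrivial X := by
      rw [← Finite.one_lt_card_iff_nontrivial]; exact hn.one_lt
    exact exists_ne 0
  obtain ⟨b, ⟨hb, hvb⟩, hbu⟩ := hB.existsUnique {0, v} (Finset.card_pair hv.symm)
  have h0b : (0 : X) ∈ b := hvb (Finset.mem_insert_self _ _)
  have hvb' : v ∈ b := hvb (Finset.mem_insert_of_mem (Finset.mem_singleton_self _))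
  -- uniqueness of the block through two points
  have huniq : ∀ x y, x ≠ y → ∀ b ∈ B, ∀ b' ∈ B, x ∈ b → y ∈ b → x ∈ b' → y ∈ b' → b = b' := by
    intro x y hxy b hb b' hb' hx hy hx' hy'
    obtain ⟨b'', -, h3⟩ := hB.existsUnique {x, y} (Finset.card_pair hxy)
    have hsub : ∀ c : Finset X, x ∈ c → y ∈ c → ({x, y} : Finset X) ⊆ c := by
      intro c hx hy z hz
      simp only [Finset.mem_insert, Finset.mem_singleton] at hz
      rcases hz with rfl | rfl
      · exact hx
      · exact hy
    rw [h3 b ⟨hb, hsub b hx hy⟩, h3 b' ⟨hb', hsub b' hx' hy'⟩]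
  -- every element fixing `b` through two points
  have hpres : ∀ (g : G) x y, x ≠ y → x ∈ b → y ∈ b → g • x ∈ b → g • y ∈ b → ∀ z ∈ b,
      g • z ∈ b := by
    intro g x y hxy hx hy hx' hy' z hz
    have h3 : g • b = b := huniq (g • x) (g • y) (fun h => hxy (smul_left_cancel g h)) _
      (hGB g b hb) b hb (Finset.smul_mem_smul_finset hx) (Finset.smul_mem_smul_finset hy) hx' hy'
    rw [← h3]
    exact Finset.smul_mem_smul_finset hz
  -- negation is in the group
  have hgen : ∀ x : X, ∃ m : ℤ, m • v = x := by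
    intro x
    have h3 : AddSubgroup.zmultiples v = ⊤ := by
      apply AddSubgroup.eq_top_of_card_eq
      rw [Nat.card_zmultiples]
      have h4 := addOrderOf_dvd_natCard v
      rcases (Nat.dvd_prime hn).1 h4 with h5 | h5
      · exact absurd (AddMonoid.addOrderOf_eq_one_iff.1 h5) hv
      · exact h5
    have h4 : x ∈ AddSubgroup.zmultiples v := h3 ▸ AddSubgroup.mem_top x
    exact AddSubgroup.mem_zmultiples_iff.1 h4
  have hneg : ∃ g : G, ∀ x : X, g • x = -x := by
    obtain ⟨h, hh⟩ := lin_trans h2 v (-v) hv (neg_ne_zero.2 hv)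
    refine ⟨h, fun x => ?_⟩
    obtain ⟨m, rfl⟩ := hgen x
    have h3 : h • (m • v) = m • (h • v) := map_zsmul (endo (stab_add haff) h) m v
    change h • (m • v) = _
    rw [h3, hh, smul_neg]
  obtain ⟨ν, hν⟩ := hneg
  have F1 : ∀ a ∈ b, a ≠ 0 → ∀ x ∈ b, a - x ∈ b := by
    intro a ha ha0 x hx
    obtain ⟨τ, hτ⟩ := htrans a
    have h3 : ∀ z, (τ * ν) • z = a - z := by
      intro z
      rw [mul_smul, hν, hτ]
      abel
    rw [← h3]
    apply hpres (τ * ν) 0 a ha0.symm h0b ha _ _ x hx
    · rw [h3, sub_zero]; exact ha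
    · rw [h3, sub_self]; exact h0b
  -- a third point
  obtain ⟨w, hwb, hw⟩ : ∃ w ∈ b, w ∉ ({0, v} : Finset X) := by
    by_contra hne
    push Not at hne
    have h3 := Finset.card_le_card (fun x hx => hne x hx : b ⊆ {0, v})
    rw [hB.card_eq b hb, Finset.card_pair hv.symm] at h3
    omega
  simp only [Finset.mem_insert, Finset.mem_singleton, not_or] at hw
  obtain ⟨hw0, hwv⟩ := hw
  have hu1 : v - w ∈ b := F1 v hvb' hv w hwb
  have hu2 : -(v - w) ∈ b := by
    rw [neg_sub]
    exact F1 w hwb hw0 v hvb'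
  have hu0 : v - w ≠ 0 := sub_ne_zero.2 (Ne.symm hwv)
  have F2 : ∀ a ∈ b, -a ∈ b := by
    intro a ha
    by_cases ha0 : a = 0
    · rw [ha0, neg_zero]; exact h0b
    · obtain ⟨h, hh⟩ := lin_trans h2 (v - w) a hu0 ha0
      have h3 : h • (-(v - w)) = -a := by
        rw [← hh]
        exact map_neg (endo (stab_add haff) h) (v - w)
      have hh0 : (h : G) • (0 : X) = 0 := h.2
      have h4 := hpres (h : G) 0 (v - w) hu0.symm h0b hu1 (by rw [hh0]; exact h0b)
        (by change h • (v - w) ∈ b; rw [hh]; exact ha) _ hu2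
      change h • (-(v - w)) ∈ b at h4
      rwa [h3] at h4
  let S : AddSubgroup X :=
    { carrier := b
      zero_mem' := h0b
      neg_mem' := fun {x} hx => F2 x hx
      add_mem' := by
        intro x y hx hy
        by_cases hx0 : x = 0
        · rw [hx0, zero_add]; exact hy
        · have := F1 x hx hx0 (-y) (F2 y hy)
          rwa [sub_neg_eq_add] at this }
  have hcardS : Nat.card S = k := by
    rw [← hB.card_eq b hb]
    exact Nat.card_eq_card_toFinset (b : Set X) |>.trans (by rw [Finset.toFinset_coe])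
  have h3 := AddSubgroup.card_addSubgroup_dvd_card S
  rw [hcardS] at h3
  rcases (Nat.dvd_prime hn).1 h3 with h4 | h4 <;> omega

/-- An affine group of degree `2 ^ d`, `d` prime, is `2`-Steiner primitive. -/
theorem steinerPrimitive_of_two_pow (hpx : ∀ x : X, 2 • x = 0)
    (htrans : ∀ v : X, ∃ g : G, ∀ x, g • x = x + v) {d : ℕ} (hd : d.Prime)
    (hn : Nat.card X = 2 ^ d) : SteinerPrimitive G X 2 := by
  classical
  have := Fintype.ofFinite X
  rintro ⟨k, B, hk2, hkn, hB, hGB⟩
  have huniq : ∀ x y, x ≠ y → ∀ b ∈ B, ∀ b' ∈ B, x ∈ b → y ∈ b → x ∈ b' → y ∈ b' → b = b' := by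
    intro x y hxy b hb b' hb' hx hy hx' hy'
    obtain ⟨b'', -, h3⟩ := hB.existsUnique {x, y} (Finset.card_pair hxy)
    have hsub : ∀ c : Finset X, x ∈ c → y ∈ c → ({x, y} : Finset X) ⊆ c := by
      intro c hx hy z hz
      simp only [Finset.mem_insert, Finset.mem_singleton] at hz
      rcases hz with rfl | rfl
      · exact hx
      · exact hy
    rw [h3 b ⟨hb, hsub b hx hy⟩, h3 b' ⟨hb', hsub b' hx' hy'⟩]
  have hself : ∀ x : X, x + x = 0 := fun x => by rw [← two_nsmul]; exact hpx x
  -- the blocks through `0` are subgroups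
  have hadd : ∀ b ∈ B, (0 : X) ∈ b → ∀ x ∈ b, ∀ y ∈ b, x + y ∈ b := by
    intro b hb h0 x hx y hy
    by_cases hy0 : y = 0
    · rw [hy0, add_zero]; exact hx
    · obtain ⟨τ, hτ⟩ := htrans y
      have h3 : τ • b = b := by
        apply huniq 0 y (Ne.symm hy0) _ (hGB τ b hb) b hb _ _ h0 hy
        · have : τ • y = 0 := by rw [hτ, hself]
          rw [← this]
          exact Finset.smul_mem_smul_finset hy
        · have : τ • (0 : X) = y := by rw [hτ, zero_add]
          nth_rewrite 1 [← this]
          exact Finset.smul_mem_smul_finset h0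
      rw [← hτ x, ← h3]
      exact Finset.smul_mem_smul_finset hx
  choose! F hF using fun v : X => fun hv : v ≠ 0 =>
    (hB.existsUnique {0, v} (Finset.card_pair hv.symm)).exists
  have hFB : ∀ v, v ≠ 0 → F v ∈ B := fun v hv => (hF v hv).1
  have hF0 : ∀ v, v ≠ 0 → (0 : X) ∈ F v := fun v hv => (hF v hv).2 (Finset.mem_insert_self _ _)
  have hFv : ∀ v, v ≠ 0 → v ∈ F v := fun v hv =>
    (hF v hv).2 (Finset.mem_insert_of_mem (Finset.mem_singleton_self _))
  obtain ⟨v, hv⟩ : ∃ v : X, v ≠ 0 := by
    have : Nontrivial X := by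
      rw [← Finite.one_lt_card_iff_nontrivial]; omega
    exact exists_ne 0
  -- the size of a block is a power of two
  obtain ⟨e, he⟩ : ∃ e, k = 2 ^ e := by
    let S : AddSubgroup X :=
      { carrier := F v
        zero_mem' := hF0 v hv
        neg_mem' := by
          intro x hx
          have : -x = x := neg_eq_of_add_eq_zero_left (hself x)
          rwa [this]
        add_mem' := fun {x y} hx hy => hadd _ (hFB v hv) (hF0 v hv) x hx y hy }
    have hcardS : Nat.card S = k := by
      rw [← hB.card_eq _ (hFB v hv)]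
      exact Nat.card_eq_card_toFinset (F v : Set X) |>.trans (by rw [Finset.toFinset_coe])
    obtain ⟨e, he⟩ := exists_card_eq_pow (X := S) Nat.prime_two (fun x => Subtype.ext (hpx x))
    exact ⟨e, by rw [← hcardS, he]⟩
  -- counting
  have hdvd : k - 1 ∣ 2 ^ d - 1 := by
    have h3 : (Finset.univ.erase (0 : X)).card = 2 ^ d - 1 := by
      rw [Finset.card_erase_of_mem (Finset.mem_univ _), Finset.card_univ,
        ← Nat.card_eq_fintype_card, hn]
    rw [← h3, Finset.card_eq_sum_card_image F (Finset.univ.erase (0 : X))]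
    apply Finset.dvd_sum
    intro b hb
    obtain ⟨u, hu, rfl⟩ := Finset.mem_image.1 hb
    have hu0 : u ≠ 0 := (Finset.mem_erase.1 hu).1
    have h4 : (Finset.univ.erase (0 : X)).filter (fun x => F x = F u) = (F u).erase 0 := by
      ext x
      simp only [Finset.mem_filter, Finset.mem_erase, Finset.mem_univ, and_true]
      constructor
      · rintro ⟨hx, hxu⟩
        exact ⟨hx, hxu ▸ hFv x hx⟩
      · rintro ⟨hx, hxu⟩
        exact ⟨hx, huniq 0 x hx.symm _ (hFB x hx) _ (hFB u hu0) (hF0 x hx) (hFv x hx)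
          (hF0 u hu0) hxu⟩
    rw [h4, Finset.card_erase_of_mem (hF0 u hu0), hB.card_eq _ (hFB u hu0)]
  have hed : e ∣ d := by
    have h3 := Nat.gcd_eq_left hdvd
    rw [he, Nat.pow_sub_one_gcd_pow_sub_one] at h3
    have h4 : 2 ^ e.gcd d = 2 ^ e := by
      have h5 : 0 < 2 ^ e.gcd d := by positivity
      have h6 : 0 < 2 ^ e := by positivity
      omega
    have h5 := Nat.pow_right_injective (le_refl 2) h4
    rw [← h5]
    exact Nat.gcd_dvd_right _ _
  rcases (Nat.dvd_prime hd).1 hed with h4 | h4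
  · rw [h4] at he
    omega
  · rw [h4] at he
    omega

end Aff

end Pool.Agent.Helper37.Prim
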