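import Mathlib

/-!
# Three generalisations of primitivity (MP_13dc8a_al): permutations given by lists of images
-/

namespace Pool.Agent.Helper37.Prim

/-- Check that the lists `l` and `l'` of images define inverse maps of `{0, ..., n - 1}`. -/
def checkL (n : ℕ) (l l' : List ℕ) : Bool :=
  (List.range n).all fun x => (l.getD (l'.getD x 0) 0 == x) && decide (l'.getD x 0 < n)

/-- The permutation of `{0, ..., n - 1}` which maps `i` to the entry `i` of the list `l`; the
list `l'` describes the inverse permutation. -/
def permL (n : ℕ) (l l' : List ℕ) (h : checkL n l l' = true) (h' : checkL n l' l = true) :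
    Equiv.Perm (Fin n) where
  toFun x := ⟨l.getD x 0, by
    have := (List.all_eq_true.1 h') x (List.mem_range.2 x.2)
    simp only [Bool.and_eq_true, decide_eq_true_eq] at this
    exact this.2⟩
  invFun x := ⟨l'.getD x 0, by
    have := (List.all_eq_true.1 h) x (List.mem_range.2 x.2)
    simp only [Bool.and_eq_true, decide_eq_true_eq] at this
    exact this.2⟩
  left_inv x := by
    have := (List.all_eq_true.1 h') x (List.mem_range.2 x.2)
    simp only [Bool.and_eq_true, beq_iff_eq] at this
    exact Fin.ext this.1
  right_inv x := by
    have := (List.all_eq_true.1 h) x (List.mem_range.2 x.2)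
    simp only [Bool.and_eq_true, beq_iff_eq] at this
    exact Fin.ext this.1

end Pool.Agent.Helper37.Prim
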