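import Pool.Agent.Helper37.Prim.Rel2
import Pool.Agent.Helper37.Prim.PermL

/-!
# Three generalisations of primitivity (MP_13dc8a_al): certificates for finite groups

Permutations of `Fin n`, `n ≤ 512`, are encoded by natural numbers: the entry `i` of the table
`T` is the digit `i` of `T` in base `512`.
-/

namespace Pool.Agent.Helper37.Prim

open MulAction
open scoped Pointwise

/-- The entry `i` of the table `T`. -/
def tab (T i : ℕ) : ℕ := (T >>> (9 * i)) % 512

/-- The permutation `g` of `Fin n` has the table `T`. -/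
def IsT {n : ℕ} (g : Equiv.Perm (Fin n)) (T : ℕ) : Prop := ∀ x : Fin n, (g x : ℕ) = tab T x

/-- Some element of `G` has the table `T`. -/
def InG {n : ℕ} (G : Subgroup (Equiv.Perm (Fin n))) (T : ℕ) : Prop := ∃ g ∈ G, IsT g T

/-- Evaluation of a word in the tables of a list. -/
def evalW (L : List ℕ) (w : List ℕ) (x : ℕ) : ℕ := w.foldr (fun i x => tab (L.getD i 0) x) x

/-- Check that the word `w` has the table `T`. -/
def checkW (n : ℕ) (L w : List ℕ) (T : ℕ) : Bool :=
  w.all (fun i => decide (i < L.length)) &&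
    (List.range n).all fun x => evalW L w x == tab T x

/-- Check that the permutations with tables `T` and `T'` are inverse. -/
def checkInv (n T T' : ℕ) : Bool :=
  (List.range n).all fun x => (tab T (tab T' x) == x) && decide (tab T' x < n)

/-- Check that the list `l` and the table `T` describe the same map. -/
def checkT (n : ℕ) (l : List ℕ) (T : ℕ) : Bool :=
  (List.range n).all fun x => l.getD x 0 == tab T x

theorem isT_permL {n : ℕ} {l l' : List ℕ} {h : checkL n l l' = true} {h' : checkL n l' l = true}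
    {T : ℕ} (hT : checkT n l T = true) : IsT (permL n l l' h h') T := by
  intro x
  have := (List.all_eq_true.1 hT) x (List.mem_range.2 x.2)
  rw [beq_iff_eq] at this
  exact this

section

variable {n : ℕ} {G : Subgroup (Equiv.Perm (Fin n))}

theorem InG.inv {T T' : ℕ} (hT : InG G T) (h : checkInv n T T' = true) : InG G T' := by
  obtain ⟨g, hg, hgT⟩ := hT
  refine ⟨g⁻¹, G.inv_mem hg, fun x => ?_⟩
  have := (List.all_eq_true.1 h) x (List.mem_range.2 x.2)
  simp only [Bool.and_eq_true, beq_iff_eq, decide_eq_true_eq] at this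
  have h1 : g ⟨tab T' x, this.2⟩ = x := Fin.ext (by rw [hgT]; exact this.1)
  have h2 : g⁻¹ x = ⟨tab T' x, this.2⟩ := by rw [Equiv.Perm.inv_eq_iff_eq, h1]
  rw [h2]

theorem exists_word {L : List ℕ} (hL : ∀ T ∈ L, InG G T) (w : List ℕ)
    (hw : ∀ i ∈ w, i < L.length) : ∃ g ∈ G, ∀ x : Fin n, (g x : ℕ) = evalW L w x := by
  induction w with
  | nil => exact ⟨1, G.one_mem, fun x => rfl⟩
  | cons i w ih =>
    obtain ⟨g, hg, h1⟩ := ih fun j hj => hw j (List.mem_cons_of_mem _ hj)
    have hi : i < L.length := hw i List.mem_cons_self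
    obtain ⟨h, hh, h2⟩ := hL (L.getD i 0) (by
      rw [List.getD_eq_getElem _ _ hi]
      exact List.getElem_mem hi)
    refine ⟨h * g, G.mul_mem hh hg, fun x => ?_⟩
    rw [Equiv.Perm.mul_apply, h2, h1]
    rfl

theorem InG.word {L : List ℕ} (hL : ∀ T ∈ L, InG G T) (w : List ℕ) {T : ℕ}
    (h : checkW n L w T = true) : InG G T := by
  unfold checkW at h
  rw [Bool.and_eq_true] at h
  obtain ⟨g, hg, h1⟩ := exists_word hL w (by
    intro i hi
    have := (List.all_eq_true.1 h.1) i hi
    exact of_decide_eq_true this)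
  refine ⟨g, hg, fun x => ?_⟩
  have := (List.all_eq_true.1 h.2) x (List.mem_range.2 x.2)
  rw [beq_iff_eq] at this
  rw [h1, this]

theorem InG.cons {L : List ℕ} {T : ℕ} (hT : InG G T) (hL : ∀ T ∈ L, InG G T) :
    ∀ T' ∈ T :: L, InG G T' := by
  intro T' h
  rcases List.mem_cons.1 h with rfl | h
  · exact hT
  · exact hL T' h

/-- The certificate of a spanning forest: `roots`, parents `P`, labels `I`, ranks `R`. -/
def checkR (n : ℕ) (Ts roots excl : List ℕ) (P I R : ℕ) : Bool :=
  (List.range n).all fun x => roots.contains x || excl.contains x ||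
    (decide (tab R (tab P x) < tab R x) && decide (tab P x < n) &&
      decide (tab I x < Ts.length) && (tab (Ts.getD (tab I x) 0) (tab P x) == x) &&
      !(excl.contains (tab P x)))

/-- Induction along a spanning forest. -/
theorem reach_ind {Ts roots excl : List ℕ} {P I R : ℕ} (h : checkR n Ts roots excl P I R = true)
    (Q : Fin n → Prop) (hroot : ∀ x : Fin n, (x : ℕ) ∈ roots → Q x)
    (hstep : ∀ T ∈ Ts, ∀ x y : Fin n, (x : ℕ) ∉ excl → Q x → (y : ℕ) = tab T x → Q y) :
    ∀ x : Fin n, (x : ℕ) ∉ excl → Q x := by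
  have key : ∀ k : ℕ, ∀ x : Fin n, tab R x ≤ k → (x : ℕ) ∉ excl → Q x := by
    intro k
    induction k with
    | zero =>
      intro x hx hex
      have h1 := (List.all_eq_true.1 h) x (List.mem_range.2 x.2)
      simp only [Bool.or_eq_true, Bool.and_eq_true, decide_eq_true_eq, beq_iff_eq,
        List.contains_iff_mem] at h1
      rcases h1 with (h1 | h1) | h1
      · exact hroot x h1
      · exact absurd h1 hex
      · obtain ⟨⟨⟨⟨h2, -⟩, -⟩, -⟩, -⟩ := h1
        omega
    | succ k ih =>
      intro x hx hex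
      have h1 := (List.all_eq_true.1 h) x (List.mem_range.2 x.2)
      simp only [Bool.or_eq_true, Bool.and_eq_true, decide_eq_true_eq, beq_iff_eq,
        List.contains_iff_mem, Bool.not_eq_true', Bool.eq_false_iff, ne_eq] at h1
      rcases h1 with (h1 | h1) | h1
      · exact hroot x h1
      · exact absurd h1 hex
      · obtain ⟨⟨⟨⟨h2, h3⟩, h4⟩, h5⟩, h6⟩ := h1
        have h7 := ih ⟨tab P x, h3⟩ (by change tab R (tab P x) ≤ k; omega) h6
        exact hstep (Ts.getD (tab I x) 0) (by
          rw [List.getD_eq_getElem _ _ h4]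
          exact List.getElem_mem h4) ⟨tab P x, h3⟩ x h6 h7 h5.symm
  intro x hx
  exact key (tab R x) x le_rfl hx

end

end Pool.Agent.Helper37.Prim
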