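import Mathlib

/-!
# Three generalisations of primitivity (MP_13dc8a_al): definitions

The notions `t`-transitive, `t`-primitive and `t`-set primitive are the ones of Mathlib:

* `MulAction.IsMultiplyPretransitive G X t`;
* `MulAction.IsMultiplyPreprimitive G X t`: the action is `t`-transitive and the pointwise
  stabiliser of every set of `t - 1` points is primitive on the remaining points;
* `MulAction.IsPreprimitive G (Set.powersetCard X t)`: the action on the `t`-element subsets
  is primitive.
-/

namespace Pool.Agent.Helper37.Prim

open MulAction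
open scoped Pointwise

/-- `B` is the set of blocks of a Steiner system `S(t, k, |X|)` on `X`: every block is a
`k`-subset of `X`, and every `t`-subset of `X` lies in exactly one block. -/
structure IsSteinerSystem {X : Type*} (t k : ℕ) (B : Set (Finset X)) : Prop where
  card_eq : ∀ b ∈ B, b.card = k
  existsUnique : ∀ s : Finset X, s.card = t → ∃! b, b ∈ B ∧ s ⊆ b

variable (G X : Type*) [Group G] [MulAction G X] [DecidableEq X]

/-- `G` is `t`-Steiner primitive on the finite set `X`, `|X| = n`: there is no Steiner system
`S(t, k, n)` on `X` with `t < k < n` whose blocks are permuted by `G`. -/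
def SteinerPrimitive (t : ℕ) : Prop :=
  ¬ ∃ (k : ℕ) (B : Set (Finset X)), t < k ∧ k < Nat.card X ∧ IsSteinerSystem t k B ∧
    ∀ g : G, ∀ b ∈ B, g • b ∈ B

/-- Exceptions of type (a): `t`-primitive but not `t`-set primitive. -/
def ExcA (t : ℕ) : Prop :=
  IsMultiplyPreprimitive G X t ∧ ¬ IsPreprimitive G (Set.powersetCard X t)

/-- Exceptions of type (b): `t`-set primitive but not `t`-primitive. -/
def ExcB (t : ℕ) : Prop :=
  IsPreprimitive G (Set.powersetCard X t) ∧ ¬ IsMultiplyPreprimitive G X t

/-- Exceptions of type (c): `t`-Steiner primitive but not `t`-primitive. -/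
def ExcC (t : ℕ) : Prop :=
  SteinerPrimitive G X t ∧ ¬ IsMultiplyPreprimitive G X t

/-- Exceptions of type (d): `t`-Steiner primitive but not `t`-set primitive. -/
def ExcD (t : ℕ) : Prop :=
  SteinerPrimitive G X t ∧ ¬ IsPreprimitive G (Set.powersetCard X t)

end Pool.Agent.Helper37.Prim
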