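import Pool.Agent.Helper37.Prim.ProjDefs
import Pool.Agent.Helper37.Prim.AffineMain

/-!
# Three generalisations of primitivity (MP_13dc8a_al): basic facts on the projective line
-/

namespace Pool.Agent.Helper37.Prim

open Matrix OnePoint MulAction

section Field

variable {K : Type*} [Field K] [DecidableEq K]

/-- The affine map `x ↦ a x + b`. -/
def affGL (a b : K) (ha : a ≠ 0) : GL (Fin 2) K :=
  Matrix.GeneralLinearGroup.mkOfDetNeZero !![a, b; 0, 1] (by simp [Matrix.det_fin_two, ha])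

theorem affGL_coe (a b : K) (ha : a ≠ 0) (x : K) :
    affGL a b ha • (x : OnePoint K) = ((a * x + b : K) : OnePoint K) := by
  rw [smul_some_eq_ite]
  simp [affGL, Matrix.GeneralLinearGroup.mkOfDetNeZero]

theorem affGL_infty (a b : K) (ha : a ≠ 0) :
    affGL a b ha • (∞ : OnePoint K) = ∞ := by
  rw [smul_infty_eq_ite]
  simp [affGL, Matrix.GeneralLinearGroup.mkOfDetNeZero]

/-- An element moving `∞` to `u`. -/
def inftyGL (u : K) : GL (Fin 2) K :=
  Matrix.GeneralLinearGroup.mkOfDetNeZero !![u, -1; 1, 0] (by simp [Matrix.det_fin_two])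

theorem inftyGL_infty (u : K) : inftyGL u • (∞ : OnePoint K) = u := by
  rw [smul_infty_eq_ite]
  simp [inftyGL, Matrix.GeneralLinearGroup.mkOfDetNeZero]

/-- An element of `GL(2, K)` fixing three points of the projective line acts trivially. -/
theorem smul_eq_self_of_fix {g : GL (Fin 2) K} (h1 : g • (∞ : OnePoint K) = ∞)
    (h2 : g • ((0 : K) : OnePoint K) = (0 : K)) (h3 : g • ((1 : K) : OnePoint K) = (1 : K))
    (x : OnePoint K) : g • x = x := by
  rw [smul_infty_eq_self_iff] at h1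
  have hdet : (g : Matrix (Fin 2) (Fin 2) K).det ≠ 0 := g.det_ne_zero
  rw [Matrix.det_fin_two, h1, mul_zero, sub_zero] at hdet
  have hd : g 1 1 ≠ 0 := right_ne_zero_of_mul hdet
  have hform : ∀ x : K, g • (x : OnePoint K) = (((g 0 0 * x + g 0 1) / g 1 1 : K) : OnePoint K) := by
    intro x
    rw [smul_some_eq_ite, h1, zero_mul, zero_add, if_neg hd]
  rw [hform, OnePoint.coe_eq_coe, mul_zero, zero_add, div_eq_zero_iff] at h2
  have hb : g 0 1 = 0 := by
    rcases h2 with h2 | h2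
    · exact h2
    · exact absurd h2 hd
  rw [hform, OnePoint.coe_eq_coe, hb, add_zero, mul_one, div_eq_one_iff_eq hd] at h3
  cases x with
  | infty => rw [smul_infty_eq_self_iff]; exact h1
  | coe x => rw [hform, hb, add_zero, h3, mul_div_assoc, mul_comm, div_mul_cancel₀ _ hd]

/-- `GL(2, K)` is `3`-transitive on the projective line. -/
theorem exists_smul_std {u v w : OnePoint K} (huv : u ≠ v) (huw : u ≠ w) (hvw : v ≠ w) :
    ∃ g : GL (Fin 2) K, g • (∞ : OnePoint K) = u ∧ g • ((0 : K) : OnePoint K) = v ∧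
      g • ((1 : K) : OnePoint K) = w := by
  obtain ⟨g₁, hg₁⟩ : ∃ g : GL (Fin 2) K, g • (∞ : OnePoint K) = u := by
    cases u with
    | infty => exact ⟨1, one_smul _ _⟩
    | coe u => exact ⟨inftyGL u, inftyGL_infty u⟩
  have key : ∀ z : OnePoint K, u ≠ z → ∃ z' : K, g₁ • (z' : OnePoint K) = z := by
    intro z hz
    have h1 : g₁⁻¹ • z ≠ ∞ := by
      intro h
      rw [inv_smul_eq_iff] at h
      exact hz (hg₁.symm.trans h.symm)
    obtain ⟨z', hz'⟩ := OnePoint.ne_infty_iff_exists.1 h1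
    exact ⟨z', by rw [hz', smul_inv_smul]⟩
  obtain ⟨v', hv'⟩ := key v huv
  obtain ⟨w', hw'⟩ := key w huw
  have hne : w' - v' ≠ 0 := by
    intro h
    apply hvw
    rw [← hv', ← hw', sub_eq_zero.1 h]
  refine ⟨g₁ * affGL (w' - v') v' hne, ?_, ?_, ?_⟩
  · rw [mul_smul, affGL_infty, hg₁]
  · rw [mul_smul, affGL_coe, mul_zero, zero_add, hv']
  · rw [mul_smul, affGL_coe, mul_one, sub_add_cancel, hw']

/-- Two elements of `GL(2, K)` agreeing on three points agree everywhere. -/
theorem smul_eq_of_three {g h : GL (Fin 2) K} {u v w : OnePoint K} (huv : u ≠ v) (huw : u ≠ w)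
    (hvw : v ≠ w) (hu : g • u = h • u) (hv : g • v = h • v) (hw : g • w = h • w)
    (x : OnePoint K) : g • x = h • x := by
  obtain ⟨k, hk1, hk2, hk3⟩ := exists_smul_std huv huw hvw
  have h1 : ∀ y : OnePoint K, (k⁻¹ * h⁻¹ * g * k) • y = y := by
    intro y
    apply smul_eq_self_of_fix
    · rw [mul_smul, mul_smul, mul_smul, hk1, hu, inv_smul_smul, ← hk1, inv_smul_smul]
    · rw [mul_smul, mul_smul, mul_smul, hk2, hv, inv_smul_smul, ← hk2, inv_smul_smul]
    · rw [mul_smul, mul_smul, mul_smul, hk3, hw, inv_smul_smul, ← hk3, inv_smul_smul]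
  have h2 := h1 (k⁻¹ • x)
  rw [mul_smul, mul_smul, mul_smul, smul_inv_smul, inv_smul_eq_iff, smul_inv_smul,
    inv_smul_eq_iff] at h2
  exact h2

/-- Field automorphisms commute with Möbius transformations, twisted. -/
theorem map_smul' (σ : K ≃+* K) (g : GL (Fin 2) K) (x : OnePoint K) :
    OnePoint.map σ (g • x) = g.map (σ : K →+* K) • OnePoint.map σ x :=
  OnePoint.map_smul (σ : K →+* K) g x

theorem map_coe' (σ : K ≃+* K) (x : K) : OnePoint.map σ (x : OnePoint K) = (σ x : K) := rfl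

theorem map_infty' (σ : K ≃+* K) : OnePoint.map σ (∞ : OnePoint K) = ∞ := rfl

/-- The stabiliser of `∞` in `PΓL(2, K)`. -/
theorem PGammaL_infty {π : Equiv.Perm (OnePoint K)} (hπ : π ∈ PGammaL K) (h : π ∞ = ∞) :
    ∃ (a b : K) (σ : K ≃+* K), a ≠ 0 ∧ ∀ x : K, π x = ((a * σ x + b : K) : OnePoint K) := by
  obtain ⟨g, σ, hg⟩ := hπ
  rw [hg, map_infty', smul_infty_eq_self_iff] at h
  have hdet : (g : Matrix (Fin 2) (Fin 2) K).det ≠ 0 := g.det_ne_zero
  rw [Matrix.det_fin_two, h, mul_zero, sub_zero] at hdet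
  have hd : g 1 1 ≠ 0 := right_ne_zero_of_mul hdet
  have ha : g 0 0 ≠ 0 := left_ne_zero_of_mul hdet
  refine ⟨g 0 0 / g 1 1, g 0 1 / g 1 1, σ, div_ne_zero ha hd, fun x => ?_⟩
  rw [hg, map_coe', smul_some_eq_ite, h, zero_mul, zero_add, if_neg hd, OnePoint.coe_eq_coe]
  field_simp

/-- The pointwise stabiliser of `∞, 0` in `PΓL(2, K)`. -/
theorem PGammaL_infty_zero {π : Equiv.Perm (OnePoint K)} (hπ : π ∈ PGammaL K) (h : π ∞ = ∞)
    (h0 : π ((0 : K) : OnePoint K) = (0 : K)) :
    ∃ (a : K) (σ : K ≃+* K), a ≠ 0 ∧ ∀ x : K, π x = ((a * σ x : K) : OnePoint K) := by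
  obtain ⟨a, b, σ, ha, hab⟩ := PGammaL_infty hπ h
  rw [hab, map_zero, mul_zero, zero_add, OnePoint.coe_eq_coe] at h0
  exact ⟨a, σ, ha, fun x => by rw [hab, h0, add_zero]⟩

end Field

section Card

variable {K : Type*} [Field K] [Finite K] [DecidableEq K]

omit [Field K] [DecidableEq K] in
theorem card_onePoint : Nat.card (OnePoint K) = Nat.card K + 1 := by
  have := Fintype.ofFinite K
  have h : Nat.card (OnePoint K) = Nat.card (Option K) := rfl
  rw [h, Nat.card_eq_fintype_card, Nat.card_eq_fintype_card, Fintype.card_option]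

end Card

end Pool.Agent.Helper37.Prim
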