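import Pool.Agent.Helper37.Prim.Proj3
import Pool.Agent.Helper37.Prim.Alt

/-!
# Three generalisations of primitivity (MP_13dc8a_al): `PSL(2, K)` on the projective line
-/

namespace Pool.Agent.Helper37.Prim

open Matrix OnePoint MulAction
open scoped Pointwise

section Field

variable {K : Type*} [Field K] [DecidableEq K]

/-- The element of `GL(2, K)` with rows `(a, b)`, `(c, d)`. -/
def mk2 (a b c d : K) (h : a * d - b * c ≠ 0) : GL (Fin 2) K :=
  Matrix.GeneralLinearGroup.mkOfDetNeZero !![a, b; c, d] (by rwa [Matrix.det_fin_two_of])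

theorem mk2_coe {a b c d : K} (h : a * d - b * c ≠ 0) (x : K) :
    mk2 a b c d h • (x : OnePoint K) =
      if c * x + d = 0 then ∞ else (((a * x + b) / (c * x + d) : K) : OnePoint K) := by
  rw [smul_some_eq_ite]
  simp [mk2, Matrix.GeneralLinearGroup.mkOfDetNeZero]

theorem mk2_infty {a b c d : K} (h : a * d - b * c ≠ 0) :
    mk2 a b c d h • (∞ : OnePoint K) = if c = 0 then ∞ else ((a / c : K) : OnePoint K) := by
  rw [smul_infty_eq_ite]
  simp [mk2, Matrix.GeneralLinearGroup.mkOfDetNeZero]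

/-- Elements whose determinant is a square act as elements of `PSL(2, K)`. -/
theorem toPerm_mem_PSL {g : GL (Fin 2) K} {e : K}
    (h : (g : Matrix (Fin 2) (Fin 2) K).det = e ^ 2) :
    (MulAction.toPerm g : Equiv.Perm (OnePoint K)) ∈ PSL K := by
  have hdet : (g : Matrix (Fin 2) (Fin 2) K).det ≠ 0 := g.det_ne_zero
  have he : e ≠ 0 := by
    rintro rfl
    rw [h] at hdet
    simp at hdet
  rw [Matrix.det_fin_two] at h hdet
  have h1 : e⁻¹ * g 0 0 * (e⁻¹ * g 1 1) - e⁻¹ * g 0 1 * (e⁻¹ * g 1 0) = 1 := by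
    field_simp
    linear_combination h
  refine ⟨mk2 (e⁻¹ * g 0 0) (e⁻¹ * g 0 1) (e⁻¹ * g 1 0) (e⁻¹ * g 1 1) (by rw [h1]; simp), ?_,
    fun x => ?_⟩
  · change (!![e⁻¹ * g 0 0, e⁻¹ * g 0 1; e⁻¹ * g 1 0, e⁻¹ * g 1 1] : Matrix _ _ K).det = 1
    rw [Matrix.det_fin_two_of, h1]
  · rw [MulAction.toPerm_apply]
    cases x with
    | infty =>
      rw [mk2_infty, smul_infty_eq_ite]
      by_cases hc : g 1 0 = 0
      · rw [if_pos hc, if_pos (by rw [hc, mul_zero])]
      · rw [if_neg hc, if_neg (mul_ne_zero (inv_ne_zero he) hc),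
          mul_div_mul_left _ _ (inv_ne_zero he)]
    | coe x =>
      rw [mk2_coe, smul_some_eq_ite]
      have h2 : e⁻¹ * g 1 0 * x + e⁻¹ * g 1 1 = e⁻¹ * (g 1 0 * x + g 1 1) := by ring
      have h3 : e⁻¹ * g 0 0 * x + e⁻¹ * g 0 1 = e⁻¹ * (g 0 0 * x + g 0 1) := by ring
      rw [h2, h3]
      by_cases hc : g 1 0 * x + g 1 1 = 0
      · rw [if_pos hc, if_pos (by rw [hc, mul_zero])]
      · rw [if_neg hc, if_neg (mul_ne_zero (inv_ne_zero he) hc),
          mul_div_mul_left _ _ (inv_ne_zero he)]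

theorem mk2_mem_PSL {a b c d e : K} (h : a * d - b * c ≠ 0) (he : a * d - b * c = e ^ 2) :
    (MulAction.toPerm (mk2 a b c d h) : Equiv.Perm (OnePoint K)) ∈ PSL K := by
  apply toPerm_mem_PSL (e := e)
  change (!![a, b; c, d] : Matrix _ _ K).det = e ^ 2
  rw [Matrix.det_fin_two_of, he]

/-- `PSL(2, K)` is `2`-transitive. -/
theorem PSL_two_trans {u v : OnePoint K} (huv : u ≠ v) :
    ∃ π ∈ PSL K, π ∞ = u ∧ π ((0 : K) : OnePoint K) = v := by
  obtain ⟨w, huw, hvw⟩ : ∃ w : OnePoint K, u ≠ w ∧ v ≠ w := by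
    by_cases h1 : u ≠ ∞ ∧ v ≠ ∞
    · exact ⟨∞, h1⟩
    by_cases h2 : u ≠ ((0 : K) : OnePoint K) ∧ v ≠ ((0 : K) : OnePoint K)
    · exact ⟨_, h2⟩
    refine ⟨((1 : K) : OnePoint K), ?_, ?_⟩
    · rintro rfl
      apply h2
      refine ⟨fun h => one_ne_zero (OnePoint.coe_eq_coe.1 h), ?_⟩
      rintro rfl
      exact h1 ⟨OnePoint.coe_ne_infty _, OnePoint.coe_ne_infty _⟩
    · rintro rfl
      apply h2
      refine ⟨?_, fun h => one_ne_zero (OnePoint.coe_eq_coe.1 h)⟩
      rintro rfl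
      exact h1 ⟨OnePoint.coe_ne_infty _, OnePoint.coe_ne_infty _⟩
  obtain ⟨g, h1, h2, -⟩ := exists_smul_std huv huw hvw
  have hdet : (g : Matrix (Fin 2) (Fin 2) K).det ≠ 0 := g.det_ne_zero
  have hd' := inv_ne_zero hdet
  refine ⟨MulAction.toPerm (g * affGL _ 0 hd'), toPerm_mem_PSL (e := 1) ?_, ?_, ?_⟩
  · rw [Matrix.GeneralLinearGroup.coe_mul, Matrix.det_mul]
    have : (affGL _ 0 hd' : Matrix (Fin 2) (Fin 2) K).det =
        (g : Matrix (Fin 2) (Fin 2) K).det⁻¹ := by
      change (!![(g : Matrix (Fin 2) (Fin 2) K).det⁻¹, 0; 0, 1] : Matrix _ _ K).det = _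
      rw [Matrix.det_fin_two_of]
      ring
    rw [this, mul_inv_cancel₀ hdet, one_pow]
  · rw [MulAction.toPerm_apply, mul_smul, affGL_infty, h1]
  · rw [MulAction.toPerm_apply, mul_smul, affGL_coe, mul_zero, zero_add, h2]

theorem PSL_le_PGammaL : PSL K ≤ PGammaL K := by
  rintro π ⟨g, -, h⟩
  refine ⟨g, RingEquiv.refl K, fun x => ?_⟩
  rw [h]
  congr 1
  cases x <;> rfl

theorem two_trans_of_PSL_le {G : Subgroup (Equiv.Perm (OnePoint K))} (hG : PSL K ≤ G) :
    IsMultiplyPretransitive G (OnePoint K) 2 := by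
  rw [is_two_pretransitive_iff]
  intro a b c d hab hcd
  obtain ⟨π, hπ, h1, h2⟩ := PSL_two_trans hab
  obtain ⟨ρ, hρ, h3, h4⟩ := PSL_two_trans hcd
  refine ⟨⟨ρ * π⁻¹, G.mul_mem (hG hρ) (G.inv_mem (hG hπ))⟩, ?_, ?_⟩
  · change ρ (π⁻¹ a) = c
    rw [← h1, show π⁻¹ (π ∞) = ∞ from π.symm_apply_apply _, h3]
  · change ρ (π⁻¹ b) = d
    rw [← h2, show π⁻¹ (π ((0 : K) : OnePoint K)) = ((0 : K) : OnePoint K) from
      π.symm_apply_apply _, h4]

end Field

section Finite

variable {K : Type*} [Field K] [Finite K] [DecidableEq K]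

omit [DecidableEq K] in
/-- Every element of a finite field is a sum of two squares. -/
theorem sum_two_squares (x : K) : ∃ a b : K, a ^ 2 + b ^ 2 = x := by
  have := Fintype.ofFinite K
  by_cases h2 : ringChar K = 2
  · obtain ⟨a, ha⟩ := FiniteField.isSquare_of_char_two h2 x
    exact ⟨a, 0, by rw [ha]; ring⟩
  · obtain ⟨a, b, hab⟩ := FiniteField.exists_root_sum_quadratic
      (f := (Polynomial.X ^ 2 : Polynomial K)) (g := Polynomial.X ^ 2 - Polynomial.C x)
      (Polynomial.degree_X_pow 2) (Polynomial.degree_X_pow_sub_C (by norm_num) _)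
      (FiniteField.odd_card_of_char_ne_two h2)
    refine ⟨a, b, ?_⟩
    rw [Polynomial.eval_pow, Polynomial.eval_X, Polynomial.eval_sub, Polynomial.eval_pow,
      Polynomial.eval_X, Polynomial.eval_C] at hab
    linear_combination hab

/-- A group containing `PSL(2, K)` is `2`-primitive. -/
theorem tprimitive_of_PSL_le {G : Subgroup (Equiv.Perm (OnePoint K))} (hG : PSL K ≤ G) :
    IsMultiplyPreprimitive G (OnePoint K) 2 := by
  classical
  have := Fintype.ofFinite K
  have hfinite : Finite (OnePoint K) := inferInstanceAs (Finite (Option K))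
  have h2 := two_trans_of_PSL_le hG
  have htr : IsPretransitive G (OnePoint K) := isPretransitive_of_is_two_pretransitive
  rw [isMultiplyPreprimitive_iff]
  refine ⟨h2, fun {s} hs => ?_⟩
  have hs1 : s.encard = 1 := by
    have h1 : s.encard + 1 = (1 : ℕ∞) + 1 := by rw [hs]; rfl
    exact ENat.add_left_injective_of_ne_top ENat.one_ne_top h1
  obtain ⟨u, rfl⟩ := Set.encard_eq_one.1 hs1
  obtain ⟨g, hg⟩ := exists_smul_eq G (∞ : OnePoint K) u
  have h3 : ({u} : Set (OnePoint K)) = g • ({∞} : Set (OnePoint K)) := by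
    rw [Set.smul_set_singleton, hg]
  rw [h3, ← isPreprimitive_ofFixingSubgroup_conj_iff]
  have hnc : ({∞} : Set (OnePoint K)).ncard + 1 = 2 := by rw [Set.ncard_singleton]
  have h1 : IsMultiplyPretransitive (fixingSubgroup G ({∞} : Set (OnePoint K)))
      (SubMulAction.ofFixingSubgroup G ({∞} : Set (OnePoint K))) 1 :=
    SubMulAction.ofFixingSubgroup.isMultiplyPretransitive (G := G) _ hnc
  rw [is_one_pretransitive_iff] at h1
  have hmem : ∀ x : K, (x : OnePoint K) ∈
      SubMulAction.ofFixingSubgroup G ({∞} : Set (OnePoint K)) := by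
    intro x
    rw [SubMulAction.mem_ofFixingSubgroup_iff]
    exact OnePoint.coe_ne_infty x
  let ι : K → SubMulAction.ofFixingSubgroup G ({∞} : Set (OnePoint K)) :=
    fun x => ⟨(x : OnePoint K), hmem x⟩
  have hι : ∀ y : SubMulAction.ofFixingSubgroup G ({∞} : Set (OnePoint K)), ∃ x, ι x = y := by
    rintro ⟨y, hy⟩
    rw [SubMulAction.mem_ofFixingSubgroup_iff] at hy
    obtain ⟨x, hx⟩ := OnePoint.ne_infty_iff_exists.1 hy
    exact ⟨x, Subtype.ext hx⟩
  apply isPreprimitive_of_rel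
  intro r hr hG'
  -- affine maps in the group
  have haff : ∀ a b : K, a ≠ 0 → ∀ x y : K, r (ι x) (ι y) →
      r (ι (a ^ 2 * x + b)) (ι (a ^ 2 * y + b)) := by
    intro a b ha x y hxy
    have hd : a ^ 2 * 1 - b * 0 ≠ 0 := by simpa using ha
    have hmemG := hG (mk2_mem_PSL (a := a ^ 2) (b := b) (c := 0) (d := 1) (e := a) hd (by ring))
    have hfix : (MulAction.toPerm (mk2 (a ^ 2) b 0 1 hd) : Equiv.Perm (OnePoint K)) ∞ = ∞ := by
      rw [MulAction.toPerm_apply, mk2_infty, if_pos rfl]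
    have hval : ∀ z : K, (MulAction.toPerm (mk2 (a ^ 2) b 0 1 hd) : Equiv.Perm (OnePoint K))
        (z : OnePoint K) = ((a ^ 2 * z + b : K) : OnePoint K) := by
      intro z
      rw [MulAction.toPerm_apply, mk2_coe, zero_mul, zero_add, if_neg one_ne_zero, div_one]
    let τ : fixingSubgroup G ({∞} : Set (OnePoint K)) := ⟨⟨_, hmemG⟩, by
      rw [mem_fixingSubgroup_iff]
      rintro y rfl
      exact hfix⟩
    have e1 : ∀ z : K, τ • ι z = ι (a ^ 2 * z + b) := fun z => Subtype.ext (hval z)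
    have := hG' τ _ _ hxy
    rwa [e1, e1] at this
  have hadd : ∀ b x y : K, r (ι x) (ι y) → r (ι (x + b)) (ι (y + b)) := by
    intro b x y hxy
    have := haff 1 b one_ne_zero x y hxy
    rwa [one_pow, one_mul, one_mul] at this
  by_cases hne : ∃ x y : K, r (ι x) (ι y) ∧ x ≠ y
  · right
    obtain ⟨x, y, hxy, hne⟩ := hne
    set d := y - x with hd
    have hd0 : d ≠ 0 := sub_ne_zero.2 (Ne.symm hne)
    have h0d : r (ι 0) (ι d) := by
      have := hadd (-x) x y hxy
      rwa [add_neg_cancel, ← sub_eq_add_neg] at this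
    have hsum : ∀ z w : K, r (ι 0) (ι z) → r (ι 0) (ι w) → r (ι 0) (ι (z + w)) := by
      intro z w hz hw
      have := hadd w 0 z hz
      rw [zero_add] at this
      exact hr.trans hw this
    have hall : ∀ z : K, r (ι 0) (ι z) := by
      intro z
      obtain ⟨a, b, hab⟩ := sum_two_squares (d⁻¹ * z)
      have hz : z = a ^ 2 * d + b ^ 2 * d := by
        rw [← add_mul, hab]
        field_simp
      have hsq : ∀ a : K, r (ι 0) (ι (a ^ 2 * d)) := by
        intro a
        by_cases ha : a = 0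
        · rw [ha]
          simp only [ne_eq, OfNat.ofNat_ne_zero, not_false_eq_true, zero_pow, zero_mul]
          exact hr.refl _
        · have := haff a 0 ha 0 d h0d
          rwa [mul_zero, add_zero, add_zero] at this
      rw [hz]
      exact hsum _ _ (hsq a) (hsq b)
    intro x y
    obtain ⟨x, rfl⟩ := hι x
    obtain ⟨y, rfl⟩ := hι y
    exact hr.trans (hr.symm (hall x)) (hall y)
  · left
    intro x y hxy
    obtain ⟨x, rfl⟩ := hι x
    obtain ⟨y, rfl⟩ := hι y
    by_contra h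
    exact hne ⟨x, y, hxy, fun h' => h (by rw [h'])⟩

end Finite

end Pool.Agent.Helper37.Prim
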