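import Pool.Agent.Helper37.Prim.Proj2Pos

/-!
# Three generalisations of primitivity (MP_13dc8a_al): the groups containing `PSL(2, K)` which are
not `2`-set primitive
-/

namespace Pool.Agent.Helper37.Prim

open Matrix OnePoint MulAction
open scoped Pointwise

section Criterion

variable {G X : Type*} [Group G] [MulAction G X] [DecidableEq X] [Finite X]

theorem not_tsetprimitive_of_sigma (S : Set (Finset X)) {p₀ : Finset X} (hp₀ : p₀.card = 2)
    (hS : p₀ ∈ S) (hstab : ∀ g : G, g • p₀ = p₀ → ∀ p ∈ S, g • p ∈ S) (g₁ : G)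
    (hg₁ : ∀ p ∈ S, g₁ • p ∈ S) (hne : g₁ • p₀ ≠ p₀) {q : Finset X} (hq : q.card = 2)
    (hqS : q ∉ S) : ¬ IsPreprimitive G (Set.powersetCard X 2) := by
  intro hprim
  have hfix : ∀ g : G, (∀ p ∈ S, g • p ∈ S) → g • S = S := by
    intro g hg
    apply Set.eq_of_subset_of_ncard_le
    · rintro _ ⟨p, hp, rfl⟩
      exact hg p hp
    · rw [Set.ncard_smul_set]
    · exact Set.toFinite _
  let H : Subgroup G := stabilizer G S
  have hH : stabilizer G (⟨p₀, hp₀⟩ : Set.powersetCard X 2) ≤ H := by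
    intro g hg
    rw [mem_stabilizer_iff] at hg ⊢
    exact hfix g (hstab g (congrArg Subtype.val hg))
  have hmem : ∀ y ∈ orbit H (⟨p₀, hp₀⟩ : Set.powersetCard X 2), (y : Finset X) ∈ S := by
    rintro y ⟨⟨h, hh⟩, rfl⟩
    have h1 : h • S = S := hh
    change h • p₀ ∈ S
    rw [← h1]
    exact Set.smul_mem_smul_set hS
  rcases (IsBlock.of_orbit hH).subsingleton_or_eq_univ with h1 | h1
  · have h2 : (⟨g₁, hfix g₁ hg₁⟩ : H) • (⟨p₀, hp₀⟩ : Set.powersetCard X 2) = ⟨p₀, hp₀⟩ :=
      h1 (mem_orbit _ _) (mem_orbit_self _)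
    exact hne (congrArg Subtype.val h2)
  · have h2 : (⟨q, hq⟩ : Set.powersetCard X 2) ∈ orbit H (⟨p₀, hp₀⟩ : Set.powersetCard X 2) := by
      rw [h1]; exact Set.mem_univ _
    exact hqS (hmem _ h2)

end Criterion

section Stab

variable {K : Type*} [Field K] [DecidableEq K] [DecidableEq (OnePoint K)]

/-- The permutations of `PΓL(2, K)` which leave `{∞, 0}` invariant. -/
theorem stab_pair {π : Equiv.Perm (OnePoint K)} {g : GL (Fin 2) K} {σ : K ≃+* K}
    (hπ : ∀ x, π x = g • OnePoint.map σ x)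
    (h : ({π ∞, π ((0 : K) : OnePoint K)} : Finset (OnePoint K)) = {∞, ((0 : K) : OnePoint K)}) :
    ∃ e : K, e ≠ 0 ∧
      ((π ∞ = ∞ ∧ π ((0 : K) : OnePoint K) = ((0 : K) : OnePoint K) ∧
        ∀ x : K, π (x : OnePoint K) =
          (((g : Matrix (Fin 2) (Fin 2) K).det * e ^ 2 * σ x : K) : OnePoint K)) ∨
       (π ∞ = ((0 : K) : OnePoint K) ∧ π ((0 : K) : OnePoint K) = ∞ ∧
        ∀ x : K, x ≠ 0 → π (x : OnePoint K) =
          ((-(g : Matrix (Fin 2) (Fin 2) K).det * e ^ 2 / σ x : K) : OnePoint K))) := by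
  have e0 : OnePoint.map σ (∞ : OnePoint K) = ∞ := rfl
  have e1 : ∀ x : K, OnePoint.map σ (x : OnePoint K) = ((σ x : K) : OnePoint K) := fun _ => rfl
  have hinf0 : (∞ : OnePoint K) ≠ ((0 : K) : OnePoint K) := (OnePoint.coe_ne_infty 0).symm
  have hne : π ∞ ≠ π ((0 : K) : OnePoint K) := fun h0 => hinf0 (π.injective h0)
  have hdet := g.det_ne_zero
  rw [Matrix.det_fin_two] at hdet ⊢
  have h1 : π ∞ = ∞ ∨ π ∞ = ((0 : K) : OnePoint K) := by
    have : π ∞ ∈ ({∞, ((0 : K) : OnePoint K)} : Finset (OnePoint K)) := by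
      rw [← h]; exact Finset.mem_insert_self _ _
    simpa using this
  have h2 : π ((0 : K) : OnePoint K) = ∞ ∨ π ((0 : K) : OnePoint K) = ((0 : K) : OnePoint K) := by
    have : π ((0 : K) : OnePoint K) ∈ ({∞, ((0 : K) : OnePoint K)} : Finset (OnePoint K)) := by
      rw [← h]; exact Finset.mem_insert_of_mem (Finset.mem_singleton_self _)
    simpa using this
  rcases h1 with h1 | h1
  · have h2' : π ((0 : K) : OnePoint K) = ((0 : K) : OnePoint K) := by
      rcases h2 with h2 | h2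
      · exact absurd (h1.trans h2.symm) hne
      · exact h2
    have hc : g 1 0 = 0 := by
      have h3 := h1
      rw [hπ, e0, smul_infty_eq_ite] at h3
      by_contra h0
      rw [if_neg h0] at h3
      exact OnePoint.coe_ne_infty _ h3
    rw [hc, mul_zero, sub_zero] at hdet
    have hd : g 1 1 ≠ 0 := right_ne_zero_of_mul hdet
    have hb : g 0 1 = 0 := by
      have h3 := h2'
      rw [hπ, e1, map_zero, smul_some_eq_ite, hc, zero_mul, zero_add, if_neg hd, mul_zero,
        zero_add, OnePoint.coe_eq_coe, div_eq_zero_iff] at h3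
      tauto
    refine ⟨(g 1 1)⁻¹, inv_ne_zero hd, Or.inl ⟨h1, h2', fun x => ?_⟩⟩
    rw [hπ, e1, smul_some_eq_ite, hc, zero_mul, zero_add, if_neg hd, hb, add_zero]
    congr 1
    field_simp
    ring
  · have h2' : π ((0 : K) : OnePoint K) = ∞ := by
      rcases h2 with h2 | h2
      · exact h2
      · exact absurd (h1.trans h2.symm) hne
    have hc : g 1 0 ≠ 0 := by
      have h3 := h1
      rw [hπ, e0, smul_infty_eq_ite] at h3
      intro h0
      rw [if_pos h0] at h3
      exact hinf0 h3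
    have ha : g 0 0 = 0 := by
      have h3 := h1
      rw [hπ, e0, smul_infty_eq_ite, if_neg hc, OnePoint.coe_eq_coe, div_eq_zero_iff] at h3
      tauto
    have hd : g 1 1 = 0 := by
      have h3 := h2'
      rw [hπ, e1, map_zero, smul_some_eq_ite, mul_zero, zero_add] at h3
      by_contra h0
      rw [if_neg h0] at h3
      exact OnePoint.coe_ne_infty _ h3
    refine ⟨(g 1 0)⁻¹, inv_ne_zero hc, Or.inr ⟨h1, h2', fun x hx => ?_⟩⟩
    have hσx : σ x ≠ 0 := (map_ne_zero σ).2 hx
    rw [hπ, e1, smul_some_eq_ite, hd, add_zero, if_neg (mul_ne_zero hc hσx), ha, zero_mul,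
      zero_add]
    congr 1
    field_simp
    ring

/-- The set of pairs `{∞, 0}` and `{x, c x}`, `x ^ m = 1`. -/
def Sig (c : K) (m : ℕ) : Set (Finset (OnePoint K)) :=
  {p | p = {∞, ((0 : K) : OnePoint K)} ∨
    ∃ x : K, x ^ m = 1 ∧ p = {(x : OnePoint K), ((c * x : K) : OnePoint K)}}

variable {G : Subgroup (Equiv.Perm (OnePoint K))}

omit [Field K] [DecidableEq K] in
theorem smul_pair (g : G) (a b : OnePoint K) :
    g • ({a, b} : Finset (OnePoint K)) =
      {(g : Equiv.Perm (OnePoint K)) a, (g : Equiv.Perm (OnePoint K)) b} := by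
  rw [Finset.smul_finset_insert, Finset.smul_finset_singleton]
  rfl

omit [DecidableEq K] in
/-- The general criterion for the sets `Sig c m`. -/
theorem not_tsetprimitive_of_Sig [Finite K] {c : K} {m : ℕ} (hm : m ≠ 0) (hc0 : c ≠ 0)
    (hstab : ∀ π ∈ G, ({π ∞, π ((0 : K) : OnePoint K)} : Finset (OnePoint K)) =
      {∞, ((0 : K) : OnePoint K)} → ∃ (a : K) (σ : K ≃+* K), a ≠ 0 ∧ σ c = c ∧
      ((a ^ m = 1 ∧ π ∞ = ∞ ∧ π ((0 : K) : OnePoint K) = ((0 : K) : OnePoint K) ∧
        ∀ x : K, π (x : OnePoint K) = ((a * σ x : K) : OnePoint K)) ∨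
       (a ^ m = c ^ m ∧ π ∞ = ((0 : K) : OnePoint K) ∧ π ((0 : K) : OnePoint K) = ∞ ∧
        ∀ x : K, x ≠ 0 → π (x : OnePoint K) = ((a / σ x : K) : OnePoint K))))
    {π₁ : Equiv.Perm (OnePoint K)} (hπ₁ : π₁ ∈ G)
    (h0 : ({π₁ ∞, π₁ ((0 : K) : OnePoint K)} : Finset (OnePoint K)) ∈ Sig c m)
    (h0' : ({π₁ ∞, π₁ ((0 : K) : OnePoint K)} : Finset (OnePoint K)) ≠
      {∞, ((0 : K) : OnePoint K)})
    (h1 : ∀ x : K, x ^ m = 1 → ({π₁ (x : OnePoint K), π₁ ((c * x : K) : OnePoint K)} :
      Finset (OnePoint K)) ∈ Sig c m) :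
    ¬ IsPreprimitive G (Set.powersetCard (OnePoint K) 2) := by
  have hinf0 : (∞ : OnePoint K) ≠ ((0 : K) : OnePoint K) := (OnePoint.coe_ne_infty 0).symm
  have hinf1 : (∞ : OnePoint K) ≠ ((1 : K) : OnePoint K) := (OnePoint.coe_ne_infty 1).symm
  have hfinite : Finite (OnePoint K) := inferInstanceAs (Finite (Option K))
  have hx0 : ∀ x : K, x ^ m = 1 → x ≠ 0 := by
    rintro x hx rfl
    rw [zero_pow hm] at hx
    exact zero_ne_one hx
  apply not_tsetprimitive_of_sigma (G := G) (X := OnePoint K) (Sig c m)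
    (p₀ := {∞, ((0 : K) : OnePoint K)}) (Finset.card_pair hinf0) (Or.inl rfl) ?_
    ⟨π₁, hπ₁⟩ ?_ ?_ (q := {∞, ((1 : K) : OnePoint K)}) (Finset.card_pair hinf1) ?_
  · intro g hg p hp
    rw [smul_pair] at hg
    obtain ⟨a, σ, ha, hσc, h2 | h2⟩ := hstab g g.2 hg
    · obtain ⟨ham, h3, h4, h5⟩ := h2
      rcases hp with rfl | ⟨x, hx, rfl⟩
      · rw [smul_pair, hg]
        exact Or.inl rfl
      · rw [smul_pair, h5, h5]
        refine Or.inr ⟨a * σ x, ?_, ?_⟩
        · rw [mul_pow, ham, ← map_pow, hx, map_one, one_mul]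
        · rw [map_mul, hσc, mul_left_comm]
    · obtain ⟨ham, h3, h4, h5⟩ := h2
      rcases hp with rfl | ⟨x, hx, rfl⟩
      · rw [smul_pair, hg]
        exact Or.inl rfl
      · have hx0' := hx0 x hx
        have hσx : σ x ≠ 0 := (map_ne_zero σ).2 hx0'
        rw [smul_pair, h5 _ hx0', h5 _ (mul_ne_zero hc0 hx0'), Finset.pair_comm]
        refine Or.inr ⟨a / σ (c * x), ?_, ?_⟩
        · rw [map_mul, hσc, div_pow, mul_pow, ham, ← map_pow, hx, map_one, mul_one,
            div_self (pow_ne_zero _ hc0)]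
        · congr 3
          rw [map_mul, hσc]
          field_simp
  · rintro p (rfl | ⟨x, hx, rfl⟩)
    · rw [smul_pair]
      exact h0
    · rw [smul_pair]
      exact h1 x hx
  · rw [smul_pair]
    exact h0'
  · rintro (h2 | ⟨x, -, h2⟩)
    · have h3 : ((1 : K) : OnePoint K) ∈ ({∞, ((0 : K) : OnePoint K)} : Finset (OnePoint K)) := by
        rw [← h2]; exact Finset.mem_insert_of_mem (Finset.mem_singleton_self _)
      rw [Finset.mem_insert, Finset.mem_singleton] at h3
      rcases h3 with h3 | h3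
      · exact OnePoint.coe_ne_infty _ h3
      · exact one_ne_zero (OnePoint.coe_eq_coe.1 h3)
    · have h3 : (∞ : OnePoint K) ∈ ({(x : OnePoint K), ((c * x : K) : OnePoint K)} :
          Finset (OnePoint K)) := by
        rw [← h2]; exact Finset.mem_insert_self _ _
      rw [Finset.mem_insert, Finset.mem_singleton] at h3
      rcases h3 with h3 | h3
      · exact OnePoint.coe_ne_infty _ h3.symm
      · exact OnePoint.coe_ne_infty _ h3.symm

end Stab

section Cases

variable {K : Type*} [Field K] [Finite K] [DecidableEq K] [DecidableEq (OnePoint K)]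
  {G : Subgroup (Equiv.Perm (OnePoint K))}

omit [Finite K] [DecidableEq (OnePoint K)] in
theorem mk2_eq {a b c d y z : K} (h : a * d - b * c ≠ 0) (h1 : c * y + d ≠ 0)
    (h2 : a * y + b = z * (c * y + d)) : mk2 a b c d h • (y : OnePoint K) = (z : OnePoint K) := by
  rw [mk2_coe, if_neg h1, OnePoint.coe_eq_coe, h2, mul_div_cancel_right₀ _ h1]

omit [Finite K] [DecidableEq (OnePoint K)] in
theorem mk2_inf {a b c d y : K} (h : a * d - b * c ≠ 0) (h1 : c * y + d = 0) :
    mk2 a b c d h • (y : OnePoint K) = ∞ := by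
  rw [mk2_coe, if_pos h1]

/-- Degree `6` and degree `10`. -/
theorem not_tset_four (hG : PSL K ≤ G) {i : K} (hi : i ^ 2 = -1) (h2 : (2 : K) ≠ 0)
    (hstab : ∀ π ∈ G, ({π ∞, π ((0 : K) : OnePoint K)} : Finset (OnePoint K)) =
      {∞, ((0 : K) : OnePoint K)} → ∃ (a : K) (σ : K ≃+* K), a ≠ 0 ∧ a ^ 4 = 1 ∧
      ((π ∞ = ∞ ∧ π ((0 : K) : OnePoint K) = ((0 : K) : OnePoint K) ∧
        ∀ x : K, π (x : OnePoint K) = ((a * σ x : K) : OnePoint K)) ∨
       (π ∞ = ((0 : K) : OnePoint K) ∧ π ((0 : K) : OnePoint K) = ∞ ∧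
        ∀ x : K, x ≠ 0 → π (x : OnePoint K) = ((a / σ x : K) : OnePoint K)))) :
    ¬ IsPreprimitive G (Set.powersetCard (OnePoint K) 2) := by
  have hi0 : i ≠ 0 := by
    rintro rfl
    rw [zero_pow two_ne_zero] at hi
    exact one_ne_zero (neg_eq_zero.1 hi.symm)
  have hi4 : i ^ 4 = 1 := by linear_combination (i ^ 2 - 1) * hi
  have hd : (-i) * 1 - 1 * i ≠ 0 := by
    intro h0
    have h3 : (-2) * i = 0 := by linear_combination h0
    rcases mul_eq_zero.1 h3 with h4 | h4
    · exact h2 (by linear_combination -h4)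
    · exact hi0 h4
  have hmem := hG (mk2_mem_PSL (a := -i) (b := 1) (c := i) (d := 1) (e := 1 - i) hd (by
    linear_combination -hi))
  have hne1 : (1 : K) + i ≠ 0 := by
    intro h0
    apply h2
    linear_combination (1 - i) * h0 + hi
  have hne2 : (1 : K) - i ≠ 0 := by
    intro h0
    apply h2
    linear_combination (1 + i) * h0 + hi
  have v0 : mk2 (-i) 1 i 1 hd • ((0 : K) : OnePoint K) = ((1 : K) : OnePoint K) :=
    mk2_eq hd (by simp) (by ring)
  have vinf : mk2 (-i) 1 i 1 hd • (∞ : OnePoint K) = ((-1 : K) : OnePoint K) := by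
    rw [mk2_infty, if_neg hi0, neg_div, div_self hi0]
  have v1 : mk2 (-i) 1 i 1 hd • ((1 : K) : OnePoint K) = ((-i : K) : OnePoint K) :=
    mk2_eq hd (by intro h0; apply hne1; linear_combination h0) (by linear_combination hi)
  have vm1 : mk2 (-i) 1 i 1 hd • ((-1 : K) : OnePoint K) = ((i : K) : OnePoint K) :=
    mk2_eq hd (by intro h0; apply hne2; linear_combination h0) (by linear_combination hi)
  have vi : mk2 (-i) 1 i 1 hd • ((i : K) : OnePoint K) = ∞ :=
    mk2_inf hd (by linear_combination hi)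
  have vmi : mk2 (-i) 1 i 1 hd • ((-i : K) : OnePoint K) = ((0 : K) : OnePoint K) :=
    mk2_eq hd (by intro h0; apply h2; linear_combination h0 + hi) (by linear_combination hi)
  apply not_tsetprimitive_of_Sig (c := -1) (m := 4) (by norm_num) (neg_ne_zero.2 one_ne_zero)
    ?_ hmem ?_ ?_ ?_
  · intro π hπ h
    obtain ⟨a, σ, ha, ha4, h3 | h3⟩ := hstab π hπ h
    · exact ⟨a, σ, ha, by rw [map_neg, map_one], Or.inl ⟨ha4, h3⟩⟩
    · exact ⟨a, σ, ha, by rw [map_neg, map_one], Or.inr ⟨by rw [ha4]; norm_num, h3⟩⟩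
  · rw [MulAction.toPerm_apply, MulAction.toPerm_apply, v0, vinf, Finset.pair_comm]
    exact Or.inr ⟨1, by norm_num, by rw [mul_one]⟩
  · rw [MulAction.toPerm_apply, MulAction.toPerm_apply, v0, vinf]
    intro h0
    have h3 : (∞ : OnePoint K) ∈ ({((-1 : K) : OnePoint K), ((1 : K) : OnePoint K)} :
        Finset (OnePoint K)) := by
      rw [h0]; exact Finset.mem_insert_self _ _
    rw [Finset.mem_insert, Finset.mem_singleton] at h3
    rcases h3 with h3 | h3
    · exact OnePoint.coe_ne_infty _ h3.symm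
    · exact OnePoint.coe_ne_infty _ h3.symm
  · intro x hx
    have h3 : (x - 1) * (x + 1) * ((x - i) * (x + i)) = 0 := by
      linear_combination hx - (x ^ 2 - 1) * hi
    rw [MulAction.toPerm_apply, MulAction.toPerm_apply]
    rcases mul_eq_zero.1 h3 with h4 | h4
    · rcases mul_eq_zero.1 h4 with h5 | h5
      · have hx1 : x = 1 := by linear_combination h5
        rw [hx1, mul_one, v1, vm1, Finset.pair_comm]
        exact Or.inr ⟨i, hi4, by rw [neg_one_mul]⟩
      · have hx1 : x = -1 := by linear_combination h5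
        have e1 : (-1 : K) * -1 = 1 := by ring
        rw [hx1, e1, v1, vm1]
        exact Or.inr ⟨i, hi4, by rw [neg_one_mul]⟩
    · rcases mul_eq_zero.1 h4 with h5 | h5
      · have hx1 : x = i := by linear_combination h5
        rw [hx1, neg_one_mul, vi, vmi]
        exact Or.inl rfl
      · have hx1 : x = -i := by linear_combination h5
        have e1 : (-1 : K) * -i = i := by ring
        rw [hx1, e1, vi, vmi, Finset.pair_comm]
        exact Or.inl rfl

/-- Degree `8`. -/
theorem not_tset_seven (hG : PSL K ≤ G) (h7 : (7 : K) = 0)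
    (hstab : ∀ π ∈ G, ({π ∞, π ((0 : K) : OnePoint K)} : Finset (OnePoint K)) =
      {∞, ((0 : K) : OnePoint K)} → ∃ a : K, a ≠ 0 ∧
      ((a ^ 3 = 1 ∧ π ∞ = ∞ ∧ π ((0 : K) : OnePoint K) = ((0 : K) : OnePoint K) ∧
        ∀ x : K, π (x : OnePoint K) = ((a * x : K) : OnePoint K)) ∨
       (a ^ 3 = -1 ∧ π ∞ = ((0 : K) : OnePoint K) ∧ π ((0 : K) : OnePoint K) = ∞ ∧
        ∀ x : K, x ≠ 0 → π (x : OnePoint K) = ((a / x : K) : OnePoint K)))) :
    ¬ IsPreprimitive G (Set.powersetCard (OnePoint K) 2) := by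
  have nz : ∀ a b : K, a * b = 1 → a ≠ 0 := by
    rintro a b h rfl
    rw [zero_mul] at h
    exact zero_ne_one h
  have hd : (3 : K) * 1 - 1 * 1 ≠ 0 := nz _ 4 (by linear_combination h7)
  have hmem := hG (mk2_mem_PSL (a := 3) (b := 1) (c := 1) (d := 1) (e := 3) hd (by
    linear_combination -h7))
  have v0 : mk2 3 1 1 1 hd • ((0 : K) : OnePoint K) = ((1 : K) : OnePoint K) :=
    mk2_eq hd (by simp) (by ring)
  have vinf : mk2 3 1 1 1 hd • (∞ : OnePoint K) = ((3 : K) : OnePoint K) := by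
    rw [mk2_infty, if_neg one_ne_zero, div_one]
  have v1 : mk2 3 1 1 1 hd • ((1 : K) : OnePoint K) = ((2 : K) : OnePoint K) :=
    mk2_eq hd (nz _ 4 (by linear_combination h7)) (by ring)
  have v3 : mk2 3 1 1 1 hd • ((3 : K) : OnePoint K) = ((6 : K) : OnePoint K) :=
    mk2_eq hd (nz _ 2 (by linear_combination h7)) (by linear_combination -2 * h7)
  have v2 : mk2 3 1 1 1 hd • ((2 : K) : OnePoint K) = ((0 : K) : OnePoint K) :=
    mk2_eq hd (nz _ 5 (by linear_combination 2 * h7)) (by linear_combination h7)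
  have v6 : mk2 3 1 1 1 hd • ((6 : K) : OnePoint K) = ∞ :=
    mk2_inf hd (by linear_combination h7)
  have v4 : mk2 3 1 1 1 hd • ((4 : K) : OnePoint K) = ((4 : K) : OnePoint K) :=
    mk2_eq hd (nz _ 3 (by linear_combination 2 * h7)) (by linear_combination -h7)
  have v12 : mk2 3 1 1 1 hd • ((12 : K) : OnePoint K) = ((12 : K) : OnePoint K) :=
    mk2_eq hd (nz _ 6 (by linear_combination 11 * h7)) (by linear_combination -17 * h7)
  have v6' : mk2 3 1 1 1 hd • ((3 * 2 : K) : OnePoint K) = ∞ := by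
    have : (3 * 2 : K) = 6 := by norm_num
    rw [this, v6]
  apply not_tsetprimitive_of_Sig (c := 3) (m := 3) (by norm_num)
    (nz _ 5 (by linear_combination 2 * h7)) ?_ hmem ?_ ?_ ?_
  · intro π hπ h
    obtain ⟨a, ha, h3 | h3⟩ := hstab π hπ h
    · exact ⟨a, RingEquiv.refl K, ha, rfl, Or.inl h3⟩
    · refine ⟨a, RingEquiv.refl K, ha, rfl, Or.inr ⟨?_, h3.2⟩⟩
      rw [h3.1]
      linear_combination -4 * h7
  · rw [MulAction.toPerm_apply, MulAction.toPerm_apply, v0, vinf, Finset.pair_comm]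
    exact Or.inr ⟨1, by norm_num, by rw [mul_one]⟩
  · rw [MulAction.toPerm_apply, MulAction.toPerm_apply, v0, vinf]
    intro h0
    have h3 : (∞ : OnePoint K) ∈ ({((3 : K) : OnePoint K), ((1 : K) : OnePoint K)} :
        Finset (OnePoint K)) := by
      rw [h0]; exact Finset.mem_insert_self _ _
    rw [Finset.mem_insert, Finset.mem_singleton] at h3
    rcases h3 with h3 | h3
    · exact OnePoint.coe_ne_infty _ h3.symm
    · exact OnePoint.coe_ne_infty _ h3.symm
  · intro x hx
    have h3 : (x - 1) * ((x - 2) * (x - 4)) = 0 := by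
      linear_combination hx + (-x ^ 2 + 2 * x - 1) * h7
    rw [MulAction.toPerm_apply, MulAction.toPerm_apply]
    rcases mul_eq_zero.1 h3 with h4 | h4
    · have hx1 : x = 1 := by linear_combination h4
      rw [hx1, mul_one, v1, v3]
      exact Or.inr ⟨2, by linear_combination h7, by norm_num⟩
    · rcases mul_eq_zero.1 h4 with h5 | h5
      · have hx1 : x = 2 := by linear_combination h5
        rw [hx1, v2, v6', Finset.pair_comm]
        exact Or.inl rfl
      · have hx1 : x = 4 := by linear_combination h5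
        have e1 : (3 : K) * 4 = 12 := by norm_num
        rw [hx1, e1, v4, v12]
        exact Or.inr ⟨4, by linear_combination 9 * h7, by norm_num⟩

/-- Degree `12`. -/
theorem not_tset_eleven (hG : PSL K ≤ G) (h11 : (11 : K) = 0)
    (hstab : ∀ π ∈ G, ({π ∞, π ((0 : K) : OnePoint K)} : Finset (OnePoint K)) =
      {∞, ((0 : K) : OnePoint K)} → ∃ a : K, a ≠ 0 ∧
      ((a ^ 5 = 1 ∧ π ∞ = ∞ ∧ π ((0 : K) : OnePoint K) = ((0 : K) : OnePoint K) ∧
        ∀ x : K, π (x : OnePoint K) = ((a * x : K) : OnePoint K)) ∨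
       (a ^ 5 = -1 ∧ π ∞ = ((0 : K) : OnePoint K) ∧ π ((0 : K) : OnePoint K) = ∞ ∧
        ∀ x : K, x ≠ 0 → π (x : OnePoint K) = ((a / x : K) : OnePoint K)))) :
    ¬ IsPreprimitive G (Set.powersetCard (OnePoint K) 2) := by
  have nz : ∀ a b : K, a * b = 1 → a ≠ 0 := by
    rintro a b h rfl
    rw [zero_mul] at h
    exact zero_ne_one h
  have hd : (2 : K) * 1 - 1 * 1 ≠ 0 := nz _ 1 (by ring)
  have hmem := hG (mk2_mem_PSL (a := 2) (b := 1) (c := 1) (d := 1) (e := 1) hd (by ring))
  have v0 : mk2 2 1 1 1 hd • ((0 : K) : OnePoint K) = ((1 : K) : OnePoint K) :=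
    mk2_eq hd (by simp) (by ring)
  have vinf : mk2 2 1 1 1 hd • (∞ : OnePoint K) = ((2 : K) : OnePoint K) := by
    rw [mk2_infty, if_neg one_ne_zero, div_one]
  have v1 : mk2 2 1 1 1 hd • ((1 : K) : OnePoint K) = ((2 * 9 : K) : OnePoint K) :=
    mk2_eq hd (nz _ 6 (by linear_combination h11)) (by linear_combination -3 * h11)
  have v2 : mk2 2 1 1 1 hd • ((2 : K) : OnePoint K) = ((9 : K) : OnePoint K) :=
    mk2_eq hd (nz _ 4 (by linear_combination h11)) (by linear_combination -2 * h11)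
  have v3 : mk2 2 1 1 1 hd • ((3 : K) : OnePoint K) = ((2 * 5 : K) : OnePoint K) :=
    mk2_eq hd (nz _ 3 (by linear_combination h11)) (by linear_combination -3 * h11)
  have v6 : mk2 2 1 1 1 hd • ((2 * 3 : K) : OnePoint K) = ((5 : K) : OnePoint K) :=
    mk2_eq hd (nz _ 8 (by linear_combination 5 * h11)) (by linear_combination -2 * h11)
  have v4 : mk2 2 1 1 1 hd • ((4 : K) : OnePoint K) = ((4 : K) : OnePoint K) :=
    mk2_eq hd (nz _ 9 (by linear_combination 4 * h11)) (by linear_combination -h11)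
  have v8 : mk2 2 1 1 1 hd • ((2 * 4 : K) : OnePoint K) = ((2 * 4 : K) : OnePoint K) :=
    mk2_eq hd (nz _ 5 (by linear_combination 4 * h11)) (by linear_combination -5 * h11)
  have v5 : mk2 2 1 1 1 hd • ((5 : K) : OnePoint K) = ((0 : K) : OnePoint K) :=
    mk2_eq hd (nz _ 2 (by linear_combination h11)) (by linear_combination h11)
  have v10 : mk2 2 1 1 1 hd • ((2 * 5 : K) : OnePoint K) = ∞ :=
    mk2_inf hd (by linear_combination h11)
  have v9 : mk2 2 1 1 1 hd • ((9 : K) : OnePoint K) = ((3 : K) : OnePoint K) :=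
    mk2_eq hd (nz _ 10 (by linear_combination 9 * h11)) (by linear_combination -h11)
  have v18 : mk2 2 1 1 1 hd • ((2 * 9 : K) : OnePoint K) = ((2 * 3 : K) : OnePoint K) :=
    mk2_eq hd (nz _ 7 (by linear_combination 12 * h11)) (by linear_combination -7 * h11)
  apply not_tsetprimitive_of_Sig (c := 2) (m := 5) (by norm_num)
    (nz _ 6 (by linear_combination h11)) ?_ hmem ?_ ?_ ?_
  · intro π hπ h
    obtain ⟨a, ha, h3 | h3⟩ := hstab π hπ h
    · exact ⟨a, RingEquiv.refl K, ha, rfl, Or.inl h3⟩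
    · refine ⟨a, RingEquiv.refl K, ha, rfl, Or.inr ⟨?_, h3.2⟩⟩
      rw [h3.1]
      linear_combination -3 * h11
  · rw [MulAction.toPerm_apply, MulAction.toPerm_apply, v0, vinf, Finset.pair_comm]
    exact Or.inr ⟨1, by norm_num, by rw [mul_one]⟩
  · rw [MulAction.toPerm_apply, MulAction.toPerm_apply, v0, vinf]
    intro h0
    have h3 : (∞ : OnePoint K) ∈ ({((2 : K) : OnePoint K), ((1 : K) : OnePoint K)} :
        Finset (OnePoint K)) := by
      rw [h0]; exact Finset.mem_insert_self _ _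
    rw [Finset.mem_insert, Finset.mem_singleton] at h3
    rcases h3 with h3 | h3
    · exact OnePoint.coe_ne_infty _ h3.symm
    · exact OnePoint.coe_ne_infty _ h3.symm
  · intro x hx
    have h3 : (x - 1) * ((x - 3) * ((x - 4) * ((x - 5) * (x - 9)))) = 0 := by
      linear_combination hx + (-2 * x ^ 4 + 16 * x ^ 3 - 58 * x ^ 2 + 93 * x - 49) * h11
    rw [MulAction.toPerm_apply, MulAction.toPerm_apply]
    rcases mul_eq_zero.1 h3 with h4 | h4
    · have hx1 : x = 1 := by linear_combination h4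
      rw [hx1, mul_one, v1, v2, Finset.pair_comm]
      exact Or.inr ⟨9, by linear_combination 5368 * h11, rfl⟩
    rcases mul_eq_zero.1 h4 with h4 | h4
    · have hx1 : x = 3 := by linear_combination h4
      rw [hx1, v3, v6, Finset.pair_comm]
      exact Or.inr ⟨5, by linear_combination 284 * h11, rfl⟩
    rcases mul_eq_zero.1 h4 with h4 | h4
    · have hx1 : x = 4 := by linear_combination h4
      rw [hx1, v4, v8]
      exact Or.inr ⟨4, by linear_combination 93 * h11, rfl⟩
    rcases mul_eq_zero.1 h4 with h4 | h4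
    · have hx1 : x = 5 := by linear_combination h4
      rw [hx1, v5, v10, Finset.pair_comm]
      exact Or.inl rfl
    · have hx1 : x = 9 := by linear_combination h4
      rw [hx1, v9, v18]
      exact Or.inr ⟨3, by linear_combination 22 * h11, rfl⟩

/-- The groups of the list are not `2`-set primitive. -/
theorem not_tsetprimitive_of_excList (hG : PSL K ≤ G) (hG' : G ≤ PGammaL K)
    (hL : ExcList K G) : ¬ IsPreprimitive G (Set.powersetCard (OnePoint K) 2) := by
  have := Fintype.ofFinite K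
  have hfinite : Finite (OnePoint K) := inferInstanceAs (Finite (Option K))
  have hcardq : ∀ a : K, a ≠ 0 → a ^ (Fintype.card K - 1) = 1 := fun a ha =>
    FiniteField.pow_card_sub_one_eq_one a ha
  have hcast := FiniteField.cast_card_eq_zero K
  unfold ExcList at hL
  rw [Nat.card_eq_fintype_card] at hL
  rcases hL with hq | hq | ⟨hq, hGP⟩ | ⟨hq, hGP⟩ | ⟨hq, hGP⟩
  · apply not_tsetprimitive_half (le_refl 2)
    have h1 : Nat.card (OnePoint K) = Nat.card K + 1 := Finite.card_option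
    rw [h1, Nat.card_eq_fintype_card, hq]
  · rw [hq] at hcast hcardq
    have h5 : (5 : K) = 0 := by exact_mod_cast hcast
    have h2 : (2 : K) ≠ 0 := by
      intro h0
      have : (1 : K) = 0 := by linear_combination h5 - 2 * h0
      exact one_ne_zero this
    apply not_tset_four hG (i := 2) (by linear_combination h5) h2
    intro π hπ h
    obtain ⟨g, σ, hg⟩ := hG' hπ
    obtain ⟨e, he, h3 | h3⟩ := stab_pair hg h
    · have ha := mul_ne_zero g.det_ne_zero (pow_ne_zero 2 he)
      exact ⟨_, σ, ha, hcardq _ ha, Or.inl h3⟩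
    · have ha := mul_ne_zero (neg_ne_zero.2 g.det_ne_zero) (pow_ne_zero 2 he)
      exact ⟨_, σ, ha, hcardq _ ha, Or.inr h3⟩
  · rw [hq] at hcast hcardq
    have h7 : (7 : K) = 0 := by exact_mod_cast hcast
    apply not_tset_seven hG h7
    intro π hπ h
    obtain ⟨g, hdet, hg⟩ := hGP hπ
    obtain ⟨e, he, h3⟩ := stab_pair (σ := RingEquiv.refl K) (g := g) (π := π) (by
      intro x
      rw [hg]
      congr 1
      cases x <;> rfl) h
    rw [hdet, one_mul] at h3
    have he6 := hcardq e he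
    rcases h3 with h3 | h3
    · exact ⟨_, pow_ne_zero 2 he, Or.inl ⟨by linear_combination he6, h3⟩⟩
    · refine ⟨-1 * e ^ 2, mul_ne_zero (neg_ne_zero.2 one_ne_zero) (pow_ne_zero 2 he),
        Or.inr ⟨by linear_combination -he6, h3⟩⟩
  · rw [hq] at hcast hcardq
    have h9 : (9 : K) = 0 := by exact_mod_cast hcast
    have h3' : (3 : K) = 0 := by
      have h5 : (3 : K) * 3 = 0 := by linear_combination h9
      exact mul_self_eq_zero.1 h5
    have h2 : (2 : K) ≠ 0 := by
      intro h0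
      have : (1 : K) = 0 := by linear_combination h3' - h0
      exact one_ne_zero this
    obtain ⟨i, hi⟩ : IsSquare (-1 : K) := by
      rw [FiniteField.isSquare_neg_one_iff, hq]
      norm_num
    apply not_tset_four hG (i := i) (by rw [pow_two, ← hi]) h2
    intro π hπ h
    obtain ⟨g, σ, hdet, hg⟩ := hGP hπ
    obtain ⟨e, he, h3⟩ := stab_pair hg h
    rw [hdet, one_mul] at h3
    have he8 := hcardq e he
    rcases h3 with h3 | h3
    · exact ⟨_, σ, pow_ne_zero 2 he, by linear_combination he8, Or.inl h3⟩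
    · exact ⟨-1 * e ^ 2, σ, mul_ne_zero (neg_ne_zero.2 one_ne_zero) (pow_ne_zero 2 he),
        by linear_combination he8, Or.inr h3⟩
  · rw [hq] at hcast hcardq
    have h11 : (11 : K) = 0 := by exact_mod_cast hcast
    apply not_tset_eleven hG h11
    intro π hπ h
    obtain ⟨g, hdet, hg⟩ := hGP hπ
    obtain ⟨e, he, h3⟩ := stab_pair (σ := RingEquiv.refl K) (g := g) (π := π) (by
      intro x
      rw [hg]
      congr 1
      cases x <;> rfl) h
    rw [hdet, one_mul] at h3
    have he10 := hcardq e he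
    rcases h3 with h3 | h3
    · exact ⟨_, pow_ne_zero 2 he, Or.inl ⟨by linear_combination he10, h3⟩⟩
    · refine ⟨-1 * e ^ 2, mul_ne_zero (neg_ne_zero.2 one_ne_zero) (pow_ne_zero 2 he),
        Or.inr ⟨by linear_combination -he10, h3⟩⟩

end Cases

end Pool.Agent.Helper37.Prim
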