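import Pool.Agent.Helper37.Prim.Proj2Basic

/-!
# Three generalisations of primitivity (MP_13dc8a_al): `2`-set primitivity of groups containing
`PSL(2, K)`
-/

namespace Pool.Agent.Helper37.Prim

open Matrix OnePoint MulAction
open scoped Pointwise

section Criterion

variable {G X : Type*} [Group G] [MulAction G X] [DecidableEq X] [Finite X]

/-- An invariant equivalence relation on the pairs such that different related pairs are
disjoint. -/
structure PairRel (G X : Type*) [Group G] [MulAction G X] [DecidableEq X]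
    (r : Finset X → Finset X → Prop) : Prop where
  equiv : Equivalence r
  inv : ∀ (g : G) u v, r u v → r (g • u) (g • v)
  share : ∀ a b c, a ≠ b → a ≠ c → r {a, b} {a, c} → b = c

theorem tsetprimitive_of_pairRel (h2 : IsMultiplyPreprimitive G X 2)
    (h : ∀ r, PairRel G X r → ∀ a b c d, a ≠ b → c ≠ d → r {a, b} {c, d} →
      ({a, b} : Finset X) = {c, d}) : IsPreprimitive G (Set.powersetCard X 2) := by
  have h2t : IsMultiplyPretransitive G X 2 := h2.isMultiplyPretransitive
  have htr : IsPretransitive G (Set.powersetCard X 2) :=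
    Set.powersetCard.isPretransitive_of_isMultiplyPretransitive G h2t
  have htrX : IsPretransitive G X := isPretransitive_of_is_two_pretransitive
  apply isPreprimitive_of_rel
  intro r₀ hr₀ hG
  by_cases huniv : ∀ x y, r₀ x y
  · exact Or.inr huniv
  left
  let r : Finset X → Finset X → Prop := fun u v =>
    u = v ∨ ∃ (hu : u.card = 2) (hv : v.card = 2), r₀ ⟨u, hu⟩ ⟨v, hv⟩
  have hequiv : Equivalence r := by
    refine ⟨fun _ => Or.inl rfl, ?_, ?_⟩
    · rintro u v (rfl | ⟨hu, hv, h⟩)
      · exact Or.inl rfl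
      · exact Or.inr ⟨hv, hu, hr₀.symm h⟩
    · rintro u v w (rfl | ⟨hu, hv, h⟩) (rfl | ⟨hv', hw, h'⟩)
      · exact Or.inl rfl
      · exact Or.inr ⟨hv', hw, h'⟩
      · exact Or.inr ⟨hu, hv, h⟩
      · exact Or.inr ⟨hu, hw, hr₀.trans h h'⟩
  have hinv : ∀ (g : G) u v, r u v → r (g • u) (g • v) := by
    rintro g u v (rfl | ⟨hu, hv, h⟩)
    · exact Or.inl rfl
    · exact Or.inr ⟨by rw [Finset.card_smul_finset]; exact hu,
        by rw [Finset.card_smul_finset]; exact hv, hG g _ _ h⟩
  have hshare : ∀ a b c, a ≠ b → a ≠ c → r {a, b} {a, c} → b = c := by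
    intro a b c hab hac habc
    rcases rel_of_tprimitive h2 {a} (by simp) (fun x y => r {a, x} {a, y})
      (fun _ _ => hequiv.refl _) (fun _ _ _ _ h => hequiv.symm h)
      (fun _ _ _ _ _ _ h1 h2 => hequiv.trans h1 h2) (by
        intro g hg x y _ _ hxy
        have hga : g • a = a := hg a (Finset.mem_singleton_self a)
        have := hinv g _ _ hxy
        rwa [Finset.smul_finset_insert, Finset.smul_finset_singleton, Finset.smul_finset_insert,
          Finset.smul_finset_singleton, hga] at this) with h1 | h1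
    · exact h1 b c (by simpa using Ne.symm hab) (by simpa using Ne.symm hac) habc
    · exfalso
      apply huniv
      have hall : ∀ a' x y : X, a' ≠ x → a' ≠ y → r {a', x} {a', y} := by
        intro a' x y hx hy
        obtain ⟨g, rfl⟩ := exists_smul_eq G a a'
        have e1 : g⁻¹ • x ≠ a := fun h => hx (by rw [← h, smul_inv_smul])
        have e2 : g⁻¹ • y ≠ a := fun h => hy (by rw [← h, smul_inv_smul])
        have := hinv g _ _ (h1 (g⁻¹ • x) (g⁻¹ • y) (by simpa using e1) (by simpa using e2))
        rwa [Finset.smul_finset_insert, Finset.smul_finset_singleton, Finset.smul_finset_insert,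
          Finset.smul_finset_singleton, smul_inv_smul, smul_inv_smul] at this
      have hall' : ∀ x y z w : X, x ≠ y → z ≠ w → r {x, y} {z, w} := by
        intro x y z w hxy hzw
        by_cases hxz : x = z
        · subst hxz
          exact hall x y w hxy hzw
        · have e1 := hall x y z hxy hxz
          have e2 := hall z x w (Ne.symm hxz) hzw
          rw [Finset.pair_comm z x] at e2
          exact hequiv.trans e1 e2
      rintro ⟨u, hu⟩ ⟨v, hv⟩
      obtain ⟨x, y, hxy, rfl⟩ := Finset.card_eq_two.1 hu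
      obtain ⟨z, w, hzw, rfl⟩ := Finset.card_eq_two.1 hv
      rcases hall' x y z w hxy hzw with h3 | ⟨_, _, h3⟩
      · have : (⟨{x, y}, hu⟩ : Set.powersetCard X 2) = ⟨{z, w}, hv⟩ := Subtype.ext h3
        rw [this]
        exact hr₀.refl _
      · exact h3
  rintro ⟨u, hu⟩ ⟨v, hv⟩ huv
  obtain ⟨x, y, hxy, rfl⟩ := Finset.card_eq_two.1 hu
  obtain ⟨z, w, hzw, rfl⟩ := Finset.card_eq_two.1 hv
  exact Subtype.ext (h r ⟨hequiv, hinv, hshare⟩ x y z w hxy hzw (Or.inr ⟨hu, hv, huv⟩))

end Criterion

section Moves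

variable {K : Type*} [Field K] [DecidableEq K] [DecidableEq (OnePoint K)]
  {G : Subgroup (Equiv.Perm (OnePoint K))} {r : Finset (OnePoint K) → Finset (OnePoint K) → Prop}

/-- `{∞, 0}` is related to `{u, v}`. -/
def PP (r : Finset (OnePoint K) → Finset (OnePoint K) → Prop) (u v : K) : Prop :=
  r {(∞ : OnePoint K), ((0 : K) : OnePoint K)} {(u : OnePoint K), (v : OnePoint K)}

theorem PairRel.smul (h : PairRel G (OnePoint K) r) {π : Equiv.Perm (OnePoint K)} (hπ : π ∈ G)
    {a b c d : OnePoint K} (hr : r {a, b} {c, d}) : r {π a, π b} {π c, π d} := by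
  have := h.inv ⟨π, hπ⟩ _ _ hr
  rwa [Finset.smul_finset_insert, Finset.smul_finset_singleton, Finset.smul_finset_insert,
    Finset.smul_finset_singleton] at this

theorem PairRel.M1 (hG : PSL K ≤ G) (h : PairRel G (OnePoint K) r) {u v : K} (huv : PP r u v)
    {a : K} (ha : a ≠ 0) : PP r (a ^ 2 * u) (a ^ 2 * v) := by
  have hd : a ^ 2 * 1 - (0 : K) * 0 ≠ 0 := by simpa using ha
  have h1 := h.smul (hG (mk2_mem_PSL (e := a) hd (by ring))) huv
  rw [MulAction.toPerm_apply, MulAction.toPerm_apply, MulAction.toPerm_apply,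
    MulAction.toPerm_apply, mk2_infty, mk2_coe, mk2_coe, mk2_coe, if_pos rfl] at h1
  simp only [zero_mul, zero_add, one_ne_zero, if_false, add_zero, div_one, mul_zero] at h1
  exact h1

theorem PairRel.uniq (h : PairRel G (OnePoint K) r) {u v w : K} (huv : u ≠ v) (huw : u ≠ w)
    (h1 : PP r u v) (h2 : PP r u w) : v = w := by
  have h3 := h.equiv.trans (h.equiv.symm h1) h2
  have h4 := h.share _ _ _ (fun e => huv (OnePoint.coe_eq_coe.1 e))
    (fun e => huw (OnePoint.coe_eq_coe.1 e)) h3
  exact OnePoint.coe_eq_coe.1 h4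

theorem PP.symm {u v : K} (h : PP r u v) : PP r v u := by
  unfold PP at h ⊢
  rwa [Finset.pair_comm (v : OnePoint K)]

theorem PairRel.M2 (hG : PSL K ≤ G) (h : PairRel G (OnePoint K) r) {u v : K} (huv : PP r u v)
    (hu : u ≠ 0) (hv : v ≠ 0) (hne : u ≠ v) (hsq : IsSquare (v / u)) : v = -u := by
  obtain ⟨b, hb⟩ := hsq
  have hb0 : b ≠ 0 := by
    rintro rfl
    rw [mul_zero, div_eq_zero_iff] at hb
    rcases hb with hb | hb
    · exact hv hb
    · exact hu hb
  have hbu : b ^ 2 * u = v := by
    rw [pow_two, ← hb, div_mul_cancel₀ _ hu]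
  have h1 := h.M1 hG huv hb0
  rw [hbu] at h1
  -- `{u, v}` and `{v, b² v}` share `v`
  have h2 : b ^ 2 * v = u := by
    have hne' : v ≠ b ^ 2 * v := by
      intro e
      have h3 : b ^ 2 = 1 := by
        have : (b ^ 2 - 1) * v = 0 := by linear_combination -e
        rcases mul_eq_zero.1 this with h4 | h4
        · exact sub_eq_zero.1 h4
        · exact absurd h4 hv
      rw [h3, one_mul] at hbu
      exact hne hbu
    exact h.uniq hne' (Ne.symm hne) h1 huv.symm
  have h3 : (b ^ 2 - 1) * (b ^ 2 + 1) * u = 0 := by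
    have : b ^ 2 * (b ^ 2 * u) = u := by rw [hbu, h2]
    linear_combination this
  rcases mul_eq_zero.1 h3 with h3 | h3
  · rcases mul_eq_zero.1 h3 with h3 | h3
    · exfalso
      apply hne
      rw [← hbu]
      linear_combination (-u) * h3
    · rw [← hbu]
      linear_combination u * h3
  · exact absurd h3 hu

/-- The key move. -/
theorem PairRel.M3 (hG : PSL K ≤ G) (h : PairRel G (OnePoint K) r) {u v s e : K}
    (huv : PP r u v) (hs : s ≠ 0) (hne : u ≠ v) (he : s * (v - u) = e ^ 2) {x y : OnePoint K}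
    (hxy : r {∞, ((0 : K) : OnePoint K)} {x, y}) :
    r {∞, ((0 : K) : OnePoint K)}
      {mk2 (v * s) u s 1 (by
        have := mul_ne_zero hs (sub_ne_zero.2 (Ne.symm hne))
        intro h0; apply this; linear_combination h0) • x,
       mk2 (v * s) u s 1 (by
        have := mul_ne_zero hs (sub_ne_zero.2 (Ne.symm hne))
        intro h0; apply this; linear_combination h0) • y} := by
  have hd : v * s * 1 - u * s ≠ 0 := by
    have := mul_ne_zero hs (sub_ne_zero.2 (Ne.symm hne))
    intro h0; apply this; linear_combination h0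
  have h1 := h.smul (hG (mk2_mem_PSL (e := e) hd (by linear_combination he))) hxy
  rw [MulAction.toPerm_apply, MulAction.toPerm_apply, MulAction.toPerm_apply,
    MulAction.toPerm_apply] at h1
  have e1 : mk2 (v * s) u s 1 hd • (∞ : OnePoint K) = (v : OnePoint K) := by
    rw [mk2_infty, if_neg hs, mul_div_assoc, div_self hs, mul_one]
  have e2 : mk2 (v * s) u s 1 hd • ((0 : K) : OnePoint K) = (u : OnePoint K) := by
    rw [mk2_coe]
    simp
  rw [e1, e2, Finset.pair_comm (v : OnePoint K)] at h1
  exact h.equiv.trans huv h1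

/-- Case 1: `{∞, 0}` is related to `{u, -u}` and to `{w, -w}`. -/
theorem PairRel.case1 (hG : PSL K ≤ G) (h : PairRel G (OnePoint K) r) (h2 : (2 : K) ≠ 0)
    {u w s e : K} (hu : u ≠ 0) (hw : w ≠ 0) (hs : s ≠ 0) (huu : PP r u (-u))
    (hww : PP r w (-w)) (he : s * (-u - u) = e ^ 2) (h1 : s * w ≠ 1) (h1' : s * w ≠ -1) :
    (s * w) ^ 2 = -1 := by
  have hne : u ≠ -u := by
    intro h0
    have : 2 * u = 0 := by linear_combination h0
    rcases mul_eq_zero.1 this with h3 | h3
    · exact h2 h3
    · exact hu h3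
  have h3 := h.M3 hG huu hs hne he hww
  have ha : 1 + s * w ≠ 0 := fun h0 => h1' (by linear_combination h0)
  have hb : 1 - s * w ≠ 0 := fun h0 => h1 (by linear_combination -h0)
  have hy : s * w ≠ 0 := mul_ne_zero hs hw
  rw [mk2_coe, mk2_coe, if_neg (by rw [add_comm]; exact ha),
    if_neg (by intro h0; apply hb; linear_combination h0)] at h3
  have e1 : (-u * s * w + u) / (s * w + 1) = u * (1 - s * w) / (1 + s * w) := by
    rw [add_comm (s * w) 1]; congr 1; ring
  have e2 : (-u * s * -w + u) / (s * -w + 1) = u * (1 + s * w) / (1 - s * w) := by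
    have : s * -w + 1 = 1 - s * w := by ring
    rw [this]; congr 1; ring
  rw [e1, e2] at h3
  have hp : u * (1 - s * w) / (1 + s * w) ≠ 0 := div_ne_zero (mul_ne_zero hu hb) ha
  have hp' : u * (1 + s * w) / (1 - s * w) ≠ 0 := div_ne_zero (mul_ne_zero hu ha) hb
  have hne2 : u * (1 - s * w) / (1 + s * w) ≠ u * (1 + s * w) / (1 - s * w) := by
    intro h0
    rw [div_eq_div_iff ha hb] at h0
    have h5 : (2 * 2) * (u * (s * w)) = 0 := by linear_combination -h0
    rcases mul_eq_zero.1 h5 with h6 | h6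
    · exact (mul_ne_zero h2 h2) h6
    · exact (mul_ne_zero hu hy) h6
  have h4 := h.M2 hG h3 hp hp' hne2 ⟨(1 + s * w) / (1 - s * w), by field_simp⟩
  rw [div_eq_iff hb] at h4
  have h5 : u * (1 + s * w) * (1 + s * w) = -(u * (1 - s * w)) * (1 - s * w) := by
    rw [h4]
    field_simp
  have h6 : 2 * u * ((s * w) ^ 2 + 1) = 0 := by linear_combination h5
  rcases mul_eq_zero.1 h6 with h7 | h7
  · exact absurd h7 (mul_ne_zero h2 hu)
  · linear_combination h7

end Moves

end Pool.Agent.Helper37.Prim
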