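import Pool.Agent.Helper37.Prim.Proj

/-!
# Three generalisations of primitivity (MP_13dc8a_al): `3`-set primitivity and `3`-primitivity of
groups of Möbius transformations
-/

namespace Pool.Agent.Helper37.Prim

open Matrix OnePoint MulAction
open scoped Pointwise

section Cyc

variable {K : Type*} [Field K] [DecidableEq K] [DecidableEq (OnePoint K)]

/-- `g` permutes `T` without fixed points. -/
def Cyc (g : GL (Fin 2) K) (T : Finset (OnePoint K)) : Prop := ∀ x ∈ T, g • x ∈ T ∧ g • x ≠ x

theorem Cyc.struct {g : GL (Fin 2) K} {T : Finset (OnePoint K)} (h : Cyc g T) (hT : T.card = 3)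
    {a : OnePoint K} (ha : a ∈ T) :
    g • a ≠ a ∧ g • g • a ≠ g • a ∧ g • g • a ≠ a ∧ T = {a, g • a, g • g • a} ∧
      g • g • g • a = a := by
  have h1 := h a ha
  have h2 := h _ h1.1
  have h3 : g • g • a ≠ a := by
    intro h4
    obtain ⟨z, hz, hz'⟩ : ∃ z ∈ T, z ∉ ({a, g • a} : Finset (OnePoint K)) := by
      by_contra hne
      push Not at hne
      have h5 := Finset.card_le_card (fun x hx => hne x hx : T ⊆ {a, g • a})
      have h6 : ({a, g • a} : Finset (OnePoint K)).card ≤ 2 := Finset.card_le_two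
      omega
    simp only [Finset.mem_insert, Finset.mem_singleton, not_or] at hz'
    have h5 := h z hz
    have h6 : T = {a, g • a, z} := by
      symm
      apply Finset.eq_of_subset_of_card_le
      · intro x hx
        simp only [Finset.mem_insert, Finset.mem_singleton] at hx
        rcases hx with rfl | rfl | rfl
        · exact ha
        · exact h1.1
        · exact hz
      · rw [hT, Finset.card_eq_three.2 ⟨a, g • a, z, h1.2.symm, Ne.symm hz'.1, Ne.symm hz'.2, rfl⟩]
    have h7 := h5.1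
    rw [h6] at h7
    simp only [Finset.mem_insert, Finset.mem_singleton] at h7
    rcases h7 with h7 | h7 | h7
    · exact hz'.2 (smul_left_cancel g (h7.trans h4.symm))
    · exact hz'.1 (smul_left_cancel g h7)
    · exact h5.2 h7
  have h6 : T = {a, g • a, g • g • a} := by
    symm
    apply Finset.eq_of_subset_of_card_le
    · intro x hx
      simp only [Finset.mem_insert, Finset.mem_singleton] at hx
      rcases hx with rfl | rfl | rfl
      · exact ha
      · exact h1.1
      · exact h2.1
    · rw [hT, Finset.card_eq_three.2 ⟨a, g • a, g • g • a, h1.2.symm, h3.symm, h2.2.symm, rfl⟩]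
  refine ⟨h1.2, h2.2, h3, h6, ?_⟩
  have h7 := (h _ h2.1).1
  rw [h6] at h7
  simp only [Finset.mem_insert, Finset.mem_singleton] at h7
  rcases h7 with h7 | h7 | h7
  · exact h7
  · exact absurd (smul_left_cancel g h7) h3
  · exact absurd h7 (h _ h2.1).2

theorem Cyc.eq_or {g g' : GL (Fin 2) K} {T : Finset (OnePoint K)} (h : Cyc g T) (h' : Cyc g' T)
    (hT : T.card = 3) : (∀ x : OnePoint K, g' • x = g • x) ∨
      ∀ x : OnePoint K, g' • x = g • g • x := by
  obtain ⟨a, ha⟩ : T.Nonempty := by rw [← Finset.card_pos]; omega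
  obtain ⟨h1, h2, h3, h4, h5⟩ := h.struct hT ha
  obtain ⟨h1', h2', h3', h4', h5'⟩ := h'.struct hT ha
  have h6 : g' • a ∈ T := (h' a ha).1
  have h7 : g' • g' • a ∈ T := (h' _ h6).1
  rw [h4] at h6 h7
  simp only [Finset.mem_insert, Finset.mem_singleton] at h6 h7
  rcases h6 with h6 | h6 | h6
  · exact absurd h6 h1'
  · left
    have h8 : g' • g • a = g • g • a := by
      rw [h6] at h7
      rcases h7 with h7 | h7 | h7
      · rw [h6] at h3'
        exact absurd h7 h3'
      · rw [h6] at h2'
        exact absurd h7 h2'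
      · exact h7
    have h9 : g' • g • g • a = g • g • g • a := by
      rw [← h8, ← h6, h5', h6, h8, h5]
    exact fun x => smul_eq_of_three h1.symm h3.symm h2.symm h6 h8 h9 x
  · right
    have h8 : g' • g • g • a = g • a := by
      rw [h6] at h7
      rcases h7 with h7 | h7 | h7
      · rw [h6] at h3'
        exact absurd h7 h3'
      · exact h7
      · rw [h6] at h2'
        exact absurd h7 h2'
    have h9 : g' • g • a = a := by
      rw [← h8, ← h6, h5']
    intro x
    rw [← mul_smul]
    refine smul_eq_of_three h1.symm h3.symm h2.symm ?_ ?_ ?_ x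
    · rw [mul_smul, h6]
    · rw [mul_smul, h9, h5]
    · rw [mul_smul, h8, h5]

theorem Cyc.sq {g g' : GL (Fin 2) K} {T : Finset (OnePoint K)} (h : Cyc g T) (hT : T.card = 3)
    (hg : ∀ x : OnePoint K, g' • x = g • g • x) : Cyc g' T := by
  intro x hx
  obtain ⟨h1, h2, h3, h4, h5⟩ := h.struct hT hx
  rw [hg]
  exact ⟨(h _ (h x hx).1).1, h3⟩

theorem Cyc.congr {g g' : GL (Fin 2) K} {T : Finset (OnePoint K)} (h : Cyc g T)
    (hg : ∀ x : OnePoint K, g' • x = g • x) : Cyc g' T := by
  intro x hx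
  rw [hg]
  exact h x hx

/-- Two triples are related if some Möbius transformation permutes both of them cyclically. -/
def Rel3 (T T' : Finset (OnePoint K)) : Prop :=
  T = T' ∨ (T.card = 3 ∧ T'.card = 3 ∧ ∃ g : GL (Fin 2) K, Cyc g T ∧ Cyc g T')

theorem rel3_equivalence : Equivalence (Rel3 (K := K)) := by
  refine ⟨fun T => Or.inl rfl, ?_, ?_⟩
  · rintro T T' (rfl | ⟨h1, h2, g, h3, h4⟩)
    · exact Or.inl rfl
    · exact Or.inr ⟨h2, h1, g, h4, h3⟩
  · rintro T T' T'' (rfl | ⟨h1, h2, g, h3, h4⟩) (rfl | ⟨h1', h2', g', h3', h4'⟩)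
    · exact Or.inl rfl
    · exact Or.inr ⟨h1', h2', g', h3', h4'⟩
    · exact Or.inr ⟨h1, h2, g, h3, h4⟩
    · refine Or.inr ⟨h1, h2', g', ?_, h4'⟩
      rcases h4.eq_or h3' h2 with h | h
      · exact h3.congr h
      · exact h3.sq h1 h

theorem Cyc.conj {π : Equiv.Perm (OnePoint K)} {h g : GL (Fin 2) K} {σ : K ≃+* K}
    (hπ : ∀ x, π x = h • OnePoint.map σ x) {T : Finset (OnePoint K)} (hc : Cyc g T) :
    Cyc (h * g.map (σ : K →+* K) * h⁻¹) (T.map π.toEmbedding) := by
  have key : ∀ x, (h * g.map (σ : K →+* K) * h⁻¹) • π x = π (g • x) := by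
    intro x
    rw [hπ, hπ, map_smul', mul_smul, inv_smul_smul, mul_smul]
  intro y hy
  obtain ⟨x, hx, rfl⟩ := Finset.mem_map.1 hy
  change (h * g.map (σ : K →+* K) * h⁻¹) • π x ∈ _ ∧ (h * g.map (σ : K →+* K) * h⁻¹) • π x ≠ π x
  rw [key]
  exact ⟨Finset.mem_map.2 ⟨g • x, (hc x hx).1, rfl⟩, fun h' => (hc x hx).2 (π.injective h')⟩

theorem smul_finset_eq_map {X : Type*} [DecidableEq X] (G : Subgroup (Equiv.Perm X)) (g : G)
    (T : Finset X) : g • T = T.map (g : Equiv.Perm X).toEmbedding := by
  ext x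
  rw [Finset.mem_map, Finset.mem_smul_finset]
  rfl

end Cyc

section Finite

variable {K : Type*} [Field K] [Finite K] [DecidableEq K] [DecidableEq (OnePoint K)]

/-- A group of (semilinear) Möbius transformations is never `3`-set primitive, `q ≥ 5`. -/
theorem not_tsetprimitive_three (hq : 5 ≤ Nat.card K) (G : Subgroup (Equiv.Perm (OnePoint K)))
    (hG : G ≤ PGammaL K) : ¬ IsPreprimitive G (Set.powersetCard (OnePoint K) 3) := by
  classical
  have := Fintype.ofFinite K
  intro h
  have h01 : ((0 : K) : OnePoint K) ≠ ((1 : K) : OnePoint K) := by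
    rw [Ne, OnePoint.coe_eq_coe]; exact zero_ne_one
  have hi0 : (∞ : OnePoint K) ≠ ((0 : K) : OnePoint K) := OnePoint.infty_ne_coe _
  have hi1 : (∞ : OnePoint K) ≠ ((1 : K) : OnePoint K) := OnePoint.infty_ne_coe _
  obtain ⟨g, hg1, hg2, hg3⟩ := exists_smul_std (K := K) (u := ((0 : K) : OnePoint K))
    (v := ((1 : K) : OnePoint K)) (w := ∞) h01 hi0.symm hi1.symm
  have hT : ({∞, ((0 : K) : OnePoint K), ((1 : K) : OnePoint K)} : Finset (OnePoint K)).card = 3 :=
    Finset.card_eq_three.2 ⟨_, _, _, hi0, hi1, h01, rfl⟩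
  have hcyc : Cyc g ({∞, ((0 : K) : OnePoint K), ((1 : K) : OnePoint K)}) := by
    intro x hx
    simp only [Finset.mem_insert, Finset.mem_singleton] at hx
    rcases hx with rfl | rfl | rfl
    · rw [hg1]; simp
    · rw [hg2]; simp [h01.symm]
    · rw [hg3]; simp
  have hg3' : ∀ x : OnePoint K, g • g • g • x = x := by
    intro x
    have := smul_eq_self_of_fix (g := g * g * g) (by rw [mul_smul, mul_smul, hg1, hg2, hg3])
      (by rw [mul_smul, mul_smul, hg2, hg3, hg1]) (by rw [mul_smul, mul_smul, hg3, hg1, hg2]) x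
    rwa [mul_smul, mul_smul] at this
  -- `g` has at most two fixed points
  have hfix : ∃ x : OnePoint K, x ∉ ({∞, ((0 : K) : OnePoint K), ((1 : K) : OnePoint K)} :
      Finset (OnePoint K)) ∧ g • x ≠ x := by
    by_contra hne
    push Not at hne
    have hn : Fintype.card (OnePoint K) = Fintype.card K + 1 := by
      rw [← Nat.card_eq_fintype_card, ← Nat.card_eq_fintype_card, card_onePoint]
    rw [Nat.card_eq_fintype_card] at hq
    have h3 : 3 ≤ ((Finset.univ : Finset (OnePoint K)) \
        {∞, ((0 : K) : OnePoint K), ((1 : K) : OnePoint K)}).card := by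
      rw [Finset.card_sdiff_of_subset (Finset.subset_univ _), hT, Finset.card_univ, hn]
      omega
    obtain ⟨s, hs, hs3⟩ := Finset.exists_subset_card_eq h3
    obtain ⟨a, b, c, hab, hac, hbc, rfl⟩ := Finset.card_eq_three.1 hs3
    have hfa := hne a (Finset.mem_sdiff.1 (hs (by simp))).2
    have hfb := hne b (Finset.mem_sdiff.1 (hs (by simp))).2
    have hfc := hne c (Finset.mem_sdiff.1 (hs (by simp))).2
    have h4 := smul_eq_of_three (h := 1) hab hac hbc (by rw [hfa, one_smul])
      (by rw [hfb, one_smul]) (by rw [hfc, one_smul]) ∞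
    rw [hg1, one_smul] at h4
    exact hi0.symm h4
  obtain ⟨x, hx, hgx⟩ := hfix
  have hggx : g • g • x ≠ g • x := fun h => hgx (smul_left_cancel g h)
  have hggx' : g • g • x ≠ x := by
    intro h
    have h5 := congrArg (fun y => g • y) h
    simp only [hg3'] at h5
    exact hgx h5.symm
  have hT' : ({x, g • x, g • g • x} : Finset (OnePoint K)).card = 3 :=
    Finset.card_eq_three.2 ⟨_, _, _, hgx.symm, hggx'.symm, hggx.symm, rfl⟩
  have hcyc' : Cyc g ({x, g • x, g • g • x}) := by
    intro y hy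
    simp only [Finset.mem_insert, Finset.mem_singleton] at hy
    rcases hy with rfl | rfl | rfl
    · exact ⟨by simp, hgx⟩
    · exact ⟨by simp, hggx⟩
    · refine ⟨by simp [hg3'], ?_⟩
      rw [hg3']
      exact hggx'.symm
  rcases rel_of_tsetprimitive h Rel3 rel3_equivalence (by
      intro π T T' hT hT' hTT
      rw [smul_finset_eq_map, smul_finset_eq_map]
      rcases hTT with rfl | ⟨-, -, k, hk, hk'⟩
      · exact Or.inl rfl
      · obtain ⟨h', σ, hπ⟩ := hG π.2
        refine Or.inr ⟨by rw [Finset.card_map, hT], by rw [Finset.card_map, hT'],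
          h' * k.map (σ : K →+* K) * h'⁻¹, hk.conj hπ, hk'.conj hπ⟩) with h1 | h1
  · have h2 := h1 _ _ hT hT' (Or.inr ⟨hT, hT', g, hcyc, hcyc'⟩)
    apply hx
    rw [h2]
    exact Finset.mem_insert_self _ _
  · obtain ⟨y, hy⟩ : ∃ y : K, y ∉ ({0, 1} : Finset K) := by
      by_contra hne
      push Not at hne
      have h5 := Finset.card_le_card (fun x _ => hne x : (Finset.univ : Finset K) ⊆ {0, 1})
      have h6 : ({0, 1} : Finset K).card ≤ 2 := Finset.card_le_two
      rw [Finset.card_univ, ← Nat.card_eq_fintype_card] at h5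
      omega
    simp only [Finset.mem_insert, Finset.mem_singleton, not_or] at hy
    have h0y : ((0 : K) : OnePoint K) ≠ (y : OnePoint K) := by
      rw [Ne, OnePoint.coe_eq_coe]; exact Ne.symm hy.1
    have h1y : ((1 : K) : OnePoint K) ≠ (y : OnePoint K) := by
      rw [Ne, OnePoint.coe_eq_coe]; exact Ne.symm hy.2
    have hiy : (∞ : OnePoint K) ≠ (y : OnePoint K) := OnePoint.infty_ne_coe _
    have hTy : ({∞, ((0 : K) : OnePoint K), (y : OnePoint K)} : Finset (OnePoint K)).card = 3 :=
      Finset.card_eq_three.2 ⟨_, _, _, hi0, hiy, h0y, rfl⟩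
    rcases h1 _ _ hT hTy with h2 | ⟨-, -, k, hk, hk'⟩
    · have h3 : (y : OnePoint K) ∈ ({∞, ((0 : K) : OnePoint K), (y : OnePoint K)} :
          Finset (OnePoint K)) := by simp
      rw [← h2] at h3
      simp only [Finset.mem_insert, Finset.mem_singleton] at h3
      rcases h3 with h3 | h3 | h3
      · exact hiy h3.symm
      · exact h0y h3.symm
      · exact h1y h3.symm
    · obtain ⟨-, -, -, e1, -⟩ := hk.struct hT (a := ∞) (by simp)
      obtain ⟨-, -, -, e2, -⟩ := hk'.struct hTy (a := ∞) (by simp)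
      have m1 : ((1 : K) : OnePoint K) ∈ ({∞, ((0 : K) : OnePoint K), (y : OnePoint K)} :
          Finset (OnePoint K)) := by
        rw [e2, ← e1]; simp
      simp only [Finset.mem_insert, Finset.mem_singleton] at m1
      rcases m1 with m1 | m1 | m1
      · exact hi1 m1.symm
      · exact h01 m1.symm
      · exact h1y m1

/-- A group of (semilinear) Möbius transformations is not `3`-primitive if `q - 1` is composite. -/
theorem not_tprimitive_three (hq : 4 ≤ Nat.card K) (hqp : ¬ (Nat.card K - 1).Prime)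
    (G : Subgroup (Equiv.Perm (OnePoint K))) (hG : G ≤ PGammaL K) :
    ¬ IsMultiplyPreprimitive G (OnePoint K) 3 := by
  classical
  have := Fintype.ofFinite K
  intro h
  obtain ⟨r, hr, hrq⟩ := Nat.exists_prime_and_dvd (n := Nat.card K - 1) (by omega)
  have hrlt : r < Nat.card K - 1 := by
    refine lt_of_le_of_ne (Nat.le_of_dvd (by omega) hrq) ?_
    rintro rfl
    exact hqp hr
  have hunits : Nat.card Kˣ = Nat.card K - 1 := Nat.card_units K
  obtain ⟨g, hg⟩ := IsCyclic.exists_ofOrder_eq_natCard (α := Kˣ)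
  have hfact := Fact.mk hr
  obtain ⟨u, hu⟩ := exists_prime_orderOf_dvd_card' (G := Kˣ) r (by rw [hunits]; exact hrq)
  let f : OnePoint K → K := fun x => x.elim 0 id
  have hf : ∀ x : K, f (x : OnePoint K) = x := fun x => rfl
  have hi0 : (∞ : OnePoint K) ≠ ((0 : K) : OnePoint K) := OnePoint.infty_ne_coe _
  have hs : ({∞, ((0 : K) : OnePoint K)} : Finset (OnePoint K)).card + 1 = 3 := by
    rw [Finset.card_pair hi0]
  have hnot : ∀ x : Kˣ, ((x : K) : OnePoint K) ∉ ({∞, ((0 : K) : OnePoint K)} :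
      Finset (OnePoint K)) := by
    intro x hx
    simp only [Finset.mem_insert, Finset.mem_singleton] at hx
    rcases hx with hx | hx
    · exact OnePoint.coe_ne_infty _ hx
    · rw [OnePoint.coe_eq_coe] at hx
      exact x.ne_zero hx
  rcases rel_of_tprimitive h {∞, ((0 : K) : OnePoint K)} hs (fun x y => f x ^ r = f y ^ r)
    (fun _ _ => rfl) (fun _ _ _ _ h => h.symm) (fun _ _ _ _ _ _ h1 h2 => h1.trans h2) (by
      intro π hπ x y hx hy hxy
      obtain ⟨a, σ, ha, haσ⟩ := PGammaL_infty_zero (hG π.2) (hπ ∞ (by simp)) (hπ _ (by simp))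
      have hxi : x ≠ ∞ := fun h => hx (by rw [h]; simp)
      have hyi : y ≠ ∞ := fun h => hy (by rw [h]; simp)
      obtain ⟨x', rfl⟩ := OnePoint.ne_infty_iff_exists.1 hxi
      obtain ⟨y', rfl⟩ := OnePoint.ne_infty_iff_exists.1 hyi
      have e1 : π • (x' : OnePoint K) = ((a * σ x' : K) : OnePoint K) := haσ x'
      have e2 : π • (y' : OnePoint K) = ((a * σ y' : K) : OnePoint K) := haσ y'
      rw [e1, e2, hf, hf, mul_pow, mul_pow, ← map_pow, ← map_pow]
      rw [hf, hf] at hxy
      rw [hxy]) with h1 | h1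
  · have h2 := h1 _ _ (hnot u) (hnot 1) (by
      rw [hf, hf, ← Units.val_pow_eq_pow_val, ← hu, pow_orderOf_eq_one, Units.val_one, one_pow])
    rw [OnePoint.coe_eq_coe] at h2
    have h3 : u = 1 := Units.ext h2
    rw [h3, orderOf_one] at hu
    exact hr.one_lt.ne hu
  · have h2 := h1 _ _ (hnot g) (hnot 1)
    rw [hf, hf, ← Units.val_pow_eq_pow_val, Units.val_one, one_pow] at h2
    have h3 : g ^ r = 1 := Units.ext h2
    have h4 := orderOf_dvd_of_pow_eq_one h3
    rw [hg, hunits] at h4
    have := Nat.le_of_dvd hr.pos h4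
    omega

end Finite

end Pool.Agent.Helper37.Prim
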