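import Pool.Agent.Helper37.Prim.Proj3
import Pool.Agent.Helper37.Prim.AffineFinal

/-!
# Three generalisations of primitivity (MP_13dc8a_al): `3`-Steiner primitivity of groups of Möbius
transformations
-/

namespace Pool.Agent.Helper37.Prim

open Matrix OnePoint MulAction
open scoped Pointwise

section Derived

variable {G X : Type*} [Group G] [MulAction G X] [DecidableEq X] [Finite X]

/-- Derived Steiner systems. -/
theorem steinerPrimitive_succ (a : X) (t : ℕ)
    (h : SteinerPrimitive (stabilizer G a) (SubMulAction.ofStabilizer G a) t) :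
    SteinerPrimitive G X (t + 1) := by
  classical
  rintro ⟨k, B, htk, hkn, hB, hGB⟩
  apply h
  have hcard := SubMulAction.nat_card_ofStabilizer_eq G a
  have hna : ∀ b : Finset (SubMulAction.ofStabilizer G a),
      a ∉ b.map (Function.Embedding.subtype _) := by
    intro b hb
    obtain ⟨x, -, hx⟩ := Finset.mem_map.1 hb
    exact x.2 hx
  refine ⟨k - 1, {b | insert a (b.map (Function.Embedding.subtype _)) ∈ B}, by omega,
    by rw [hcard]; omega, ⟨?_, ?_⟩, ?_⟩
  · intro b hb
    have h1 := hB.card_eq _ hb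
    rw [Finset.card_insert_of_notMem (hna b), Finset.card_map] at h1
    omega
  · intro s hs
    obtain ⟨b, ⟨hb, hsb⟩, hbu⟩ := hB.existsUnique
      (insert a (s.map (Function.Embedding.subtype _))) (by
        rw [Finset.card_insert_of_notMem (hna s), Finset.card_map, hs])
    have hab : a ∈ b := hsb (Finset.mem_insert_self _ _)
    have hbb : insert a ((b.subtype (fun x => x ∈ SubMulAction.ofStabilizer G a)).map
        (Function.Embedding.subtype _)) = b := by
      ext x
      rw [Finset.mem_insert, Finset.subtype_map, Finset.mem_filter]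
      constructor
      · rintro (rfl | h1)
        · exact hab
        · exact h1.1
      · intro h1
        by_cases hx : x = a
        · exact Or.inl hx
        · exact Or.inr ⟨h1, hx⟩
    refine ⟨b.subtype (fun x => x ∈ SubMulAction.ofStabilizer G a), ⟨?_, ?_⟩, ?_⟩
    · change insert a _ ∈ B
      rw [hbb]
      exact hb
    · intro x hx
      rw [Finset.mem_subtype]
      exact hsb (Finset.mem_insert_of_mem (Finset.mem_map.2 ⟨x, hx, rfl⟩))
    · rintro b' ⟨hb', hsb'⟩
      have h1 : insert a (b'.map (Function.Embedding.subtype _)) = b :=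
        hbu _ ⟨hb', Finset.insert_subset_insert _ (Finset.map_subset_map.2 hsb')⟩
      ext x
      rw [Finset.mem_subtype, ← h1, Finset.mem_insert]
      constructor
      · intro h2
        exact Or.inr (Finset.mem_map.2 ⟨x, h2, rfl⟩)
      · rintro (h2 | h2)
        · exact absurd h2 x.2
        · obtain ⟨y, hy, hyx⟩ := Finset.mem_map.1 h2
          rwa [← Subtype.ext hyx]
  · intro g b hb
    have h1 := hGB (g : G) _ hb
    change insert a _ ∈ B
    convert h1 using 1
    ext x
    rw [Finset.mem_insert, Finset.mem_smul_finset]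
    have hga : (g : G) • a = a := g.2
    constructor
    · rintro (rfl | h2)
      · exact ⟨x, Finset.mem_insert_self _ _, hga⟩
      · obtain ⟨y, hy, rfl⟩ := Finset.mem_map.1 h2
        obtain ⟨z, hz, rfl⟩ := Finset.mem_smul_finset.1 hy
        exact ⟨z, Finset.mem_insert_of_mem (Finset.mem_map.2 ⟨z, hz, rfl⟩), rfl⟩
    · rintro ⟨y, hy, rfl⟩
      rcases Finset.mem_insert.1 hy with rfl | hy
      · exact Or.inl hga
      · obtain ⟨z, hz, rfl⟩ := Finset.mem_map.1 hy
        exact Or.inr (Finset.mem_map.2 ⟨g • z, Finset.smul_mem_smul_finset hz, rfl⟩)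

end Derived

section Subline

variable {K : Type*} [Field K] [Finite K] [DecidableEq K] [DecidableEq (OnePoint K)]

/-- the projective line over a subfield -/
def Subline (L : Subfield K) (x : OnePoint K) : Prop := x = ∞ ∨ ∃ y ∈ L, x = (y : K)

omit [Finite K] [DecidableEq K] [DecidableEq (OnePoint K)] in
theorem subline_iff (L : Subfield K) (x : OnePoint K) :
    Subline L x ↔ ∃ y : OnePoint L, OnePoint.map (algebraMap L K) y = x := by
  constructor
  · rintro (rfl | ⟨y, hy, rfl⟩)
    · exact ⟨∞, rfl⟩
    · exact ⟨((⟨y, hy⟩ : L) : OnePoint L), rfl⟩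
  · rintro ⟨y, rfl⟩
    cases y with
    | infty => exact Or.inl rfl
    | coe y => exact Or.inr ⟨y, y.2, rfl⟩

/-- The system of sublines. -/
theorem not_steinerPrimitive_of_subfield (L : Subfield K)
    (hL : ∀ (σ : K ≃+* K), ∀ x ∈ L, σ x ∈ L) (h2 : 2 < Nat.card L) (hlt : Nat.card L < Nat.card K)
    (G : Subgroup (Equiv.Perm (OnePoint K))) (hG : G ≤ PGammaL K) :
    ¬ SteinerPrimitive G (OnePoint K) 3 := by
  classical
  have := Fintype.ofFinite K
  intro hS
  apply hS
  have hLσ : ∀ (σ : K ≃+* K) (x : OnePoint K), Subline L (OnePoint.map σ x) ↔ Subline L x := by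
    have h1 : ∀ (σ : K ≃+* K) (x : OnePoint K), Subline L x → Subline L (OnePoint.map σ x) := by
      rintro σ _ (rfl | ⟨y, hy, rfl⟩)
      · exact Or.inl rfl
      · exact Or.inr ⟨σ y, hL σ y hy, rfl⟩
    intro σ x
    refine ⟨fun h => ?_, h1 σ x⟩
    have h3 := h1 σ.symm _ h
    have h4 : OnePoint.map σ.symm (OnePoint.map σ x) = x := by
      cases x with
      | infty => rfl
      | coe c => exact congrArg OnePoint.some (σ.symm_apply_apply c)
    rwa [h4] at h3
  -- elements of `GL(2, L)` preserve the subline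
  have hmap : ∀ (l : GL (Fin 2) L) (x : OnePoint K),
      Subline L (l.map (algebraMap L K) • x) ↔ Subline L x := by
    have h1 : ∀ (l : GL (Fin 2) L) (x : OnePoint K), Subline L x →
        Subline L (l.map (algebraMap L K) • x) := by
      intro l x hx
      rw [subline_iff] at hx ⊢
      obtain ⟨y, rfl⟩ := hx
      exact ⟨l • y, OnePoint.map_smul _ _ _⟩
    intro l x
    refine ⟨fun h => ?_, h1 l x⟩
    have h3 := h1 l⁻¹ _ h
    rwa [map_inv, inv_smul_smul] at h3
  have hcardb : ∀ (b : Finset (OnePoint K)) (g : GL (Fin 2) K), (∀ x, x ∈ b ↔ Subline L (g • x)) →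
      b.card = Nat.card L + 1 := by
    intro b g hb
    have h5 : Nat.card ((b : Set (OnePoint K))) = b.card :=
      (Nat.card_eq_card_toFinset (b : Set (OnePoint K))).trans (by rw [Finset.toFinset_coe])
    rw [← card_onePoint (K := L), ← h5]
    symm
    apply Nat.card_congr
    refine Equiv.ofBijective (fun y : OnePoint L =>
      (⟨g⁻¹ • OnePoint.map (algebraMap L K) y, by
        rw [Finset.mem_coe, hb, smul_inv_smul, subline_iff]; exact ⟨y, rfl⟩⟩ :
        (b : Set (OnePoint K)))) ⟨?_, ?_⟩
    · intro y z hyz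
      have h3 := smul_left_cancel _ (congrArg Subtype.val hyz)
      exact Option.map_injective (algebraMap L K).injective h3
    · rintro ⟨x, hx⟩
      rw [Finset.mem_coe, hb, subline_iff] at hx
      obtain ⟨y, hy⟩ := hx
      exact ⟨y, Subtype.ext (by
        change g⁻¹ • OnePoint.map (algebraMap L K) y = x
        rw [hy, inv_smul_smul])⟩
  refine ⟨Nat.card L + 1, {b | ∃ g : GL (Fin 2) K, ∀ x, x ∈ b ↔ Subline L (g • x)}, by omega,
    by rw [card_onePoint]; omega, ⟨?_, ?_⟩, ?_⟩
  · rintro b ⟨g, hb⟩
    exact hcardb b g hb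
  · intro s hs
    obtain ⟨u, v, w, huv, huw, hvw, rfl⟩ := Finset.card_eq_three.1 hs
    obtain ⟨k, hk1, hk2, hk3⟩ := exists_smul_std huv huw hvw
    refine ⟨Finset.univ.filter (fun x => Subline L (k⁻¹ • x)), ⟨⟨k⁻¹, fun x => by simp⟩, ?_⟩, ?_⟩
    · intro x hx
      simp only [Finset.mem_insert, Finset.mem_singleton] at hx
      rw [Finset.mem_filter]
      refine ⟨Finset.mem_univ _, ?_⟩
      rcases hx with rfl | rfl | rfl
      · rw [← hk1, inv_smul_smul]; exact Or.inl rfl
      · rw [← hk2, inv_smul_smul]; exact Or.inr ⟨0, L.zero_mem, rfl⟩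
      · rw [← hk3, inv_smul_smul]; exact Or.inr ⟨1, L.one_mem, rfl⟩
    · rintro b ⟨⟨g, hb⟩, hsb⟩
      have hu := (hb u).1 (hsb (by simp))
      have hv := (hb v).1 (hsb (by simp))
      have hw := (hb w).1 (hsb (by simp))
      rw [subline_iff] at hu hv hw
      obtain ⟨u', hu'⟩ := hu
      obtain ⟨v', hv'⟩ := hv
      obtain ⟨w', hw'⟩ := hw
      obtain ⟨l, hl1, hl2, hl3⟩ := exists_smul_std (K := L) (u := u') (v := v') (w := w')
        (by rintro rfl; exact huv (smul_left_cancel g (hu'.symm.trans hv')))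
        (by rintro rfl; exact huw (smul_left_cancel g (hu'.symm.trans hw')))
        (by rintro rfl; exact hvw (smul_left_cancel g (hv'.symm.trans hw')))
      have e1 : l.map (algebraMap L K) • (∞ : OnePoint K) = g • u := by
        have := OnePoint.map_smul (algebraMap L K) l ∞
        rw [hl1, hu'] at this
        exact this.symm
      have e2 : l.map (algebraMap L K) • ((0 : K) : OnePoint K) = g • v := by
        have := OnePoint.map_smul (algebraMap L K) l ((0 : L) : OnePoint L)
        rw [hl2, hv'] at this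
        exact this.symm
      have e3 : l.map (algebraMap L K) • ((1 : K) : OnePoint K) = g • w := by
        have := OnePoint.map_smul (algebraMap L K) l ((1 : L) : OnePoint L)
        rw [hl3, hw'] at this
        exact this.symm
      have h3 : ∀ x : OnePoint K, g • x = (l.map (algebraMap L K) * k⁻¹) • x := by
        apply smul_eq_of_three huv huw hvw
        · rw [mul_smul, ← hk1, inv_smul_smul, e1, hk1]
        · rw [mul_smul, ← hk2, inv_smul_smul, e2, hk2]
        · rw [mul_smul, ← hk3, inv_smul_smul, e3, hk3]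
      ext x
      rw [hb, h3, mul_smul, hmap, Finset.mem_filter]
      simp
  · rintro π b ⟨g, hb⟩
    obtain ⟨h, σ, hπ⟩ := hG π.2
    refine ⟨g.map (σ : K →+* K) * h⁻¹, fun y => ?_⟩
    rw [Finset.mem_smul_finset]
    obtain ⟨x, rfl⟩ := (π : Equiv.Perm (OnePoint K)).surjective y
    have h3 : (g.map (σ : K →+* K) * h⁻¹) • (π : Equiv.Perm (OnePoint K)) x =
        OnePoint.map σ (g • x) := by
      rw [hπ, mul_smul, inv_smul_smul, map_smul']
    rw [h3, hLσ, ← hb]
    constructor
    · rintro ⟨x', hx', hxx⟩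
      have : x' = x := (π : Equiv.Perm (OnePoint K)).injective hxx
      rwa [← this]
    · intro hx
      exact ⟨x, hx, rfl⟩

/-- The fixed points of a power of Frobenius. -/
theorem exists_subfield {p e m : ℕ} (hp : p.Prime) (hcard : Nat.card K = p ^ m) (he : 1 ≤ e)
    (hem : e ∣ m) (hlt : e < m) (h2 : 2 < p ^ e) :
    ∃ L : Subfield K, (∀ (σ : K ≃+* K), ∀ x ∈ L, σ x ∈ L) ∧ 2 < Nat.card L ∧
      Nat.card L < Nat.card K := by
  classical
  have := Fintype.ofFinite K
  have hfact := Fact.mk hp
  have hchar : CharP K p := by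
    obtain ⟨p', hp', n, hp'p, hn⟩ := FiniteField.card' K
    rw [← Nat.card_eq_fintype_card, hcard] at hn
    have h3 : p ∣ p' ^ (n : ℕ) := by
      rw [← hn]; exact dvd_pow_self p (by omega)
    have h4 := (Nat.prime_dvd_prime_iff_eq hp hp'p).1 (hp.dvd_of_dvd_pow h3)
    rw [h4]
    exact hp'
  let L : Subfield K :=
    { carrier := {x | x ^ p ^ e = x}
      mul_mem' := by
        intro x y hx hy
        change (x * y) ^ p ^ e = x * y
        rw [mul_pow]
        exact congrArg₂ _ hx hy
      one_mem' := one_pow _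
      add_mem' := by
        intro x y hx hy
        change (x + y) ^ p ^ e = x + y
        rw [add_pow_char_pow]
        exact congrArg₂ _ hx hy
      zero_mem' := zero_pow (by have := hp.pos; positivity)
      neg_mem' := by
        intro x hx
        change (-x) ^ p ^ e = -x
        have h3 : (-x) ^ p ^ e + x ^ p ^ e = 0 := by
          rw [← add_pow_char_pow, neg_add_cancel, zero_pow (by have := hp.pos; positivity)]
        have h4 : x ^ p ^ e = x := hx
        rw [h4] at h3
        exact eq_neg_of_add_eq_zero_left h3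
      inv_mem' := by
        intro x hx
        change (x⁻¹) ^ p ^ e = x⁻¹
        rw [inv_pow]
        exact congrArg _ hx }
  have hmem : ∀ x, x ∈ L ↔ x ^ p ^ e = x := fun x => Iff.rfl
  have hunits : Nat.card Kˣ = p ^ m - 1 := by rw [Nat.card_units, hcard]
  obtain ⟨g, hg⟩ := IsCyclic.exists_ofOrder_eq_natCard (α := Kˣ)
  rw [hunits] at hg
  have hpm : p ^ e < p ^ m := Nat.pow_lt_pow_right hp.one_lt hlt
  obtain ⟨k, hk⟩ := Nat.pow_sub_one_dvd_pow_sub_one p hem
  have hk0 : k ≠ 0 := by
    rintro rfl
    rw [mul_zero] at hk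
    omega
  have hu : orderOf (g ^ k) = p ^ e - 1 := by
    rw [orderOf_pow_of_dvd hk0 (by rw [hg, hk]; exact Dvd.intro_left _ rfl), hg, hk]
    exact Nat.mul_div_cancel _ (Nat.pos_of_ne_zero hk0)
  refine ⟨L, ?_, ?_, ?_⟩
  · intro σ x hx
    rw [hmem] at hx ⊢
    rw [← map_pow, hx]
  · have h3 : ({0, 1, ((g ^ k : Kˣ) : K)} : Set K) ⊆ (L : Set K) := by
      rintro x (rfl | rfl | rfl)
      · exact L.zero_mem
      · exact L.one_mem
      · change ((g ^ k : Kˣ) : K) ^ p ^ e = ((g ^ k : Kˣ) : K)
        rw [← Units.val_pow_eq_pow_val]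
        congr 1
        have h6 : p ^ e = (p ^ e - 1) + 1 := by omega
        rw [h6, pow_succ, ← hu, pow_orderOf_eq_one, one_mul]
    have h5 := Set.ncard_le_ncard h3 (Set.toFinite _)
    have h6 : (g ^ k : Kˣ) ≠ 1 := by
      intro h7
      rw [h7, orderOf_one] at hu
      omega
    rw [Set.ncard_insert_of_notMem (by
      rintro (h | h)
      · exact zero_ne_one h
      · exact (g ^ k).ne_zero h.symm), Set.ncard_pair (fun h => h6 (Units.ext (h.symm.trans Units.val_one.symm)))] at h5
    rw [← Nat.card_coe_set_eq] at h5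
    exact h5
  · have h4 : ((L : Set K)) ⊂ Set.univ := by
      rw [Set.ssubset_univ_iff]
      intro h5
      have h6 : (g : K) ∈ (L : Set K) := h5 ▸ Set.mem_univ _
      have h7 : (g : K) ^ p ^ e = g := h6
      have h8 : g ^ p ^ e = g := Units.ext (by rw [Units.val_pow_eq_pow_val]; exact h7)
      have h9 : g ^ (p ^ e - 1) = 1 := by
        have h10 : p ^ e = (p ^ e - 1) + 1 := by omega
        rw [h10, pow_succ] at h8
        exact mul_eq_right.1 h8
      have h10 := orderOf_dvd_of_pow_eq_one h9
      rw [hg] at h10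
      have := Nat.le_of_dvd (by omega) h10
      omega
    have h5 := Set.ncard_lt_ncard h4 (Set.toFinite _)
    rw [Set.ncard_univ, ← Nat.card_coe_set_eq] at h5
    exact h5

end Subline

end Pool.Agent.Helper37.Prim
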