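import Pool.Agent.Helper37.Prim.Proj2Neg
import Pool.Agent.Helper37.Prim.AffineFinal

/-!
# Three generalisations of primitivity (MP_13dc8a_al): a criterion for `2`-primitivity
-/

namespace Pool.Agent.Helper37.Prim

open MulAction
open scoped Pointwise

section

variable {G X : Type*} [Group G] [MulAction G X]

/-- A `2`-transitive group is `2`-primitive if the stabiliser of one point has no nontrivial
invariant relation on the other points. -/
theorem tprimitive_two_of_rel (h2 : IsMultiplyPretransitive G X 2) (o : X)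
    (h : ∀ r : X → X → Prop, (∀ x, x ≠ o → r x x) → (∀ x y, x ≠ o → y ≠ o → r x y → r y x) →
      (∀ x y z, x ≠ o → y ≠ o → z ≠ o → r x y → r y z → r x z) →
      (∀ g : G, g • o = o → ∀ x y, x ≠ o → y ≠ o → r x y → r (g • x) (g • y)) →
      (∃ x y, x ≠ o ∧ y ≠ o ∧ x ≠ y ∧ r x y) → ∀ x y, x ≠ o → y ≠ o → r x y) :
    IsMultiplyPreprimitive G X 2 := by
  classical
  have htr : IsPretransitive G X := isPretransitive_of_is_two_pretransitive
  rw [isMultiplyPreprimitive_iff]
  refine ⟨h2, fun {s} hs => ?_⟩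
  have hs1 : s.encard = 1 := by
    have h1 : s.encard + 1 = (1 : ℕ∞) + 1 := by rw [hs]; rfl
    exact ENat.add_left_injective_of_ne_top ENat.one_ne_top h1
  obtain ⟨u, rfl⟩ := Set.encard_eq_one.1 hs1
  obtain ⟨g, hg⟩ := exists_smul_eq G o u
  have h3 : ({u} : Set X) = g • ({o} : Set X) := by
    rw [Set.smul_set_singleton, hg]
  rw [h3, ← isPreprimitive_ofFixingSubgroup_conj_iff]
  have hnc : ({o} : Set X).ncard + 1 = 2 := by rw [Set.ncard_singleton]
  have h1 : IsMultiplyPretransitive (fixingSubgroup G ({o} : Set X))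
      (SubMulAction.ofFixingSubgroup G ({o} : Set X)) 1 :=
    SubMulAction.ofFixingSubgroup.isMultiplyPretransitive (G := G) _ hnc
  rw [is_one_pretransitive_iff] at h1
  have hmem : ∀ x : X, x ≠ o → x ∈ SubMulAction.ofFixingSubgroup G ({o} : Set X) := by
    intro x hx
    rw [SubMulAction.mem_ofFixingSubgroup_iff]
    exact hx
  have hmem' : ∀ y : SubMulAction.ofFixingSubgroup G ({o} : Set X), (y : X) ≠ o := by
    intro y
    have := y.2
    rwa [SubMulAction.mem_ofFixingSubgroup_iff] at this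
  apply isPreprimitive_of_rel
  intro r hr hG'
  by_cases hne : ∃ x y : SubMulAction.ofFixingSubgroup G ({o} : Set X), r x y ∧ x ≠ y
  · right
    obtain ⟨x, y, hxy, hne⟩ := hne
    have key := h (fun x y => ∃ (hx : x ≠ o) (hy : y ≠ o), r ⟨x, hmem x hx⟩ ⟨y, hmem y hy⟩)
      (fun x hx => ⟨hx, hx, hr.refl _⟩)
      (fun x y _ _ ⟨hx, hy, h⟩ => ⟨hy, hx, hr.symm h⟩)
      (fun x y z _ _ _ ⟨hx, hy, h⟩ ⟨_, hz, h'⟩ => ⟨hx, hz, hr.trans h h'⟩) (by
        rintro g hg x y - - ⟨hx, hy, h⟩
        have hgf : g ∈ fixingSubgroup G ({o} : Set X) := by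
          rw [mem_fixingSubgroup_iff]
          rintro y rfl
          exact hg
        have hx' : g • x ≠ o := fun h0 => hx (by
          rw [← inv_smul_smul g x, h0, inv_smul_eq_iff, hg])
        have hy' : g • y ≠ o := fun h0 => hy (by
          rw [← inv_smul_smul g y, h0, inv_smul_eq_iff, hg])
        exact ⟨hx', hy', hG' ⟨g, hgf⟩ _ _ h⟩)
      ⟨x, y, hmem' x, hmem' y, fun h0 => hne (Subtype.ext h0), hmem' x, hmem' y, hxy⟩
    intro x y
    obtain ⟨_, _, h4⟩ := key x y (hmem' x) (hmem' y)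
    exact h4
  · left
    intro x y hxy
    by_contra h4
    exact hne ⟨x, y, hxy, h4⟩

end

end Pool.Agent.Helper37.Prim
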