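import Pool.Agent.Helper37.Prim.AffineFinal

/-!
# Three generalisations of primitivity (MP_13dc8a_al): soluble and affine groups
-/

namespace Pool.Agent.Helper37.Prim

open MulAction

theorem solubleAnswer (X : Type) [Finite X] [DecidableEq X] (G : Subgroup (Equiv.Perm X)) (t : ℕ)
    (ht : 2 ≤ t) (htn : t ≤ Nat.card X) (hG : IsMultiplyPretransitive G X t) :
    (Group.IsSolvable G →
      (ExcA G X t ↔ t = 2 ∧ Even (Nat.card X) ∧ (Nat.card X - 1).Prime) ∧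
      ¬ ExcB G X t ∧
      (ExcC G X t ↔ t = 2 ∧ (((Nat.card X).Prime ∧ 5 ≤ Nat.card X) ∨
        ∃ d : ℕ, d.Prime ∧ Nat.card X = 2 ^ d ∧ ¬ (Nat.card X - 1).Prime)) ∧
      (ExcD G X t ↔ t = 2 ∧ (((Nat.card X).Prime ∧ 5 ≤ Nat.card X) ∨
        ∃ d : ℕ, d.Prime ∧ Nat.card X = 2 ^ d))) ∧
    ∀ N : Subgroup G, N.Normal → N ≠ ⊥ → Group.IsSolvable N →
      ¬ ExcB G X t ∧
      (3 ≤ t → ¬ ExcA G X t ∧ ¬ ExcC G X t ∧ ¬ ExcD G X t) ∧
      (t = 2 → 4 ≤ Nat.card X → ¬ IsPreprimitive G (Set.powersetCard X 2)) ∧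
      ((Odd (Nat.card X) ∨ ∃ (o : X) (A : Subgroup (stabilizer G o)),
          A.Normal ∧ A ≠ ⊥ ∧ Group.IsSolvable A) →
        (ExcA G X t ↔ t = 2 ∧ Even (Nat.card X) ∧ (Nat.card X - 1).Prime) ∧
        (ExcC G X t ↔ t = 2 ∧ (((Nat.card X).Prime ∧ 5 ≤ Nat.card X) ∨
          ∃ d : ℕ, d.Prime ∧ Nat.card X = 2 ^ d ∧ ¬ (Nat.card X - 1).Prime)) ∧
        (ExcD G X t ↔ t = 2 ∧ (((Nat.card X).Prime ∧ 5 ≤ Nat.card X) ∨
          ∃ d : ℕ, d.Prime ∧ Nat.card X = 2 ^ d))) := by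
  have hset : ∀ N : Subgroup G, N.Normal → N ≠ ⊥ → Group.IsSolvable N → t = 2 →
      4 ≤ Nat.card X → ¬ IsPreprimitive G (Set.powersetCard X 2) := by
    rintro N hNn hN hs rfl h4
    have hprim : IsPreprimitive G X := isPreprimitive_of_is_two_pretransitive hG
    have hne : Nonempty X := by
      rw [← Finite.card_pos_iff]
      omega
    obtain ⟨o⟩ := hne
    obtain ⟨p, inst, hp, h0, hpx, htrans, haff⟩ := exists_affine hprim N hNn hN hs o
    exact not_tsetprimitive_two (G := G) hp hpx haff h4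
  refine ⟨fun hs => affineAnswer_of_solvable ht htn hG hs, fun N hNn hN hs => ⟨?_, ?_, ?_, ?_⟩⟩
  · rcases Nat.lt_or_ge 2 t with h3 | h3
    · exact (affineAnswer_of_three_le h3 htn hG N hNn hN hs).2.1
    · obtain rfl : t = 2 := le_antisymm h3 ht
      by_cases h4 : 4 ≤ Nat.card X
      · exact fun h => hset N hNn hN hs rfl h4 h.1
      · exact fun h => h.2 (tprimitive_of_card_le (by omega) (by omega) hG)
  · intro h3
    obtain ⟨h1, -, h2, h4⟩ := affineAnswer_of_three_le h3 htn hG N hNn hN hs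
    exact ⟨h1, h2, h4⟩
  · exact hset N hNn hN hs
  · intro hS
    obtain ⟨h1, -, h2, h3⟩ := affineAnswer ht htn hG N hNn hN hs (by
      intro _ he _
      rcases hS with h4 | h4
      · exact absurd he (Nat.not_even_iff_odd.2 h4)
      · exact h4)
    exact ⟨h1, h2, h3⟩

end Pool.Agent.Helper37.Prim
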