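import Pool.Agent.Helper37.Prim.Affine

/-!
# Three generalisations of primitivity (MP_13dc8a_al): invariant spreads in characteristic two
-/

namespace Pool.Agent.Helper37.Prim

open MulAction
open scoped Pointwise

/-- An invariant spread: a family of additive subgroups `W v` (`v ≠ 0`) of `V` which partition the
nonzero elements, permuted by `H`. -/
structure IsSpread (H V : Type*) [Group H] [AddCommGroup V] [MulAction H V]
    (W : V → AddSubgroup V) : Prop where
  mem : ∀ v, v ∈ W v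
  eq : ∀ v w, v ≠ 0 → w ∈ W v → w ≠ 0 → W w = W v
  smul_mem : ∀ (h : H) v w, w ∈ W v → h • w ∈ W (h • v)
  two_lt : ∀ v, v ≠ 0 → 2 < Nat.card (W v)
  lt_card : ∀ v, v ≠ 0 → Nat.card (W v) < Nat.card V

section

variable {H V : Type*} [Group H] [AddCommGroup V] [MulAction H V]

/-- the endomorphism given by an element of `H` -/
def endo (hadd : ∀ (h : H) (x y : V), h • (x + y) = h • x + h • y) (h : H) : AddMonoid.End V :=
  { toFun := fun x => h • x
    map_zero' := by
      have := hadd h 0 0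
      rw [add_zero] at this
      exact (left_eq_add.1 this)
    map_add' := hadd h }

theorem endo_apply (hadd : ∀ (h : H) (x y : V), h • (x + y) = h • x + h • y) (h : H) (x : V) :
    endo hadd h x = h • x := rfl

theorem endo_mul (hadd : ∀ (h : H) (x y : V), h • (x + y) = h • x + h • y) (g h : H) :
    endo hadd (g * h) = endo hadd g * endo hadd h := by
  ext x
  exact mul_smul g h x

theorem endo_one (hadd : ∀ (h : H) (x y : V), h • (x + y) = h • x + h • y) :
    endo hadd (1 : H) = 1 := by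
  ext x
  exact one_smul H x

/-- conjugation -/
theorem endo_conj_mul (hadd : ∀ (h : H) (x y : V), h • (x + y) = h • x + h • y) (h : H)
    (r s : AddMonoid.End V) :
    endo hadd h * (r * s) * endo hadd h⁻¹ =
      (endo hadd h * r * endo hadd h⁻¹) * (endo hadd h * s * endo hadd h⁻¹) := by
  have h1 : endo hadd h⁻¹ * endo hadd h = 1 := by rw [← endo_mul, inv_mul_cancel, endo_one]
  calc endo hadd h * (r * s) * endo hadd h⁻¹
      = endo hadd h * r * 1 * s * endo hadd h⁻¹ := by rw [mul_one]; simp only [mul_assoc]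
    _ = _ := by rw [← h1]; simp only [mul_assoc]

/-- the subgroup `S v` -/
def evalSub (S : Subring (AddMonoid.End V)) (v : V) : AddSubgroup V where
  carrier := {w | ∃ r ∈ S, r v = w}
  zero_mem' := ⟨0, S.zero_mem, rfl⟩
  add_mem' := by
    rintro _ _ ⟨r, hr, rfl⟩ ⟨s, hs, rfl⟩
    exact ⟨r + s, S.add_mem hr hs, rfl⟩
  neg_mem' := by
    rintro _ ⟨r, hr, rfl⟩
    exact ⟨-r, S.neg_mem hr, rfl⟩

theorem mem_evalSub {S : Subring (AddMonoid.End V)} {v w : V} :
    w ∈ evalSub S v ↔ ∃ r ∈ S, r v = w := Iff.rfl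

/-- The spread of a conjugation-invariant subring. -/
theorem isSpread_evalSub [Finite V]
    (hadd : ∀ (h : H) (x y : V), h • (x + y) = h • x + h • y)
    (htr : ∀ x y : V, x ≠ 0 → y ≠ 0 → ∃ h : H, h • x = y)
    (S : Subring (AddMonoid.End V))
    (hS : ∀ h : H, ∀ r ∈ S, endo hadd h * r * endo hadd h⁻¹ ∈ S)
    (h2 : ∀ v : V, v ≠ 0 → ∃ r ∈ S, r v ≠ 0 ∧ r v ≠ v)
    (h3 : ∀ v : V, v ≠ 0 → ∃ w, ∀ r ∈ S, r v ≠ w) :
    IsSpread H V (evalSub S) := by
  have hsm : ∀ (h : H) v w, w ∈ evalSub S v → h • w ∈ evalSub S (h • v) := by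
    rintro h v _ ⟨r, hr, rfl⟩
    refine ⟨_, hS h r hr, ?_⟩
    change h • r (h⁻¹ • h • v) = h • r v
    rw [inv_smul_smul]
  have hinj : ∀ (h : H) v, Nat.card (evalSub S v) ≤ Nat.card (evalSub S (h • v)) := by
    intro h v
    apply Nat.card_le_card_of_injective (fun w : evalSub S v =>
      (⟨h • (w : V), hsm h v w w.2⟩ : evalSub S (h • v)))
    intro w w' hw
    exact Subtype.ext (smul_left_cancel h (congrArg Subtype.val hw))
  refine ⟨fun v => ⟨1, S.one_mem, rfl⟩, ?_, hsm, ?_, ?_⟩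
  · rintro v w hv ⟨r, hr, rfl⟩ hw
    have h1 : evalSub S (r v) ≤ evalSub S v := by
      rintro _ ⟨s, hs, rfl⟩
      exact ⟨s * r, S.mul_mem hs hr, rfl⟩
    obtain ⟨h, hh⟩ := htr v (r v) hv hw
    have h4 := hinj h v
    rw [hh] at h4
    exact AddSubgroup.eq_of_le_of_card_ge h1 h4
  · intro v hv
    obtain ⟨r, hr, hr0, hrv⟩ := h2 v hv
    have h4 : ({0, v, r v} : Set V) ⊆ (evalSub S v : Set V) := by
      rintro x (rfl | rfl | rfl)
      · exact (evalSub S v).zero_mem
      · exact ⟨1, S.one_mem, rfl⟩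
      · exact ⟨r, hr, rfl⟩
    have h5 := Set.ncard_le_ncard h4 (Set.toFinite _)
    rw [Set.ncard_insert_of_notMem (by
      rintro (h | h)
      · exact hv h.symm
      · exact hr0 h.symm), Set.ncard_pair (fun h => hrv h.symm)] at h5
    rw [← Nat.card_coe_set_eq] at h5
    exact h5
  · intro v hv
    obtain ⟨w, hw⟩ := h3 v hv
    have h4 : ((evalSub S v : Set V)) ⊂ Set.univ := by
      rw [Set.ssubset_univ_iff]
      intro h5
      have : w ∈ (evalSub S v : Set V) := h5 ▸ Set.mem_univ w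
      obtain ⟨r, hr, hrw⟩ := this
      exact hw r hr hrw
    have h5 := Set.ncard_lt_ncard h4 (Set.toFinite _)
    rw [Set.ncard_univ, ← Nat.card_coe_set_eq] at h5
    exact h5

theorem endo_conj_pow (hadd : ∀ (h : H) (x y : V), h • (x + y) = h • x + h • y) (h : H)
    (r : AddMonoid.End V) (n : ℕ) :
    endo hadd h * r ^ n * endo hadd h⁻¹ = (endo hadd h * r * endo hadd h⁻¹) ^ n := by
  induction n with
  | zero => rw [pow_zero, pow_zero, mul_one, ← endo_mul, mul_inv_cancel, endo_one]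
  | succ n ih => rw [pow_succ, endo_conj_mul, ih, pow_succ]

/-- A group of automorphisms of an elementary abelian group of order `2 ^ d`, `d ≥ 2` not prime,
transitive on the nonzero elements and with a nontrivial abelian normal subgroup, preserves a
spread. -/
theorem exists_spread [FaithfulSMul H V] [Finite V]
    (hadd : ∀ (h : H) (x y : V), h • (x + y) = h • x + h • y) (h2 : ∀ x : V, 2 • x = 0)
    (htr : ∀ x y : V, x ≠ 0 → y ≠ 0 → ∃ h : H, h • x = y)
    (A : Subgroup H) (hAn : A.Normal) (hA : A ≠ ⊥) (hAc : ∀ a ∈ A, ∀ b ∈ A, a * b = b * a)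
    (d : ℕ) (hd : Nat.card V = 2 ^ d) (hd2 : 2 ≤ d) (hdp : ¬ d.Prime) :
    ∃ W : V → AddSubgroup V, IsSpread H V W := by
  classical
  set R : Subring (AddMonoid.End V) := Subring.closure (endo hadd '' (A : Set H)) with hR
  have hcomm0 : ∀ x ∈ endo hadd '' (A : Set H), ∀ y ∈ endo hadd '' (A : Set H),
      x * y = y * x := by
    rintro _ ⟨a, ha, rfl⟩ _ ⟨b, hb, rfl⟩
    rw [← endo_mul, ← endo_mul, hAc a ha b hb]
  letI instR : CommRing R := Subring.closureCommRingOfComm hcomm0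
  have hcomm : ∀ r ∈ R, ∀ s ∈ R, r * s = s * r := by
    intro r hr s hs
    exact congrArg Subtype.val (mul_comm (⟨r, hr⟩ : R) ⟨s, hs⟩)
  have hconj : ∀ h : H, ∀ r ∈ R, endo hadd h * r * endo hadd h⁻¹ ∈ R := by
    intro h r hr
    induction hr using Subring.closure_induction with
    | mem x hx =>
      obtain ⟨a, ha, rfl⟩ := hx
      rw [← endo_mul, ← endo_mul]
      exact Subring.subset_closure ⟨_, hAn.conj_mem a ha h, rfl⟩
    | zero => rw [mul_zero, zero_mul]; exact R.zero_mem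
    | one => rw [mul_one, ← endo_mul, mul_inv_cancel, endo_one]; exact R.one_mem
    | add x y _ _ hx hy => rw [mul_add, add_mul]; exact R.add_mem hx hy
    | neg x _ hx => rw [mul_neg, neg_mul]; exact R.neg_mem hx
    | mul x y _ _ hx hy => rw [endo_conj_mul]; exact R.mul_mem hx hy
  have hmove : ∀ v : V, v ≠ 0 → ∃ r ∈ R, r v ≠ 0 ∧ r v ≠ v := by
    intro v hv
    obtain ⟨⟨a, ha⟩, ha1'⟩ := Subgroup.ne_bot_iff_exists_ne_one.1 hA
    have ha1 : a ≠ 1 := fun h => ha1' (Subtype.ext h)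
    obtain ⟨u, hu⟩ : ∃ u : V, (a : H) • u ≠ u := by
      by_contra hne
      push Not at hne
      exact ha1 (FaithfulSMul.eq_of_smul_eq_smul (α := V) (fun x => by rw [hne, one_smul]))
    have hu0 : u ≠ 0 := by
      rintro rfl
      exact hu (endo hadd (a : H)).map_zero
    obtain ⟨h, rfl⟩ := htr u v hu0 hv
    refine ⟨endo hadd (h * a * h⁻¹), Subring.subset_closure ⟨_, hAn.conj_mem _ ha h, rfl⟩, ?_, ?_⟩
    · change (h * a * h⁻¹) • h • u ≠ 0
      rw [mul_smul, inv_smul_smul, mul_smul]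
      intro h0
      have h3 : (a : H) • u = 0 := by
        have h4 := congrArg (fun x => h⁻¹ • x) h0
        simp only [inv_smul_smul] at h4
        rw [h4]
        exact (endo hadd h⁻¹).map_zero
      have h4 := congrArg (fun x => (a : H)⁻¹ • x) h3
      simp only [inv_smul_smul] at h4
      rw [h4] at hu0
      exact hu0 (endo hadd (a : H)⁻¹).map_zero
    · change (h * a * h⁻¹) • h • u ≠ h • u
      rw [mul_smul, inv_smul_smul, mul_smul]
      intro h0
      exact hu (smul_left_cancel h h0)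
  by_cases h3 : ∀ v : V, v ≠ 0 → ∃ w, ∀ r ∈ R, r v ≠ w
  · exact ⟨_, isSpread_evalSub hadd htr R hconj hmove h3⟩
  push Not at h3
  obtain ⟨v₀, hv₀, hv₀R⟩ := h3
  have hsurj : ∀ v : V, v ≠ 0 → ∀ w, ∃ r ∈ R, r v = w := by
    intro v hv w
    obtain ⟨h, rfl⟩ := htr v₀ v hv₀ hv
    obtain ⟨r, hr, hrw⟩ := hv₀R (h⁻¹ • w)
    refine ⟨_, hconj h r hr, ?_⟩
    change h • r (h⁻¹ • h • v₀) = w
    rw [inv_smul_smul, hrw, smul_inv_smul]
  have hzero : ∀ v : V, v ≠ 0 → ∀ r ∈ R, r v = 0 → r = 0 := by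
    intro v hv r hr hrv
    ext w
    obtain ⟨s, hs, rfl⟩ := hsurj v hv w
    have h4 : r (s v) = s (r v) := DFunLike.congr_fun (hcomm r hr s hs) v
    rw [h4, hrv]
    exact s.map_zero
  have hinj : ∀ v : V, v ≠ 0 → ∀ r ∈ R, ∀ s ∈ R, r v = s v → r = s := by
    intro v hv r hr s hs hrs
    have h4 := hzero v hv (r - s) (R.sub_mem hr hs) (by
      change r v - s v = 0
      rw [hrs, sub_self])
    exact sub_eq_zero.1 h4
  have hfinE : Finite (AddMonoid.End V) := DFunLike.finite _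
  have hone : (1 : AddMonoid.End V) ≠ 0 := by
    intro h
    exact hv₀ (DFunLike.congr_fun h v₀)
  have hnt : Nontrivial R := ⟨⟨1, 0, fun h => hone (congrArg Subtype.val h)⟩⟩
  have hnz : NoZeroDivisors R := ⟨by
    rintro ⟨r, hr⟩ ⟨s, hs⟩ hrs
    have hrs' : r * s = 0 := congrArg Subtype.val hrs
    by_cases hs0 : s v₀ = 0
    · right
      exact Subtype.ext (hzero v₀ hv₀ s hs hs0)
    · left
      exact Subtype.ext (hzero _ hs0 r hr (DFunLike.congr_fun hrs' v₀))⟩
  have hdom : IsDomain R := NoZeroDivisors.to_isDomain R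
  have hcardR : Nat.card R = 2 ^ d := by
    rw [← hd]
    apply Nat.card_congr
    exact Equiv.ofBijective (fun r : R => (r : AddMonoid.End V) v₀)
      ⟨fun r s h => Subtype.ext (hinj v₀ hv₀ r r.2 s s.2 h), fun w => by
        obtain ⟨r, hr, hrw⟩ := hsurj v₀ hv₀ w
        exact ⟨⟨r, hr⟩, hrw⟩⟩
  have hunits : Nat.card Rˣ = 2 ^ d - 1 := by
    have := Fintype.ofFinite R
    let _ : Field R := Fintype.fieldOfDomain R
    rw [← hcardR]
    exact Nat.card_units R
  obtain ⟨g, hg⟩ := IsCyclic.exists_ofOrder_eq_natCard (α := Rˣ)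
  rw [hunits] at hg
  obtain ⟨e, hed, he2, hed'⟩ := Nat.exists_dvd_of_not_prime2 hd2 hdp
  have hpe : 2 ^ 2 ≤ 2 ^ e := Nat.pow_le_pow_right (by norm_num) he2
  have hped : 2 ^ e < 2 ^ d := Nat.pow_lt_pow_right (by norm_num) hed'
  have hdvd : 2 ^ e - 1 ∣ 2 ^ d - 1 := Nat.pow_sub_one_dvd_pow_sub_one 2 hed
  obtain ⟨k, hk⟩ := hdvd
  have hk0 : k ≠ 0 := by
    rintro rfl
    rw [mul_zero] at hk
    omega
  have hu : orderOf (g ^ k) = 2 ^ e - 1 := by
    rw [orderOf_pow_of_dvd hk0 (by rw [hg, hk]; exact Dvd.intro_left _ rfl), hg, hk]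
    exact Nat.mul_div_cancel _ (Nat.pos_of_ne_zero hk0)
  have hchar : CharP (AddMonoid.End V) 2 := by
    apply CharTwo.of_one_ne_zero_of_two_eq_zero hone
    ext x
    change (2 : AddMonoid.End V) x = 0
    have h5 : (2 : AddMonoid.End V) = 1 + 1 := (one_add_one_eq_two).symm
    rw [h5]
    change x + x = 0
    rw [← two_nsmul, h2]
  set L : Subring (AddMonoid.End V) :=
    { carrier := {r | r ∈ R ∧ r ^ 2 ^ e = r}
      mul_mem' := by
        rintro r s ⟨hr, hr'⟩ ⟨hs, hs'⟩
        refine ⟨R.mul_mem hr hs, ?_⟩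
        have : Commute r s := hcomm r hr s hs
        rw [this.mul_pow, hr', hs']
      one_mem' := ⟨R.one_mem, one_pow _⟩
      add_mem' := by
        rintro r s ⟨hr, hr'⟩ ⟨hs, hs'⟩
        refine ⟨R.add_mem hr hs, ?_⟩
        have : Commute r s := hcomm r hr s hs
        have := Fact.mk Nat.prime_two
        rw [add_pow_char_pow_of_commute 2 e ‹Commute r s›, hr', hs']
      zero_mem' := ⟨R.zero_mem, by rw [zero_pow]; positivity⟩
      neg_mem' := by
        rintro r ⟨hr, hr'⟩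
        have h5 : -r = r := CharTwo.neg_eq r
        rw [h5]
        exact ⟨hr, hr'⟩ } with hL
  have hLmem : ∀ r, r ∈ L ↔ r ∈ R ∧ r ^ 2 ^ e = r := fun r => Iff.rfl
  refine ⟨_, isSpread_evalSub hadd htr L ?_ ?_ ?_⟩
  · rintro h r hr
    rw [hLmem] at hr ⊢
    exact ⟨hconj h r hr.1, by rw [← endo_conj_pow, hr.2]⟩
  · intro v hv
    refine ⟨((g ^ k : Rˣ) : R), ?_, ?_, ?_⟩
    · rw [hLmem]
      refine ⟨((g ^ k : Rˣ) : R).2, ?_⟩
      have h5 : (g ^ k) ^ 2 ^ e = g ^ k := by
        have h6 : 2 ^ e = (2 ^ e - 1) + 1 := by omega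
        rw [h6, pow_succ, ← hu, pow_orderOf_eq_one, one_mul]
      have h6 := congrArg (fun x : Rˣ => ((x : R) : AddMonoid.End V)) h5
      exact h6
    · intro h5
      have h6 := hzero v hv _ ((g ^ k : Rˣ) : R).2 h5
      have h7 : ((g ^ k : Rˣ) : R) = 0 := Subtype.ext h6
      exact (g ^ k).ne_zero h7
    · intro h5
      have h6 := hinj v hv _ ((g ^ k : Rˣ) : R).2 1 R.one_mem h5
      have h7 : (g ^ k : Rˣ) = 1 := Units.ext (Subtype.ext h6)
      rw [h7, orderOf_one] at hu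
      omega
  · intro v hv
    refine ⟨((g : R) : AddMonoid.End V) v, ?_⟩
    intro r hr h5
    rw [hLmem] at hr
    have h6 := hinj v hv r hr.1 _ (g : R).2 h5
    rw [h6] at hr
    have h7 : g ^ 2 ^ e = g := Units.ext (Subtype.ext hr.2)
    have h8 : g ^ (2 ^ e - 1) = 1 := by
      have h9 : 2 ^ e = (2 ^ e - 1) + 1 := by omega
      rw [h9, pow_succ] at h7
      exact mul_eq_right.1 h7
    have h9 := orderOf_dvd_of_pow_eq_one h8
    rw [hg] at h9
    have := Nat.le_of_dvd (by omega) h9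
    omega

end

end Pool.Agent.Helper37.Prim
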