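import Pool.Agent.Helper37.Prim.Lines

/-!
# Three generalisations of primitivity (MP_13dc8a_al): projective spaces and Hermitian unitals
-/

namespace Pool.Agent.Helper37.Prim

open MulAction
open scoped Pointwise LinearAlgebra.Projectivization

section

variable {K V : Type*} [Field K] [AddCommGroup V] [Module K V]

theorem mk_onLine {X : Set (ℙ K V)} {u v w : V} {hu : u ≠ 0} {hv : v ≠ 0} {hw : w ≠ 0}
    {h1 : Projectivization.mk K u hu ∈ X} {h2 : Projectivization.mk K v hv ∈ X}
    {h3 : Projectivization.mk K w hw ∈ X} :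
    OnLine X ⟨_, h1⟩ ⟨_, h2⟩ ⟨_, h3⟩ ↔ ∃ a b : K, a • u + b • v = w := by
  unfold OnLine
  simp only [Projectivization.submodule_mk]
  rw [Submodule.span_singleton_le_iff_mem, Submodule.mem_sup]
  constructor
  · rintro ⟨x, hx, y, hy, rfl⟩
    obtain ⟨a, rfl⟩ := Submodule.mem_span_singleton.1 hx
    obtain ⟨b, rfl⟩ := Submodule.mem_span_singleton.1 hy
    exact ⟨a, b, rfl⟩
  · rintro ⟨a, b, rfl⟩
    exact ⟨_, Submodule.smul_mem _ a (Submodule.mem_span_singleton_self u), _,
      Submodule.smul_mem _ b (Submodule.mem_span_singleton_self v), rfl⟩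

/-- Collineation groups of projective spaces of dimension at least `2`. -/
theorem not_steiner_PG [Finite (ℙ K V)] [DecidableEq (Set.univ : Set (ℙ K V))]
    (hV : 3 ≤ Module.finrank K V)
    {G : Subgroup (Equiv.Perm (Set.univ : Set (ℙ K V)))}
    (hG : ∀ g ∈ G, ∀ p q r, OnLine Set.univ p q r → OnLine Set.univ (g p) (g q) (g r))
    (h2 : IsMultiplyPretransitive G (Set.univ : Set (ℙ K V)) 2) :
    ¬ SteinerPrimitive G (Set.univ : Set (ℙ K V)) 2 := by
  have hfin : Module.Finite K V := Module.finite_of_finrank_pos (by omega)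
  obtain ⟨b, hb⟩ : ∃ b : Fin 3 → V, LinearIndependent K b := by
    let B := Module.finBasis K V
    refine ⟨fun i => B (Fin.castLE hV i), ?_⟩
    exact B.linearIndependent.comp _ (Fin.castLE_injective hV)
  have h0 := hb.ne_zero 0
  have h1 := hb.ne_zero 1
  have h3 := hb.ne_zero 2
  rw [Fintype.linearIndependent_iff] at hb
  have hb' : ∀ x y z : K, x • b 0 + y • b 1 + z • b 2 = 0 → x = 0 ∧ y = 0 ∧ z = 0 := by
    intro x y z h
    have := hb ![x, y, z] (by simpa [Fin.sum_univ_three] using h)
    exact ⟨this 0, this 1, this 2⟩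
  have h01 : b 0 + b 1 ≠ 0 := by
    intro h
    have := hb' 1 1 0 (by simpa using h)
    exact one_ne_zero this.1
  apply not_steiner_projective hG h2 (p := ⟨Projectivization.mk K (b 0) h0, trivial⟩)
    (q := ⟨Projectivization.mk K (b 1) h1, trivial⟩)
    (r := ⟨Projectivization.mk K (b 0 + b 1) h01, trivial⟩)
    (s := ⟨Projectivization.mk K (b 2) h3, trivial⟩)
  · intro h
    have h4 := congrArg Subtype.val h
    rw [Projectivization.mk_eq_mk_iff'] at h4
    obtain ⟨a, ha⟩ := h4
    have := hb' 1 (-a) 0 (by rw [← ha]; module)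
    exact one_ne_zero this.1
  · intro h
    have h4 := congrArg Subtype.val h
    rw [Projectivization.mk_eq_mk_iff'] at h4
    obtain ⟨a, ha⟩ := h4
    have := hb' (1 - a) 1 0 (by
      have h5 : (1 - a) • b 0 + (1 : K) • b 1 + (0 : K) • b 2 = (b 0 + b 1) - a • b 0 := by module
      rw [h5, ha, sub_self])
    exact one_ne_zero this.2.1
  · intro h
    have h4 := congrArg Subtype.val h
    rw [Projectivization.mk_eq_mk_iff'] at h4
    obtain ⟨a, ha⟩ := h4
    have := hb' 1 (1 - a) 0 (by
      have h5 : (1 : K) • b 0 + (1 - a) • b 1 + (0 : K) • b 2 = (b 0 + b 1) - a • b 1 := by module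
      rw [h5, ha, sub_self])
    exact one_ne_zero this.1
  · rw [mk_onLine]
    exact ⟨1, 1, by simp⟩
  · rw [mk_onLine]
    rintro ⟨x, y, h⟩
    have := hb' x y (-1) (by rw [h]; module)
    exact one_ne_zero (neg_eq_zero.1 this.2.2)

/-- The isotropic points of the Hermitian form `x₀ σ(y₂) + x₁ σ(y₁) + x₂ σ(y₀)`. -/
def isotropic (K : Type*) [Field K] (σ : K ≃+* K) : Set (ℙ K (Fin 3 → K)) :=
  {p | ∀ v ∈ p.submodule, v 0 * σ (v 2) + v 1 * σ (v 1) + v 2 * σ (v 0) = 0}

theorem mk_mem_isotropic {σ : K ≃+* K} {v : Fin 3 → K} (hv : v ≠ 0)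
    (h : v 0 * σ (v 2) + v 1 * σ (v 1) + v 2 * σ (v 0) = 0) :
    Projectivization.mk K v hv ∈ isotropic K σ := by
  intro w hw
  rw [Projectivization.submodule_mk, Submodule.mem_span_singleton] at hw
  obtain ⟨a, rfl⟩ := hw
  simp only [Pi.smul_apply, smul_eq_mul, map_mul]
  linear_combination (a * σ a) * h

/-- Groups acting on a Hermitian unital. -/
theorem not_steiner_unital {σ : K ≃+* K} (hσ : ∀ x, σ (σ x) = x) (hσ1 : ∃ x, σ x ≠ x)
    [Finite (isotropic K σ)] [DecidableEq (isotropic K σ)]
    {G : Subgroup (Equiv.Perm (isotropic K σ))}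
    (hG : ∀ g ∈ G, ∀ p q r, OnLine _ p q r → OnLine _ (g p) (g q) (g r))
    (h2 : IsMultiplyPretransitive G (isotropic K σ) 2) :
    ¬ SteinerPrimitive G (isotropic K σ) 2 := by
  obtain ⟨x, hx⟩ := hσ1
  set a := x - σ x with ha
  have ha0 : a ≠ 0 := sub_ne_zero.2 (Ne.symm hx)
  have haσ : a + σ a = 0 := by
    rw [ha, map_sub, hσ]
    ring
  obtain ⟨b, hb⟩ : ∃ b, b + σ b = -1 := by
    obtain ⟨s, hs⟩ : ∃ s, s + σ s ≠ 0 := by
      by_contra hne
      push Not at hne
      have h1 := hne 1
      rw [map_one] at h1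
      apply hx
      have h3 := hne x
      linear_combination h3 - x * h1
    refine ⟨-s / (s + σ s), ?_⟩
    have h1 : σ (s + σ s) = s + σ s := by rw [map_add, hσ, add_comm]
    rw [map_div₀, map_neg, h1, ← add_div, div_eq_iff hs]
    ring
  have n0 : (![1, 0, 0] : Fin 3 → K) ≠ 0 := by
    intro h
    have := congrFun h 0
    simp at this
  have n2 : (![0, 0, 1] : Fin 3 → K) ≠ 0 := by
    intro h
    have := congrFun h 2
    simp at this
  have nr : (![a, 0, 1] : Fin 3 → K) ≠ 0 := by
    intro h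
    have := congrFun h 2
    simp at this
  have ns : (![b, 1, 1] : Fin 3 → K) ≠ 0 := by
    intro h
    have := congrFun h 2
    simp at this
  apply not_steiner_projective hG h2
    (p := ⟨Projectivization.mk K _ n0, mk_mem_isotropic n0 (by simp)⟩)
    (q := ⟨Projectivization.mk K _ n2, mk_mem_isotropic n2 (by simp)⟩)
    (r := ⟨Projectivization.mk K _ nr, mk_mem_isotropic nr (by
      simp only [Matrix.cons_val_zero, Matrix.cons_val_one, Matrix.cons_val, map_one, map_zero]
      linear_combination haσ)⟩)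
    (s := ⟨Projectivization.mk K _ ns, mk_mem_isotropic ns (by
      simp only [Matrix.cons_val_zero, Matrix.cons_val_one, Matrix.cons_val, map_one]
      linear_combination hb)⟩)
  · intro h
    have h4 := congrArg Subtype.val h
    rw [Projectivization.mk_eq_mk_iff'] at h4
    obtain ⟨c, hc⟩ := h4
    have := congrFun hc 0
    simp at this
  · intro h
    have h4 := congrArg Subtype.val h
    rw [Projectivization.mk_eq_mk_iff'] at h4
    obtain ⟨c, hc⟩ := h4
    have := congrFun hc 2
    simp at this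
  · intro h
    have h4 := congrArg Subtype.val h
    rw [Projectivization.mk_eq_mk_iff'] at h4
    obtain ⟨c, hc⟩ := h4
    have := congrFun hc 0
    simp at this
    exact ha0 this.symm
  · rw [mk_onLine]
    refine ⟨a, 1, ?_⟩
    ext i
    fin_cases i <;> simp
  · rw [mk_onLine]
    rintro ⟨c, d, h⟩
    have := congrFun h 1
    simp at this

end

end Pool.Agent.Helper37.Prim
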